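import Pool.Agent.Work.MP_aa14e2_an.FProps

/-!
# Module SecVar  (calculus, 100-180 lines)

Orbits on an invariant curve maximise the action; hence the second variation is `≤ 0`.

PROOF. Let `F x = ∫ t in 0..x, P.f g t` (`F' = f g`, `f_cont`), `Ψ x y = P.s x y + F x - F y`.
(1) `action_max`: there is `c` with `Ψ x y ≤ c` for `x ≤ y ≤ x+2π` and `Ψ x (g x) = c`.
 * For fixed `x`, `∂Ψ/∂y = s2 x y - f g y`, and `f g y = s2 (k y) y` (`f_g`, `k` = inverse of `g`).  `s2 · y` is strictly
   increasing on `[y-2π,y]`, so `∂Ψ/∂y > 0` iff `x > k y` iff `y < g x`, `< 0` iff `y > g x`.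
   Hence `Ψ x y ≤ Ψ x (g x) =: m x` for `y ∈ [x,x+2π]`.
 * `m` is constant.  For fixed `y`, `∂Ψ/∂x = s1 x y + f g x = s1 x y - s1 x (g x)`, so similarly `Ψ x y ≤ Ψ (k y) y = m (k y)` for
   `x ∈ [y-2π,y]`.  For `x, x'` close to each other (so that `x ≤ g x' ≤ x+2π`): `m x ≥ Ψ x (g x')` and `m x' = Ψ x' (g x')`, so
   `m x' - m x ≤ Ψ x' (g x') - Ψ x (g x') = ∫ u in x..x', (s1 u (g x') - s1 u (g u)) du`, hence
   `|m x' - m x| ≤ |x' - x| * C |g x' - g x|` (by symmetry).  So `m` has derivative `0` everywhere and is constant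
   (`is_const_of_deriv_eq_zero`).
(2) Let `x_n = g^[n] x`.  For `|t|` small, `x_n + tξ_n < x_{n+1} + tξ_{n+1} < x_n + tξ_n + 2π` for `n < m`, so
   `∑_{n<m} s (x_n + tξ_n) (x_{n+1} + tξ_{n+1}) ≤ m c + F(x_m) - F(x_0)` (telescoping, `ξ_0 = ξ_m = 0`) with equality at `t = 0`.
   So `φ t = ∑_{n<m} s (x_n + tξ_n) (x_{n+1}+tξ_{n+1})` has a local maximum at `t=0`; its first derivative is
   `φ' t = ∑ (s1 ξ_n + s2 ξ_{n+1})`, which is differentiable at `0` with
   `φ''(0) = ∑ (s11 ξ_n² + 2 s12 ξ_n ξ_{n+1} + s22 ξ_{n+1}²)` (chain rule along a line; `s1`, `s2` have continuous partial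
   derivatives, so they are differentiable as functions of two variables; directly: `s1 (x+tξ) (y+tζ)` is an explicit
   expression in `h1`, `h`, `sin`, `cos` whose derivative is computed by `HasDerivAt.comp` at `((x+y) + t(ξ+ζ))/2`).
   A local maximum with `φ'` differentiable at `0` has `φ'(0) = 0` and `φ''(0) ≤ 0`
   (if `φ''(0) > 0` then `φ' > 0` on `(0,ε)`, so `φ` is strictly increasing there, contradiction).
-/

noncomputable section
open Real Set MeasureTheory
namespace Bil

private lemma secvar_F_deriv {P : Supp} {g : ℝ → ℝ} (hg : IsCircle P g) (x : ℝ) :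
    HasDerivAt (fun x => ∫ t in (0:ℝ)..x, P.f g t) (P.f g x) x := by
  have hc := f_cont hg
  exact intervalIntegral.integral_hasDerivAt_right (hc.intervalIntegrable _ _)
    (hc.stronglyMeasurableAtFilter _ _) hc.continuousAt

private lemma secvar_fibre {P : Supp} {g : ℝ → ℝ} (hg : IsCircle P g) (x y : ℝ) (h1 : x ≤ y)
    (h2 : y ≤ x + 2 * π) :
    P.s x y - (∫ t in (0:ℝ)..y, P.f g t) ≤ P.s x (g x) - (∫ t in (0:ℝ)..(g x), P.f g t) := by
  obtain ⟨k, km, kc, kg, gk, kp, kl, ku⟩ := exists_inv hg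
  set φ : ℝ → ℝ := fun y => P.s x y - (∫ t in (0:ℝ)..y, P.f g t) with hφ
  have hd : ∀ y, HasDerivAt φ (P.s2 x y - P.f g y) y := fun y =>
    (P.s_dy x y).sub (secvar_F_deriv hg y)
  have hfk : ∀ y, P.f g y = P.s2 (k y) y := by
    intro y
    have := f_g hg (k y)
    rwa [gk] at this
  have hcont : Continuous φ := continuous_iff_continuousAt.2 fun y => (hd y).continuousAt
  rcases le_total y (g x) with hy | hy
  · have hmono : MonotoneOn φ (Icc x (g x)) := by
      refine monotoneOn_of_deriv_nonneg (convex_Icc _ _) hcont.continuousOn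
        (fun y _ => (hd y).differentiableAt.differentiableWithinAt) ?_
      intro y hy
      rw [interior_Icc] at hy
      rw [(hd y).deriv, hfk y]
      have h3 : k y < x := by have := km hy.2; rwa [kg] at this
      have h4 := ku y
      have h5 := P.s2_mono y (a := k y) (b := x) ⟨h4.le, (kl y).le⟩ ⟨by linarith, hy.1.le⟩ h3
      simp only at h5
      linarith
    exact hmono ⟨h1, hy⟩ ⟨(hg.lt x).le, le_rfl⟩ hy
  · have hanti : AntitoneOn φ (Icc (g x) (x + 2 * π)) := by
      refine antitoneOn_of_deriv_nonpos (convex_Icc _ _) hcont.continuousOn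
        (fun y _ => (hd y).differentiableAt.differentiableWithinAt) ?_
      intro y hy
      rw [interior_Icc] at hy
      rw [(hd y).deriv, hfk y]
      have h3 : x < k y := by have := km hy.1; rwa [kg] at this
      have h4 := kl y
      have h5 := P.s2_mono y (a := x) (b := k y) ⟨by linarith [hy.2], by linarith⟩ ⟨by linarith [ku y], h4.le⟩ h3
      simp only at h5
      linarith
    exact hanti ⟨le_rfl, (hg.lt2 x).le⟩ ⟨hy, h2⟩ hy

theorem action_max {P : Supp} {g : ℝ → ℝ} (hg : IsCircle P g) :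
    ∃ c, (∀ x y, x ≤ y → y ≤ x + 2 * π →
      P.s x y + (∫ t in (0:ℝ)..x, P.f g t) - (∫ t in (0:ℝ)..y, P.f g t) ≤ c) ∧
      ∀ x, P.s x (g x) + (∫ t in (0:ℝ)..x, P.f g t) - (∫ t in (0:ℝ)..(g x), P.f g t) = c := by
  obtain ⟨C, hC, hb⟩ := P.bound
  set F : ℝ → ℝ := fun x => ∫ t in (0:ℝ)..x, P.f g t with hF
  set m : ℝ → ℝ := fun x => P.s x (g x) + F x - F (g x) with hm
  have hFd : ∀ x, HasDerivAt F (P.f g x) x := fun x => secvar_F_deriv hg x
  -- one-sided estimate
  have key : ∀ x x', x ≤ g x' → g x' ≤ x + 2 * π → m x' - m x ≤ C * |g x' - g x| * |x' - x| := by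
    intro x x' h1 h2
    have e1 := secvar_fibre hg x (g x') h1 h2
    have e2 : m x' - m x ≤ (P.s x' (g x') + F x') - (P.s x (g x') + F x) := by
      simp only [hm, hF] at e1 ⊢
      linarith
    refine e2.trans ?_
    have hder : ∀ u ∈ uIcc x x', HasDerivWithinAt (fun u => P.s u (g x') + F u)
        (P.s1 u (g x') + P.f g u) (uIcc x x') u := fun u _ =>
      ((P.s_dx u (g x')).add (hFd u)).hasDerivWithinAt
    have hbd : ∀ u ∈ uIcc x x', ‖P.s1 u (g x') + P.f g u‖ ≤ C * |g x' - g x| := by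
      intro u hu
      have h3 : P.s1 u (g x') + P.f g u = P.s1 u (g x') - P.s1 u (g u) := by
        simp only [Supp.f]; ring
      rw [h3]
      have h4 := (convex_univ (𝕜 := ℝ) (E := ℝ)).norm_image_sub_le_of_norm_hasDerivWithin_le
        (f := fun y => P.s1 u y) (f' := fun y => P.s12 u y) (C := C) (x := g u) (y := g x')
        (fun y _ => (P.s1_dy u y).hasDerivWithinAt) (fun y _ => (hb u y).2.2.2.1) (mem_univ _) (mem_univ _)
      simp only [Real.norm_eq_abs] at h4 ⊢
      refine h4.trans (mul_le_mul_of_nonneg_left ?_ hC.le)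
      rcases le_total x x' with hx | hx
      · rw [uIcc_of_le hx] at hu
        have a1 := hg.mono.monotone hu.1
        have a2 := hg.mono.monotone hu.2
        rw [abs_of_nonneg (by linarith), abs_of_nonneg (by linarith)]
        linarith
      · rw [uIcc_of_ge hx] at hu
        have a1 := hg.mono.monotone hu.1
        have a2 := hg.mono.monotone hu.2
        rw [abs_of_nonpos (by linarith), abs_of_nonpos (by linarith)]
        linarith
    have h5 := (convex_uIcc x x').norm_image_sub_le_of_norm_hasDerivWithin_le hder hbd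
      left_mem_uIcc right_mem_uIcc
    simp only [Real.norm_eq_abs] at h5
    exact (le_abs_self _).trans h5
  have hm0 : ∀ x, HasDerivAt m 0 x := by
    intro x
    rw [hasDerivAt_iff_isLittleO_nhds_zero]
    rw [Asymptotics.isLittleO_iff]
    intro ε hε
    have hgc : Filter.Tendsto (fun h => g (x + h)) (nhds 0) (nhds (g x)) := by
      have : Continuous fun h => g (x + h) := hg.cont.comp (by fun_prop)
      simpa using this.tendsto 0
    have e1 : ∀ᶠ h in nhds (0:ℝ), |g (x + h) - g x| < ε / C := by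
      have := (Metric.tendsto_nhds.1 hgc) (ε / C) (by positivity)
      simpa [Real.dist_eq] using this
    have e2 : ∀ᶠ h in nhds (0:ℝ), x < g (x + h) := hgc.eventually (lt_mem_nhds (hg.lt x))
    have e3 : ∀ᶠ h in nhds (0:ℝ), g (x + h) < x + 2 * π := hgc.eventually (gt_mem_nhds (hg.lt2 x))
    have hid : Filter.Tendsto (fun h : ℝ => x + h) (nhds 0) (nhds x) := by
      have : Continuous fun h : ℝ => x + h := by fun_prop
      simpa using this.tendsto 0
    have e4 : ∀ᶠ h in nhds (0:ℝ), x + h < g x := hid.eventually (gt_mem_nhds (hg.lt x))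
    have e5 : ∀ᶠ h in nhds (0:ℝ), g x - 2 * π < x + h := hid.eventually (lt_mem_nhds (by linarith [hg.lt2 x]))
    filter_upwards [e1, e2, e3, e4, e5] with h h1 h2 h3 h4 h5
    have k1 := key x (x + h) h2.le h3.le
    have k2 := key (x + h) x h4.le (by linarith)
    have hab : |m (x + h) - m x| ≤ C * |g (x + h) - g x| * |h| := by
      rw [abs_le]
      have a1 : |x + h - x| = |h| := by ring_nf
      have a2 : |x - (x + h)| = |h| := by rw [abs_sub_comm]; ring_nf
      rw [a1] at k1
      rw [a2, abs_sub_comm (g x)] at k2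
      constructor <;> linarith
    simp only [smul_eq_mul, mul_zero, sub_zero, Real.norm_eq_abs]
    refine hab.trans (mul_le_mul_of_nonneg_right ?_ (abs_nonneg _))
    calc C * |g (x + h) - g x| ≤ C * (ε / C) := by gcongr
      _ = ε := by field_simp
  have hconst : ∀ x, m x = m 0 := fun x =>
    is_const_of_deriv_eq_zero (fun y => (hm0 y).differentiableAt) (fun y => (hm0 y).deriv) x 0
  refine ⟨m 0, fun x y h1 h2 => ?_, fun x => hconst x⟩
  rw [← hconst x]
  have := secvar_fibre hg x y h1 h2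
  simp only [hm, hF] at this ⊢
  linarith

private lemma secvar_line (P : Supp) (a b ξ ζ t : ℝ) :
    HasDerivAt (fun t => P.s (a + t * ξ) (b + t * ζ))
      (P.s1 (a + t * ξ) (b + t * ζ) * ξ + P.s2 (a + t * ξ) (b + t * ζ) * ζ) t := by
  have hm : HasDerivAt (fun t => ((a + t * ξ) + (b + t * ζ)) / 2) ((ξ + ζ) / 2) t := by
    have := (((hasDerivAt_id t).mul_const ξ).const_add a).add (((hasDerivAt_id t).mul_const ζ).const_add b)
    simpa using this.div_const 2
  have hd : HasDerivAt (fun t => ((b + t * ζ) - (a + t * ξ)) / 2) ((ζ - ξ) / 2) t := by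
    have := (((hasDerivAt_id t).mul_const ζ).const_add b).sub (((hasDerivAt_id t).mul_const ξ).const_add a)
    simpa using this.div_const 2
  have h0 := (P.d0 (((a + t * ξ) + (b + t * ζ)) / 2)).comp t hm
  have := (h0.const_mul 2).mul hd.sin
  refine this.congr_deriv ?_
  simp only [Supp.s1, Supp.s2, Function.comp]; ring

private lemma secvar_line1 (P : Supp) (a b ξ ζ t : ℝ) :
    HasDerivAt (fun t => P.s1 (a + t * ξ) (b + t * ζ))
      (P.s11 (a + t * ξ) (b + t * ζ) * ξ + P.s12 (a + t * ξ) (b + t * ζ) * ζ) t := by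
  have hm : HasDerivAt (fun t => ((a + t * ξ) + (b + t * ζ)) / 2) ((ξ + ζ) / 2) t := by
    have := (((hasDerivAt_id t).mul_const ξ).const_add a).add (((hasDerivAt_id t).mul_const ζ).const_add b)
    simpa using this.div_const 2
  have hd : HasDerivAt (fun t => ((b + t * ζ) - (a + t * ξ)) / 2) ((ζ - ξ) / 2) t := by
    have := (((hasDerivAt_id t).mul_const ζ).const_add b).sub (((hasDerivAt_id t).mul_const ξ).const_add a)
    simpa using this.div_const 2
  have h0 := (P.d0 (((a + t * ξ) + (b + t * ζ)) / 2)).comp t hm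
  have h1 := (P.d1 (((a + t * ξ) + (b + t * ζ)) / 2)).comp t hm
  have := (h1.mul hd.sin).sub (h0.mul hd.cos)
  refine this.congr_deriv ?_
  simp only [Supp.s11, Supp.s12, Function.comp]; ring

private lemma secvar_line2 (P : Supp) (a b ξ ζ t : ℝ) :
    HasDerivAt (fun t => P.s2 (a + t * ξ) (b + t * ζ))
      (P.s12 (a + t * ξ) (b + t * ζ) * ξ + P.s22 (a + t * ξ) (b + t * ζ) * ζ) t := by
  have hm : HasDerivAt (fun t => ((a + t * ξ) + (b + t * ζ)) / 2) ((ξ + ζ) / 2) t := by
    have := (((hasDerivAt_id t).mul_const ξ).const_add a).add (((hasDerivAt_id t).mul_const ζ).const_add b)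
    simpa using this.div_const 2
  have hd : HasDerivAt (fun t => ((b + t * ζ) - (a + t * ξ)) / 2) ((ζ - ξ) / 2) t := by
    have := (((hasDerivAt_id t).mul_const ζ).const_add b).sub (((hasDerivAt_id t).mul_const ξ).const_add a)
    simpa using this.div_const 2
  have h0 := (P.d0 (((a + t * ξ) + (b + t * ζ)) / 2)).comp t hm
  have h1 := (P.d1 (((a + t * ξ) + (b + t * ζ)) / 2)).comp t hm
  have := (h1.mul hd.sin).add (h0.mul hd.cos)
  refine this.congr_deriv ?_
  simp only [Supp.s22, Supp.s12, Function.comp]; ring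

/-- second order condition at a local maximum -/
private lemma secvar_second {φ dφ : ℝ → ℝ} {Q : ℝ} (h : ∀ t, HasDerivAt φ (dφ t) t) (hQ : HasDerivAt dφ Q 0)
    (hmax : ∀ᶠ t in nhds (0:ℝ), φ t ≤ φ 0) : Q ≤ 0 := by
  by_contra hcon
  push Not at hcon
  have h0 : dφ 0 = 0 := IsLocalMax.hasDerivAt_eq_zero hmax (h 0)
  have hs := hasDerivAt_iff_tendsto_slope.1 hQ
  have hpos : ∀ᶠ t in nhdsWithin (0:ℝ) {0}ᶜ, 0 < slope dφ 0 t := hs.eventually (lt_mem_nhds hcon)
  rw [eventually_nhdsWithin_iff] at hpos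
  have hall := hpos.and hmax
  rw [Metric.eventually_nhds_iff] at hall
  obtain ⟨ε, hε, hall⟩ := hall
  have hsm : StrictMonoOn φ (Icc 0 (ε / 2)) := by
    refine strictMonoOn_of_deriv_pos (convex_Icc _ _)
      (continuous_iff_continuousAt.2 fun t => (h t).continuousAt).continuousOn ?_
    intro t ht
    rw [interior_Icc] at ht
    rw [(h t).deriv]
    have h1 := (hall (y := t) (by rw [Real.dist_eq, sub_zero, abs_of_pos ht.1]; linarith [ht.2])).1
      (by simpa using ht.1.ne')
    rw [slope_def_field, h0, sub_zero, sub_zero] at h1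
    exact (div_pos_iff_of_pos_right ht.1).1 h1
  have h2 := hsm (a := 0) (b := ε / 2) ⟨le_rfl, by positivity⟩ ⟨by positivity, le_rfl⟩ (by positivity)
  have h3 := (hall (y := ε / 2) (by rw [Real.dist_eq, sub_zero, abs_of_pos (by positivity)]; linarith)).2
  linarith

theorem secvar {P : Supp} {g : ℝ → ℝ} (hg : IsCircle P g) (x : ℝ) (m : ℕ) (ξ : ℕ → ℝ) (h0 : ξ 0 = 0)
    (hm : ξ m = 0) :
    ∑ n ∈ Finset.range m, (P.s11 (g^[n] x) (g^[n+1] x) * ξ n ^ 2
      + 2 * P.s12 (g^[n] x) (g^[n+1] x) * ξ n * ξ (n+1) + P.s22 (g^[n] x) (g^[n+1] x) * ξ (n+1) ^ 2) ≤ 0 := by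
  obtain ⟨c, hc1, hc2⟩ := action_max hg
  set F : ℝ → ℝ := fun x => ∫ t in (0:ℝ)..x, P.f g t with hF
  set φ : ℝ → ℝ := fun t => ∑ n ∈ Finset.range m, P.s (g^[n] x + t * ξ n) (g^[n+1] x + t * ξ (n+1)) with hφ
  set dφ : ℝ → ℝ := fun t => ∑ n ∈ Finset.range m, (P.s1 (g^[n] x + t * ξ n) (g^[n+1] x + t * ξ (n+1)) * ξ n
    + P.s2 (g^[n] x + t * ξ n) (g^[n+1] x + t * ξ (n+1)) * ξ (n+1)) with hdφ
  have hd : ∀ t, HasDerivAt φ (dφ t) t := by
    intro t
    have := HasDerivAt.sum (u := Finset.range m)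
      (fun n _ => secvar_line P (g^[n] x) (g^[n+1] x) (ξ n) (ξ (n+1)) t)
    simpa only [hφ, hdφ, Finset.sum_apply, Finset.sum_fn] using this
  have hQ : HasDerivAt dφ (∑ n ∈ Finset.range m, (P.s11 (g^[n] x) (g^[n+1] x) * ξ n ^ 2
      + 2 * P.s12 (g^[n] x) (g^[n+1] x) * ξ n * ξ (n+1) + P.s22 (g^[n] x) (g^[n+1] x) * ξ (n+1) ^ 2)) 0 := by
    have := HasDerivAt.sum (u := Finset.range m)
      (fun n _ => ((secvar_line1 P (g^[n] x) (g^[n+1] x) (ξ n) (ξ (n+1)) 0).mul_const (ξ n)).add
        ((secvar_line2 P (g^[n] x) (g^[n+1] x) (ξ n) (ξ (n+1)) 0).mul_const (ξ (n+1))))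
    have h3 : dφ = ∑ n ∈ Finset.range m,
        ((fun y => P.s1 (g^[n] x + y * ξ n) (g^[n + 1] x + y * ξ (n + 1)) * ξ n) + fun y =>
        P.s2 (g^[n] x + y * ξ n) (g^[n + 1] x + y * ξ (n + 1)) * ξ (n + 1)) := by
      funext y
      simp only [hdφ, Finset.sum_apply, Pi.add_apply]
    rw [h3]
    refine this.congr_deriv ?_
    refine Finset.sum_congr rfl fun n _ => ?_
    simp only [zero_mul, add_zero]
    ring
  refine secvar_second hd hQ ?_
  have hev : ∀ᶠ t in nhds (0:ℝ), ∀ n ∈ Finset.range m,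
      g^[n] x + t * ξ n < g^[n+1] x + t * ξ (n+1) ∧
      g^[n+1] x + t * ξ (n+1) < g^[n] x + t * ξ n + 2 * π := by
    rw [Filter.eventually_all_finset]
    intro n _
    have c1 : Continuous fun t : ℝ => g^[n] x + t * ξ n := by fun_prop
    have c2 : Continuous fun t : ℝ => g^[n+1] x + t * ξ (n+1) := by fun_prop
    have hlt : g^[n] x < g^[n+1] x := by rw [Function.iterate_succ_apply']; exact hg.lt _
    have hlt2 : g^[n+1] x < g^[n] x + 2 * π := by rw [Function.iterate_succ_apply']; exact hg.lt2 _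
    refine Filter.Eventually.and ?_ ?_
    · exact (isOpen_lt c1 c2).mem_nhds (by simpa using hlt)
    · exact (isOpen_lt c2 (c1.add continuous_const)).mem_nhds (by simpa using hlt2)
  filter_upwards [hev] with t ht
  have hle : φ t ≤ ∑ n ∈ Finset.range m, (c + (F (g^[n+1] x + t * ξ (n+1)) - F (g^[n] x + t * ξ n))) := by
    refine Finset.sum_le_sum fun n hn => ?_
    have := hc1 _ _ (ht n hn).1.le (ht n hn).2.le
    simp only [hF] at this ⊢
    linarith
  have heq : φ 0 = ∑ n ∈ Finset.range m, (c + (F (g^[n+1] x) - F (g^[n] x))) := by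
    refine Finset.sum_congr rfl fun n _ => ?_
    have := hc2 (g^[n] x)
    rw [← Function.iterate_succ_apply' g n x] at this
    simp only [hF, zero_mul, add_zero] at this ⊢
    linarith
  have htel : ∀ G : ℕ → ℝ, ∑ n ∈ Finset.range m, (c + (G (n+1) - G n)) = m * c + (G m - G 0) := by
    intro G
    rw [Finset.sum_add_distrib, Finset.sum_range_sub]
    simp
  rw [htel (fun n => F (g^[n] x))] at heq
  rw [htel (fun n => F (g^[n] x + t * ξ n))] at hle
  simp only [h0, hm, mul_zero, add_zero] at hle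
  linarith

end Bil
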