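import Pool.Agent.Work.MP_aa14e2_an.Curve
import Pool.Agent.Work.MP_aa14e2_an.SecVar

/-!
# Module C1  (implicit function theorem, 100-180 lines; needs only the statement `secvar`)

The circle map of the invariant curve of 3-periodic points is a `C¹` diffeomorphism.

PROOF. Fix `s`, `a = s`, `b = g a`, `c = g b`, `g c = a + 2π` (`iter`).  Put
`A1 = s22 a b + s11 b c`, `B = s12 b c > 0`, `A2 = s22 b c + s11 c (a+2π)`, `A3 = s22 c (a+2π) + s11 (a+2π) (g (a+2π))`.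
(1) NONDEGENERACY: `A1 < 0`, `A2 < 0`, `A1 A2 > B²` by `secvar`.
(2) inverse function theorem for `Φ (a,b,c) = (a, s2 a b + s1 b c, s2 b c + s1 c (a+2π))`.
(3) The derivative `g1 s` solves `A1 g1 + B n = - s12 a b`, `B g1 + A2 n = - s12 c (a+2π)`, so
`g1 s = (- A2 s12 a b + B s12 c (a+2π)) / (A1 A2 - B²)`, which is `> 0` and continuous in `s`.
-/

noncomputable section
open Real Set Filter Topology
namespace Bil

namespace C1

private lemma str_h (P : Supp) (x : ℝ) : HasStrictDerivAt P.h (P.h1 x) x :=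
  hasStrictDerivAt_of_hasDerivAt_of_continuousAt (Eventually.of_forall P.d0) (P.c1.continuousAt)

private lemma str_h1 (P : Supp) (x : ℝ) : HasStrictDerivAt P.h1 (P.h2 x) x :=
  hasStrictDerivAt_of_hasDerivAt_of_continuousAt (Eventually.of_forall P.d1) (P.c2.continuousAt)

private lemma str_mid (x y : ℝ) : HasStrictFDerivAt (fun z : ℝ × ℝ => (z.1 + z.2) / 2)
    ((1/2 : ℝ) • (ContinuousLinearMap.fst ℝ ℝ ℝ + ContinuousLinearMap.snd ℝ ℝ ℝ)) (x, y) := by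
  have h := ((hasStrictFDerivAt_fst (𝕜 := ℝ) (E := ℝ) (F := ℝ) (p := (x, y))).add
    (hasStrictFDerivAt_snd (𝕜 := ℝ) (E := ℝ) (F := ℝ) (p := (x, y)))).const_mul (1/2 : ℝ)
  refine h.congr_of_eventuallyEq ?_
  exact Eventually.of_forall fun z => by simp; ring

private lemma str_dif (x y : ℝ) : HasStrictFDerivAt (fun z : ℝ × ℝ => (z.2 - z.1) / 2)
    ((1/2 : ℝ) • (ContinuousLinearMap.snd ℝ ℝ ℝ - ContinuousLinearMap.fst ℝ ℝ ℝ)) (x, y) := by
  have h := ((hasStrictFDerivAt_snd (𝕜 := ℝ) (E := ℝ) (F := ℝ) (p := (x, y))).sub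
    (hasStrictFDerivAt_fst (𝕜 := ℝ) (E := ℝ) (F := ℝ) (p := (x, y)))).const_mul (1/2 : ℝ)
  refine h.congr_of_eventuallyEq ?_
  exact Eventually.of_forall fun z => by simp; ring

private lemma str_s1 (P : Supp) (x y : ℝ) : HasStrictFDerivAt (fun z : ℝ × ℝ => P.s1 z.1 z.2)
    (P.s11 x y • ContinuousLinearMap.fst ℝ ℝ ℝ + P.s12 x y • ContinuousLinearMap.snd ℝ ℝ ℝ) (x, y) := by
  have m := str_mid x y
  have d := str_dif x y
  have h := (str_h P ((x + y) / 2)).comp_hasStrictFDerivAt (x, y) m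
  have h1 := (str_h1 P ((x + y) / 2)).comp_hasStrictFDerivAt (x, y) m
  have si := (Real.hasStrictDerivAt_sin ((y - x) / 2)).comp_hasStrictFDerivAt (x, y) d
  have co := (Real.hasStrictDerivAt_cos ((y - x) / 2)).comp_hasStrictFDerivAt (x, y) d
  have := (h1.mul si).sub (h.mul co)
  refine this.congr_fderiv ?_
  ext <;> simp [Supp.s11, Supp.s12] <;> ring

private lemma str_s2 (P : Supp) (x y : ℝ) : HasStrictFDerivAt (fun z : ℝ × ℝ => P.s2 z.1 z.2)
    (P.s12 x y • ContinuousLinearMap.fst ℝ ℝ ℝ + P.s22 x y • ContinuousLinearMap.snd ℝ ℝ ℝ) (x, y) := by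
  have m := str_mid x y
  have d := str_dif x y
  have h := (str_h P ((x + y) / 2)).comp_hasStrictFDerivAt (x, y) m
  have h1 := (str_h1 P ((x + y) / 2)).comp_hasStrictFDerivAt (x, y) m
  have si := (Real.hasStrictDerivAt_sin ((y - x) / 2)).comp_hasStrictFDerivAt (x, y) d
  have co := (Real.hasStrictDerivAt_cos ((y - x) / 2)).comp_hasStrictFDerivAt (x, y) d
  have := (h1.mul si).add (h.mul co)
  refine this.congr_fderiv ?_
  ext <;> simp [Supp.s22, Supp.s12] <;> ring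


private abbrev p1 : (ℝ × ℝ × ℝ) →L[ℝ] ℝ := ContinuousLinearMap.fst ℝ ℝ (ℝ × ℝ)
private abbrev p2 : (ℝ × ℝ × ℝ) →L[ℝ] ℝ :=
  (ContinuousLinearMap.fst ℝ ℝ ℝ).comp (ContinuousLinearMap.snd ℝ ℝ (ℝ × ℝ))
private abbrev p3 : (ℝ × ℝ × ℝ) →L[ℝ] ℝ :=
  (ContinuousLinearMap.snd ℝ ℝ ℝ).comp (ContinuousLinearMap.snd ℝ ℝ (ℝ × ℝ))

private def Phi (P : Supp) (z : ℝ × ℝ × ℝ) : ℝ × ℝ × ℝ :=
  (z.1, P.s2 z.1 z.2.1 + P.s1 z.2.1 z.2.2, P.s2 z.2.1 z.2.2 + P.s1 z.2.2 (z.1 + 2 * π))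

private def L (al be A1 A2 B : ℝ) : (ℝ × ℝ × ℝ) →L[ℝ] (ℝ × ℝ × ℝ) :=
  p1.prod ((al • p1 + A1 • p2 + B • p3).prod (be • p1 + B • p2 + A2 • p3))

private lemma L_apply (al be A1 A2 B : ℝ) (z : ℝ × ℝ × ℝ) :
    L al be A1 A2 B z = (z.1, al * z.1 + A1 * z.2.1 + B * z.2.2, be * z.1 + B * z.2.1 + A2 * z.2.2) := by
  simp [L]

private lemma str_Phi (P : Supp) (a b c : ℝ) : HasStrictFDerivAt (Phi P)
    (L (P.s12 a b) (P.s12 c (a + 2 * π)) (P.s22 a b + P.s11 b c) (P.s22 b c + P.s11 c (a + 2 * π)) (P.s12 b c))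
    (a, b, c) := by
  have q1 : HasStrictFDerivAt (fun z : ℝ × ℝ × ℝ => z.1) p1 (a, b, c) := p1.hasStrictFDerivAt
  have q2 : HasStrictFDerivAt (fun z : ℝ × ℝ × ℝ => z.2.1) p2 (a, b, c) := p2.hasStrictFDerivAt
  have q3 : HasStrictFDerivAt (fun z : ℝ × ℝ × ℝ => z.2.2) p3 (a, b, c) := p3.hasStrictFDerivAt
  have q4 : HasStrictFDerivAt (fun z : ℝ × ℝ × ℝ => z.1 + 2 * π) p1 (a, b, c) := q1.add_const _
  have e1 := (str_s2 P a b).comp (a, b, c) (q1.prodMk q2)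
  have e2 := (str_s1 P b c).comp (a, b, c) (q2.prodMk q3)
  have e3 := (str_s2 P b c).comp (a, b, c) (q2.prodMk q3)
  have e4 := (str_s1 P c (a + 2 * π)).comp (a, b, c) (q3.prodMk q4)
  have := q1.prodMk ((e1.add e2).prodMk (e3.add e4))
  refine this.congr_fderiv ?_
  ext z <;> simp [L] <;> ring

private lemma L_inj {al be A1 A2 B : ℝ} (hD : 0 < A1 * A2 - B ^ 2) :
    Function.Injective (L al be A1 A2 B) := by
  rw [injective_iff_map_eq_zero]
  intro z hz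
  rw [L_apply] at hz
  obtain ⟨x, y, w⟩ := z
  simp only [Prod.mk_eq_zero] at hz ⊢
  obtain ⟨h1, h2, h3⟩ := hz
  subst h1
  have hy : (A1 * A2 - B ^ 2) * y = 0 := by linear_combination A2 * h2 - B * h3
  have hw : (A1 * A2 - B ^ 2) * w = 0 := by linear_combination A1 * h3 - B * h2
  refine ⟨rfl, ?_, ?_⟩
  · exact (mul_eq_zero.1 hy).resolve_left hD.ne'
  · exact (mul_eq_zero.1 hw).resolve_left hD.ne'

/-- abstract nondegeneracy -/
private lemma nondeg {A1 A2 A3 B B2 : ℝ} (hB : 0 < B) (hB2 : 0 < B2)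
    (h3 : ∀ x y : ℝ, A1 * x ^ 2 + 2 * B * x * y + A2 * y ^ 2 ≤ 0)
    (h4 : ∀ x y z : ℝ, A1 * x ^ 2 + 2 * B * x * y + A2 * y ^ 2 + 2 * B2 * y * z + A3 * z ^ 2 ≤ 0) :
    A1 < 0 ∧ A2 < 0 ∧ 0 < A1 * A2 - B ^ 2 := by
  have a1 : A1 ≤ 0 := by simpa using h3 1 0
  have a2 : A2 ≤ 0 := by simpa using h3 0 1
  have hD : 0 ≤ A1 * A2 - B ^ 2 := by
    by_contra hc
    push Not at hc
    rcases eq_or_lt_of_le a1 with h | h
    · rw [h] at h3 hc
      have := h3 (1 - A2) B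
      nlinarith [h3 (1 - A2) B, mul_pos hB hB]
    · have := h3 B (-A1)
      nlinarith [h3 B (-A1)]
  have hA : 0 < A1 * A2 := by nlinarith
  have a1' : A1 < 0 := lt_of_le_of_ne a1 (by rintro rfl; simp at hA)
  have a2' : A2 < 0 := lt_of_le_of_ne a2 (by rintro rfl; simp at hA)
  refine ⟨a1', a2', lt_of_le_of_ne hD fun h => ?_⟩
  have h0 := abs_nonneg A3
  have hp : 0 < |A3| + 1 := by linarith
  set m := B2 * (-A1) with hm
  have hm0 : 0 < m := by rw [hm]; nlinarith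
  have hz := h4 B (-A1) (m / (|A3| + 1))
  have e1 : A1 * B ^ 2 + 2 * B * B * (-A1) + A2 * (-A1) ^ 2 = A1 * (A1 * A2 - B ^ 2) := by ring
  rw [e1, ← h] at hz
  have e2 : 2 * B2 * (-A1) * (m / (|A3| + 1)) + A3 * (m / (|A3| + 1)) ^ 2
      = (m / (|A3| + 1)) ^ 2 * (2 * (|A3| + 1) + A3) := by
    rw [hm]; field_simp
  have e3 : 0 < (m / (|A3| + 1)) ^ 2 * (2 * (|A3| + 1) + A3) := by
    have := neg_abs_le A3
    have : 0 < 2 * (|A3| + 1) + A3 := by linarith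
    positivity
  linarith


section main
variable {P : Supp} {g : ℝ → ℝ}

private def A1 (P : Supp) (g : ℝ → ℝ) (s : ℝ) : ℝ := P.s22 s (g s) + P.s11 (g s) (g (g s))
private def A2 (P : Supp) (g : ℝ → ℝ) (s : ℝ) : ℝ := P.s22 (g s) (g (g s)) + P.s11 (g (g s)) (s + 2 * π)
private def B (P : Supp) (g : ℝ → ℝ) (s : ℝ) : ℝ := P.s12 (g s) (g (g s))

private lemma g3 (h3 : IsRat P 1 3 g) (s : ℝ) : g (g (g s)) = s + 2 * π := by
  have := h3.iter s
  simpa using this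

private lemma nd (h3 : IsRat P 1 3 g) (s : ℝ) :
    A1 P g s < 0 ∧ A2 P g s < 0 ∧ 0 < A1 P g s * A2 P g s - B P g s ^ 2 := by
  have hg := h3.toIsCircle
  have e3 := g3 h3 s
  refine nondeg (A3 := P.s22 (g (g s)) (s + 2 * π) + P.s11 (s + 2 * π) (g (s + 2 * π)))
    (B2 := P.s12 (g (g s)) (s + 2 * π)) ?_ ?_ ?_ ?_
  · exact P.s12_pos (hg.lt _) (hg.lt2 _)
  · rw [← e3]; exact P.s12_pos (hg.lt _) (hg.lt2 _)
  · intro x y
    have := secvar hg s 3 (fun n => if n = 1 then x else if n = 2 then y else 0) (by simp) (by simp)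
    simp [Finset.sum_range_succ, e3] at this
    unfold A1 A2 B
    nlinarith [this]
  · intro x y z
    have := secvar hg s 4 (fun n => if n = 1 then x else if n = 2 then y else if n = 3 then z else 0)
      (by simp) (by simp)
    simp [Finset.sum_range_succ, e3] at this
    unfold A1 A2 B
    nlinarith [this]

private def G1 (P : Supp) (g : ℝ → ℝ) (s : ℝ) : ℝ :=
  (- A2 P g s * P.s12 s (g s) + B P g s * P.s12 (g (g s)) (s + 2 * π)) / (A1 P g s * A2 P g s - B P g s ^ 2)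

private lemma G1_pos (h3 : IsRat P 1 3 g) (s : ℝ) : 0 < G1 P g s := by
  obtain ⟨a1, a2, hD⟩ := nd h3 s
  have hg := h3.toIsCircle
  have e3 := g3 h3 s
  have b : 0 < B P g s := P.s12_pos (hg.lt _) (hg.lt2 _)
  have c : 0 < P.s12 (g (g s)) (s + 2 * π) := by rw [← e3]; exact P.s12_pos (hg.lt _) (hg.lt2 _)
  have d : 0 < P.s12 s (g s) := P.s12_pos (hg.lt _) (hg.lt2 _)
  have := mul_pos (neg_pos.2 a2) d
  have := mul_pos b c
  unfold G1
  apply div_pos _ hD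
  linarith

private lemma G1_cont (h3 : IsRat P 1 3 g) : Continuous (G1 P g) := by
  have hc := h3.toIsCircle.cont
  have hcc : Continuous fun s => g (g s) := hc.comp hc
  have u : Continuous fun s : ℝ => s + 2 * π := by fun_prop
  have k1 : Continuous (A1 P g) :=
    (P.cs22.comp (continuous_id.prodMk hc)).add (P.cs11.comp (hc.prodMk hcc))
  have k2 : Continuous (A2 P g) :=
    (P.cs22.comp (hc.prodMk hcc)).add (P.cs11.comp (hcc.prodMk u))
  have k3 : Continuous (B P g) := P.cs12.comp (hc.prodMk hcc)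
  have k4 : Continuous fun s => P.s12 s (g s) := P.cs12.comp (continuous_id.prodMk hc)
  have k5 : Continuous fun s => P.s12 (g (g s)) (s + 2 * π) := P.cs12.comp (hcc.prodMk u)
  exact ((k2.neg.mul k4).add (k3.mul k5)).div ((k1.mul k2).sub (k3.pow 2)) fun s => (nd h3 s).2.2.ne'

private lemma Phi_kappa (h3 : IsRat P 1 3 g) (t : ℝ) : Phi P (t, g t, g (g t)) = (t, 0, 0) := by
  have hg := h3.toIsCircle
  have e3 := g3 h3 t
  have i1 := hg.eq t
  have i2 := hg.eq (g t)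
  rw [e3] at i2
  simp only [Phi, i1, i2]

private lemma hasDeriv (h3 : IsRat P 1 3 g) (s : ℝ) : HasDerivAt g (G1 P g s) s := by
  have hg := h3.toIsCircle
  obtain ⟨a1, a2, hD⟩ := nd h3 s
  set l := L (P.s12 s (g s)) (P.s12 (g (g s)) (s + 2 * π)) (A1 P g s) (A2 P g s) (B P g s) with hl
  have hinj : Function.Injective (l : (ℝ × ℝ × ℝ) →ₗ[ℝ] (ℝ × ℝ × ℝ)) := L_inj hD
  let e : (ℝ × ℝ × ℝ) ≃L[ℝ] (ℝ × ℝ × ℝ) :=
    (LinearEquiv.ofInjectiveEndo (l : (ℝ × ℝ × ℝ) →ₗ[ℝ] (ℝ × ℝ × ℝ)) hinj).toContinuousLinearEquiv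
  have he : ∀ z, e z = l z := fun z => rfl
  have hstr : HasStrictFDerivAt (Phi P) (e : (ℝ × ℝ × ℝ) →L[ℝ] (ℝ × ℝ × ℝ)) (s, g s, g (g s)) := by
    refine (str_Phi P s (g s) (g (g s))).congr_fderiv ?_
    ext z <;> rfl
  set ψ := hstr.localInverse with hψ
  have h1 : HasStrictFDerivAt ψ (e.symm : (ℝ × ℝ × ℝ) →L[ℝ] (ℝ × ℝ × ℝ)) (s, 0, 0) := by
    have := hstr.to_localInverse
    rwa [Phi_kappa h3] at this
  have hκ : Continuous fun t => (t, g t, g (g t)) :=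
    continuous_id.prodMk (hg.cont.prodMk (hg.cont.comp hg.cont))
  have h2 : ∀ᶠ t in 𝓝 s, (t, g t, g (g t)) = ψ (t, 0, 0) := by
    have := (hκ.tendsto s).eventually hstr.eventually_left_inverse
    filter_upwards [this] with t ht
    rw [← ht, Phi_kappa h3]
  have h4 : HasDerivAt (fun t : ℝ => (t, (0:ℝ), (0:ℝ))) ((1:ℝ), (0:ℝ), (0:ℝ)) s :=
    (hasDerivAt_id s).prodMk ((hasDerivAt_const s (0:ℝ)).prodMk (hasDerivAt_const s (0:ℝ)))
  have h5 : HasDerivAt (fun t => (t, g t, g (g t))) (e.symm ((1:ℝ), (0:ℝ), (0:ℝ))) s := by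
    have := h1.hasFDerivAt.comp_hasDerivAt s h4
    refine HasDerivAt.congr_of_eventuallyEq this h2
  set v := e.symm ((1:ℝ), (0:ℝ), (0:ℝ)) with hv
  have h6 : l v = ((1:ℝ), (0:ℝ), (0:ℝ)) := by
    rw [← he, hv, ContinuousLinearEquiv.apply_symm_apply]
  rw [hl, L_apply] at h6
  simp only [Prod.mk.injEq] at h6
  obtain ⟨k1, k2, k3⟩ := h6
  rw [k1] at k2 k3
  have h7 : HasDerivAt g v.2.1 s := by
    have := (p2.hasFDerivAt (x := (s, g s, g (g s)))).comp_hasDerivAt s h5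
    exact this
  have h8 : v.2.1 = G1 P g s := by
    unfold G1
    rw [eq_div_iff hD.ne']
    linear_combination A2 P g s * k2 - B P g s * k3
  rwa [h8] at h7

end main

end C1

theorem exists_tri {P : Supp} {g : ℝ → ℝ} (h3 : IsRat P 1 3 g) : ∃ t : Tri P, t.g = g :=
  ⟨⟨g, C1.G1 P g, h3, C1.hasDeriv h3, C1.G1_cont h3, C1.G1_pos h3⟩, rfl⟩

end Bil
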