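import Pool.Agent.Work.MP_aa14e2_an.TriRel

/-!
# Module ExistsCrv  (60-120 lines; uses the statement `tri_rel`, only for `sin (a-c) > 0`)

PROOF. At `s`: `a = s, b = g s, c = g (g s)`, `S1 = sin (a-c) > 0`.  Put
`P s = (- v((a+b)/2) sin (b+c) + v((b+c)/2) sin (a+b))/S1`, `Q s = (v((a+b)/2) cos (b+c) - v((b+c)/2) cos (a+b))/S1`.
Then `P cos(a+b) + Q sin(a+b) = v((a+b)/2)` and `P cos (b+c) + Q sin(b+c) = v((b+c)/2)` (because `sin((a+b)-(b+c)) = S1`).  Differentiable
with continuous derivative (quotient rule, chain rule; take `P' = deriv P`‐formula).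
Invariance: the compatibility `sin(c-b) v((b+c)/2) + sin(a-c) v((c+a)/2+π) + sin(b-a) v((a+b)/2) = 0` (add the three relations `hv` at `s, g s, g g s`; the
`K`'s telescope: `K(g g g s) = K(s+2π) = K s`) and `sin(c-b) e0 + sin(a-c) e1 + sin(b-a) e2 = 0` (trigonometric identity for
`e0 = e^{i(b+c)}` etc.) show that also `P cos(c+a) + Q sin(c+a) = v((c+a)/2+π)`.  The pair `(P,Q)(g s)` is the unique solution of the two equations with
`e_{(b+c)}`, `e_{(c+a)}` (`sin` of the difference `≠ 0`), which `(P,Q)(s)` also solves.  So `P (g s) = P s`, `Q (g s) = Q s`.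
-/

noncomputable section
open Real Set
namespace Bil

private lemma ec_ggg {P : Supp} (t : Tri P) (s : ℝ) : t.g (t.g (t.g s)) = s + 2 * π := by
  have := t.rat.iter s
  simpa using this

/-- solution of the two linear equations -/
private def ec_P (v g : ℝ → ℝ) (s : ℝ) : ℝ :=
  (- v ((s + g s) / 2) * sin (g s + g (g s)) + v ((g s + g (g s)) / 2) * sin (s + g s)) /
    sin (s - g (g s))

private def ec_Q (v g : ℝ → ℝ) (s : ℝ) : ℝ :=
  (v ((s + g s) / 2) * cos (g s + g (g s)) - v ((g s + g (g s)) / 2) * cos (s + g s)) /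
    sin (s - g (g s))

private lemma ec_eq1 (a b c x y S : ℝ) (hS : sin (a - c) = S) (h : S ≠ 0) :
    (- x * sin (b + c) + y * sin (a + b)) / S * cos (a + b) +
      (x * cos (b + c) - y * cos (a + b)) / S * sin (a + b) = x := by
  have h1 : sin (a - c) = sin (a + b) * cos (b + c) - cos (a + b) * sin (b + c) := by
    rw [← sin_sub]; congr 1; ring
  rw [h1] at hS
  field_simp
  linear_combination x * hS

private lemma ec_eq2 (a b c x y S : ℝ) (hS : sin (a - c) = S) (h : S ≠ 0) :
    (- x * sin (b + c) + y * sin (a + b)) / S * cos (b + c) +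
      (x * cos (b + c) - y * cos (a + b)) / S * sin (b + c) = y := by
  have h1 : sin (a - c) = sin (a + b) * cos (b + c) - cos (a + b) * sin (b + c) := by
    rw [← sin_sub]; congr 1; ring
  rw [h1] at hS
  field_simp
  linear_combination y * hS

/-- uniqueness of the solution of two linear equations -/
private lemma ec_uniq (α β p q p' q' : ℝ) (h : sin (α - β) ≠ 0)
    (h1 : p * cos α + q * sin α = p' * cos α + q' * sin α)
    (h2 : p * cos β + q * sin β = p' * cos β + q' * sin β) : p = p' ∧ q = q' := by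
  rw [sin_sub] at h
  constructor
  · have : (p - p') * (sin α * cos β - cos α * sin β) = 0 := by
      linear_combination (-sin β) * h1 + sin α * h2
    have := (mul_eq_zero.1 this).resolve_right h
    linarith
  · have : (q - q') * (sin α * cos β - cos α * sin β) = 0 := by
      linear_combination (cos β) * h1 - cos α * h2
    have := (mul_eq_zero.1 this).resolve_right h
    linarith

private lemma ec_p1 (x y : ℝ) : sin (x - y) * cos (y + x) = sin x * cos x - sin y * cos y := by
  rw [sin_sub, cos_add]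
  have e1 := sin_sq_add_cos_sq x
  have e2 := sin_sq_add_cos_sq y
  linear_combination (sin x * cos x) * e2 - (sin y * cos y) * e1

private lemma ec_p2 (x y : ℝ) : sin (x - y) * sin (y + x) = sin x ^ 2 - sin y ^ 2 := by
  rw [sin_sub, sin_add]
  have e1 := sin_sq_add_cos_sq x
  have e2 := sin_sq_add_cos_sq y
  linear_combination (sin x ^ 2) * e2 - (sin y ^ 2) * e1

private lemma ec_id1 (a b c : ℝ) :
    sin (c - b) * cos (b + c) + sin (a - c) * cos (c + a) + sin (b - a) * cos (a + b) = 0 := by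
  rw [ec_p1, ec_p1, ec_p1]; ring

private lemma ec_id2 (a b c : ℝ) :
    sin (c - b) * sin (b + c) + sin (a - c) * sin (c + a) + sin (b - a) * sin (a + b) = 0 := by
  rw [ec_p2, ec_p2, ec_p2]; ring

theorem exists_crv {P : Supp} (t : Tri P) {v v' K : ℝ → ℝ} (dv : ∀ x, HasDerivAt v (v' x) x) (cv : Continuous v')
    (vper : ∀ x, v (x + 2 * π) = v x) (Kper : ∀ x, K (x + 2 * π) = K x)
    (hv : ∀ s, v ((s + t.g s) / 2) * sin (t.g s - s) = K (t.g s) - K s) :
    ∃ w : Crv t.g, Rep t.g v w := by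
  have hggg := ec_ggg t
  have hS1 : ∀ s, 0 < sin (s - t.g (t.g s)) := fun s => (tri_rel t s).2.1
  -- continuity and differentiability
  have cont_v : Continuous v := continuous_iff_continuousAt.2 fun x => (dv x).continuousAt
  have cg : Continuous t.g := continuous_iff_continuousAt.2 fun x => (t.dg x).continuousAt
  have cg1 := t.cg
  have dgg : ∀ s, HasDerivAt (fun s => t.g (t.g s)) (t.g1 (t.g s) * t.g1 s) s := fun s =>
    (t.dg (t.g s)).comp s (t.dg s)
  have dab : ∀ s, HasDerivAt (fun s => s + t.g s) (1 + t.g1 s) s := fun s =>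
    (hasDerivAt_id s).add (t.dg s)
  have dbc : ∀ s, HasDerivAt (fun s => t.g s + t.g (t.g s)) (t.g1 s + t.g1 (t.g s) * t.g1 s) s :=
    fun s => (t.dg s).add (dgg s)
  have dac : ∀ s, HasDerivAt (fun s => s - t.g (t.g s)) (1 - t.g1 (t.g s) * t.g1 s) s := fun s =>
    (hasDerivAt_id s).sub (dgg s)
  have dx : ∀ s, HasDerivAt (fun s => v ((s + t.g s) / 2))
      (v' ((s + t.g s) / 2) * ((1 + t.g1 s) / 2)) s := fun s =>
    (dv _).comp s ((dab s).div_const 2)
  have dy : ∀ s, HasDerivAt (fun s => v ((t.g s + t.g (t.g s)) / 2))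
      (v' ((t.g s + t.g (t.g s)) / 2) * ((t.g1 s + t.g1 (t.g s) * t.g1 s) / 2)) s := fun s =>
    (dv _).comp s ((dbc s).div_const 2)
  -- the derivative of P
  have dPex : ∃ P' : ℝ → ℝ, Continuous P' ∧ ∀ s, HasDerivAt (ec_P v t.g) (P' s) s := by
    refine ⟨_, ?_, fun s => (((dx s).neg.mul (dbc s).sin).add ((dy s).mul (dab s).sin)).div
      (dac s).sin (hS1 s).ne'⟩
    have hne : ∀ s, sin (s - t.g (t.g s)) ^ 2 ≠ 0 := fun s => pow_ne_zero _ (hS1 s).ne'
    refine Continuous.div ?_ ?_ hne
    · fun_prop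
    · fun_prop
  have dQex : ∃ Q' : ℝ → ℝ, Continuous Q' ∧ ∀ s, HasDerivAt (ec_Q v t.g) (Q' s) s := by
    refine ⟨_, ?_, fun s => (((dx s).mul (dbc s).cos).sub ((dy s).mul (dab s).cos)).div
      (dac s).sin (hS1 s).ne'⟩
    have hne : ∀ s, sin (s - t.g (t.g s)) ^ 2 ≠ 0 := fun s => pow_ne_zero _ (hS1 s).ne'
    refine Continuous.div ?_ ?_ hne
    · fun_prop
    · fun_prop
  obtain ⟨P', cP', dP'⟩ := dPex
  obtain ⟨Q', cQ', dQ'⟩ := dQex
  -- the equations
  have E2 : ∀ s, ec_P v t.g s * cos (s + t.g s) + ec_Q v t.g s * sin (s + t.g s) =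
      v ((s + t.g s) / 2) := fun s => ec_eq1 s (t.g s) (t.g (t.g s)) _ _ _ rfl (hS1 s).ne'
  have E0 : ∀ s, ec_P v t.g s * cos (t.g s + t.g (t.g s)) + ec_Q v t.g s * sin (t.g s + t.g (t.g s)) =
      v ((t.g s + t.g (t.g s)) / 2) := fun s => ec_eq2 s (t.g s) (t.g (t.g s)) _ _ _ rfl (hS1 s).ne'
  -- compatibility
  have comp : ∀ s, sin (t.g (t.g s) - t.g s) * v ((t.g s + t.g (t.g s)) / 2) +
      sin (s - t.g (t.g s)) * v ((t.g (t.g s) + (s + 2 * π)) / 2) +
      sin (t.g s - s) * v ((s + t.g s) / 2) = 0 := by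
    intro s
    have h1 := hv s
    have h2 := hv (t.g s)
    have h3 := hv (t.g (t.g s))
    rw [hggg s, Kper] at h3
    have h4 : sin (s + 2 * π - t.g (t.g s)) = sin (s - t.g (t.g s)) := by
      rw [show s + 2 * π - t.g (t.g s) = s - t.g (t.g s) + 2 * π by ring, sin_add_two_pi]
    rw [h4] at h3
    linear_combination h1 + h2 + h3
  have E1 : ∀ s, ec_P v t.g s * cos (t.g (t.g s) + s) + ec_Q v t.g s * sin (t.g (t.g s) + s) =
      v ((t.g (t.g s) + (s + 2 * π)) / 2) := by
    intro s
    have h0 := E0 s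
    have h2 := E2 s
    have hc := comp s
    set a := s with ha
    set b := t.g a
    set c := t.g b
    have id1 : sin (c - b) * cos (b + c) + sin (a - c) * cos (c + a) + sin (b - a) * cos (a + b) = 0 :=
      ec_id1 a b c
    have id2 : sin (c - b) * sin (b + c) + sin (a - c) * sin (c + a) + sin (b - a) * sin (a + b) = 0 :=
      ec_id2 a b c
    have key : sin (a - c) * (ec_P v t.g a * cos (c + a) + ec_Q v t.g a * sin (c + a)) =
        sin (a - c) * v ((c + (a + 2 * π)) / 2) := by
      linear_combination ec_P v t.g a * id1 + ec_Q v t.g a * id2 - sin (c - b) * h0 -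
        sin (b - a) * h2 - hc
    exact mul_left_cancel₀ (hS1 a).ne' key
  -- invariance
  have inv : ∀ s, ec_P v t.g (t.g s) = ec_P v t.g s ∧ ec_Q v t.g (t.g s) = ec_Q v t.g s := by
    intro s
    apply ec_uniq (t.g s + t.g (t.g s)) (t.g (t.g s) + s)
    · have := hS1 (t.g s)
      rw [hggg s] at this
      have h1 : t.g s - (s + 2 * π) = t.g s - s - 2 * π := by ring
      rw [h1, sin_sub_two_pi] at this
      have h2 : t.g s + t.g (t.g s) - (t.g (t.g s) + s) = t.g s - s := by ring
      rw [h2]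
      exact this.ne'
    · rw [E2 (t.g s), E0 s]
    · have h1 := E0 (t.g s)
      rw [hggg s] at h1
      have h2 : t.g (t.g s) + (s + 2 * π) = t.g (t.g s) + s + 2 * π := by ring
      rw [h2, cos_add_two_pi, sin_add_two_pi] at h1
      rw [h1, E1 s, ← h2]
  exact ⟨{ P := ec_P v t.g
           Q := ec_Q v t.g
           P' := P'
           Q' := Q'
           dP := dP'
           dQ := dQ'
           cP := cP'
           cQ := cQ'
           invP := fun s => (inv s).1
           invQ := fun s => (inv s).2 }, fun s => (E2 s).symm⟩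

/-- a function represented by a constant curve is a second harmonic -/
theorem rep_const {P : Supp} (t : Tri P) {v : ℝ → ℝ} (w : Crv t.g) (hw : Rep t.g v w)
    (h0 : ∀ s, w.P' s = 0 ∧ w.Q' s = 0) : ∃ A B : ℝ, ∀ x, v x = A * cos (2 * x) + B * sin (2 * x) := by
  have hP : ∀ s, w.P s = w.P 0 := fun s =>
    is_const_of_deriv_eq_zero (fun x => (w.dP x).differentiableAt)
      (fun x => by rw [(w.dP x).deriv, (h0 x).1]) s 0
  have hQ : ∀ s, w.Q s = w.Q 0 := fun s =>
    is_const_of_deriv_eq_zero (fun x => (w.dQ x).differentiableAt)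
      (fun x => by rw [(w.dQ x).deriv, (h0 x).2]) s 0
  refine ⟨w.P 0, w.Q 0, fun x => ?_⟩
  have cg : Continuous t.g := continuous_iff_continuousAt.2 fun x => (t.dg x).continuousAt
  obtain ⟨s, hs⟩ : ∃ s, (s + t.g s) / 2 = x := by
    have h1 : Continuous fun s => (s + t.g s) / 2 := by fun_prop
    have h2 : x ∈ Set.Icc ((x - 2 * π + t.g (x - 2 * π)) / 2) ((x + t.g x) / 2) := by
      have h3 := t.rat.lt x
      have h4 := t.rat.lt2 (x - 2 * π)
      have h5 := t.rat.lt (x - 2 * π)
      have hpi := pi_pos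
      constructor <;> linarith
    obtain ⟨s, -, hs⟩ := intermediate_value_Icc (by have := pi_pos; linarith) h1.continuousOn h2
    exact ⟨s, hs⟩
  have h3 := hw s
  rw [hs, hP s, hQ s] at h3
  rw [h3, show s + t.g s = 2 * x by linarith]

end Bil
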