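import Mathlib

/-!
# Module FormPoly  (pure polynomial identity, 30-100 lines; Mathlib only)  (verified numerically)

At a point `s`: `(ci,si) = (cos α_i, sin α_i)`, `α0 = b+c`, `α1 = c+a`, `α2 = a+b`; `Sk = sin 2d_k`, `Ck = cos 2d_k`:
`S0 = sin(α1-α2)`, `C0 = cos(α1-α2)` etc.; `(p,q)` = the curve, `(p',q')` its derivative; `v_i = ⟨(p,q),e_i⟩`, `k_i = ⟨(p,q),n_i⟩`,
`g_i = ⟨(p',q'),e_i⟩`, `v_i' = g_i + 2 w_i k_i`, `k_i' = m_i - 2 w_i v_i` with `m_i = ⟨(p',q'),n_i⟩`; `x_i` = X(d_i), `x_i' = S_i² d_i'`, `d0' = (Nc-Nb)/2`, ...;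
`Ka, Kb, Kc` with `Kb - Ka = v2 S2`, `Kc - Kb = v0 S0`, `Ka - Kc = v1 S1`, and the derivatives of these relations (`S_i' = 2 C_i d_i'`).
`δ_i = 2 x_i + S_i C_i/2` (because `X d = d/2 - sin 4d/8`), `pi = δ0+δ1+δ2`.
CLAIM: `∑ (v_i'²/w_i) x_i - 4 v_i² (δ_i - x_i) w_i + 2 (Kb Ka' + Kc Kb' + Ka Kc')
   = ∑ x_i g_i²/w_i - pi (p q' - q p') + [2 ∑ x_i v_i k_i + Ka Kb + Kb Kc + Kc Ka]'`.

PROOF. `x_i v_i'²/w_i - x_i g_i²/w_i = 4 x_i k_i g_i + 4 x_i w_i k_i²` (field_simp; this removes the divisions).  Also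
`v_i m_i - k_i g_i = p q' - q p'` (needs `ci²+si²=1`), `v_i² + k_i² = p²+q²`.  Then everything is polynomial.  Steps (all `Σ` over i):
 `4x_i(w_i k_i² + g_i k_i) - 4 w_i(δ_i - x_i) v_i²`; use `g_i k_i = ½[(v_i k_i)' - (pq'-qp') - 2w_i(k_i²-v_i²)]`;
 `2 ∑ x_i = pi + S0S1S2`; the `K`-part: `2(KbKa'+KcKb'+KaKc') - (KaKb+KbKc+KcKa)' = (Kb Ka' - Ka Kb') + (Kc Kb' - Kb Kc') + (Ka Kc' - Kc Ka')
 = - (z1 z2' - z2 z1')` with `z1 = v1 S1`, `z2 = v2 S2` up to the sign convention; and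
 `v1 v2' - v2 v1' = - S0 (pq'-qp') + 2 (w2 v1 k2 - w1 v2 k1)`.
 The remaining identity is algebraic in `(p,q)`: it uses `S0 v0 + S1 v1 + S2 v2 = 0`, `v_j = C_k v_i - S_k k_i`, `v_k = C_j v_i + S_j k_i` ((i,j,k) cyclic),
 `S1²+S2²+2S1S2C0 = S0²`, ...
 Alternatively a direct `linear_combination` with coefficients found by computer algebra.
-/

namespace Bil

theorem form_poly (c0 s0 c1 s1 c2 s2 p q p' q' x0 x1 x2 Na Nb Nc pi Ka Kb Kc Ka' Kb' Kc' : ℝ)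
    (h0 : c0 ^ 2 + s0 ^ 2 = 1) (h1 : c1 ^ 2 + s1 ^ 2 = 1) (h2 : c2 ^ 2 + s2 ^ 2 = 1)
    (S0 S1 S2 C0 C1 C2 w0 w1 w2 D0 D1 D2 d0 d1 d2 v0 v1 v2 k0 k1 k2 g0 g1 g2 m0 m1 m2 : ℝ)
    (hS0 : S0 = s1 * c2 - c1 * s2) (hS1 : S1 = s2 * c0 - c2 * s0) (hS2 : S2 = s0 * c1 - c0 * s1)
    (hC0 : C0 = c1 * c2 + s1 * s2) (hC1 : C1 = c2 * c0 + s2 * s0) (hC2 : C2 = c0 * c1 + s0 * s1)
    (hw0 : w0 = (Nb + Nc) / 2) (hw1 : w1 = (Nc + Na) / 2) (hw2 : w2 = (Na + Nb) / 2)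
    (hw0' : w0 ≠ 0) (hw1' : w1 ≠ 0) (hw2' : w2 ≠ 0)
    (hD0 : D0 = (Nc - Nb) / 2) (hD1 : D1 = (Na - Nc) / 2) (hD2 : D2 = (Nb - Na) / 2)
    (hd0 : d0 = 2 * x0 + S0 * C0 / 2) (hd1 : d1 = 2 * x1 + S1 * C1 / 2) (hd2 : d2 = 2 * x2 + S2 * C2 / 2)
    (hpi : d0 + d1 + d2 = pi) (hx : 2 * (x0 + x1 + x2) = pi + S0 * S1 * S2)
    (hv0 : v0 = p * c0 + q * s0) (hv1 : v1 = p * c1 + q * s1) (hv2 : v2 = p * c2 + q * s2)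
    (hk0 : k0 = q * c0 - p * s0) (hk1 : k1 = q * c1 - p * s1) (hk2 : k2 = q * c2 - p * s2)
    (hg0 : g0 = p' * c0 + q' * s0) (hg1 : g1 = p' * c1 + q' * s1) (hg2 : g2 = p' * c2 + q' * s2)
    (hm0 : m0 = q' * c0 - p' * s0) (hm1 : m1 = q' * c1 - p' * s1) (hm2 : m2 = q' * c2 - p' * s2)
    (hKb : Kb = Ka + v2 * S2) (hKc : Kc = Kb + v0 * S0)
    (hKb' : Kb' = Ka' + (g2 + 2 * w2 * k2) * S2 + v2 * (2 * C2 * D2))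
    (hKc' : Kc' = Kb' + (g0 + 2 * w0 * k0) * S0 + v0 * (2 * C0 * D0)) :
    ((g0 + 2 * w0 * k0) ^ 2 / w0 * x0 - 4 * v0 ^ 2 * (d0 - x0) * w0
      + ((g1 + 2 * w1 * k1) ^ 2 / w1 * x1 - 4 * v1 ^ 2 * (d1 - x1) * w1)
      + ((g2 + 2 * w2 * k2) ^ 2 / w2 * x2 - 4 * v2 ^ 2 * (d2 - x2) * w2)
      + 2 * (Kb * Ka' + Kc * Kb' + Ka * Kc')) =
    x0 / w0 * g0 ^ 2 + x1 / w1 * g1 ^ 2 + x2 / w2 * g2 ^ 2 - pi * (p * q' - q * p')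
      + (2 * ((S0 ^ 2 * D0) * v0 * k0 + x0 * (g0 + 2 * w0 * k0) * k0 + x0 * v0 * (m0 - 2 * w0 * v0)
          + ((S1 ^ 2 * D1) * v1 * k1 + x1 * (g1 + 2 * w1 * k1) * k1 + x1 * v1 * (m1 - 2 * w1 * v1))
          + ((S2 ^ 2 * D2) * v2 * k2 + x2 * (g2 + 2 * w2 * k2) * k2 + x2 * v2 * (m2 - 2 * w2 * v2)))
        + (Ka' * Kb + Ka * Kb' + Kb' * Kc + Kb * Kc' + Kc' * Ka + Kc * Ka')) := by
  have q0 : (g0 + 2 * w0 * k0) ^ 2 / w0 * x0 = x0 / w0 * g0 ^ 2 + 4 * x0 * k0 * g0 + 4 * x0 * w0 * k0 ^ 2 := by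
    field_simp; ring
  have q1 : (g1 + 2 * w1 * k1) ^ 2 / w1 * x1 = x1 / w1 * g1 ^ 2 + 4 * x1 * k1 * g1 + 4 * x1 * w1 * k1 ^ 2 := by
    field_simp; ring
  have q2 : (g2 + 2 * w2 * k2) ^ 2 / w2 * x2 = x2 / w2 * g2 ^ 2 + 4 * x2 * k2 * g2 + 4 * x2 * w2 * k2 ^ 2 := by
    field_simp; ring
  rw [q0, q1, q2]
  clear q0 q1 q2 hw0' hw1' hw2'
  have z0 : v0 * m0 - k0 * g0 = p * q' - q * p' := by
    rw [hv0, hm0, hk0, hg0]; linear_combination (p * q' - q * p') * h0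
  have z1 : v1 * m1 - k1 * g1 = p * q' - q * p' := by
    rw [hv1, hm1, hk1, hg1]; linear_combination (p * q' - q * p') * h1
  have z2 : v2 * m2 - k2 * g2 = p * q' - q * p' := by
    rw [hv2, hm2, hk2, hg2]; linear_combination (p * q' - q * p') * h2
  have zz : v0 * g2 - v2 * g0 = (p * q' - q * p') * S1 := by
    rw [hv0, hv2, hg0, hg2, hS1]; ring
  have uu : S0 * v0 + S1 * v1 + S2 * v2 = 0 := by
    rw [hS0, hS1, hS2, hv0, hv1, hv2]; ring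
  have T1 : C1 * v1 + S1 * k1 = C2 * v2 - S2 * k2 := by
    rw [hC1, hC2, hS1, hS2, hv1, hv2, hk1, hk2]; ring
  have T2 : C2 * v2 + S2 * k2 = C0 * v0 - S0 * k0 := by
    rw [hC0, hC2, hS0, hS2, hv0, hv2, hk0, hk2]; ring
  have T0 : C0 * v0 + S0 * k0 = C1 * v1 - S1 * k1 := by
    rw [hC0, hC1, hS0, hS1, hv0, hv1, hk0, hk1]; ring
  have F : S0 * S2 * (v0 * w2 * k2 - v2 * w0 * k0) + v0 * v2 * (S0 * C2 * D2 - S2 * C0 * D0) =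
      (S0 * C0 * w0 * v0 ^ 2 + S0 ^ 2 * D0 * v0 * k0) + (S1 * C1 * w1 * v1 ^ 2 + S1 ^ 2 * D1 * v1 * k1)
        + (S2 * C2 * w2 * v2 ^ 2 + S2 ^ 2 * D2 * v2 * k2) := by
    rw [hw0, hw1, hw2, hD0, hD1, hD2]
    linear_combination (Na / 2) * (-(C2 * v2 - S2 * k2) * uu - S1 * v1 * T1)
      + (Nb / 2) * ((S0 * v0 - S2 * v2) * T2) + (Nc / 2) * (-(C0 * v0 + S0 * k0) * uu + S1 * v1 * T0)
  clear hS0 hS1 hS2 hC0 hC1 hC2 hw0 hw1 hw2 hD0 hD1 hD2 hv0 hv1 hv2 hk0 hk1 hk2 hg0 hg1 hg2 hm0 hm1 hm2 uu T1 T2 T0 h0 h1 h2 hpi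
  rw [hKc', hKc, hKb', hKb, hd0, hd1, hd2]
  linear_combination (-2 * x0) * z0 + (-2 * x1) * z1 + (-2 * x2) * z2 - (p * q' - q * p') * hx + S0 * S2 * zz + 2 * F

end Bil
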