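import Pool.Agent.Work.MP_aa14e2_an.Curve

/-!
# Module TriRel  (elementary geometry/trigonometry, 100-180 lines)

PROOF.  Notation of `Curve.lean`.  Bounce normal angles `ψ0 = (b+c)/2`, `ψ1 = (c+a)/2+π`, `ψ2 = (a+b)/2`.
(0) `supp_lt`: for `0 < x < 2π`: `P.h (u + x)` ... support inequality: `h u cos x + h1 u sin x < h (u + x)` for `0 < x < 2π`.
   Proof for `0 < x ≤ π`: `φ x = h (u+x) - h u cos x - h1 u sin x` satisfies `φ'' + φ = ρ(u+x) > 0`, `φ 0 = φ' 0 = 0`; then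
   `(φ' x sin.. )`: the function `W t = φ' (t) sin (x - t) + φ t cos (x-t)` has `W' = (φ''+φ) sin (x-t) > 0` on `(0,x)`,
   `W 0 = 0`, `W x = φ x`.  For `π < x < 2π` use the same with `x - 2π ∈ (-π,0)` (mirror image) and periodicity.
(1) Jacobi equation: differentiating `s2 c' a + s1 a b = 0` (`c' = c - 2π`, this is `eq` at `c-2π`; by `s2_shift`, equivalently `s2 c (a+2π) + s1 (a+2π) (b+2π) = 0`) along the curve:
   `(s22(c,a+2π) + s11(a,b)) Na + s12(a,b) Nb + s12(c,a+2π) Nc = 0` and cyclically.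
(2) `s11 x y = s12 x y - (h ψ sin δ + h1 ψ cos δ)`, `s22 x y = s12 x y - (h ψ sin δ - h1 ψ cos δ)` (ring).  Put
   `t₊ = h ψ2 sin d2 + h1 ψ2 cos d2`, `t₋ = - h ψ1 sin d1 + h1 ψ1 cos d1`, `L_a = t₊ - t₋` (length of the chord on the line `a`).  Then (1) reads
   `L_a Na = s12(a,b) (Na+Nb) + s12(c,a+2π) (Na+Nc) = ρ2 w2 sin d2 + ρ1 w1 sin d1`, i.e. `L_a Na = y2 + y1` with
   `y_i = ρ(ψ_i) w_i sin d_i > 0`.  Similarly `L_b Nb = y2 + y0`, `L_c Nc = y0 + y1`.
(3) the bounce points `Γ(ψ) = h n + h1 n'` (`n = (cos ψ, sin ψ)`, `n' = (-sin ψ, cos ψ)`) satisfy `Γ(ψ2) - Γ(ψ1) = L_a n'(a)`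
   (same distance `p` from the origin because of `eq`: `s2 c (a+2π) = - s1 a b`), etc.  Hence `L_a n'(a) + L_b n'(b) + L_c n'(c) = 0`, which gives
   `L_a sin(a-c)... `: taking determinants, `L_a / sin (c-b) = L_b / sin (a-c) = L_c / sin (b-a)` in the form
   `L_a sin (b-a) = L_c sin (c-b)`, `L_a sin (a-c) = L_b sin (c-b)`.
(4) `L_a > 0`: `⟨Γ(ψ2) - Γ(ψ1), n(ψ2)⟩ > 0` by (0) (`h ψ2 > ⟨Γ(ψ1), n(ψ2)⟩`) and `= L_a sin d2` with `sin d2 > 0`; similarly
   `L_b, L_c > 0`.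
(5) signs: by (3),(4) the three numbers `S0 = sin (c-b) = sin 2d0`, `S1 = sin (a-c) = sin 2 d1`, `S2 = sin (b-a) = sin 2 d2` have the same sign;
   as `d0+d1+d2 = π` and `0 < d_i < π`, they cannot all be `≤ 0` (else all `d_i ≥ π/2`).  So all are `> 0`, `L_a = r S0`, ... with `r > 0`.
   Then `S0 Na = (y1+y2)/r` etc.
-/

noncomputable section
open Real Set
namespace Bil

/-- Sturm type lemma: `φ'' + φ > 0`, `φ 0 = φ' 0 = 0` -/
private lemma tr_W (φ φ1 φ2 : ℝ → ℝ) (x : ℝ) (h0 : ∀ t, HasDerivAt φ (φ1 t) t)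
    (h1 : ∀ t, HasDerivAt φ1 (φ2 t) t) (t : ℝ) :
    HasDerivAt (fun t => φ1 t * sin (x - t) + φ t * cos (x - t)) ((φ2 t + φ t) * sin (x - t)) t := by
  have e : HasDerivAt (fun t => x - t) (-1) t := by simpa using (hasDerivAt_id t).const_sub x
  have a := ((h1 t).mul e.sin).add ((h0 t).mul e.cos)
  refine a.congr_deriv ?_
  ring

private lemma tr_pos (φ φ1 φ2 : ℝ → ℝ) (h0 : ∀ t, HasDerivAt φ (φ1 t) t)
    (h1 : ∀ t, HasDerivAt φ1 (φ2 t) t) (z0 : φ 0 = 0) (z1 : φ1 0 = 0) (hp : ∀ t, 0 < φ2 t + φ t)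
    (x : ℝ) (hx : 0 < x) (hx' : x ≤ π) : 0 < φ x := by
  have hd := tr_W φ φ1 φ2 x h0 h1
  have hm : StrictMonoOn (fun t => φ1 t * sin (x - t) + φ t * cos (x - t)) (Icc 0 x) := by
    refine strictMonoOn_of_deriv_pos (convex_Icc _ _) ?_ ?_
    · exact fun t _ => (hd t).continuousAt.continuousWithinAt
    · intro t ht
      rw [interior_Icc] at ht
      rw [(hd t).deriv]
      exact mul_pos (hp t) (sin_pos_of_pos_of_lt_pi (by linarith [ht.2]) (by linarith [ht.1]))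
  have := hm (left_mem_Icc.2 hx.le) (right_mem_Icc.2 hx.le) hx
  simpa [z0, z1] using this

private lemma tr_neg (φ φ1 φ2 : ℝ → ℝ) (h0 : ∀ t, HasDerivAt φ (φ1 t) t)
    (h1 : ∀ t, HasDerivAt φ1 (φ2 t) t) (z0 : φ 0 = 0) (z1 : φ1 0 = 0) (hp : ∀ t, 0 < φ2 t + φ t)
    (x : ℝ) (hx : x < 0) (hx' : -π ≤ x) : 0 < φ x := by
  have hd := tr_W φ φ1 φ2 x h0 h1
  have hm : StrictAntiOn (fun t => φ1 t * sin (x - t) + φ t * cos (x - t)) (Icc x 0) := by
    refine strictAntiOn_of_deriv_neg (convex_Icc _ _) ?_ ?_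
    · exact fun t _ => (hd t).continuousAt.continuousWithinAt
    · intro t ht
      rw [interior_Icc] at ht
      rw [(hd t).deriv]
      exact mul_neg_of_pos_of_neg (hp t)
        (sin_neg_of_neg_of_neg_pi_lt (by linarith [ht.1]) (by linarith [ht.2]))
  have := hm (left_mem_Icc.2 hx.le) (right_mem_Icc.2 hx.le) hx
  simpa [z0, z1] using this

theorem supp_lt (P : Supp) (u x : ℝ) (h0 : 0 < x) (h1 : x < 2 * π) :
    P.h u * cos x + P.h1 u * sin x < P.h (u + x) := by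
  have d0 : ∀ t, HasDerivAt (fun t => P.h (u + t) - P.h u * cos t - P.h1 u * sin t)
      (P.h1 (u + t) + P.h u * sin t - P.h1 u * cos t) t := by
    intro t
    have e : HasDerivAt (fun t => u + t) 1 t := by simpa using (hasDerivAt_id t).const_add u
    have a := (((P.d0 (u + t)).comp t e).sub ((hasDerivAt_cos t).const_mul (P.h u))).sub
      ((hasDerivAt_sin t).const_mul (P.h1 u))
    refine a.congr_deriv ?_
    ring
  have d1 : ∀ t, HasDerivAt (fun t => P.h1 (u + t) + P.h u * sin t - P.h1 u * cos t)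
      (P.h2 (u + t) + P.h u * cos t + P.h1 u * sin t) t := by
    intro t
    have e : HasDerivAt (fun t => u + t) 1 t := by simpa using (hasDerivAt_id t).const_add u
    have a := (((P.d1 (u + t)).comp t e).add ((hasDerivAt_sin t).const_mul (P.h u))).sub
      ((hasDerivAt_cos t).const_mul (P.h1 u))
    refine a.congr_deriv ?_
    ring
  have hp : ∀ t, 0 < P.h2 (u + t) + P.h u * cos t + P.h1 u * sin t +
      (P.h (u + t) - P.h u * cos t - P.h1 u * sin t) := by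
    intro t
    have := P.pos (u + t)
    linarith
  rcases le_or_gt x π with h | h
  · have := tr_pos _ _ _ d0 d1 (by simp) (by simp) hp x h0 h
    linarith
  · have := tr_neg _ _ _ d0 d1 (by simp) (by simp) hp (x - 2 * π) (by linarith) (by linarith)
    simp only [cos_sub_two_pi, sin_sub_two_pi] at this
    have e : P.h (u + (x - 2 * π)) = P.h (u + x) := by
      rw [← P.per (u + (x - 2 * π))]
      congr 1; ring
    rw [e] at this
    linarith

/-! derivatives along curves -/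

private lemma tr_s2 (P : Supp) {α β : ℝ → ℝ} {α' β' x : ℝ} (ha : HasDerivAt α α' x)
    (hb : HasDerivAt β β' x) :
    HasDerivAt (fun x => P.s2 (α x) (β x)) (P.s12 (α x) (β x) * α' + P.s22 (α x) (β x) * β') x := by
  have m : HasDerivAt (fun x => (α x + β x) / 2) ((α' + β') / 2) x := (ha.add hb).div_const 2
  have d : HasDerivAt (fun x => (β x - α x) / 2) ((β' - α') / 2) x := (hb.sub ha).div_const 2
  have a := (P.d0 ((α x + β x) / 2)).comp x m
  have a1 := (P.d1 ((α x + β x) / 2)).comp x m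
  have := (a1.mul d.sin).add (a.mul d.cos)
  refine this.congr_deriv ?_
  simp only [Supp.s12, Supp.s22, Function.comp]; ring

private lemma tr_s1 (P : Supp) {α β : ℝ → ℝ} {α' β' x : ℝ} (ha : HasDerivAt α α' x)
    (hb : HasDerivAt β β' x) :
    HasDerivAt (fun x => P.s1 (α x) (β x)) (P.s11 (α x) (β x) * α' + P.s12 (α x) (β x) * β') x := by
  have m : HasDerivAt (fun x => (α x + β x) / 2) ((α' + β') / 2) x := (ha.add hb).div_const 2
  have d : HasDerivAt (fun x => (β x - α x) / 2) ((β' - α') / 2) x := (hb.sub ha).div_const 2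
  have a := (P.d0 ((α x + β x) / 2)).comp x m
  have a1 := (P.d1 ((α x + β x) / 2)).comp x m
  have := (a1.mul d.sin).sub (a.mul d.cos)
  refine this.congr_deriv ?_
  simp only [Supp.s12, Supp.s11, Function.comp]; ring

/-- Jacobi equation -/
private lemma tr_jac {P : Supp} (t : Tri P) (x : ℝ) :
    P.s12 x (t.g x) * 1 + P.s22 x (t.g x) * t.g1 x +
      (P.s11 (t.g x) (t.g (t.g x)) * t.g1 x +
        P.s12 (t.g x) (t.g (t.g x)) * (t.g1 (t.g x) * t.g1 x)) = 0 := by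
  have dgg : HasDerivAt (fun s => t.g (t.g s)) (t.g1 (t.g x) * t.g1 x) x :=
    (t.dg (t.g x)).comp x (t.dg x)
  have h1 := (tr_s2 P (hasDerivAt_id x) (t.dg x)).add (tr_s1 P (t.dg x) dgg)
  have h2 : (fun x => P.s2 (id x) (t.g x)) + (fun x => P.s1 (t.g x) (t.g (t.g x))) = fun _ => (0:ℝ) := by
    funext y
    exact t.rat.eq y
  rw [h2] at h1
  exact h1.unique (hasDerivAt_const x (0:ℝ))

/-- the algebra of `tri_rel` -/
private lemma tr_alg (h0 h1 h2 k0 k1 k2 S0 S1 S2 C0 C1 C2 R0 R1 R2 Nb Nc : ℝ)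
    (pS0 : 0 < S0) (pS1 : 0 < S1) (pS2 : 0 < S2) (pR0 : 0 < R0) (pR1 : 0 < R1) (pR2 : 0 < R2)
    (pNb : 0 < Nb) (pNc : 0 < Nc)
    (T0 : S0 = S1 * C2 + C1 * S2) (T1 : S1 = S2 * C0 + C2 * S0) (T2 : S2 = S0 * C1 + C0 * S1)
    (U0 : C0 = S1 * S2 - C1 * C2) (U1 : C1 = S2 * S0 - C2 * C0) (U2 : C2 = S0 * S1 - C0 * C1)
    (Q0 : S0 ^ 2 + C0 ^ 2 = 1) (Q1 : S1 ^ 2 + C1 ^ 2 = 1) (Q2 : S2 ^ 2 + C2 ^ 2 = 1)
    (e1 : k2 * S2 + h2 * C2 + (k0 * S0 - h0 * C0) = 0)
    (e2 : k0 * S0 + h0 * C0 + (k1 * S1 - h1 * C1) = 0)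
    (e3 : k1 * S1 + h1 * C1 + (k2 * S2 - h2 * C2) = 0)
    (j1 : R2 * 1 + (R2 - h2 * S2 + k2 * C2) * Nb + ((R0 - h0 * S0 - k0 * C0) * Nb + R0 * Nc) = 0)
    (j2 : R0 * Nb + (R0 - h0 * S0 + k0 * C0) * Nc + ((R1 - h1 * S1 - k1 * C1) * Nc + R1 * 1) = 0)
    (j3 : R1 * Nc + (R1 - h1 * S1 + k1 * C1) * 1 + ((R2 - h2 * S2 - k2 * C2) * 1 + R2 * Nb) = 0)
    (p0 : 0 < h2 + h1 * C0 - k1 * S0) (p1 : 0 < h0 + h2 * C1 - k2 * S1)
    (p2 : 0 < h1 + h0 * C2 - k0 * S2) (hn : ¬ (C0 < 0 ∧ C1 < 0 ∧ C2 < 0)) :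
    0 < C0 ∧ 0 < C1 ∧ 0 < C2 ∧ ∃ y0 y1 y2 : ℝ, 0 < y0 ∧ 0 < y1 ∧ 0 < y2 ∧
      2 * S0 * C0 * 1 = y1 + y2 ∧ 2 * S1 * C1 * Nb = y2 + y0 ∧ 2 * S2 * C2 * Nc = y0 + y1 := by
  -- solve for k
  have K0 : k0 * S0 = h1 * C1 - h2 * C2 := by linarith
  have K1 : k1 * S1 = h2 * C2 - h0 * C0 := by linarith
  have K2 : k2 * S2 = h0 * C0 - h1 * C1 := by linarith
  obtain ⟨La, hLa⟩ : ∃ L, L = h2 * S2 + k2 * C2 + h1 * S1 - k1 * C1 := ⟨_, rfl⟩
  obtain ⟨Lb, hLb⟩ : ∃ L, L = h0 * S0 + k0 * C0 + h2 * S2 - k2 * C2 := ⟨_, rfl⟩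
  obtain ⟨Lc, hLc⟩ : ∃ L, L = h1 * S1 + k1 * C1 + h0 * S0 - k0 * C0 := ⟨_, rfl⟩
  obtain ⟨H, hH⟩ : ∃ H, H = h0 * S0 + h1 * S1 + h2 * S2 := ⟨_, rfl⟩
  have M0 : La * (S1 * S2) = C0 * H := by
    rw [hLa, hH]
    linear_combination (C2 * S1) * K2 - (C1 * S2) * K1 - h0 * C0 * T0 - h1 * S1 * U0 - h2 * S2 * U0
  have M1 : Lb * (S2 * S0) = C1 * H := by
    rw [hLb, hH]
    linear_combination (C0 * S2) * K0 - (C2 * S0) * K2 - h1 * C1 * T1 - h2 * S2 * U1 - h0 * S0 * U1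
  have M2 : Lc * (S0 * S1) = C2 * H := by
    rw [hLc, hH]
    linear_combination (C1 * S0) * K1 - (C0 * S1) * K0 - h2 * C2 * T2 - h0 * S0 * U2 - h1 * S1 * U2
  have La0 : La * S2 = h2 + h1 * C0 - k1 * S0 := by
    rw [hLa]
    linear_combination C2 * e3 + k1 * T0 - h1 * U0 + h2 * Q2
  have Lb0 : Lb * S0 = h0 + h2 * C1 - k2 * S1 := by
    rw [hLb]
    linear_combination C0 * e1 + k2 * T1 - h2 * U1 + h0 * Q0
  have Lc0 : Lc * S1 = h1 + h0 * C2 - k0 * S2 := by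
    rw [hLc]
    linear_combination C1 * e2 + k0 * T2 - h0 * U2 + h1 * Q1
  have pLa : 0 < La := by
    by_contra hc
    have := mul_nonpos_of_nonpos_of_nonneg (not_lt.1 hc) pS2.le
    linarith
  have pLb : 0 < Lb := by
    by_contra hc
    have := mul_nonpos_of_nonpos_of_nonneg (not_lt.1 hc) pS0.le
    linarith
  have pLc : 0 < Lc := by
    by_contra hc
    have := mul_nonpos_of_nonpos_of_nonneg (not_lt.1 hc) pS1.le
    linarith
  have c0 : 0 < C0 * H := by rw [← M0]; positivity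
  have c1 : 0 < C1 * H := by rw [← M1]; positivity
  have c2 : 0 < C2 * H := by rw [← M2]; positivity
  have pH : 0 < H := by
    rcases lt_trichotomy H 0 with h | h | h
    · exfalso
      apply hn
      refine ⟨?_, ?_, ?_⟩
      · exact neg_of_mul_pos_left c0 h.le
      · exact neg_of_mul_pos_left c1 h.le
      · exact neg_of_mul_pos_left c2 h.le
    · rw [h] at c0; simp at c0
    · exact h
  have pC0 : 0 < C0 := (mul_pos_iff_of_pos_right pH).1 c0
  have pC1 : 0 < C1 := (mul_pos_iff_of_pos_right pH).1 c1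
  have pC2 : 0 < C2 := (mul_pos_iff_of_pos_right pH).1 c2
  refine ⟨pC0, pC1, pC2, ?_⟩
  have A1 : Lb * Nb = R2 * (1 + Nb) + R0 * (Nb + Nc) := by rw [hLb]; linarith
  have A2 : Lc * Nc = R0 * (Nb + Nc) + R1 * (Nc + 1) := by rw [hLc]; linarith
  have A3 : La = R1 * (Nc + 1) + R2 * (1 + Nb) := by rw [hLa]; linarith
  obtain ⟨q, hq⟩ : ∃ q, q = 2 * S0 * S1 * S2 / H := ⟨_, rfl⟩
  have pq : 0 < q := by rw [hq]; positivity
  have q0 : 2 * S0 * C0 = q * La := by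
    rw [hq]; field_simp; linear_combination (-1) * M0
  have q1 : 2 * S1 * C1 = q * Lb := by
    rw [hq]; field_simp; linear_combination (-1) * M1
  have q2 : 2 * S2 * C2 = q * Lc := by
    rw [hq]; field_simp; linear_combination (-1) * M2
  refine ⟨q * (R0 * (Nb + Nc)), q * (R1 * (Nc + 1)), q * (R2 * (1 + Nb)), by positivity, by positivity,
    by positivity, ?_, ?_, ?_⟩
  · rw [q0]; linear_combination q * A3
  · rw [q1]; linear_combination q * A1
  · rw [q2]; linear_combination q * A2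

/-- acute triangle and convexity relations -/
theorem tri_rel {P : Supp} (t : Tri P) (s : ℝ) :
    0 < sin (t.g (t.g s) - t.g s) ∧ 0 < sin (s - t.g (t.g s)) ∧ 0 < sin (t.g s - s) ∧
    ∃ y0 y1 y2 : ℝ, 0 < y0 ∧ 0 < y1 ∧ 0 < y2 ∧
      sin (t.g (t.g s) - t.g s) * 1 = y1 + y2 ∧
      sin (s - t.g (t.g s)) * Nb t.g1 s = y2 + y0 ∧
      sin (t.g s - s) * Nc t.g t.g1 s = y0 + y1 := by
  have hggg : t.g (t.g (t.g s)) = s + 2 * π := by
    have := t.rat.iter s
    simpa using this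
  have hper := t.rat.per s
  -- derivative of g at c
  have dggg : t.g1 (t.g (t.g s)) * (t.g1 (t.g s) * t.g1 s) = 1 := by
    have h1 : HasDerivAt (fun s => t.g (t.g (t.g s))) (t.g1 (t.g (t.g s)) * (t.g1 (t.g s) * t.g1 s)) s :=
      (t.dg (t.g (t.g s))).comp s ((t.dg (t.g s)).comp s (t.dg s))
    have h2 : (fun s => t.g (t.g (t.g s))) = fun s => s + 2 * π := by
      funext y
      have := t.rat.iter y
      simpa using this
    rw [h2] at h1
    exact h1.unique ((hasDerivAt_id s).add_const (2 * π))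
  have g1per : t.g1 (s + 2 * π) = t.g1 s := by
    have h1 : HasDerivAt (fun y => t.g (y + 2 * π)) (t.g1 (s + 2 * π)) s := by
      simpa using (t.dg (s + 2 * π)).comp_add_const s (2 * π)
    have h2 : (fun y => t.g (y + 2 * π)) = fun y => t.g y + 2 * π := funext t.rat.per
    rw [h2] at h1
    exact h1.unique ((t.dg s).add_const (2 * π))
  have J1 := tr_jac t s
  have J2 := tr_jac t (t.g s)
  have J3 := tr_jac t (t.g (t.g s))
  have E1 := t.rat.eq s
  have E2 := t.rat.eq (t.g s)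
  have E3 := t.rat.eq (t.g (t.g s))
  have lab := t.rat.lt s
  have lbc := t.rat.lt (t.g s)
  have lca := t.rat.lt (t.g (t.g s))
  have pNb := t.pos s
  have pNb' := t.pos (t.g s)
  rw [hggg] at J2 J3 E2 E3 lca
  rw [hper] at J3 E3
  rw [P.s1_shift] at E3
  rw [g1per, P.s11_shift, P.s12_shift] at J3
  unfold Nb Nc
  generalize t.g1 s = nb at *
  generalize t.g (t.g s) = c at *
  generalize t.g s = b at *
  generalize t.g1 b = nb' at *
  generalize t.g1 c = nc' at *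
  have pNc : 0 < nb' * nb := mul_pos pNb' pNb
  have hpi := pi_pos
  have e11 : ∀ x y, P.s11 x y = P.s12 x y - P.h ((x + y) / 2) * sin ((y - x) / 2) -
      P.h1 ((x + y) / 2) * cos ((y - x) / 2) := by
    intro x y; simp only [Supp.s11, Supp.s12]; ring
  have e22 : ∀ x y, P.s22 x y = P.s12 x y - P.h ((x + y) / 2) * sin ((y - x) / 2) +
      P.h1 ((x + y) / 2) * cos ((y - x) / 2) := by
    intro x y; simp only [Supp.s22, Supp.s12]; ring
  have R0 := P.s12_pos lbc (by linarith)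
  have R1 := P.s12_pos lca (by linarith)
  have R2 := P.s12_pos lab (by linarith)
  have L0 := supp_lt P ((c + (s + 2 * π)) / 2) (π - (c - b) / 2) (by linarith) (by linarith)
  have L1 := supp_lt P ((s + b) / 2) (π - (s + 2 * π - c) / 2) (by linarith) (by linarith)
  have L2 := supp_lt P ((b + c) / 2) (π - (b - s) / 2) (by linarith) (by linarith)
  rw [show (c + (s + 2 * π)) / 2 + (π - (c - b) / 2) = (s + b) / 2 + 2 * π by ring, P.per] at L0
  rw [show (s + b) / 2 + (π - (s + 2 * π - c) / 2) = (b + c) / 2 by ring] at L1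
  rw [show (b + c) / 2 + (π - (b - s) / 2) = (c + (s + 2 * π)) / 2 by ring] at L2
  rw [cos_pi_sub, sin_pi_sub] at L0 L1 L2
  simp only [Supp.s1, Supp.s2] at E1 E2 E3
  rw [e11, e22] at J1 J2 J3
  have A0 : sin (c - b) = 2 * sin ((c - b) / 2) * cos ((c - b) / 2) := by
    rw [← sin_two_mul]; congr 1; ring
  have A1 : sin (s - c) = 2 * sin ((s + 2 * π - c) / 2) * cos ((s + 2 * π - c) / 2) := by
    rw [← sin_two_mul, ← sin_add_two_pi]; congr 1; ring
  have A2 : sin (b - s) = 2 * sin ((b - s) / 2) * cos ((b - s) / 2) := by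
    rw [← sin_two_mul]; congr 1; ring
  rw [A0, A1, A2]
  obtain ⟨d0, hd0⟩ : ∃ d, d = (c - b) / 2 := ⟨_, rfl⟩
  obtain ⟨d1, hd1⟩ : ∃ d, d = (s + 2 * π - c) / 2 := ⟨_, rfl⟩
  obtain ⟨d2, hd2⟩ : ∃ d, d = (b - s) / 2 := ⟨_, rfl⟩
  have hsum : d0 + d1 + d2 = π := by rw [hd0, hd1, hd2]; ring
  have pd0 : 0 < d0 := by rw [hd0]; linarith
  have pd1 : 0 < d1 := by rw [hd1]; linarith
  have pd2 : 0 < d2 := by rw [hd2]; linarith
  simp only [← hd0, ← hd1, ← hd2] at J1 J2 J3 E1 E2 E3 L0 L1 L2 ⊢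
  have pS0 : 0 < sin d0 := sin_pos_of_pos_of_lt_pi pd0 (by linarith)
  have pS1 : 0 < sin d1 := sin_pos_of_pos_of_lt_pi pd1 (by linarith)
  have pS2 : 0 < sin d2 := sin_pos_of_pos_of_lt_pi pd2 (by linarith)
  have T0 : sin d0 = sin d1 * cos d2 + cos d1 * sin d2 := by
    rw [← sin_add, ← sin_pi_sub]; congr 1; linarith
  have T1 : sin d1 = sin d2 * cos d0 + cos d2 * sin d0 := by
    rw [← sin_add, ← sin_pi_sub]; congr 1; linarith
  have T2 : sin d2 = sin d0 * cos d1 + cos d0 * sin d1 := by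
    rw [← sin_add, ← sin_pi_sub]; congr 1; linarith
  have U0 : cos d0 = sin d1 * sin d2 - cos d1 * cos d2 := by
    have := cos_add d1 d2
    rw [show d1 + d2 = π - d0 by linarith, cos_pi_sub] at this; linarith
  have U1 : cos d1 = sin d2 * sin d0 - cos d2 * cos d0 := by
    have := cos_add d2 d0
    rw [show d2 + d0 = π - d1 by linarith, cos_pi_sub] at this; linarith
  have U2 : cos d2 = sin d0 * sin d1 - cos d0 * cos d1 := by
    have := cos_add d0 d1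
    rw [show d0 + d1 = π - d2 by linarith, cos_pi_sub] at this; linarith
  have hn : ¬ (cos d0 < 0 ∧ cos d1 < 0 ∧ cos d2 < 0) := by
    rintro ⟨a0, a1, a2⟩
    have key : ∀ d, 0 < d → cos d < 0 → π / 2 < d := by
      intro d hd h
      by_contra hc
      have := cos_nonneg_of_neg_pi_div_two_le_of_le (x := d) (by linarith) (not_lt.1 hc)
      linarith
    have := key d0 pd0 a0
    have := key d1 pd1 a1
    have := key d2 pd2 a2
    linarith
  have res := tr_alg (P.h ((b + c) / 2)) (P.h ((c + (s + 2 * π)) / 2)) (P.h ((s + b) / 2))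
    (P.h1 ((b + c) / 2)) (P.h1 ((c + (s + 2 * π)) / 2)) (P.h1 ((s + b) / 2))
    (sin d0) (sin d1) (sin d2) (cos d0) (cos d1) (cos d2) (P.s12 b c) (P.s12 c (s + 2 * π)) (P.s12 s b)
    nb (nb' * nb) pS0 pS1 pS2 R0 R1 R2 pNb pNc T0 T1 T2 U0 U1 U2 (sin_sq_add_cos_sq _)
    (sin_sq_add_cos_sq _) (sin_sq_add_cos_sq _) E1 E2 E3
    (by linear_combination J1)
    (by linear_combination nb * J2 - P.s12 c (s + 2 * π) * dggg)
    (by linear_combination (nb' * nb) * J3 -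
      (P.s12 c (s + 2 * π) - P.h ((c + (s + 2 * π)) / 2) * sin d1 + P.h1 ((c + (s + 2 * π)) / 2) * cos d1 +
        (P.s12 s b - P.h ((s + b) / 2) * sin d2 - P.h1 ((s + b) / 2) * cos d2) +
        P.s12 s b * nb) * dggg)
    (by linarith) (by linarith) (by linarith) hn
  obtain ⟨c0, c1, c2, r⟩ := res
  exact ⟨by positivity, by positivity, by positivity, r⟩

end Bil
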