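import Pool.Agent.Work.MP_aa14e2_an.Defs

/-! # the function `X` (proved) -/

noncomputable section
open Real Set
namespace Bil

theorem X_deriv (d : ℝ) : HasDerivAt X (sin (2 * d) ^ 2) d := by
  unfold X
  have h1 : HasDerivAt (fun d : ℝ => d / 2) (1 / 2) d := (hasDerivAt_id d).div_const 2
  have h2 : HasDerivAt (fun d : ℝ => sin (4 * d)) (cos (4 * d) * (4 * 1)) d :=
    ((hasDerivAt_id d).const_mul 4).sin
  refine (h1.sub (h2.div_const 8)).congr_deriv ?_
  have : cos (4 * d) = 1 - 2 * sin (2 * d) ^ 2 := by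
    rw [show 4 * d = 2 * (2 * d) by ring, cos_two_mul]
    linarith [sin_sq_add_cos_sq (2 * d)]
  rw [this]; ring

theorem X_cont : Continuous X := by
  unfold X; fun_prop

theorem X_zero : X 0 = 0 := by simp [X]

theorem X_sum {d0 d1 d2 : ℝ} (h : d0 + d1 + d2 = π) :
    2 * (X d0 + X d1 + X d2) = π + sin (2 * d0) * sin (2 * d1) * sin (2 * d2) := by
  have e : d2 = π - (d0 + d1) := by linarith
  have s2 : sin (2 * d2) = - sin (2 * (d0 + d1)) := by
    rw [e, show 2 * (π - (d0 + d1)) = 2 * π - 2 * (d0 + d1) by ring, sin_two_pi_sub]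
  have s4 : sin (4 * d2) = - sin (4 * (d0 + d1)) := by
    rw [e, show 4 * (π - (d0 + d1)) = 2 * π - 4 * (d0 + d1) + 2 * π by ring, sin_add_two_pi, sin_two_pi_sub]
  unfold X
  rw [s2, s4]
  have a1 : sin (4 * (d0 + d1)) = 2 * sin (2 * (d0 + d1)) * cos (2 * (d0 + d1)) := by
    rw [← sin_two_mul]; ring_nf
  have a2 : sin (4 * d0) = 2 * sin (2 * d0) * cos (2 * d0) := by rw [← sin_two_mul]; ring_nf
  have a3 : sin (4 * d1) = 2 * sin (2 * d1) * cos (2 * d1) := by rw [← sin_two_mul]; ring_nf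
  have a4 : sin (2 * (d0 + d1)) = sin (2 * d0) * cos (2 * d1) + cos (2 * d0) * sin (2 * d1) := by
    rw [mul_add, sin_add]
  have a5 : cos (2 * (d0 + d1)) = cos (2 * d0) * cos (2 * d1) - sin (2 * d0) * sin (2 * d1) := by
    rw [mul_add, cos_add]
  rw [a1, a2, a3, a4, a5, e]
  have b0 := sin_sq_add_cos_sq (2 * d0)
  have b1 := sin_sq_add_cos_sq (2 * d1)
  generalize sin (2 * d0) = S0 at *
  generalize cos (2 * d0) = C0 at *
  generalize sin (2 * d1) = S1 at *
  generalize cos (2 * d1) = C1 at *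
  linear_combination (1 / 2 * S1 * C1) * b0 + (1 / 2 * S0 * C0) * b1

end Bil
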