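import Pool.Agent.Work.MP_aa14e2_an.Ident
import Pool.Agent.Work.MP_aa14e2_an.FormPoly
import Pool.Agent.Work.MP_aa14e2_an.TriRel
import Pool.Agent.Work.MP_aa14e2_an.XFun

/-!
# Module FormNeg  (120-220 lines; uses the statements `hopf_K`, `form_poly`, `tri_rel`, `X_deriv`, `X_sum`)

PROOF.  Let `F2 s = (v'² X(δ) - 4 v²(δ-X(δ))) w + s2² s1 (s11 + s12 g1)` be the integrand of `hopf_K` at `s`; with `K s = (P.f g s)²/2`:
`s2 s (g s) = f g (g s)`, `s1 s (g s) = - f g s`, so the last term is `2 K(g s) K'(s)`, where `K' s = s1 (s11 + s12 g1)` is the derivative of `K` at `s`.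
`∫_0^{2π} F2 (g s) g1 s ds = ∫_0^{2π} F2 = ∫_0^{2π} F2 (g (g s)) g1 (g s) g1 s ds` (substitution + periodicity), so
`3 ∫ F2 = ∫ [F2 s + F2 (g s) Nb + F2 (g g s) Nc] ds ≤ 0`.  At `s`, with the notation of `Curve.lean` and `Ka = K s, Kb = K (g s), Kc = K(g g s)`,
`Ka' = K' s`, `Kb' = K'(g s) Nb`, `Kc' = K'(g g s) Nc` (derivatives of `s ↦ K(s), K(g s), K(g g s)`), this bracket is the left side of `form_poly`:
 * `v_i = P.h ψ_i * P.h1 ψ_i = ⟨(w.P,w.Q),e_i⟩` by `Rep` at `s`, `g s`, `g (g s)` and invariance of `w` (`ψ1 = (c+a+2π)/2`, `cos(c + (a+2π)) = cos (c+a)`);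
 * differentiating `v(ψ_i) = P cos α_i + Q sin α_i`: `(h1²+h h2)(ψ_i) w_i = g_i + 2 w_i k_i` (`α_i' = 2 w_i`; speeds of `ψ_i`: `w_i`), so
   `(h1²+hh2)² X w_i = (g_i + 2w_ik_i)²/w_i X`;
 * `v2 sin(b-a) = Kb - Ka`: `h h1 sin 2δ = (s2² - s1²)/2` (ring: `s2 - s1 = 2 h cos δ`, `s2 + s1 = 2 h1 sin δ`), similarly the others, and their derivatives;
 * `δ_i = 2 X(δ_i) + sin 2δ_i cos 2δ_i /2`; `∑ δ_i = π`; `X_sum`.
The right side of `form_poly` is `dens s + (d/ds)(2 ∑ x_i v_i k_i + KaKb+KbKc+KcKa)`; the derivative integrates to `0` over a period (the function is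
`2π`-periodic in `s`; also it is a function with a continuous derivative).  Hence `form = 3 ∫ F2 ≤ 0`.
-/

noncomputable section
open Real Set MeasureTheory
namespace Bil

namespace FormNeg

variable {P : Supp} (t : Tri P)

lemma g3 (s : ℝ) : t.g (t.g (t.g s)) = s + 2 * π := by
  have := t.rat.iter s
  simpa using this

lemma gper (s : ℝ) : t.g (s + 2 * π) = t.g s + 2 * π := t.rat.per s

lemma g1per (s : ℝ) : t.g1 (s + 2 * π) = t.g1 s := by
  have h1 : HasDerivAt (fun y => t.g (y + 2 * π)) (t.g1 (s + 2 * π)) s := by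
    simpa using (t.dg (s + 2 * π)).comp_add_const s (2 * π)
  have h2 : (fun y => t.g (y + 2 * π)) = fun y => t.g y + 2 * π := funext (gper t)
  rw [h2] at h1
  exact h1.unique ((t.dg s).add_const _)

lemma dgg (s : ℝ) : HasDerivAt (fun s => t.g (t.g s)) (t.g1 (t.g s) * t.g1 s) s :=
  (t.dg (t.g s)).comp s (t.dg s)

lemma g1_prod (s : ℝ) : t.g1 (t.g (t.g s)) * (t.g1 (t.g s) * t.g1 s) = 1 := by
  have h1 : HasDerivAt (fun s => t.g (t.g (t.g s))) (t.g1 (t.g (t.g s)) * (t.g1 (t.g s) * t.g1 s)) s :=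
    (t.dg (t.g (t.g s))).comp s (dgg t s)
  have h2 : (fun s => t.g (t.g (t.g s))) = fun s => s + 2 * π := funext (g3 t)
  rw [h2] at h1
  exact h1.unique ((hasDerivAt_id s).add_const _)

def K (x : ℝ) : ℝ := P.f t.g x ^ 2 / 2

def K' (x : ℝ) : ℝ := P.s1 x (t.g x) * (P.s11 x (t.g x) + P.s12 x (t.g x) * t.g1 x)

lemma dmid (x : ℝ) : HasDerivAt (fun x => (x + t.g x) / 2) ((1 + t.g1 x) / 2) x :=
  ((hasDerivAt_id x).add (t.dg x)).div_const 2

lemma ddif (x : ℝ) : HasDerivAt (fun x => (t.g x - x) / 2) ((t.g1 x - 1) / 2) x :=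
  ((t.dg x).sub (hasDerivAt_id x)).div_const 2

lemma df (x : ℝ) : HasDerivAt (fun x => P.s1 x (t.g x)) (P.s11 x (t.g x) + P.s12 x (t.g x) * t.g1 x) x := by
  have m := dmid t x
  have n := ddif t x
  have a := (P.d1 ((x + t.g x) / 2)).comp x m
  have b := (P.d0 ((x + t.g x) / 2)).comp x m
  have := (a.mul n.sin).sub (b.mul n.cos)
  refine this.congr_deriv ?_
  simp only [Supp.s11, Supp.s12, Function.comp]
  ring

lemma dK (x : ℝ) : HasDerivAt (K t) (K' t x) x := by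
  have h1 : K t = fun x => (P.s1 x (t.g x)) ^ 2 / 2 := by
    funext x; simp [K, Supp.f]
  rw [h1]
  refine (((df t x).pow 2).div_const 2).congr_deriv ?_
  simp only [K']
  push_cast
  ring

lemma Kper (x : ℝ) : K t (x + 2 * π) = K t x := by
  unfold K; rw [f_per t.rat.toIsCircle]

lemma Kg (x : ℝ) : K t (t.g x) = K t x + (P.h ((x + t.g x) / 2) * P.h1 ((x + t.g x) / 2)) * sin (t.g x - x) := by
  have hf : P.f t.g (t.g x) = P.s2 x (t.g x) := f_g t.rat.toIsCircle x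
  unfold K
  rw [hf]
  simp only [Supp.f, Supp.s1, Supp.s2]
  have sd : sin (t.g x - x) = 2 * sin ((t.g x - x) / 2) * cos ((t.g x - x) / 2) := by
    rw [← sin_two_mul]; ring_nf
  rw [sd]; ring

/-- the integrand of `hopf_K` -/
def F2 (s : ℝ) : ℝ :=
  (((P.h1 ((s + t.g s) / 2) ^ 2 + P.h ((s + t.g s) / 2) * P.h2 ((s + t.g s) / 2)) ^ 2 * X ((t.g s - s) / 2)
          - 4 * (P.h ((s + t.g s) / 2) * P.h1 ((s + t.g s) / 2)) ^ 2 * ((t.g s - s) / 2 - X ((t.g s - s) / 2)))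
            * ((1 + t.g1 s) / 2)
        + P.s2 s (t.g s) ^ 2 * (P.s1 s (t.g s) * (P.s11 s (t.g s) + P.s12 s (t.g s) * t.g1 s)))

lemma F2_eq (s : ℝ) : F2 t s =
    ((P.h1 ((s + t.g s) / 2) ^ 2 + P.h ((s + t.g s) / 2) * P.h2 ((s + t.g s) / 2)) ^ 2 * X ((t.g s - s) / 2)
          - 4 * (P.h ((s + t.g s) / 2) * P.h1 ((s + t.g s) / 2)) ^ 2 * ((t.g s - s) / 2 - X ((t.g s - s) / 2)))
            * ((1 + t.g1 s) / 2) + 2 * K t (t.g s) * K' t s := by
  have hf : P.f t.g (t.g s) = P.s2 s (t.g s) := f_g t.rat.toIsCircle s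
  unfold F2 K K'
  rw [hf]; ring

lemma F2_per (s : ℝ) : F2 t (s + 2 * π) = F2 t s := by
  unfold F2
  have e1 : (s + 2 * π + (t.g s + 2 * π)) / 2 = (s + t.g s) / 2 + 2 * π := by ring
  have e2 : t.g s + 2 * π - (s + 2 * π) = t.g s - s := by ring
  rw [gper, g1per, e1, e2, P.per, P.per1, P.per2, P.s1_shift, P.s2_shift, P.s11_shift, P.s12_shift]

lemma F2_cont : Continuous (F2 t) := by
  have hg : Continuous t.g := t.rat.cont
  have hg1 := t.cg
  have hX : Continuous X := X_cont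
  have c0 := P.c0
  have c1 := P.c1
  have c2 := P.c2
  have k1 : Continuous fun s => P.s1 s (t.g s) := P.cs1.comp (continuous_id.prodMk hg)
  have k2 : Continuous fun s => P.s2 s (t.g s) := P.cs2.comp (continuous_id.prodMk hg)
  have k3 : Continuous fun s => P.s11 s (t.g s) := P.cs11.comp (continuous_id.prodMk hg)
  have k4 : Continuous fun s => P.s12 s (t.g s) := P.cs12.comp (continuous_id.prodMk hg)
  unfold F2
  fun_prop

lemma int_shift {F : ℝ → ℝ} (hF : Continuous F) (hp : ∀ s, F (s + 2 * π) = F s) :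
    ∫ s in (0:ℝ)..(2 * π), F (t.g s) * t.g1 s = ∫ s in (0:ℝ)..(2 * π), F s := by
  have h1 : ∫ s in (0:ℝ)..(2 * π), (F ∘ t.g) s * t.g1 s = ∫ u in t.g 0..t.g (2 * π), F u :=
    intervalIntegral.integral_comp_mul_deriv (fun x _ => t.dg x) t.cg.continuousOn hF
  have h2 : t.g (2 * π) = t.g 0 + 2 * π := by
    have := gper t 0
    rwa [zero_add] at this
  have hper : Function.Periodic F (2 * π) := hp
  have h3 := hper.intervalIntegral_add_eq (t.g 0) 0
  rw [zero_add] at h3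
  simp only [Function.comp] at h1
  rw [h1, h2, h3]

lemma int_three :
    ∫ s in (0:ℝ)..(2 * π), (F2 t s + F2 t (t.g s) * t.g1 s + F2 t (t.g (t.g s)) * (t.g1 (t.g s) * t.g1 s)) =
      3 * ∫ s in (0:ℝ)..(2 * π), F2 t s := by
  have c0 := F2_cont t
  have hg : Continuous t.g := t.rat.cont
  have hg1 := t.cg
  have c1 : Continuous fun s => F2 t (t.g s) * t.g1 s := (c0.comp hg).mul hg1
  have c2 : Continuous fun s => F2 t (t.g (t.g s)) * (t.g1 (t.g s) * t.g1 s) :=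
    (c0.comp (hg.comp hg)).mul ((hg1.comp hg).mul hg1)
  have c01 : Continuous fun s => F2 t s + F2 t (t.g s) * t.g1 s := c0.add c1
  rw [intervalIntegral.integral_add (c01.intervalIntegrable _ _) (c2.intervalIntegrable _ _),
    intervalIntegral.integral_add (c0.intervalIntegrable _ _) (c1.intervalIntegrable _ _)]
  have e1 := int_shift t c0 (F2_per t)
  have e2 := int_shift t c1 (fun s => by rw [gper, F2_per, g1per])
  have e3 : ∀ s, F2 t (t.g (t.g s)) * (t.g1 (t.g s) * t.g1 s) = F2 t (t.g (t.g s)) * t.g1 (t.g s) * t.g1 s :=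
    fun s => by ring
  simp_rw [e3]
  rw [e2, e1]
  ring

variable {t} (w : Crv t.g)

/-- the function whose derivative appears -/
def H (t : Tri P) (w : Crv t.g) (s : ℝ) : ℝ :=
  2 * (X ((t.g (t.g s) - t.g s) / 2)
        * (w.P s * cos (t.g s + t.g (t.g s)) + w.Q s * sin (t.g s + t.g (t.g s)))
        * (w.Q s * cos (t.g s + t.g (t.g s)) - w.P s * sin (t.g s + t.g (t.g s)))
    + X ((s + 2 * π - t.g (t.g s)) / 2)
        * (w.P s * cos (t.g (t.g s) + s) + w.Q s * sin (t.g (t.g s) + s))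
        * (w.Q s * cos (t.g (t.g s) + s) - w.P s * sin (t.g (t.g s) + s))
    + X ((t.g s - s) / 2)
        * (w.P s * cos (s + t.g s) + w.Q s * sin (s + t.g s))
        * (w.Q s * cos (s + t.g s) - w.P s * sin (s + t.g s)))
  + (K t s * K t (t.g s) + K t (t.g s) * K t (t.g (t.g s)) + K t (t.g (t.g s)) * K t s)

lemma wP_per (s : ℝ) : w.P (s + 2 * π) = w.P s := by
  rw [← g3 t s, w.invP, w.invP, w.invP]

lemma wQ_per (s : ℝ) : w.Q (s + 2 * π) = w.Q s := by
  rw [← g3 t s, w.invQ, w.invQ, w.invQ]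

lemma H_per (s : ℝ) : H t w (s + 2 * π) = H t w s := by
  unfold H
  have e1 : t.g s + 2 * π + (t.g (t.g s) + 2 * π) = t.g s + t.g (t.g s) + 2 * π + 2 * π := by ring
  have e2 : t.g (t.g s) + 2 * π + (s + 2 * π) = t.g (t.g s) + s + 2 * π + 2 * π := by ring
  have e3 : s + 2 * π + (t.g s + 2 * π) = s + t.g s + 2 * π + 2 * π := by ring
  have e4 : t.g (t.g s) + 2 * π - (t.g s + 2 * π) = t.g (t.g s) - t.g s := by ring
  have e5 : s + 2 * π + 2 * π - (t.g (t.g s) + 2 * π) = s + 2 * π - t.g (t.g s) := by ring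
  have e6 : t.g s + 2 * π - (s + 2 * π) = t.g s - s := by ring
  rw [wP_per, wQ_per, gper, gper, Kper, Kper, Kper, e1, e2, e3, e4, e5, e6]
  simp only [cos_add_two_pi, sin_add_two_pi]

/-- derivatives of the coordinates in the moving frame -/
lemma dv {α : ℝ → ℝ} {α' s : ℝ} (hα : HasDerivAt α α' s) :
    HasDerivAt (fun s => w.P s * cos (α s) + w.Q s * sin (α s))
      ((w.P' s * cos (α s) + w.Q' s * sin (α s)) + α' * (w.Q s * cos (α s) - w.P s * sin (α s))) s := by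
  refine (((w.dP s).mul hα.cos).add ((w.dQ s).mul hα.sin)).congr_deriv ?_
  ring

lemma dk {α : ℝ → ℝ} {α' s : ℝ} (hα : HasDerivAt α α' s) :
    HasDerivAt (fun s => w.Q s * cos (α s) - w.P s * sin (α s))
      ((w.Q' s * cos (α s) - w.P' s * sin (α s)) - α' * (w.P s * cos (α s) + w.Q s * sin (α s))) s := by
  refine (((w.dQ s).mul hα.cos).sub ((w.dP s).mul hα.sin)).congr_deriv ?_
  ring

lemma dX {d : ℝ → ℝ} {d' s : ℝ} (hd : HasDerivAt d d' s) :
    HasDerivAt (fun s => X (d s)) (sin (2 * d s) ^ 2 * d') s := (X_deriv (d s)).comp s hd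

lemma X_split (d : ℝ) : d = 2 * X d + sin (2 * d) * cos (2 * d) / 2 := by
  unfold X
  have : sin (4 * d) = 2 * sin (2 * d) * cos (2 * d) := by rw [← sin_two_mul]; ring_nf
  rw [this]; ring

lemma pt (hw : Rep t.g (fun x => P.h x * P.h1 x) w) (s : ℝ) :
    HasDerivAt (H t w) (F2 t s + F2 t (t.g s) * t.g1 s + F2 t (t.g (t.g s)) * (t.g1 (t.g s) * t.g1 s)
      - dens t.g t.g1 w s) s := by
  have da := hasDerivAt_id s
  have db := t.dg s
  have dc := dgg t s
  have hα0 : HasDerivAt (fun s => t.g s + t.g (t.g s)) (t.g1 s + t.g1 (t.g s) * t.g1 s) s := db.add dc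
  have hα1 : HasDerivAt (fun s => t.g (t.g s) + s) (t.g1 (t.g s) * t.g1 s + 1) s := dc.add da
  have hα2 : HasDerivAt (fun s => s + t.g s) (1 + t.g1 s) s := da.add db
  have hd0 : HasDerivAt (fun s => (t.g (t.g s) - t.g s) / 2) ((t.g1 (t.g s) * t.g1 s - t.g1 s) / 2) s :=
    (dc.sub db).div_const 2
  have hd1 : HasDerivAt (fun s => (s + 2 * π - t.g (t.g s)) / 2) ((1 - t.g1 (t.g s) * t.g1 s) / 2) s :=
    ((da.add_const (2 * π)).sub dc).div_const 2
  have hd2 : HasDerivAt (fun s => (t.g s - s) / 2) ((t.g1 s - 1) / 2) s := (db.sub da).div_const 2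
  have dKa := dK t s
  have dKb : HasDerivAt (fun s => K t (t.g s)) (K' t (t.g s) * t.g1 s) s := (dK t (t.g s)).comp s db
  have dKc : HasDerivAt (fun s => K t (t.g (t.g s))) (K' t (t.g (t.g s)) * (t.g1 (t.g s) * t.g1 s)) s := by
    have := (dK t (t.g (t.g s))).comp s dc
    exact this
  have hH := (((((dX hd0).mul (dv w hα0)).mul (dk w hα0)).add (((dX hd1).mul (dv w hα1)).mul (dk w hα1))).add
    (((dX hd2).mul (dv w hα2)).mul (dk w hα2))).const_mul 2 |>.add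
    (((dKa.mul dKb).add (dKb.mul dKc)).add (dKc.mul dKa))
  -- representation of `v`
  have r2 : ∀ s, P.h ((s + t.g s) / 2) * P.h1 ((s + t.g s) / 2) = w.P s * cos (s + t.g s) + w.Q s * sin (s + t.g s) :=
    fun s => hw s
  have r0 : ∀ s, P.h ((t.g s + t.g (t.g s)) / 2) * P.h1 ((t.g s + t.g (t.g s)) / 2) =
      w.P s * cos (t.g s + t.g (t.g s)) + w.Q s * sin (t.g s + t.g (t.g s)) := fun s => by
    have := r2 (t.g s)
    rwa [w.invP, w.invQ] at this
  have r1 : ∀ s, P.h ((t.g (t.g s) + (s + 2 * π)) / 2) * P.h1 ((t.g (t.g s) + (s + 2 * π)) / 2) =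
      w.P s * cos (t.g (t.g s) + s) + w.Q s * sin (t.g (t.g s) + s) := fun s => by
    have := r0 (t.g s)
    rw [w.invP, w.invQ, g3 t s, ← add_assoc, cos_add_two_pi, sin_add_two_pi] at this
    rw [← this, ← add_assoc]
  have dvv : ∀ x, HasDerivAt (fun x => P.h x * P.h1 x) (P.h1 x ^ 2 + P.h x * P.h2 x) x := fun x =>
    ((P.d0 x).mul (P.d1 x)).congr_deriv (by ring)
  have R2 : (P.h1 ((s + t.g s) / 2) ^ 2 + P.h ((s + t.g s) / 2) * P.h2 ((s + t.g s) / 2)) * ((1 + t.g1 s) / 2) =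
      (w.P' s * cos (s + t.g s) + w.Q' s * sin (s + t.g s)) + (1 + t.g1 s) * (w.Q s * cos (s + t.g s) - w.P s * sin (s + t.g s)) := by
    have a0 := (dvv ((s + t.g s) / 2)).comp s (hα2.div_const 2)
    have a : HasDerivAt (fun s => P.h ((s + t.g s) / 2) * P.h1 ((s + t.g s) / 2)) _ s := a0
    rw [funext r2] at a
    exact a.unique (dv w hα2)
  have R0 : (P.h1 ((t.g s + t.g (t.g s)) / 2) ^ 2 + P.h ((t.g s + t.g (t.g s)) / 2) * P.h2 ((t.g s + t.g (t.g s)) / 2))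
        * ((t.g1 s + t.g1 (t.g s) * t.g1 s) / 2) =
      (w.P' s * cos (t.g s + t.g (t.g s)) + w.Q' s * sin (t.g s + t.g (t.g s)))
        + (t.g1 s + t.g1 (t.g s) * t.g1 s) * (w.Q s * cos (t.g s + t.g (t.g s)) - w.P s * sin (t.g s + t.g (t.g s))) := by
    have a0 := (dvv ((t.g s + t.g (t.g s)) / 2)).comp s (hα0.div_const 2)
    have a : HasDerivAt (fun s => P.h ((t.g s + t.g (t.g s)) / 2) * P.h1 ((t.g s + t.g (t.g s)) / 2)) _ s := a0
    rw [funext r0] at a
    exact a.unique (dv w hα0)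
  have hα1' : HasDerivAt (fun s => t.g (t.g s) + (s + 2 * π)) (t.g1 (t.g s) * t.g1 s + 1) s :=
    dc.add (da.add_const (2 * π))
  have R1 : (P.h1 ((t.g (t.g s) + (s + 2 * π)) / 2) ^ 2
        + P.h ((t.g (t.g s) + (s + 2 * π)) / 2) * P.h2 ((t.g (t.g s) + (s + 2 * π)) / 2))
        * ((t.g1 (t.g s) * t.g1 s + 1) / 2) =
      (w.P' s * cos (t.g (t.g s) + s) + w.Q' s * sin (t.g (t.g s) + s))
        + (t.g1 (t.g s) * t.g1 s + 1) * (w.Q s * cos (t.g (t.g s) + s) - w.P s * sin (t.g (t.g s) + s)) := by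
    have a0 := (dvv ((t.g (t.g s) + (s + 2 * π)) / 2)).comp s (hα1'.div_const 2)
    have a : HasDerivAt (fun s => P.h ((t.g (t.g s) + (s + 2 * π)) / 2) * P.h1 ((t.g (t.g s) + (s + 2 * π)) / 2)) _ s := a0
    rw [funext r1] at a
    exact a.unique (dv w hα1)
  -- the K relations
  have kb : ∀ s, K t (t.g s) = K t s + (w.P s * cos (s + t.g s) + w.Q s * sin (s + t.g s)) * sin (t.g s - s) :=
    fun s => by rw [Kg, r2]
  have kc : ∀ s, K t (t.g (t.g s)) = K t (t.g s)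
      + (w.P s * cos (t.g s + t.g (t.g s)) + w.Q s * sin (t.g s + t.g (t.g s))) * sin (t.g (t.g s) - t.g s) :=
    fun s => by rw [Kg t (t.g s), r0]
  have hs2 : HasDerivAt (fun s => sin (t.g s - s)) (cos (t.g s - s) * (t.g1 s - 1)) s := (db.sub da).sin
  have hs0 : HasDerivAt (fun s => sin (t.g (t.g s) - t.g s))
      (cos (t.g (t.g s) - t.g s) * (t.g1 (t.g s) * t.g1 s - t.g1 s)) s := (dc.sub db).sin
  have kb' : K' t (t.g s) * t.g1 s = K' t s +
      (((w.P' s * cos (s + t.g s) + w.Q' s * sin (s + t.g s)) + (1 + t.g1 s) * (w.Q s * cos (s + t.g s) - w.P s * sin (s + t.g s)))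
        * sin (t.g s - s) + (w.P s * cos (s + t.g s) + w.Q s * sin (s + t.g s)) * (cos (t.g s - s) * (t.g1 s - 1))) := by
    have a := dKb
    rw [funext kb] at a
    exact a.unique (dKa.add ((dv w hα2).mul hs2))
  have kc' : K' t (t.g (t.g s)) * (t.g1 (t.g s) * t.g1 s) = K' t (t.g s) * t.g1 s +
      (((w.P' s * cos (t.g s + t.g (t.g s)) + w.Q' s * sin (t.g s + t.g (t.g s)))
        + (t.g1 s + t.g1 (t.g s) * t.g1 s) * (w.Q s * cos (t.g s + t.g (t.g s)) - w.P s * sin (t.g s + t.g (t.g s))))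
        * sin (t.g (t.g s) - t.g s) + (w.P s * cos (t.g s + t.g (t.g s)) + w.Q s * sin (t.g s + t.g (t.g s)))
          * (cos (t.g (t.g s) - t.g s) * (t.g1 (t.g s) * t.g1 s - t.g1 s))) := by
    have a := dKc
    rw [funext kc] at a
    exact a.unique (dKb.add ((dv w hα0).mul hs0))
  have p1 := t.pos s
  have p2 := t.pos (t.g s)
  have hsum : (t.g (t.g s) - t.g s) / 2 + (s + 2 * π - t.g (t.g s)) / 2 + (t.g s - s) / 2 = π := by ring
  have t0 : 2 * ((t.g (t.g s) - t.g s) / 2) = t.g (t.g s) - t.g s := by ring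
  have t1 : 2 * ((s + 2 * π - t.g (t.g s)) / 2) = s - t.g (t.g s) + 2 * π := by ring
  have t2 : 2 * ((t.g s - s) / 2) = t.g s - s := by ring
  have fp := form_poly (cos (t.g s + t.g (t.g s))) (sin (t.g s + t.g (t.g s))) (cos (t.g (t.g s) + s))
    (sin (t.g (t.g s) + s)) (cos (s + t.g s)) (sin (s + t.g s)) (w.P s) (w.Q s) (w.P' s) (w.Q' s)
    (X ((t.g (t.g s) - t.g s) / 2)) (X ((s + 2 * π - t.g (t.g s)) / 2)) (X ((t.g s - s) / 2))
    1 (t.g1 s) (t.g1 (t.g s) * t.g1 s) π (K t s) (K t (t.g s)) (K t (t.g (t.g s)))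
    (K' t s) (K' t (t.g s) * t.g1 s) (K' t (t.g (t.g s)) * (t.g1 (t.g s) * t.g1 s))
    (cos_sq_add_sin_sq _) (cos_sq_add_sin_sq _) (cos_sq_add_sin_sq _)
    (sin (t.g (t.g s) - t.g s)) (sin (s - t.g (t.g s))) (sin (t.g s - s))
    (cos (t.g (t.g s) - t.g s)) (cos (s - t.g (t.g s))) (cos (t.g s - s))
    ((t.g1 s + t.g1 (t.g s) * t.g1 s) / 2) ((t.g1 (t.g s) * t.g1 s + 1) / 2) ((1 + t.g1 s) / 2)
    ((t.g1 (t.g s) * t.g1 s - t.g1 s) / 2) ((1 - t.g1 (t.g s) * t.g1 s) / 2) ((t.g1 s - 1) / 2)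
    ((t.g (t.g s) - t.g s) / 2) ((s + 2 * π - t.g (t.g s)) / 2) ((t.g s - s) / 2)
    (w.P s * cos (t.g s + t.g (t.g s)) + w.Q s * sin (t.g s + t.g (t.g s)))
    (w.P s * cos (t.g (t.g s) + s) + w.Q s * sin (t.g (t.g s) + s))
    (w.P s * cos (s + t.g s) + w.Q s * sin (s + t.g s))
    (w.Q s * cos (t.g s + t.g (t.g s)) - w.P s * sin (t.g s + t.g (t.g s)))
    (w.Q s * cos (t.g (t.g s) + s) - w.P s * sin (t.g (t.g s) + s))
    (w.Q s * cos (s + t.g s) - w.P s * sin (s + t.g s))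
    (w.P' s * cos (t.g s + t.g (t.g s)) + w.Q' s * sin (t.g s + t.g (t.g s)))
    (w.P' s * cos (t.g (t.g s) + s) + w.Q' s * sin (t.g (t.g s) + s))
    (w.P' s * cos (s + t.g s) + w.Q' s * sin (s + t.g s))
    (w.Q' s * cos (t.g s + t.g (t.g s)) - w.P' s * sin (t.g s + t.g (t.g s)))
    (w.Q' s * cos (t.g (t.g s) + s) - w.P' s * sin (t.g (t.g s) + s))
    (w.Q' s * cos (s + t.g s) - w.P' s * sin (s + t.g s))
    (by rw [← sin_sub]; ring_nf) (by rw [← sin_sub]; ring_nf) (by rw [← sin_sub]; ring_nf)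
    (by rw [← cos_sub]; ring_nf) (by rw [← cos_sub]; ring_nf) (by rw [← cos_sub]; ring_nf)
    rfl rfl rfl (by positivity) (by positivity) (by positivity) rfl rfl rfl
    (by
      have := X_split ((t.g (t.g s) - t.g s) / 2)
      rw [t0] at this
      exact this)
    (by
      have := X_split ((s + 2 * π - t.g (t.g s)) / 2)
      rw [t1, sin_add_two_pi, cos_add_two_pi] at this
      exact this)
    (by
      have := X_split ((t.g s - s) / 2)
      rw [t2] at this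
      exact this)
    hsum
    (by
      have := X_sum hsum
      rw [t0, t1, t2, sin_add_two_pi] at this
      exact this)
    rfl rfl rfl rfl rfl rfl rfl rfl rfl rfl rfl rfl
    (kb s) (kc s)
    (by rw [kb']; ring) (by rw [kc']; ring)
  have n0 : (t.g1 s + t.g1 (t.g s) * t.g1 s) / 2 ≠ 0 := by positivity
  have n1 : (t.g1 (t.g s) * t.g1 s + 1) / 2 ≠ 0 := by positivity
  have n2 : (1 + t.g1 s) / 2 ≠ 0 := by positivity
  have V0 := eq_div_of_mul_eq n0 R0
  have V1 := eq_div_of_mul_eq n1 R1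
  have V2 := eq_div_of_mul_eq n2 R2
  have L2 : F2 t s = ((w.P' s * cos (s + t.g s) + w.Q' s * sin (s + t.g s))
        + 2 * ((1 + t.g1 s) / 2) * (w.Q s * cos (s + t.g s) - w.P s * sin (s + t.g s))) ^ 2 / ((1 + t.g1 s) / 2)
        * X ((t.g s - s) / 2)
      - 4 * (w.P s * cos (s + t.g s) + w.Q s * sin (s + t.g s)) ^ 2 * ((t.g s - s) / 2 - X ((t.g s - s) / 2))
        * ((1 + t.g1 s) / 2) + 2 * (K t (t.g s) * K' t s) := by
    rw [F2_eq, r2, V2]
    field_simp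
  have L0 : F2 t (t.g s) * t.g1 s = ((w.P' s * cos (t.g s + t.g (t.g s)) + w.Q' s * sin (t.g s + t.g (t.g s)))
        + 2 * ((t.g1 s + t.g1 (t.g s) * t.g1 s) / 2) * (w.Q s * cos (t.g s + t.g (t.g s))
          - w.P s * sin (t.g s + t.g (t.g s)))) ^ 2 / ((t.g1 s + t.g1 (t.g s) * t.g1 s) / 2)
        * X ((t.g (t.g s) - t.g s) / 2)
      - 4 * (w.P s * cos (t.g s + t.g (t.g s)) + w.Q s * sin (t.g s + t.g (t.g s))) ^ 2
        * ((t.g (t.g s) - t.g s) / 2 - X ((t.g (t.g s) - t.g s) / 2))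
        * ((t.g1 s + t.g1 (t.g s) * t.g1 s) / 2) + 2 * (K t (t.g (t.g s)) * (K' t (t.g s) * t.g1 s)) := by
    rw [F2_eq t (t.g s), r0, V0]
    field_simp
  have gp := g1_prod t s
  have L1 : F2 t (t.g (t.g s)) * (t.g1 (t.g s) * t.g1 s) =
      ((w.P' s * cos (t.g (t.g s) + s) + w.Q' s * sin (t.g (t.g s) + s))
        + 2 * ((t.g1 (t.g s) * t.g1 s + 1) / 2) * (w.Q s * cos (t.g (t.g s) + s)
          - w.P s * sin (t.g (t.g s) + s))) ^ 2 / ((t.g1 (t.g s) * t.g1 s + 1) / 2)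
        * X ((s + 2 * π - t.g (t.g s)) / 2)
      - 4 * (w.P s * cos (t.g (t.g s) + s) + w.Q s * sin (t.g (t.g s) + s)) ^ 2
        * ((s + 2 * π - t.g (t.g s)) / 2 - X ((s + 2 * π - t.g (t.g s)) / 2))
        * ((t.g1 (t.g s) * t.g1 s + 1) / 2) + 2 * (K t s * (K' t (t.g (t.g s)) * (t.g1 (t.g s) * t.g1 s))) := by
    rw [F2_eq t (t.g (t.g s)), g3, Kper, r1, V1]
    have e : (1 + t.g1 (t.g (t.g s))) / 2 * (t.g1 (t.g s) * t.g1 s) = (t.g1 (t.g s) * t.g1 s + 1) / 2 := by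
      linear_combination (1 / 2) * gp
    have e' : ∀ A B C : ℝ, (A * ((1 + t.g1 (t.g (t.g s))) / 2) + 2 * B * C) * (t.g1 (t.g s) * t.g1 s) =
        A * ((t.g1 (t.g s) * t.g1 s + 1) / 2) + 2 * (B * (C * (t.g1 (t.g s) * t.g1 s))) := by
      intro A B C
      rw [← e]; ring
    rw [e']
    field_simp
  have hH' : HasDerivAt (H t w) _ s := hH
  refine hH'.congr_deriv ?_
  rw [L0, L1, L2]
  unfold dens qd Nb Nc
  rw [t0, t1, t2, sin_add_two_pi]
  simp only [Pi.mul_apply]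
  linear_combination (-1 : ℝ) * fp

lemma dens_cont : Continuous (dens t.g t.g1 w) := by
  have hg : Continuous t.g := t.rat.cont
  have hg1 := t.cg
  have hX : Continuous X := X_cont
  have h1 := w.cP
  have h2 := w.cQ
  have h3 : Continuous w.P := continuous_iff_continuousAt.2 fun x => (w.dP x).continuousAt
  have h4 : Continuous w.Q := continuous_iff_continuousAt.2 fun x => (w.dQ x).continuousAt
  have p1 := t.pos
  unfold dens qd Nb Nc
  have e1 : ∀ s, (t.g1 s + t.g1 (t.g s) * t.g1 s) / 2 ≠ 0 := fun s => by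
    have := p1 s; have := p1 (t.g s); positivity
  have e2 : ∀ s, (t.g1 (t.g s) * t.g1 s + 1) / 2 ≠ 0 := fun s => by
    have := p1 s; have := p1 (t.g s); positivity
  have e3 : ∀ s, (1 + t.g1 s) / 2 ≠ 0 := fun s => by
    have := p1 s; positivity
  refine Continuous.sub ?_ (by fun_prop)
  refine Continuous.add (Continuous.add ?_ ?_) ?_
  · exact (Continuous.div (by fun_prop) (by fun_prop) e1).mul (by fun_prop)
  · exact (Continuous.div (by fun_prop) (by fun_prop) e2).mul (by fun_prop)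
  · exact (Continuous.div (by fun_prop) (by fun_prop) e3).mul (by fun_prop)

end FormNeg

open FormNeg in
theorem form_nonpos {P : Supp} (hF : Fam P) (t : Tri P) (w : Crv t.g)
    (hw : Rep t.g (fun x => P.h x * P.h1 x) w) : form t.g t.g1 w ≤ 0 := by
  have h0 : ∫ s in (0:ℝ)..(2 * π), F2 t s ≤ 0 := hopf_K hF t
  have c0 := F2_cont t
  have hg : Continuous t.g := t.rat.cont
  have hg1 := t.cg
  have cS : Continuous fun s => F2 t s + F2 t (t.g s) * t.g1 s + F2 t (t.g (t.g s)) * (t.g1 (t.g s) * t.g1 s) :=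
    (c0.add ((c0.comp hg).mul hg1)).add ((c0.comp (hg.comp hg)).mul ((hg1.comp hg).mul hg1))
  have cD := dens_cont w
  have h1 : ∫ s in (0:ℝ)..(2 * π), (F2 t s + F2 t (t.g s) * t.g1 s + F2 t (t.g (t.g s)) * (t.g1 (t.g s) * t.g1 s)
      - dens t.g t.g1 w s) = 0 := by
    rw [intervalIntegral.integral_eq_sub_of_hasDerivAt (fun x _ => pt w hw x)
      ((cS.sub cD).intervalIntegrable _ _)]
    have := H_per w 0
    rw [zero_add] at this
    rw [this, sub_self]
  rw [intervalIntegral.integral_sub (cS.intervalIntegrable _ _) (cD.intervalIntegrable _ _), int_three] at h1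
  unfold form
  linarith

end Bil
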