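import Pool.Agent.Work.MP_aa14e2_an.Curve

/-!
# Module Translate  (elementary, 50-100 lines).  The definition `Supp.tr` is FIXED (fill its proofs).

Translating the table by `(b1,b2)` adds `b1 cos + b2 sin` to the support function.
For `H0 ψ = b1 cos ψ + b2 sin ψ`: `H0' ψ sin δ - H0 ψ cos δ = - H0 (ψ-δ)`, `H0' ψ sin δ + H0 ψ cos δ = H0(ψ+δ)`, so
`(P.tr b1 b2).s1 x y = P.s1 x y - H0 x`, `(P.tr b1 b2).s2 x y = P.s2 x y + H0 y`, and the orbit equation is unchanged.
-/

noncomputable section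
open Real Set
namespace Bil

/-- translated support function -/
def Supp.tr (P : Supp) (b1 b2 : ℝ) : Supp where
  h x := P.h x + b1 * cos x + b2 * sin x
  h1 x := P.h1 x - b1 * sin x + b2 * cos x
  h2 x := P.h2 x - b1 * cos x - b2 * sin x
  d0 := by
    intro x
    have := ((P.d0 x).add ((hasDerivAt_cos x).const_mul b1)).add ((hasDerivAt_sin x).const_mul b2)
    refine this.congr_deriv ?_
    ring
  d1 := by
    intro x
    have := ((P.d1 x).sub ((hasDerivAt_sin x).const_mul b1)).add ((hasDerivAt_cos x).const_mul b2)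
    refine this.congr_deriv ?_
    ring
  c2 := by
    have := P.c2
    fun_prop
  per := by
    intro x
    simp only [P.per, cos_add_two_pi, sin_add_two_pi]
  pos := by
    intro x
    have := P.pos x
    linarith

private lemma tr_s1 (P : Supp) (b1 b2 x y : ℝ) :
    (P.tr b1 b2).s1 x y = P.s1 x y - (b1 * cos x + b2 * sin x) := by
  have hx : x = (x + y) / 2 - (y - x) / 2 := by ring
  have hc : cos x = cos ((x + y) / 2) * cos ((y - x) / 2) + sin ((x + y) / 2) * sin ((y - x) / 2) := by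
    conv_lhs => rw [hx]
    rw [cos_sub]
  have hs : sin x = sin ((x + y) / 2) * cos ((y - x) / 2) - cos ((x + y) / 2) * sin ((y - x) / 2) := by
    conv_lhs => rw [hx]
    rw [sin_sub]
  rw [hc, hs]
  simp only [Supp.s1, Supp.tr]
  ring

private lemma tr_s2 (P : Supp) (b1 b2 x y : ℝ) :
    (P.tr b1 b2).s2 x y = P.s2 x y + (b1 * cos y + b2 * sin y) := by
  have hx : y = (x + y) / 2 + (y - x) / 2 := by ring
  have hc : cos y = cos ((x + y) / 2) * cos ((y - x) / 2) - sin ((x + y) / 2) * sin ((y - x) / 2) := by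
    conv_lhs => rw [hx]
    rw [cos_add]
  have hs : sin y = sin ((x + y) / 2) * cos ((y - x) / 2) + cos ((x + y) / 2) * sin ((y - x) / 2) := by
    conv_lhs => rw [hx]
    rw [sin_add]
  rw [hc, hs]
  simp only [Supp.s2, Supp.tr]
  ring

theorem tr_circle {P : Supp} {g : ℝ → ℝ} (hg : IsCircle P g) (b1 b2 : ℝ) : IsCircle (P.tr b1 b2) g where
  mono := hg.mono
  cont := hg.cont
  per := hg.per
  lt := hg.lt
  lt2 := hg.lt2
  eq := by
    intro x
    have := hg.eq x
    rw [tr_s1, tr_s2]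
    linarith

theorem tr_fam {P : Supp} (hF : Fam P) (b1 b2 : ℝ) : Fam (P.tr b1 b2) := by
  intro p q hp hq hc
  obtain ⟨g, hg⟩ := hF p q hp hq hc
  exact ⟨g, { tr_circle hg.toIsCircle b1 b2 with qpos := hg.qpos, iter := hg.iter }⟩

theorem tr_tri {P : Supp} (t : Tri P) (b1 b2 : ℝ) : ∃ t' : Tri (P.tr b1 b2), t'.g = t.g ∧ t'.g1 = t.g1 :=
  ⟨{ g := t.g
     g1 := t.g1
     rat := { tr_circle t.rat.toIsCircle b1 b2 with qpos := t.rat.qpos, iter := t.rat.iter }
     dg := t.dg
     cg := t.cg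
     pos := t.pos }, rfl, rfl⟩

end Bil
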