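import Pool.Agent.Work.MP_aa14e2_an.Lin
import Pool.Agent.Work.MP_aa14e2_an.FormNeg
import Pool.Agent.Work.MP_aa14e2_an.ExistsCrv
import Pool.Agent.Work.MP_aa14e2_an.Translate
import Pool.Agent.Work.MP_aa14e2_an.C1

/-!
# Module Analytic  (final assembly of the analytic part, 120-200 lines)

PROOF.  `hF 1 3` gives `g₃`, `exists_tri` a `t : Tri P` with `t.g = g₃`.
Three functions: `va = h h1`, `vb = h1 cos - h sin = (h cos)'`, `vc = h1 sin + h cos = (h sin)'`; `K`-functions (with `f = P.f g`):
`Ka = f²/2`, `Kb = f cos`, `Kc = f sin`: `va ψ sin 2δ = (s2² - s1²)/2`, `vb ψ sin 2δ = s2 cos y + s1 cos x`, `vc ψ sin 2δ = s2 sin y + s1 sin x`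
(`x = ψ-δ`, `y = ψ+δ`; trigonometric identities) and `s2 x (g x) = f (g x)`, `s1 x (g x) = - f x`.
`exists_crv` gives curves `wa, wb, wc : Crv t.g`.
Linear structure: for reals `α β γ` and constants `κ1 κ2` define `α wa + β wb + γ wc + (κ1,κ2) : Crv t.g` (componentwise; invariance and derivatives clear).
`form` is a quadratic form, unchanged when constants are added: `dens` changes by `-π (κ1 Q' - κ2 P')`, whose integral over a period is `0`.
(1) For all `b1 b2`: `form (wa + b1 wb + b2 wc) ≤ 0`: apply `form_nonpos` to `P.tr b1 b2` (`tr_fam`, `tr_tri`) and the curve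
   `wa + b1 wb + b2 wc + const`: `H H1 = va + b1 vb + b2 vc + (b1 cos + b2 sin)(- b1 sin + b2 cos)` and the last function is the second harmonic
   `b1b2 cos 2x + (b2²-b1²)/2 sin 2x`, represented by the constant curve `(b1b2, (b2²-b1²)/2)`.
(2) Hence `form (α wa + β wb + γ wc) ≤ 0` for all `α ≠ 0` (homogeneity of degree 2) and by continuity in `α` (it is a polynomial in `α`) for all `α`.
(3) `lin_dep` gives `(α,β,γ) ≠ 0` with constant combination, and by `rep_const`
   `α va + β vb + γ vc = A cos 2x + B sin 2x` (the constant `κ` also gives a second harmonic).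
   Integrate: `α h²/2 + h (β cos + γ sin) = C0 + (A/2) sin 2x - (B/2) cos 2x` (both sides have the same derivative).
(4) `α ≠ 0`: with `b1 = β/α`, `b2 = γ/α`: `(h + b1 cos + b2 sin)² = 2(...)/α + (b1 cos + b2 sin)²`, a combination of `1, cos 2x, sin 2x`.
   `α = 0`: `h (β cos + γ sin) = C0 + ...` (harmonics 0 and 2).  Let `u = (β cos x + γ sin x)`, zero at `x₀` and `x₀+π`; then the right side vanishes at `x₀`
   , hence it is `u(x)·(β' cos x + γ' sin x)` for suitable `β' γ'` (a combination of `1, cos 2x, sin 2x` vanishing at `x₀`, i.e. with `y = x-x₀`: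
   `C(1 - cos 2y) + D sin 2y = 2 sin y (C sin y + D cos y)`), so `h = β' cos + γ' sin` where `u ≠ 0`, by continuity everywhere, and `h + h2 = 0` (derivatives), a contradiction
   with `pos`.
-/

noncomputable section
open Real Set MeasureTheory
namespace Bil

namespace Analytic

lemma g3 {P : Supp} (t : Tri P) (s : ℝ) : t.g (t.g (t.g s)) = s + 2 * π := by
  have := t.rat.iter s
  simpa using this

lemma P_per {P : Supp} (t : Tri P) (w : Crv t.g) (s : ℝ) : w.P (s + 2 * π) = w.P s := by
  rw [← g3 t s, w.invP, w.invP, w.invP]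

lemma Q_per {P : Supp} (t : Tri P) (w : Crv t.g) (s : ℝ) : w.Q (s + 2 * π) = w.Q s := by
  rw [← g3 t s, w.invQ, w.invQ, w.invQ]

lemma g_cont {P : Supp} (t : Tri P) : Continuous t.g := t.rat.cont

lemma dens_cont {P : Supp} (t : Tri P) (w : Crv t.g) : Continuous (dens t.g t.g1 w) := by
  have hg := g_cont t
  have hg1 := t.cg
  have hX : Continuous X := X_cont
  have h1 := w.cP
  have h2 := w.cQ
  have h3 : Continuous w.P := continuous_iff_continuousAt.2 fun x => (w.dP x).continuousAt
  have h4 : Continuous w.Q := continuous_iff_continuousAt.2 fun x => (w.dQ x).continuousAt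
  have p1 := t.pos
  unfold dens qd Nb Nc
  have e1 : ∀ s, (t.g1 s + t.g1 (t.g s) * t.g1 s) / 2 ≠ 0 := fun s => by
    have := p1 s; have := p1 (t.g s); positivity
  have e2 : ∀ s, (t.g1 (t.g s) * t.g1 s + 1) / 2 ≠ 0 := fun s => by
    have := p1 s; have := p1 (t.g s); positivity
  have e3 : ∀ s, (1 + t.g1 s) / 2 ≠ 0 := fun s => by
    have := p1 s; positivity
  refine Continuous.sub ?_ (by fun_prop)
  refine Continuous.add (Continuous.add ?_ ?_) ?_
  · exact (Continuous.div (by fun_prop) (by fun_prop) e1).mul (by fun_prop)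
  · exact (Continuous.div (by fun_prop) (by fun_prop) e2).mul (by fun_prop)
  · exact (Continuous.div (by fun_prop) (by fun_prop) e3).mul (by fun_prop)

/-- adding a constant does not change the form -/
lemma form_const {P : Supp} (t : Tri P) (wa wb wc : Crv t.g) (α β γ k1 k2 : ℝ) :
    form t.g t.g1 (wa.comb wb wc α β γ k1 k2) = form t.g t.g1 (wa.comb wb wc α β γ 0 0) := by
  have hp : ∀ w : Crv t.g, (∫ s in (0:ℝ)..(2 * π), w.P' s) = 0 := fun w => by
    rw [intervalIntegral.integral_eq_sub_of_hasDerivAt (fun x _ => w.dP x) (w.cP.intervalIntegrable _ _)]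
    have := P_per t w 0
    rw [zero_add] at this
    rw [this, sub_self]
  have hq : ∀ w : Crv t.g, (∫ s in (0:ℝ)..(2 * π), w.Q' s) = 0 := fun w => by
    rw [intervalIntegral.integral_eq_sub_of_hasDerivAt (fun x _ => w.dQ x) (w.cQ.intervalIntegrable _ _)]
    have := Q_per t w 0
    rw [zero_add] at this
    rw [this, sub_self]
  set w := wa.comb wb wc α β γ 0 0 with hw
  have e : ∀ s, dens t.g t.g1 (wa.comb wb wc α β γ k1 k2) s =
      dens t.g t.g1 w s + (-π * k1 * w.Q' s + π * k2 * w.P' s) := by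
    intro s
    simp only [dens, hw, Crv.comb]
    ring
  unfold form
  simp_rw [e]
  have i1 : Continuous fun s => -π * k1 * w.Q' s := continuous_const.mul w.cQ
  have i2 : Continuous fun s => π * k2 * w.P' s := continuous_const.mul w.cP
  have i3 : Continuous fun s => -π * k1 * w.Q' s + π * k2 * w.P' s := i1.add i2
  rw [intervalIntegral.integral_add ((dens_cont t w).intervalIntegrable _ _) (i3.intervalIntegrable _ _),
    intervalIntegral.integral_add (i1.intervalIntegrable _ _) (i2.intervalIntegrable _ _)]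
  rw [intervalIntegral.integral_const_mul, intervalIntegral.integral_const_mul, hp w, hq w]
  ring

lemma form_smul {P : Supp} (t : Tri P) (wa wb wc : Crv t.g) (c α β γ : ℝ) :
    form t.g t.g1 (wa.comb wb wc (c * α) (c * β) (c * γ) 0 0) =
      c ^ 2 * form t.g t.g1 (wa.comb wb wc α β γ 0 0) := by
  unfold form
  rw [← intervalIntegral.integral_const_mul]
  congr 1
  funext s
  simp only [dens, qd, Crv.comb]
  ring

lemma form_par {P : Supp} (t : Tri P) (wa wb wc : Crv t.g) (ε β γ : ℝ) :
    form t.g t.g1 (wa.comb wb wc ε β γ 0 0) + form t.g t.g1 (wa.comb wb wc (-ε) β γ 0 0) =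
      2 * form t.g t.g1 (wa.comb wb wc ε 0 0 0 0) + 2 * form t.g t.g1 (wa.comb wb wc 0 β γ 0 0) := by
  unfold form
  have i2 : ∀ w : Crv t.g, Continuous fun s => 2 * dens t.g t.g1 w s := fun w => continuous_const.mul (dens_cont t w)
  rw [← intervalIntegral.integral_const_mul, ← intervalIntegral.integral_const_mul,
    ← intervalIntegral.integral_add ((dens_cont t _).intervalIntegrable _ _) ((dens_cont t _).intervalIntegrable _ _),
    ← intervalIntegral.integral_add ((i2 _).intervalIntegrable _ _) ((i2 _).intervalIntegrable _ _)]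
  congr 1
  funext s
  simp only [dens, qd, Crv.comb]
  ring

/-- if the form is nonpositive on all combinations with first coefficient `1` then on all combinations -/
lemma form_all {P : Supp} (t : Tri P) (wa wb wc : Crv t.g)
    (h : ∀ b1 b2 : ℝ, form t.g t.g1 (wa.comb wb wc 1 b1 b2 0 0) ≤ 0) (α β γ : ℝ) :
    form t.g t.g1 (wa.comb wb wc α β γ 0 0) ≤ 0 := by
  have h1 : ∀ α β γ : ℝ, α ≠ 0 → form t.g t.g1 (wa.comb wb wc α β γ 0 0) ≤ 0 := by
    intro α β γ hα
    have := form_smul t wa wb wc α 1 (β / α) (γ / α)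
    rw [mul_one, mul_div_cancel₀ β hα, mul_div_cancel₀ γ hα] at this
    rw [this]
    exact mul_nonpos_of_nonneg_of_nonpos (sq_nonneg _) (h _ _)
  by_cases hα : α = 0
  · subst hα
    by_contra hc
    push Not at hc
    set F := form t.g t.g1 (wa.comb wb wc 0 β γ 0 0) with hF
    set E := form t.g t.g1 (wa.comb wb wc 1 0 0 0 0) with hE
    have key : ∀ ε : ℝ, ε ≠ 0 → F ≤ ε ^ 2 * (-E) := by
      intro ε hε
      have a := form_par t wa wb wc ε β γ
      have b := form_smul t wa wb wc ε 1 0 0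
      simp only [mul_one, mul_zero] at b
      rw [b, ← hF, ← hE] at a
      have c := h1 ε β γ hε
      have d := h1 (-ε) β γ (neg_ne_zero.2 hε)
      linarith
    have hE0 : 0 < -E := by
      have := key 1 one_ne_zero
      linarith
    have hpos : 0 < F / (2 * (-E)) := by positivity
    have := key (Real.sqrt (F / (2 * (-E)))) (Real.sqrt_pos.2 hpos).ne'
    rw [Real.sq_sqrt hpos.le] at this
    have e : F / (2 * (-E)) * (-E) = F / 2 := by
      have := hE0.ne'
      generalize -E = E' at *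
      field_simp
    rw [e] at this
    linarith
  · exact h1 α β γ hα

end Analytic

open Analytic in
theorem analytic (P : Supp) (hF : Fam P) : ∃ b1 b2 A B C : ℝ, ∀ x,
    (P.h x + b1 * cos x + b2 * sin x) ^ 2 = A + B * cos (2 * x) + C * sin (2 * x) := by
  obtain ⟨g₃, h3⟩ := hF 1 3 (by norm_num) (by norm_num) (by norm_num)
  obtain ⟨t, ht⟩ := exists_tri h3
  have hc : IsCircle P t.g := t.rat.toIsCircle
  -- the three functions
  set va : ℝ → ℝ := fun x => P.h x * P.h1 x with hva
  set vb : ℝ → ℝ := fun x => P.h1 x * cos x - P.h x * sin x with hvb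
  set vc : ℝ → ℝ := fun x => P.h1 x * sin x + P.h x * cos x with hvc
  have dva : ∀ x, HasDerivAt va (P.h1 x * P.h1 x + P.h x * P.h2 x) x := fun x => (P.d0 x).mul (P.d1 x)
  have dvb : ∀ x, HasDerivAt vb (P.h2 x * cos x + P.h1 x * (-sin x) - (P.h1 x * sin x + P.h x * cos x)) x :=
    fun x => ((P.d1 x).mul (Real.hasDerivAt_cos x)).sub ((P.d0 x).mul (Real.hasDerivAt_sin x))
  have dvc : ∀ x, HasDerivAt vc (P.h2 x * sin x + P.h1 x * cos x + (P.h1 x * cos x + P.h x * (-sin x))) x :=
    fun x => ((P.d1 x).mul (Real.hasDerivAt_sin x)).add ((P.d0 x).mul (Real.hasDerivAt_cos x))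
  have c0 := P.c0
  have c1 := P.c1
  have c2 := P.c2
  have hfg : ∀ s, P.f t.g (t.g s) = P.s2 s (t.g s) := fun s => f_g hc s
  have hff : ∀ s, P.f t.g s = - P.s1 s (t.g s) := fun s => rfl
  have key1 : ∀ s, P.s1 s (t.g s) = P.h1 ((s + t.g s) / 2) * sin ((t.g s - s) / 2)
      - P.h ((s + t.g s) / 2) * cos ((t.g s - s) / 2) := fun s => rfl
  have key2 : ∀ s, P.s2 s (t.g s) = P.h1 ((s + t.g s) / 2) * sin ((t.g s - s) / 2)
      + P.h ((s + t.g s) / 2) * cos ((t.g s - s) / 2) := fun s => rfl
  have sd : ∀ s, sin (t.g s - s) = 2 * sin ((t.g s - s) / 2) * cos ((t.g s - s) / 2) := fun s => by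
    rw [← sin_two_mul]; ring_nf
  have ex : ∀ s, cos s = cos ((s + t.g s) / 2) * cos ((t.g s - s) / 2)
      + sin ((s + t.g s) / 2) * sin ((t.g s - s) / 2) := fun s => by
    rw [← cos_sub]; ring_nf
  have ey : ∀ s, cos (t.g s) = cos ((s + t.g s) / 2) * cos ((t.g s - s) / 2)
      - sin ((s + t.g s) / 2) * sin ((t.g s - s) / 2) := fun s => by
    rw [← cos_add]; ring_nf
  have fx : ∀ s, sin s = sin ((s + t.g s) / 2) * cos ((t.g s - s) / 2)
      - cos ((s + t.g s) / 2) * sin ((t.g s - s) / 2) := fun s => by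
    rw [← sin_sub]; ring_nf
  have fy : ∀ s, sin (t.g s) = sin ((s + t.g s) / 2) * cos ((t.g s - s) / 2)
      + cos ((s + t.g s) / 2) * sin ((t.g s - s) / 2) := fun s => by
    rw [← sin_add]; ring_nf
  obtain ⟨wa, hwa⟩ := exists_crv t (v := va) (K := fun x => P.f t.g x ^ 2 / 2) dva (by fun_prop)
    (fun x => by simp only [hva, P.per, P.per1]) (fun x => by simp only [f_per hc]) (by
      intro s
      simp only [hva, hfg, hff, key1, key2, sd]
      ring)
  obtain ⟨wb, hwb⟩ := exists_crv t (v := vb) (K := fun x => P.f t.g x * cos x) dvb (by fun_prop)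
    (fun x => by simp only [hvb, P.per, P.per1, cos_add_two_pi, sin_add_two_pi])
    (fun x => by simp only [f_per hc, cos_add_two_pi]) (by
      intro s
      simp only [hvb]
      rw [hfg, hff, key1, key2, sd, ey, ex s]
      ring)
  obtain ⟨wc, hwc⟩ := exists_crv t (v := vc) (K := fun x => P.f t.g x * sin x) dvc (by fun_prop)
    (fun x => by simp only [hvc, P.per, P.per1, cos_add_two_pi, sin_add_two_pi])
    (fun x => by simp only [f_per hc, sin_add_two_pi]) (by
      intro s
      simp only [hvc]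
      rw [hfg, hff, key1, key2, sd, fy, fx s]
      ring)
  have hrep : ∀ (α β γ k1 k2 : ℝ) (s : ℝ), (wa.comb wb wc α β γ k1 k2).P s * cos (s + t.g s)
      + (wa.comb wb wc α β γ k1 k2).Q s * sin (s + t.g s) =
      α * va ((s + t.g s) / 2) + β * vb ((s + t.g s) / 2) + γ * vc ((s + t.g s) / 2)
        + (k1 * cos (s + t.g s) + k2 * sin (s + t.g s)) := by
    intro α β γ k1 k2 s
    rw [hwa s, hwb s, hwc s]
    simp only [Crv.comb]
    ring
  -- the form is nonpositive
  have hneg1 : ∀ b1 b2 : ℝ, form t.g t.g1 (wa.comb wb wc 1 b1 b2 0 0) ≤ 0 := by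
    intro b1 b2
    obtain ⟨t', e1, e2⟩ := tr_tri t b1 b2
    have key : ∀ (g g1 : ℝ → ℝ), t'.g = g → t'.g1 = g1 → ∀ w : Crv g,
        Rep g (fun x => (P.tr b1 b2).h x * (P.tr b1 b2).h1 x) w → form g g1 w ≤ 0 := by
      rintro g g1 rfl rfl w hw
      exact form_nonpos (tr_fam hF b1 b2) t' w hw
    have := key t.g t.g1 e1 e2 (wa.comb wb wc 1 b1 b2 (b1 * b2) ((b2 ^ 2 - b1 ^ 2) / 2)) (by
      intro s
      rw [hrep]
      have c2' : cos (s + t.g s) = 2 * cos ((s + t.g s) / 2) ^ 2 - 1 := by
        rw [← cos_two_mul]; ring_nf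
      have s2' : sin (s + t.g s) = 2 * sin ((s + t.g s) / 2) * cos ((s + t.g s) / 2) := by
        rw [← sin_two_mul]; ring_nf
      rw [c2', s2']
      simp only [hva, hvb, hvc, Supp.tr]
      have := sin_sq_add_cos_sq ((s + t.g s) / 2)
      linear_combination (-b1 * b2) * this)
    rwa [form_const] at this
  obtain ⟨α, β, γ, hne, hconst⟩ := lin_dep t wa wb wc (form_all t wa wb wc hneg1)
  obtain ⟨A, B, hAB⟩ := rep_const t (v := fun x => α * va x + β * vb x + γ * vc x)
    (wa.comb wb wc α β γ 0 0) (by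
      intro s
      rw [hrep]; ring) hconst
  have hα : α ≠ 0 := by
    intro hα
    have hbg : 0 < β ^ 2 + γ ^ 2 := by
      rcases hne with h | h | h
      · exact absurd hα h
      · positivity
      · positivity
    set z : ℂ := ⟨γ, -β⟩ with hz
    have hz0 : z ≠ 0 := by
      intro h0
      have a : z.re = 0 := by rw [h0]; rfl
      have b : z.im = 0 := by rw [h0]; rfl
      simp only [hz] at a b
      have : β ^ 2 + γ ^ 2 = 0 := by rw [a, neg_eq_zero.1 b]; ring
      linarith
    set x₀ := Complex.arg z with hx₀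
    have hn : 0 < ‖z‖ := norm_pos_iff.2 hz0
    have e1 : cos x₀ = γ / ‖z‖ := Complex.cos_arg hz0
    have e2 : sin x₀ = -β / ‖z‖ := Complex.sin_arg z
    have a := hAB x₀
    have b := hAB (x₀ + π)
    have e3 : cos (2 * (x₀ + π)) = cos (2 * x₀) := by rw [mul_add, cos_add_two_pi]
    have e4 : sin (2 * (x₀ + π)) = sin (2 * x₀) := by rw [mul_add, sin_add_two_pi]
    rw [e3, e4, ← a] at b
    simp only [hva, hvb, hvc, hα, zero_mul, zero_add, cos_add_pi, sin_add_pi] at b
    rw [e1, e2] at b
    have c : (P.h x₀ + P.h (x₀ + π)) * ((β ^ 2 + γ ^ 2) / ‖z‖) = 0 := by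
      have hz' := hn.ne'
      field_simp
      field_simp at b
      linarith
    have d := supp_lt P x₀ π pi_pos (by linarith [pi_pos])
    rw [cos_pi, sin_pi] at d
    have : 0 < (P.h x₀ + P.h (x₀ + π)) * ((β ^ 2 + γ ^ 2) / ‖z‖) := by
      have : 0 < P.h x₀ + P.h (x₀ + π) := by linarith
      positivity
    linarith
  -- integrate
  set G : ℝ → ℝ := fun x => α * (P.h x) ^ 2 / 2 + P.h x * (β * cos x + γ * sin x)
    - (A / 2) * sin (2 * x) + (B / 2) * cos (2 * x) with hG
  have dG : ∀ x, HasDerivAt G 0 x := by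
    intro x
    have a1 := (((P.d0 x).pow 2).const_mul α).div_const 2
    have a2 := (P.d0 x).mul (((Real.hasDerivAt_cos x).const_mul β).add ((Real.hasDerivAt_sin x).const_mul γ))
    have a3 := (((hasDerivAt_id x).const_mul 2).sin).const_mul (A / 2)
    have a4 := (((hasDerivAt_id x).const_mul 2).cos).const_mul (B / 2)
    refine (((a1.add a2).sub a3).add a4).congr_deriv ?_
    have := hAB x
    simp only [hva, hvb, hvc] at this
    simp only [id, Pi.add_apply]
    push_cast
    linear_combination this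
  have hGc : ∀ x, G x = G 0 := fun x =>
    is_const_of_deriv_eq_zero (fun x => (dG x).differentiableAt) (fun x => (dG x).deriv) x 0
  refine ⟨β / α, γ / α, 2 * G 0 / α + ((β / α) ^ 2 + (γ / α) ^ 2) / 2,
    - B / α + ((β / α) ^ 2 - (γ / α) ^ 2) / 2, A / α + β / α * (γ / α), ?_⟩
  intro x
  have h1 := hGc x
  generalize G 0 = G0 at h1 ⊢
  simp only [hG] at h1
  have c2' : cos (2 * x) = 2 * cos x ^ 2 - 1 := cos_two_mul x
  have s2' : sin (2 * x) = 2 * sin x * cos x := sin_two_mul x
  rw [c2', s2'] at h1 ⊢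
  have h2 := sin_sq_add_cos_sq x
  have hαα : α * α⁻¹ = 1 := mul_inv_cancel₀ hα
  linear_combination (2 / α) * h1 + (γ / α) ^ 2 * h2 - (P.h x) ^ 2 * hαα

end Bil
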