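import Pool.Agent.Work.MP_aa14e2_an.Defs

/-!
# basic calculus facts about the generating function (proved)
-/

noncomputable section

open Real Set

namespace Bil

namespace Supp

variable (P : Supp)

lemma c0 : Continuous P.h := continuous_iff_continuousAt.2 fun x => (P.d0 x).continuousAt
lemma c1 : Continuous P.h1 := continuous_iff_continuousAt.2 fun x => (P.d1 x).continuousAt

lemma per1 (x : ℝ) : P.h1 (x + 2 * π) = P.h1 x := by
  have h1 : HasDerivAt (fun y => P.h (y + 2 * π)) (P.h1 (x + 2 * π)) x := by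
    simpa using (P.d0 (x + 2 * π)).comp_add_const x (2 * π)
  have h2 : (fun y => P.h (y + 2 * π)) = P.h := funext P.per
  rw [h2] at h1
  exact h1.unique (P.d0 x)

lemma per2 (x : ℝ) : P.h2 (x + 2 * π) = P.h2 x := by
  have h1 : HasDerivAt (fun y => P.h1 (y + 2 * π)) (P.h2 (x + 2 * π)) x := by
    simpa using (P.d1 (x + 2 * π)).comp_add_const x (2 * π)
  have h2 : (fun y => P.h1 (y + 2 * π)) = P.h1 := funext P.per1
  rw [h2] at h1
  exact h1.unique (P.d1 x)

lemma mid_shift (x y : ℝ) : (x + 2 * π + (y + 2 * π)) / 2 = (x + y) / 2 + 2 * π := by ring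
lemma dif_shift (x y : ℝ) : (y + 2 * π - (x + 2 * π)) / 2 = (y - x) / 2 := by ring

lemma s_shift (x y : ℝ) : P.s (x + 2 * π) (y + 2 * π) = P.s x y := by
  simp only [s, mid_shift, dif_shift, P.per]
lemma s1_shift (x y : ℝ) : P.s1 (x + 2 * π) (y + 2 * π) = P.s1 x y := by
  simp only [s1, mid_shift, dif_shift, P.per, P.per1]
lemma s2_shift (x y : ℝ) : P.s2 (x + 2 * π) (y + 2 * π) = P.s2 x y := by
  simp only [s2, mid_shift, dif_shift, P.per, P.per1]
lemma s11_shift (x y : ℝ) : P.s11 (x + 2 * π) (y + 2 * π) = P.s11 x y := by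
  simp only [s11, mid_shift, dif_shift, P.per, P.per1, P.per2]
lemma s12_shift (x y : ℝ) : P.s12 (x + 2 * π) (y + 2 * π) = P.s12 x y := by
  simp only [s12, mid_shift, dif_shift, P.per, P.per2]
lemma s22_shift (x y : ℝ) : P.s22 (x + 2 * π) (y + 2 * π) = P.s22 x y := by
  simp only [s22, mid_shift, dif_shift, P.per, P.per1, P.per2]

/-! continuity (jointly) -/

lemma cs : Continuous fun z : ℝ × ℝ => P.s z.1 z.2 := by
  unfold s; have := P.c0; fun_prop
lemma cs1 : Continuous fun z : ℝ × ℝ => P.s1 z.1 z.2 := by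
  unfold s1; have := P.c0; have := P.c1; fun_prop
lemma cs2 : Continuous fun z : ℝ × ℝ => P.s2 z.1 z.2 := by
  unfold s2; have := P.c0; have := P.c1; fun_prop
lemma cs11 : Continuous fun z : ℝ × ℝ => P.s11 z.1 z.2 := by
  unfold s11; have := P.c0; have := P.c1; have := P.c2; fun_prop
lemma cs12 : Continuous fun z : ℝ × ℝ => P.s12 z.1 z.2 := by
  unfold s12; have := P.c0; have := P.c2; fun_prop
lemma cs22 : Continuous fun z : ℝ × ℝ => P.s22 z.1 z.2 := by
  unfold s22; have := P.c0; have := P.c1; have := P.c2; fun_prop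

/-! derivatives -/

lemma mid_dx (x y : ℝ) : HasDerivAt (fun x => (x + y) / 2) (1 / 2) x := by
  simpa using ((hasDerivAt_id x).add_const y).div_const 2
lemma mid_dy (x y : ℝ) : HasDerivAt (fun y => (x + y) / 2) (1 / 2) y := by
  simpa using ((hasDerivAt_id y).const_add x).div_const 2
lemma dif_dx (x y : ℝ) : HasDerivAt (fun x => (y - x) / 2) (-1 / 2) x := by
  simpa using ((hasDerivAt_id x).const_sub y).div_const 2
lemma dif_dy (x y : ℝ) : HasDerivAt (fun y => (y - x) / 2) (1 / 2) y := by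
  simpa using ((hasDerivAt_id y).sub_const x).div_const 2

lemma s_dx (x y : ℝ) : HasDerivAt (fun x => P.s x y) (P.s1 x y) x := by
  have a := (P.d0 ((x + y) / 2)).comp x (mid_dx x y)
  have b := (dif_dx x y).sin
  have := (a.const_mul 2).mul b
  refine this.congr_deriv ?_
  simp only [s1, Function.comp]; ring
lemma s_dy (x y : ℝ) : HasDerivAt (fun y => P.s x y) (P.s2 x y) y := by
  have a := (P.d0 ((x + y) / 2)).comp y (mid_dy x y)
  have b := (dif_dy x y).sin
  have := (a.const_mul 2).mul b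
  refine this.congr_deriv ?_
  simp only [s2, Function.comp]; ring
lemma s1_dx (x y : ℝ) : HasDerivAt (fun x => P.s1 x y) (P.s11 x y) x := by
  have a := (P.d0 ((x + y) / 2)).comp x (mid_dx x y)
  have a1 := (P.d1 ((x + y) / 2)).comp x (mid_dx x y)
  have := (a1.mul (dif_dx x y).sin).sub (a.mul (dif_dx x y).cos)
  refine this.congr_deriv ?_
  simp only [s11, Function.comp]; ring
lemma s1_dy (x y : ℝ) : HasDerivAt (fun y => P.s1 x y) (P.s12 x y) y := by
  have a := (P.d0 ((x + y) / 2)).comp y (mid_dy x y)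
  have a1 := (P.d1 ((x + y) / 2)).comp y (mid_dy x y)
  have := (a1.mul (dif_dy x y).sin).sub (a.mul (dif_dy x y).cos)
  refine this.congr_deriv ?_
  simp only [s12, Function.comp]; ring
lemma s2_dx (x y : ℝ) : HasDerivAt (fun x => P.s2 x y) (P.s12 x y) x := by
  have a := (P.d0 ((x + y) / 2)).comp x (mid_dx x y)
  have a1 := (P.d1 ((x + y) / 2)).comp x (mid_dx x y)
  have := (a1.mul (dif_dx x y).sin).add (a.mul (dif_dx x y).cos)
  refine this.congr_deriv ?_
  simp only [s12, Function.comp]; ring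
lemma s2_dy (x y : ℝ) : HasDerivAt (fun y => P.s2 x y) (P.s22 x y) y := by
  have a := (P.d0 ((x + y) / 2)).comp y (mid_dy x y)
  have a1 := (P.d1 ((x + y) / 2)).comp y (mid_dy x y)
  have := (a1.mul (dif_dy x y).sin).add (a.mul (dif_dy x y).cos)
  refine this.congr_deriv ?_
  simp only [s22, Function.comp]; ring

/-! twist -/

lemma s12_pos {x y : ℝ} (h : x < y) (h2 : y < x + 2 * π) : 0 < P.s12 x y := by
  have : 0 < sin ((y - x) / 2) := sin_pos_of_pos_of_lt_pi (by linarith) (by linarith)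
  have := P.pos ((x + y) / 2)
  unfold s12; positivity

lemma s1_mono (x : ℝ) : StrictMonoOn (fun y => P.s1 x y) (Icc x (x + 2 * π)) := by
  refine strictMonoOn_of_deriv_pos (convex_Icc _ _) ?_ ?_
  · exact (P.cs1.comp (by fun_prop : Continuous fun y : ℝ => (x, y))).continuousOn
  · intro y hy
    rw [interior_Icc] at hy
    rw [(P.s1_dy x y).deriv]
    exact P.s12_pos hy.1 hy.2

lemma s2_mono (y : ℝ) : StrictMonoOn (fun x => P.s2 x y) (Icc (y - 2 * π) y) := by
  refine strictMonoOn_of_deriv_pos (convex_Icc _ _) ?_ ?_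
  · exact (P.cs2.comp (by fun_prop : Continuous fun x : ℝ => (x, y))).continuousOn
  · intro x hx
    rw [interior_Icc] at hx
    rw [(P.s2_dx x y).deriv]
    exact P.s12_pos hx.2 (by linarith [hx.1])

lemma s1_diag (x : ℝ) : P.s1 x x = - P.h x := by simp [s1]
lemma s2_diag (x : ℝ) : P.s2 x x = P.h x := by simp [s2]
lemma s1_end (x : ℝ) : P.s1 x (x + 2 * π) = P.h (x + π) := by
  have e1 : (x + (x + 2 * π)) / 2 = x + π := by ring
  have e2 : (x + 2 * π - x) / 2 = π := by ring
  simp [s1, e1, e2]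
lemma s2_end (y : ℝ) : P.s2 (y - 2 * π) y = - P.h (y - π) := by
  have e1 : (y - 2 * π + y) / 2 = y - π := by ring
  have e2 : (y - (y - 2 * π)) / 2 = π := by ring
  simp [s2, e1, e2]

/-- a continuous `2π`-periodic function is bounded -/
lemma bdd_of_per {u : ℝ → ℝ} (hu : Continuous u) (hp : ∀ x, u (x + 2 * π) = u x) :
    ∃ C, ∀ x, |u x| ≤ C := by
  have hP : Function.Periodic u (2 * π) := hp
  obtain ⟨C, hC⟩ := (isCompact_Icc (a := (0:ℝ)) (b := 0 + 2 * π)).exists_bound_of_continuousOn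
    (f := u) hu.continuousOn
  refine ⟨C, fun x => ?_⟩
  obtain ⟨y, hy, e⟩ := hP.exists_mem_Ico₀ (by positivity : (0:ℝ) < 2 * π) x
  rw [e]
  exact hC y ⟨hy.1, by linarith [hy.2]⟩

/-- all second derivatives (and first ones) of the generating function are bounded -/
lemma bound : ∃ C, 0 < C ∧ ∀ x y, |P.s1 x y| ≤ C ∧ |P.s2 x y| ≤ C ∧ |P.s11 x y| ≤ C ∧ |P.s12 x y| ≤ C ∧
    |P.s22 x y| ≤ C := by
  obtain ⟨A, hA⟩ := bdd_of_per P.c0 P.per
  obtain ⟨B, hB⟩ := bdd_of_per P.c1 P.per1
  obtain ⟨D, hD⟩ := bdd_of_per P.c2 P.per2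
  refine ⟨A + B + D + 1, ?_, fun x y => ?_⟩
  · have := hA 0; have := hB 0; have := hD 0
    have := abs_nonneg (P.h 0); have := abs_nonneg (P.h1 0); have := abs_nonneg (P.h2 0)
    linarith
  have a := hA ((x + y) / 2); have b := hB ((x + y) / 2); have d := hD ((x + y) / 2)
  have s := abs_sin_le_one ((y - x) / 2); have c := abs_cos_le_one ((y - x) / 2)
  have a0 := abs_nonneg (P.h ((x + y) / 2))
  have b0 := abs_nonneg (P.h1 ((x + y) / 2))
  have d0 := abs_nonneg (P.h2 ((x + y) / 2))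
  have key : ∀ u v w : ℝ, |v| ≤ 1 → |u| ≤ w → |u * v| ≤ w := by
    intro u v w hv hu
    rw [abs_mul]
    calc |u| * |v| ≤ |u| * 1 := by gcongr
      _ ≤ w := by linarith
  refine ⟨?_, ?_, ?_, ?_, ?_⟩
  · unfold s1
    have := abs_sub (P.h1 ((x + y) / 2) * sin ((y - x) / 2)) (P.h ((x + y) / 2) * cos ((y - x) / 2))
    have := key _ _ _ s b; have := key _ _ _ c a
    linarith [abs_nonneg (P.h2 ((x+y)/2))]
  · unfold s2
    have := abs_add_le (P.h1 ((x + y) / 2) * sin ((y - x) / 2)) (P.h ((x + y) / 2) * cos ((y - x) / 2))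
    have := key _ _ _ s b; have := key _ _ _ c a
    linarith [abs_nonneg (P.h2 ((x+y)/2))]
  · unfold s11
    have h1 : |P.h2 ((x + y) / 2) - P.h ((x + y) / 2)| ≤ A + D := (abs_sub _ _).trans (by linarith)
    have h2 := key _ _ _ s h1
    have h3 : |2 * P.h1 ((x + y) / 2) * cos ((y - x) / 2)| ≤ 2 * B := by
      apply key _ _ _ c; rw [abs_mul]; simp; linarith
    rw [abs_div]
    have h4 := abs_sub ((P.h2 ((x + y) / 2) - P.h ((x + y) / 2)) * sin ((y - x) / 2)) (2 * P.h1 ((x + y) / 2) * cos ((y - x) / 2))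
    rw [abs_of_pos (by norm_num : (0:ℝ) < 2)]
    linarith
  · unfold s12
    have h1 : |P.h ((x + y) / 2) + P.h2 ((x + y) / 2)| ≤ A + D := (abs_add_le _ _).trans (by linarith)
    have h2 := key _ _ _ s h1
    rw [abs_div, abs_of_pos (by norm_num : (0:ℝ) < 2)]
    linarith
  · unfold s22
    have h1 : |P.h2 ((x + y) / 2) - P.h ((x + y) / 2)| ≤ A + D := (abs_sub _ _).trans (by linarith)
    have h2 := key _ _ _ s h1
    have h3 : |2 * P.h1 ((x + y) / 2) * cos ((y - x) / 2)| ≤ 2 * B := by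
      apply key _ _ _ c; rw [abs_mul]; simp; linarith
    rw [abs_div]
    have h4 := abs_add_le ((P.h2 ((x + y) / 2) - P.h ((x + y) / 2)) * sin ((y - x) / 2)) (2 * P.h1 ((x + y) / 2) * cos ((y - x) / 2))
    rw [abs_of_pos (by norm_num : (0:ℝ) < 2)]
    linarith

end Supp

end Bil
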