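import Pool.Agent.Work.MP_aa14e2_an.FProps

/-!
# Module Bump  (elementary, 60-120 lines)

A bump function around a point `(x₀,p₀)` that keeps a distance `η` from all invariant curves at `x₀`.

PROOF. Let `C` be the constant of `f_lip`, enlarged so that also `|h x - h y| ≤ C |x-y|` (`h` is Lipschitz since `h1` is
bounded: `bdd_of_per P.c1 P.per1`) .  Put `κ = min (η/4) 1` and
`b (x,p) = max 0 (κ - |p - p₀| - π C |sin ((x-x₀)/2)|)`.  Continuous, `2π`-periodic in `x` (`|sin|` is `π`-periodic),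
`0 ≤ b ≤ κ ≤ 1`, `b (x₀,p₀) = κ > 0`.  If `b z ≠ 0`: choose `k : ℤ` with `t = z.1 - x₀ - 2πk ∈ [-π,π]`
(`Int.floor`/`round`, or `toIcoMod`); Jordan's inequality `|t|/π ≤ |sin (t/2)|` (`Real.mul_le_sin`‐style / `mul_abs_le_abs_sin`)
gives `C |t| < κ` and `|z.2 - p₀| < κ`.  By periodicity `f g z.1 = f g (x₀ + t)`, so `|f g z.1 - f g x₀| ≤ C|t| < κ`,
and all four claims follow with `η₁ = η/2` (`η - 2κ ≥ η/2`): e.g. `z.2 + η/2 ≤ p₀ + κ + η/2 ≤ p₀ + η - κ ≤ f g x₀ - κ ≤ f g z.1`.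
For the last one: `p₀ - η ≥ -h (x₀+π)` gives `z.2 ≥ p₀ - κ ≥ -h (x₀+π) + η - κ ≥ - h(z.1+π) - κ + η - κ`.
(`per_int`: a `2π`-periodic function satisfies `u (x + 2πk) = u x` for integers `k`: `Function.Periodic.int_mul` etc.)
-/

noncomputable section
open Real Set
namespace Bil

theorem exists_bump (P : Supp) (x₀ p₀ η : ℝ) (hη : 0 < η) (htop : p₀ + η ≤ P.h x₀)
    (hbot : - P.h (x₀ + π) ≤ p₀ - η) :
    ∃ b : ℝ × ℝ → ℝ, Continuous b ∧ (∀ x p, b (x + 2 * π, p) = b (x, p)) ∧ (∀ z, 0 ≤ b z) ∧ (∀ z, b z ≤ 1) ∧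
      0 < b (x₀, p₀) ∧
      ∀ z, b z ≠ 0 →
        (∀ g, IsCircle P g → p₀ + η ≤ P.f g x₀ → z.2 + η / 2 ≤ P.f g z.1) ∧
        (∀ g, IsCircle P g → P.f g x₀ + η ≤ p₀ → P.f g z.1 + η / 2 ≤ z.2) ∧
        z.2 + η / 2 ≤ P.h z.1 ∧ - P.h (z.1 + π) ≤ z.2 := by
  obtain ⟨C₁, hC₁, hfl⟩ := f_lip P
  obtain ⟨C₂, hC₂⟩ := Supp.bdd_of_per P.c1 P.per1
  set C := max C₁ C₂ with hC
  have hCpos : 0 < C := lt_of_lt_of_le hC₁ (le_max_left _ _)
  have hhl : ∀ x y, |P.h x - P.h y| ≤ C * |x - y| := by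
    intro x y
    have h := Convex.norm_image_sub_le_of_norm_hasDerivWithin_le (f := P.h) (f' := P.h1) (C := C) (s := univ)
      (x := y) (y := x) (fun z _ => (P.d0 z).hasDerivWithinAt)
      (fun z _ => (hC₂ z).trans (le_max_right _ _)) convex_univ (mem_univ _) (mem_univ _)
    simpa [Real.norm_eq_abs] using h
  have hfl' : ∀ g, IsCircle P g → ∀ x y, |P.f g x - P.f g y| ≤ C * |x - y| := by
    intro g hg x y
    exact (hfl g hg x y).trans (mul_le_mul_of_nonneg_right (le_max_left _ _) (abs_nonneg _))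
  set κ := min (η / 4) 1 with hκ
  have hκ0 : 0 < κ := lt_min (by linarith) one_pos
  have hκη : κ ≤ η / 4 := min_le_left _ _
  have hκ1 : κ ≤ 1 := min_le_right _ _
  refine ⟨fun z => max 0 (κ - |z.2 - p₀| - π * C * |sin ((z.1 - x₀) / 2)|), ?_, ?_, ?_, ?_, ?_, ?_⟩
  · fun_prop
  · intro x p
    have : sin ((x + 2 * π - x₀) / 2) = - sin ((x - x₀) / 2) := by
      rw [show (x + 2 * π - x₀) / 2 = (x - x₀) / 2 + π by ring, sin_add_pi]
    simp only [this, abs_neg]
  · intro z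
    exact le_max_left _ _
  · intro z
    refine max_le zero_le_one ?_
    have h1 := abs_nonneg (z.2 - p₀)
    have h2 : 0 ≤ π * C * |sin ((z.1 - x₀) / 2)| := by positivity
    linarith
  · simp [hκ0]
  · intro z hz
    have hz' : 0 < κ - |z.2 - p₀| - π * C * |sin ((z.1 - x₀) / 2)| := by
      by_contra hcon
      exact hz (max_eq_left (not_lt.1 hcon))
    obtain ⟨k, t, ht1, ht2⟩ : ∃ (k : ℤ) (t : ℝ), z.1 = x₀ + t + 2 * π * k ∧ |t| ≤ π := by
      refine ⟨round ((z.1 - x₀) / (2 * π)), z.1 - x₀ - 2 * π * round ((z.1 - x₀) / (2 * π)), by ring, ?_⟩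
      have h := abs_sub_round ((z.1 - x₀) / (2 * π))
      have hpi := Real.pi_pos
      have e : z.1 - x₀ - 2 * π * round ((z.1 - x₀) / (2 * π))
          = 2 * π * ((z.1 - x₀) / (2 * π) - round ((z.1 - x₀) / (2 * π))) := by
        field_simp
      rw [e, abs_mul, abs_of_pos (by positivity : (0:ℝ) < 2 * π)]
      nlinarith
    have hper : ∀ u : ℝ → ℝ, (∀ x, u (x + 2 * π) = u x) → ∀ x, u (x + 2 * π * k) = u x := by
      intro u hu x
      have hP : Function.Periodic u (2 * π) := hu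
      have := (hP.int_mul k) x
      rw [← this]
      congr 1
      ring
    have hsin : |sin ((z.1 - x₀) / 2)| = |sin (t / 2)| := by
      rw [ht1, show (x₀ + t + 2 * π * (k : ℝ) - x₀) / 2 = t / 2 + k * π by ring, Real.sin_add_int_mul_pi]
      rw [abs_mul]
      simp
    have hjor : |t| ≤ π * |sin (t / 2)| := by
      have h := Real.mul_abs_le_abs_sin (x := t / 2) (by rw [abs_div, abs_two]; linarith)
      rw [abs_div, abs_two] at h
      have hpi := Real.pi_pos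
      calc |t| = π * (2 / π * (|t| / 2)) := by field_simp
        _ ≤ π * |sin (t / 2)| := mul_le_mul_of_nonneg_left h hpi.le
    have hCt : C * |t| + |z.2 - p₀| < κ := by
      rw [hsin] at hz'
      have := mul_le_mul_of_nonneg_left hjor hCpos.le
      nlinarith
    have hp1 := (abs_le.1 (le_refl |z.2 - p₀|)).1
    have hp2 := (abs_le.1 (le_refl |z.2 - p₀|)).2
    have hLip : ∀ u : ℝ → ℝ, (∀ x, u (x + 2 * π) = u x) → (∀ x y, |u x - u y| ≤ C * |x - y|) →
        ∀ x, |u (x + t + 2 * π * k) - u x| ≤ C * |t| := by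
      intro u hu hl x
      rw [hper u hu]
      simpa using hl (x + t) x
    refine ⟨?_, ?_, ?_, ?_⟩
    · intro g hg hgp
      have := (abs_le.1 (hLip (P.f g) (f_per hg) (hfl' g hg) x₀)).1
      rw [← ht1] at this
      linarith
    · intro g hg hgp
      have := (abs_le.1 (hLip (P.f g) (f_per hg) (hfl' g hg) x₀)).2
      rw [← ht1] at this
      linarith
    · have := (abs_le.1 (hLip P.h P.per hhl x₀)).1
      rw [← ht1] at this
      linarith
    · have := (abs_le.1 (hLip P.h P.per hhl (x₀ + π))).1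
      rw [show x₀ + π + t + 2 * π * (k : ℝ) = z.1 + π by rw [ht1]; ring] at this
      linarith

end Bil
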