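import Pool.Agent.Work.MP_aa14e2_an.Basic

/-!
# definitions for the second half (FIXED, do not change)

`Tri P`: a `C¹` circle map `g` of an invariant curve of `3`-periodic points.  For a real `s` (normal angle of a line) the three
lines of the periodic orbit have normal angles `a = s`, `b = g s`, `c = g (g s)` (and `g c = a + 2π`).
Bounce `0` is between the lines `b, c`, bounce `1` between `c, a+2π`, bounce `2` between `a, b`.
 * speeds of the lines  `Na = 1`, `Nb = g1 s`, `Nc = g1 (g s) * g1 s`;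
 * `w0 = (Nb+Nc)/2`, `w1 = (Nc+Na)/2`, `w2 = (Na+Nb)/2` speeds of the normal angles of the bounces;
 * `d0 = (c-b)/2`, `d1 = (a+2π-c)/2`, `d2 = (b-a)/2` incidence angles (`d0+d1+d2 = π`);
 * `e0 = (cos (b+c), sin (b+c))`, `e1 = (cos (c+a), sin (c+a))`, `e2 = (cos (a+b), sin (a+b))`.
`Crv g`: a `C¹` curve `(P,Q)` in the plane invariant under `g`.
`form`: the quadratic form `∫₀^{2π} (∑ X(dᵢ)/wᵢ ⟨(P',Q'),eᵢ⟩² - π (P Q' - Q P')) ds`.
-/

noncomputable section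
open Real Set
namespace Bil

/-- `C¹` circle map of an invariant curve of 3-periodic points -/
structure Tri (P : Supp) where
  g : ℝ → ℝ
  g1 : ℝ → ℝ
  rat : IsRat P 1 3 g
  dg : ∀ s, HasDerivAt g (g1 s) s
  cg : Continuous g1
  pos : ∀ s, 0 < g1 s

/-- `C¹` plane curve invariant under `g` -/
structure Crv (g : ℝ → ℝ) where
  P : ℝ → ℝ
  Q : ℝ → ℝ
  P' : ℝ → ℝ
  Q' : ℝ → ℝ
  dP : ∀ s, HasDerivAt P (P' s) s
  dQ : ∀ s, HasDerivAt Q (Q' s) s
  cP : Continuous P'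
  cQ : Continuous Q'
  invP : ∀ s, P (g s) = P s
  invQ : ∀ s, Q (g s) = Q s

/-- the function `v` of the bounce normal is represented by the curve `w`: `v(ψ) = ⟨w, e^{2iψ}⟩` at all bounces -/
def Rep (g v : ℝ → ℝ) (w : Crv g) : Prop :=
  ∀ s, v ((s + g s) / 2) = w.P s * cos (s + g s) + w.Q s * sin (s + g s)

/-- speed of the line `b = g s` -/
def Nb (g1 : ℝ → ℝ) (s : ℝ) : ℝ := g1 s
/-- speed of the line `c = g (g s)` -/
def Nc (g g1 : ℝ → ℝ) (s : ℝ) : ℝ := g1 (g s) * g1 s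

/-- the quadratic form `∑ X(dᵢ)/wᵢ ⟨(p,q),eᵢ⟩²` -/
def qd (g g1 : ℝ → ℝ) (s p q : ℝ) : ℝ :=
  X ((g (g s) - g s) / 2) / ((Nb g1 s + Nc g g1 s) / 2) * (p * cos (g s + g (g s)) + q * sin (g s + g (g s))) ^ 2
  + X ((s + 2 * π - g (g s)) / 2) / ((Nc g g1 s + 1) / 2) * (p * cos (g (g s) + s) + q * sin (g (g s) + s)) ^ 2
  + X ((g s - s) / 2) / ((1 + Nb g1 s) / 2) * (p * cos (s + g s) + q * sin (s + g s)) ^ 2

/-- integrand of the form -/
def dens (g g1 : ℝ → ℝ) (w : Crv g) (s : ℝ) : ℝ :=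
  qd g g1 s (w.P' s) (w.Q' s) - π * (w.P s * w.Q' s - w.Q s * w.P' s)

/-- the quadratic form of the problem -/
def form (g g1 : ℝ → ℝ) (w : Crv g) : ℝ := ∫ s in (0:ℝ)..(2 * π), dens g g1 w s

end Bil
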