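import Mathlib

/-!
# Module Cut  (pure number theory, Mathlib only, 60-120 lines)

Rational cut `L` (the reduced fractions `p/q ∈ (0,1/3]` with `L p q` are a lower set) with a quantitative gap is empty.

PROOF. Suppose `L p q` for an admissible pair.  For every `n > q`: `1*q < p*n`, so `L 1 n` (`mono`).  Let `n` be minimal
with `3 ≤ n` and `L 1 n` (`Nat.find`); `n ≠ 3` by `h13`, so `n ≥ 4` and `¬ L 1 (n-1)`, `n-1 ≥ 3`.
CLAIM: for every `N` there are `p q p' q'` admissible (positive, `3p ≤ q`, coprime, ...) with `L p q`, `¬ L p' q'`,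
`p'*q = p*q' + 1`, `N ≤ q + q'`.  Start: `(1,n)`, `(1,n-1)` (`1*n = 1*(n-1)+1`).  Step: mediant `(p+p', q+q')`:
`(p+p')*q = p*(q+q') + 1`, so it is coprime (any common divisor divides 1), and `3(p+p') ≤ q+q'`.
If `L (p+p') (q+q')` take `(p+p',q+q')`, `(p',q')` (`p'*(q+q') = (p+p')*q' + 1`), otherwise `(p,q)`, `(p+p',q+q')`;
the sum of the denominators increases by at least 1.
With `gap`: `c (q+q') ≤ p' q - p q' = 1`; contradiction for `N > 1/c`.
-/

namespace Bil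

theorem cut (L : ℕ → ℕ → Prop)
    (mono : ∀ p q p' q' : ℕ, 0 < p → 3 * p ≤ q → Nat.Coprime p q → 0 < p' → 3 * p' ≤ q' → Nat.Coprime p' q' →
      p * q' < p' * q → L p' q' → L p q)
    (h13 : ¬ L 1 3) (c : ℝ) (hc : 0 < c)
    (gap : ∀ p q p' q' : ℕ, 0 < p → 3 * p ≤ q → Nat.Coprime p q → 0 < p' → 3 * p' ≤ q' → Nat.Coprime p' q' →
      L p q → ¬ L p' q' → c * ((q : ℝ) + q') ≤ (p' : ℝ) * q - p * q') :
    ∀ p q : ℕ, 0 < p → 3 * p ≤ q → Nat.Coprime p q → ¬ L p q := by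
  intro p₀ q₀ hp₀ hpq₀ hcop₀ hL₀
  have hex : ∃ n, 3 ≤ n ∧ L 1 n := by
    refine ⟨q₀ + 1, by omega, mono 1 (q₀ + 1) p₀ q₀ one_pos (by omega) (Nat.coprime_one_left _) hp₀ hpq₀
      hcop₀ ?_ hL₀⟩
    nlinarith
  classical
  obtain ⟨hn3, hLn⟩ := Nat.find_spec hex
  set n := Nat.find hex with hn
  have hn4 : 4 ≤ n := by
    rcases Nat.lt_or_ge n 4 with h | h
    · have : n = 3 := by omega
      rw [this] at hLn
      exact absurd hLn h13
    · exact h
  have hnL : ¬ L 1 (n - 1) := by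
    intro h
    exact Nat.find_min hex (m := n - 1) (by omega) ⟨by omega, h⟩
  have claim : ∀ N : ℕ, ∃ p q p' q' : ℕ, (0 < p ∧ 3 * p ≤ q ∧ Nat.Coprime p q) ∧
      (0 < p' ∧ 3 * p' ≤ q' ∧ Nat.Coprime p' q') ∧ L p q ∧ ¬ L p' q' ∧ p' * q = p * q' + 1 ∧ N ≤ q + q' := by
    intro N
    induction N with
    | zero =>
      exact ⟨1, n, 1, n - 1, ⟨one_pos, by omega, Nat.coprime_one_left _⟩,
        ⟨one_pos, by omega, Nat.coprime_one_left _⟩, hLn, hnL, by omega, by omega⟩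
    | succ N ih =>
      obtain ⟨p, q, p', q', ⟨hp, hpq, hc1⟩, ⟨hp', hpq', hc2⟩, hL, hL', he, hN⟩ := ih
      have hcop : Nat.Coprime (p + p') (q + q') := by
        rw [← Nat.isCoprime_iff_coprime]
        refine ⟨(q : ℤ), -(p : ℤ), ?_⟩
        have he' : (p' : ℤ) * q = p * q' + 1 := by exact_mod_cast he
        push_cast
        linear_combination he'
      by_cases hM : L (p + p') (q + q')
      · refine ⟨p + p', q + q', p', q', ⟨by omega, by omega, hcop⟩, ⟨hp', hpq', hc2⟩, hM, hL', ?_, by omega⟩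
        linear_combination he
      · refine ⟨p, q, p + p', q + q', ⟨hp, hpq, hc1⟩, ⟨by omega, by omega, hcop⟩, hL, hM, ?_, by omega⟩
        linear_combination he
  obtain ⟨N, hN⟩ := exists_nat_gt (1 / c)
  obtain ⟨p, q, p', q', ⟨hp, hpq, hc1⟩, ⟨hp', hpq', hc2⟩, hL, hL', he, hNq⟩ := claim N
  have hg := gap p q p' q' hp hpq hc1 hp' hpq' hc2 hL hL'
  have he' : (p' : ℝ) * q = p * q' + 1 := by exact_mod_cast he
  have hNq' : (N : ℝ) ≤ q + q' := by exact_mod_cast hNq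
  have h1 : 1 < c * N := by
    rw [div_lt_iff₀ hc] at hN
    linarith
  have h2 : c * N ≤ c * ((q : ℝ) + q') := mul_le_mul_of_nonneg_left hNq' hc.le
  linarith

end Bil
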