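import Mathlib

/-!
# MP_aa14e2_an : definitions (FIXED, do not change)

Analytic description of a convex billiard by its support function `h` (`Supp`), generating function
`s x y = 2 h((x+y)/2) sin((y-x)/2)` in terms of the normal angles `x, y` of two consecutive oriented lines
(bounce at the boundary point with outer normal angle `ψ=(x+y)/2`, incidence angle `δ=(y-x)/2`),
line `= (p, x)`, `p = - s1 x y` for the incoming line and `p = s2 x y` for the outgoing line.
-/

noncomputable section

open Real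

namespace Bil

/-- support function of a `C²` closed convex curve with positive radius of curvature `h + h''` -/
structure Supp where
  /-- support function -/
  h : ℝ → ℝ
  /-- its derivative -/
  h1 : ℝ → ℝ
  /-- its second derivative -/
  h2 : ℝ → ℝ
  d0 : ∀ x, HasDerivAt h (h1 x) x
  d1 : ∀ x, HasDerivAt h1 (h2 x) x
  c2 : Continuous h2
  per : ∀ x, h (x + 2 * π) = h x
  pos : ∀ x, 0 < h x + h2 x

namespace Supp

variable (P : Supp)

/-- generating function -/
def s (x y : ℝ) : ℝ := 2 * P.h ((x + y) / 2) * sin ((y - x) / 2)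

/-- `∂s/∂x` -/
def s1 (x y : ℝ) : ℝ :=
  P.h1 ((x + y) / 2) * sin ((y - x) / 2) - P.h ((x + y) / 2) * cos ((y - x) / 2)

/-- `∂s/∂y` -/
def s2 (x y : ℝ) : ℝ :=
  P.h1 ((x + y) / 2) * sin ((y - x) / 2) + P.h ((x + y) / 2) * cos ((y - x) / 2)

/-- `∂²s/∂x²` -/
def s11 (x y : ℝ) : ℝ :=
  ((P.h2 ((x + y) / 2) - P.h ((x + y) / 2)) * sin ((y - x) / 2)
    - 2 * P.h1 ((x + y) / 2) * cos ((y - x) / 2)) / 2

/-- `∂²s/∂x∂y` -/
def s12 (x y : ℝ) : ℝ :=
  (P.h ((x + y) / 2) + P.h2 ((x + y) / 2)) * sin ((y - x) / 2) / 2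

/-- `∂²s/∂y²` -/
def s22 (x y : ℝ) : ℝ :=
  ((P.h2 ((x + y) / 2) - P.h ((x + y) / 2)) * sin ((y - x) / 2)
    + 2 * P.h1 ((x + y) / 2) * cos ((y - x) / 2)) / 2

/-- the value `p = f x` of the line with normal angle `x` on the invariant curve given by the circle map `g` -/
def f (g : ℝ → ℝ) (x : ℝ) : ℝ := - P.s1 x (g x)

end Supp

/-- `g` is the circle map (lifted) of an invariant curve of the billiard `P`: the line with normal angle `x` of
the curve is reflected to the line with normal angle `g x` of the curve. -/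
structure IsCircle (P : Supp) (g : ℝ → ℝ) : Prop where
  mono : StrictMono g
  cont : Continuous g
  per : ∀ x, g (x + 2 * π) = g x + 2 * π
  lt : ∀ x, x < g x
  lt2 : ∀ x, g x < x + 2 * π
  eq : ∀ x, P.s2 x (g x) + P.s1 (g x) (g (g x)) = 0

/-- invariant curve consisting of periodic points of type `(p,q)` -/
structure IsRat (P : Supp) (p q : ℕ) (g : ℝ → ℝ) : Prop extends IsCircle P g where
  qpos : 0 < q
  iter : ∀ x, g^[q] x = x + 2 * π * p

/-- hypothesis: rational invariant curves for all rotation numbers `p/q ∈ (0,1/3]` -/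
def Fam (P : Supp) : Prop := ∀ p q : ℕ, 0 < p → 3 * p ≤ q → Nat.Coprime p q → ∃ g, IsRat P p q g

/-- `X d = ∫₀^d sin² 2t dt` -/
def X (d : ℝ) : ℝ := d / 2 - sin (4 * d) / 8

end Bil
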