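import Pool.Agent.Work.MP_aa14e2_an.MInv

/-!
# Module DenseZero  (80-140 lines)

`bump_pos`: `x ↦ ∫ p in f g₃ x..h x, b (x,p)` is continuous (or use a lower bound: near `(x₀,p₀)` `b ≥ b(x₀,p₀)/2` on a small rectangle
contained in the region) and nonnegative, positive at `x₀` modulo `2π` (choose the representative of `x₀` in `[0,2π)`: everything is periodic,
`∫ over [0,2π]` = `∫ over [x₀-π, x₀+π]`), so its integral is positive (`intervalIntegral.integral_pos` / `integral_pos_iff_support_of_nonneg`).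

`zero_ineq` (DenseZero).  Let `g` be of type `(1,n)` with `f g x₀ + η ≤ p₀`, `g ≤ g₃`.  Then for `z ∈ Reg P g`: `(T^[n] z).1 ≤ g^[n] z.1 = z.1 + 2π`, so
`n M P g (fun z => (T z).1 - z.1) ≤ 2π M P g 1 ≤ 2π M P g₃ 1`, while `(T z).1 - z.1 ≥ ε' b z` (`T_adv`, `z.2+η/2 ≤ h z.1` if `b z ≠ 0`, and
`(T z).1 ≥ z.1` on `Reg`), so `n ε' β ≤ 2π μ` with `β = M P g₃ b = M P g b`.
-/

noncomputable section
open Real Set MeasureTheory
namespace Bil

private theorem dz_inner_cont {P : Supp} {g g' : ℝ → ℝ} (hg : IsCircle P g) (hg' : IsCircle P g')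
    {F : ℝ × ℝ → ℝ} (hF : Continuous F) :
    Continuous fun x => ∫ p in (P.f g' x)..(P.f g x), F (x, p) := by
  have h1 : Continuous fun x => ∫ p in (0:ℝ)..(P.f g x), F (x, p) :=
    intervalIntegral.continuous_parametric_intervalIntegral_of_continuous
      (f := fun x p => F (x, p)) (by exact hF) (f_cont hg)
  have h2 : Continuous fun x => ∫ p in (0:ℝ)..(P.f g' x), F (x, p) :=
    intervalIntegral.continuous_parametric_intervalIntegral_of_continuous
      (f := fun x p => F (x, p)) (by exact hF) (f_cont hg')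
  have e : (fun x => ∫ p in (P.f g' x)..(P.f g x), F (x, p)) =
      fun x => (∫ p in (0:ℝ)..(P.f g x), F (x, p)) - ∫ p in (0:ℝ)..(P.f g' x), F (x, p) := by
    funext x
    have hi : ∀ a b : ℝ, IntervalIntegrable (fun p => F (x, p)) volume a b := fun a b =>
      (hF.comp (Continuous.prodMk_right x)).intervalIntegrable a b
    rw [intervalIntegral.integral_interval_sub_left (hi _ _) (hi _ _)]
  rw [e]
  exact h1.sub h2

private theorem dz_inner_cont' {P : Supp} {g : ℝ → ℝ} (hg : IsCircle P g)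
    {F : ℝ × ℝ → ℝ} (hF : Continuous F) :
    Continuous fun x => ∫ p in (P.f g x)..(P.h x), F (x, p) := by
  have h1 : Continuous fun x => ∫ p in (0:ℝ)..(P.h x), F (x, p) :=
    intervalIntegral.continuous_parametric_intervalIntegral_of_continuous
      (f := fun x p => F (x, p)) (by exact hF) P.c0
  have h2 : Continuous fun x => ∫ p in (0:ℝ)..(P.f g x), F (x, p) :=
    intervalIntegral.continuous_parametric_intervalIntegral_of_continuous
      (f := fun x p => F (x, p)) (by exact hF) (f_cont hg)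
  have e : (fun x => ∫ p in (P.f g x)..(P.h x), F (x, p)) =
      fun x => (∫ p in (0:ℝ)..(P.h x), F (x, p)) - ∫ p in (0:ℝ)..(P.f g x), F (x, p) := by
    funext x
    have hi : ∀ a b : ℝ, IntervalIntegrable (fun p => F (x, p)) volume a b := fun a b =>
      (hF.comp (Continuous.prodMk_right x)).intervalIntegrable a b
    rw [intervalIntegral.integral_interval_sub_left (hi _ _) (hi _ _)]
  rw [e]
  exact h1.sub h2

private theorem dz_diff {P : Supp} {g g' : ℝ → ℝ} (hg : IsCircle P g) (hg' : IsCircle P g')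
    {F : ℝ × ℝ → ℝ} (hF : Continuous F) :
    M P g' F - M P g F = ∫ x in (0:ℝ)..(2 * π), ∫ p in (P.f g' x)..(P.f g x), F (x, p) := by
  unfold M
  rw [← intervalIntegral.integral_sub ((dz_inner_cont' hg' hF).intervalIntegrable _ _)
    ((dz_inner_cont' hg hF).intervalIntegrable _ _)]
  refine intervalIntegral.integral_congr fun x _ => ?_
  have hi : ∀ a b : ℝ, IntervalIntegrable (fun p => F (x, p)) volume a b := fun a b =>
    (hF.comp (Continuous.prodMk_right x)).intervalIntegrable a b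
  have := intervalIntegral.integral_add_adjacent_intervals (hi (P.f g' x) (P.f g x)) (hi (P.f g x) (P.h x))
  linarith

private theorem dz_f_le {P : Supp} {g g' : ℝ → ℝ} (hg : IsCircle P g) (hg' : IsCircle P g') {x : ℝ}
    (h : g x ≤ g' x) : P.f g' x ≤ P.f g x := by
  rcases h.lt_or_eq with h | h
  · exact (f_anti hg hg' h).le
  · unfold Supp.f
    rw [h]

private theorem dz_disp {P : Supp} {g : ℝ → ℝ} (hg : IsCircle P g) (n : ℕ) :
    M P g (fun z => (P.T^[n] z).1 - z.1) = n * M P g (fun z => (P.T z).1 - z.1) := by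
  have hDc : Continuous fun z : ℝ × ℝ => (P.T z).1 - z.1 :=
    (continuous_fst.comp (T_cont P)).sub continuous_fst
  induction n with
  | zero =>
    simp [M]
  | succ n ih =>
    have e : (fun z : ℝ × ℝ => (P.T^[n + 1] z).1 - z.1) =
        fun z => ((P.T^[n] z).1 - z.1) + ((fun z : ℝ × ℝ => (P.T z).1 - z.1) ∘ P.T^[n]) z := by
      funext z
      rw [Function.iterate_succ_apply']
      simp only [Function.comp]
      ring
    rw [e, M_add hg (F := fun z : ℝ × ℝ => (P.T^[n] z).1 - z.1)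
      (G := (fun z : ℝ × ℝ => (P.T z).1 - z.1) ∘ P.T^[n])
      ((continuous_fst.comp ((T_cont P).iterate n)).sub continuous_fst)
      (hDc.comp ((T_cont P).iterate n)), ih, M_T_iter hg hDc ?_ n]
    · push_cast
      ring
    · intro x p
      simp only [T_per]
      ring

/-- the bump has positive integral -/
theorem bump_pos {P : Supp} {g₃ : ℝ → ℝ} (hg : IsCircle P g₃) {b : ℝ × ℝ → ℝ} (hb : Continuous b)
    (hper : ∀ x p, b (x + 2 * π, p) = b (x, p)) (h0 : ∀ z, 0 ≤ b z) {x₀ p₀ : ℝ} (hpos : 0 < b (x₀, p₀))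
    (h1 : P.f g₃ x₀ < p₀) (h2 : p₀ < P.h x₀) : 0 < M P g₃ b := by
  have hc := dz_inner_cont' hg hb
  have hP : Function.Periodic (fun x => ∫ p in (P.f g₃ x)..(P.h x), b (x, p)) (2 * π) := by
    intro x
    simp only [f_per hg, P.per, hper]
  have hx0 : 0 < ∫ p in (P.f g₃ x₀)..(P.h x₀), b (x₀, p) := by
    refine intervalIntegral.integral_pos (h1.trans h2) (hb.comp (Continuous.prodMk_right x₀)).continuousOn
      (fun p _ => h0 _) ⟨p₀, ⟨h1.le, h2.le⟩, hpos⟩
  obtain ⟨y, hy, e⟩ := hP.exists_mem_Ico₀ (by positivity : (0:ℝ) < 2 * π) x₀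
  refine intervalIntegral.integral_pos (by positivity) hc.continuousOn (fun x _ => ?_) ⟨y, ⟨hy.1, hy.2.le⟩, ?_⟩
  · exact intervalIntegral.integral_nonneg (f_lt hg x).2.le fun p _ => h0 _
  · beta_reduce at e
    rw [← e]
    exact hx0

theorem zero_ineq {P : Supp} {g₃ : ℝ → ℝ} (hg₃ : IsCircle P g₃) {b : ℝ × ℝ → ℝ} (hb : Continuous b)
    (hper : ∀ x p, b (x + 2 * π, p) = b (x, p)) (h0 : ∀ z, 0 ≤ b z) (h1 : ∀ z, b z ≤ 1) {η : ℝ} (hη : 0 < η)
    (hg₃b : ∀ z, b z ≠ 0 → P.f g₃ z.1 + η ≤ z.2) (htop : ∀ z, b z ≠ 0 → z.2 + η ≤ P.h z.1) (hβ : 0 < M P g₃ b) :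
    ∃ N : ℕ, ∀ (n : ℕ) (g : ℝ → ℝ), IsRat P 1 n g → (∀ x, g x ≤ g₃ x) →
      (∀ z, b z ≠ 0 → P.f g z.1 + η ≤ z.2) → n ≤ N := by
  obtain ⟨C, hC, hadv⟩ := T_adv P
  set ε := η / C with hε
  have hε0 : 0 < ε := div_pos hη hC
  set β := M P g₃ b with hβd
  set μ := M P g₃ (fun _ => 1) with hμ
  have c1 : Continuous (fun _ : ℝ × ℝ => (1 : ℝ)) := continuous_const
  obtain ⟨N, hN⟩ := exists_nat_ge (2 * π * μ / (ε * β))
  refine ⟨N, fun n g hg hle hbg => ?_⟩
  have hgc := hg.toIsCircle
  have hβg : M P g b = β := by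
    have e2 : M P g₃ b - M P g b = 0 := by
      rw [dz_diff hgc hg₃ hb]
      rw [intervalIntegral.integral_congr (g := fun _ => (0 : ℝ)), intervalIntegral.integral_zero]
      intro x _
      simp only
      rw [intervalIntegral.integral_congr (g := fun _ => (0 : ℝ)), intervalIntegral.integral_zero]
      intro t ht
      rw [uIcc_of_le (dz_f_le hgc hg₃ (hle x))] at ht
      by_contra hbz
      have := hbg (x, t) hbz
      simp only at this
      linarith [ht.2]
    linarith
  have hμg : M P g (fun _ => 1) ≤ μ := by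
    have : 0 ≤ M P g₃ (fun _ => 1) - M P g (fun _ => 1) := by
      rw [dz_diff hgc hg₃ c1]
      refine intervalIntegral.integral_nonneg (by positivity) fun x _ => ?_
      rw [intervalIntegral.integral_const, smul_eq_mul, mul_one]
      linarith [dz_f_le hgc hg₃ (hle x)]
    linarith
  have hiter : ∀ (n : ℕ) (z : ℝ × ℝ), z ∈ Reg P g → P.T^[n] z ∈ Reg P g ∧ (P.T^[n] z).1 ≤ g^[n] z.1 := by
    intro n z hz
    induction n with
    | zero => exact ⟨hz, le_rfl⟩
    | succ n ih =>
      obtain ⟨i1, i2⟩ := ih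
      rw [Function.iterate_succ_apply' P.T, Function.iterate_succ_apply' g]
      exact ⟨T_reg hgc i1, (Y_reg hgc i1).2.trans (hgc.mono.monotone i2)⟩
  have hDc : Continuous fun z : ℝ × ℝ => (P.T z).1 - z.1 :=
    (continuous_fst.comp (T_cont P)).sub continuous_fst
  have I1 : M P g (fun z => (P.T^[n] z).1 - z.1) ≤ 2 * π * M P g (fun _ => 1) := by
    rw [← M_smul]
    refine M_mono hgc ((continuous_fst.comp ((T_cont P).iterate n)).sub continuous_fst)
      (continuous_const.mul c1) fun z hz => ?_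
    have h2 := (hiter n z hz).2
    rw [hg.iter] at h2
    push_cast at h2
    linarith
  have I2 : ε * M P g b ≤ M P g (fun z => (P.T z).1 - z.1) := by
    rw [← M_smul]
    refine M_mono hgc (continuous_const.mul hb) hDc fun z hz => ?_
    by_cases hbz : b z = 0
    · rw [hbz, mul_zero]
      linarith [(Y_reg hgc hz).1]
    · have h3 := hadv z η hη.le (by have := (f_lt hgc z.1).1; linarith [hz.1]) (htop z hbz)
      have h4 : ε * b z ≤ ε := by nlinarith [h1 z]
      rw [← hε] at h3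
      linarith
  rw [dz_disp hgc n] at I1
  rw [hβg] at I2
  have hn : (0 : ℝ) ≤ n := Nat.cast_nonneg n
  have K : (n : ℝ) * (ε * β) ≤ 2 * π * μ := by
    have a1 := mul_le_mul_of_nonneg_left I2 hn
    have a2 : 2 * π * M P g (fun _ => 1) ≤ 2 * π * μ := mul_le_mul_of_nonneg_left hμg (by positivity)
    linarith
  have hεβ : 0 < ε * β := mul_pos hε0 hβ
  have : (n : ℝ) ≤ 2 * π * μ / (ε * β) := by
    rw [le_div_iff₀ hεβ]
    exact K
  exact_mod_cast this.trans hN

end Bil
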