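import Pool.Agent.Work.MP_aa14e2_an.Basic

/-!
# Module Order  (elementary, 60-120 lines)

Two rational invariant curves with different rotation numbers are ordered.

PROOF. (1) `iterate_eq`: if `g x = g' x` then `g (g x) = g' (g' x)`: put `y = g x = g' x`; by `eq` at `x`,
`P.s1 y (g y) = - P.s2 x y = P.s1 y (g' y)`, and `P.s1 y ·` is injective on `[y, y+2π]` (`s1_mono`), both `g y` and
`g' y` lie there.  By induction `g^[n] x = g'^[n] x` for all `n` (apply the step at `g^[n] x`; use
`Function.iterate_succ_apply'`).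
(2) Let `p q' < p' q`.  If `g x = g' x` for some `x`, then with `n = q*q'`: `g^[q*q'] x = x + 2π p q'`
(iterate the property `g^[q] y = y + 2πp`; `Function.iterate_mul`) and `g'^[q*q'] x = x + 2π p' q`; contradiction.
So `g' - g` is continuous and has no zero; hence it is everywhere positive or everywhere negative (IVT /
`isPreconnected_univ`).  If `g' < g` everywhere then by induction `g'^[n] x ≤ g^[n] x` for all `n` (monotonicity of
`g`), and `n = q*q'` gives `p' q ≤ p q'`, a contradiction.
-/

noncomputable section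
open Real Set
namespace Bil

private theorem order_next {P : Supp} {a b c c' : ℝ} (h1 : b < c) (h2 : c < b + 2 * π)
    (h1' : b < c') (h2' : c' < b + 2 * π) (h : P.s2 a b + P.s1 b c = 0)
    (h' : P.s2 a b + P.s1 b c' = 0) : c = c' := by
  have e : P.s1 b c = P.s1 b c' := by linarith
  exact (P.s1_mono b).injOn ⟨h1.le, h2.le⟩ ⟨h1'.le, h2'.le⟩ e

theorem iterate_eq {P : Supp} {g g' : ℝ → ℝ} (hg : IsCircle P g) (hg' : IsCircle P g') {x : ℝ}
    (h : g x = g' x) (n : ℕ) : g^[n] x = g'^[n] x := by
  have key : ∀ n : ℕ, (g^[n]) x = (g'^[n]) x ∧ (g^[n + 1]) x = (g'^[n + 1]) x := by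
    intro n
    induction n with
    | zero => simpa using h
    | succ n ih =>
      refine ⟨ih.2, ?_⟩
      have e1 := hg.eq ((g^[n]) x)
      have e2 := hg'.eq ((g'^[n]) x)
      simp only [← Function.iterate_succ_apply'] at e1 e2
      rw [← ih.1, ← ih.2] at e2
      refine order_next (P := P) (a := (g^[n]) x) (b := (g^[n + 1]) x) ?_ ?_ ?_ ?_ e1 e2
      · rw [Function.iterate_succ_apply' _ (n + 1)]
        exact hg.lt _
      · rw [Function.iterate_succ_apply' _ (n + 1)]
        exact hg.lt2 _
      · rw [ih.2, Function.iterate_succ_apply' _ (n + 1)]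
        exact hg'.lt _
      · rw [ih.2, Function.iterate_succ_apply' _ (n + 1)]
        exact hg'.lt2 _
  exact (key n).1

private theorem order_iter_mul {P : Supp} {p q : ℕ} {g : ℝ → ℝ} (h : IsRat P p q g) (n : ℕ) (t : ℝ) :
    (g^[q * n]) t = t + n * (2 * π * p) := by
  induction n generalizing t with
  | zero => simp
  | succ n ih =>
    rw [Nat.mul_succ, Function.iterate_add_apply, h.iter, ih]
    push_cast
    ring

private theorem order_rot_eq {P : Supp} {p q p' q' : ℕ} {g g' : ℝ → ℝ} (hg : IsRat P p q g)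
    (hg' : IsRat P p' q' g') {t : ℝ} (ht : g t = g' t) : p * q' = p' * q := by
  have h1 := order_iter_mul hg q' t
  have h2 := order_iter_mul hg' q t
  rw [iterate_eq hg.toIsCircle hg'.toIsCircle ht, mul_comm q q', h2] at h1
  have hP : 0 < 2 * π := by positivity
  have h3 : (q : ℝ) * p' * (2 * π) = (q' : ℝ) * p * (2 * π) := by linarith
  have h4 := mul_right_cancel₀ hP.ne' h3
  have h5 : q * p' = q' * p := by exact_mod_cast h4
  linarith

private theorem order_iter_le {g g' : ℝ → ℝ} (h : ∀ t, g t ≤ g' t) (hm : Monotone g') (n : ℕ) (t : ℝ) :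
    (g^[n]) t ≤ (g'^[n]) t := by
  induction n with
  | zero => simp
  | succ n ih =>
    rw [Function.iterate_succ_apply', Function.iterate_succ_apply']
    exact (h _).trans (hm ih)

theorem rat_lt {P : Supp} {p q p' q' : ℕ} {g g' : ℝ → ℝ} (hg : IsRat P p q g) (hg' : IsRat P p' q' g')
    (h : p * q' < p' * q) (x : ℝ) : g x < g' x := by
  have hne : ∀ s, g s ≠ g' s := fun s hs => h.ne (order_rot_eq hg hg' hs)
  by_contra hcon
  push Not at hcon
  have hcon' : g' x < g x := lt_of_le_of_ne hcon (hne x).symm
  have hall : ∀ s, g' s ≤ g s := by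
    intro s
    by_contra hs
    push Not at hs
    have hc : Continuous fun s => g s - g' s := hg.cont.sub hg'.cont
    obtain ⟨r, hr0⟩ : (0 : ℝ) ∈ range fun s => g s - g' s :=
      mem_range_of_exists_le_of_exists_ge hc ⟨s, by linarith⟩ ⟨x, by linarith⟩
    exact hne r (by simpa [sub_eq_zero] using hr0)
  have h1 := order_iter_le hall hg.mono.monotone (q * q') 0
  have h2 := order_iter_mul hg q' 0
  have h3 := order_iter_mul hg' q 0
  rw [h2, mul_comm q q', h3] at h1
  have hP : 0 < 2 * π := by positivity
  have h4 : ((q : ℝ) * p') * (2 * π) ≤ ((q' : ℝ) * p) * (2 * π) := by linarith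
  have h5 := le_of_mul_le_mul_right h4 hP
  have h6 : q * p' ≤ q' * p := by exact_mod_cast h5
  nlinarith

end Bil
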