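import Pool.Agent.Work.MP_aa14e2_an.DenseGap
import Pool.Agent.Work.MP_aa14e2_an.DenseZero
import Pool.Agent.Work.MP_aa14e2_an.Order
import Pool.Agent.Work.MP_aa14e2_an.Cut
import Pool.Agent.Work.MP_aa14e2_an.Bump

/-!
# Module Dense  (80-140 lines; from `gap_ineq`, `zero_ineq`, `bump_pos`, `exists_bump`, `cut`, `rat_lt`)

The rational invariant curves are dense in the region between the boundary and the curve of rotation number 1/3.

PROOF.
`dense`.  Suppose there are `x₀,p₁` and `ε₀ > 0` with `f g₃ x₀ < p₁ < h x₀` and no circle of reduced type `p/q ≤ 1/3` with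
`|f g x₀ - p₁| < ε₀`.  With `η = min ε₀ (min (h x₀ - p₁) (p₁ - f g₃ x₀))`: each such circle has `f g x₀ ≥ p₁+η` or `≤ p₁ - η`
and `g₃` is of the second kind (`hbot` of the bump: `-h(x₀+π) < f g₃ x₀ ≤ p₁ - η`).  `L p q := ∃ g, IsRat P p q g ∧ p₁+η ≤ f g x₀`.
`mono`: by `rat_lt` and `f_anti`.  `¬ L 1 3`: two circles of type (1,3)?  Let `g` be of type (1,3) with `f g x₀ ≥ p₁ + η`; then
`gap_ineq`-type inequality with `(p,q)=(p',q')=(1,3)`: `6 c ≤ 0`, a contradiction (here `g < g₃`: since `f g x₀ > f g₃ x₀`,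
`g x₀ < g₃ x₀`, and `g`, `g₃` never agree at a point where the orbits ... SIMPLER: define `L` by this fixed family: choose
for every reduced pair ONE circle `G p q` (from `hF`), with `G 1 3 = g₃`, and put `L p q := p₁+η ≤ f (G p q) x₀`; then `¬ L 1 3`.)
`gap` = `gap_ineq` (with `g < g'` from `rat_lt`: `p q' < p' q` because otherwise `p' q' ...` by `rat_lt`/equality of reduced
fractions `f (G p' q') x₀ ≥ f (G p q) x₀`; `g' ≤ g₃` by `rat_lt` or equality).  So `cut` gives that no pair is in `L`, and `zero_ineq`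
for `(1,n)`, all `n ≥ 3`, gives `n ε' β ≤ 2π μ` for all `n`, a contradiction with `β > 0`.
-/

noncomputable section
open Real Set MeasureTheory
namespace Bil

theorem dense {P : Supp} (hF : Fam P) {g₃ : ℝ → ℝ} (h3 : IsRat P 1 3 g₃) {x p : ℝ} (h1 : P.f g₃ x < p)
    (h2 : p < P.h x) {ε : ℝ} (hε : 0 < ε) :
    ∃ (p' q' : ℕ) (g : ℝ → ℝ), IsRat P p' q' g ∧ |P.f g x - p| < ε := by
  by_contra hcon
  push Not at hcon
  have h3c := h3.toIsCircle
  obtain ⟨η, hη, hηε, hη1, hη2⟩ : ∃ η, 0 < η ∧ η ≤ ε ∧ p + η ≤ P.h x ∧ P.f g₃ x + η ≤ p := by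
    refine ⟨min ε (min (P.h x - p) (p - P.f g₃ x)), ?_, min_le_left _ _, ?_, ?_⟩
    · exact lt_min hε (lt_min (by linarith) (by linarith))
    · have := (min_le_right ε (min (P.h x - p) (p - P.f g₃ x))).trans (min_le_left _ _)
      linarith
    · have := (min_le_right ε (min (P.h x - p) (p - P.f g₃ x))).trans (min_le_right _ _)
      linarith
  obtain ⟨b, hbc, hbper, hb0, hb1, hbpos, hbz⟩ := exists_bump P x p η hη hη1
    (by have := (f_lt h3c x).1; linarith)
  have hβ : 0 < M P g₃ b := bump_pos h3c hbc hbper hb0 hbpos h1 h2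
  have hη' : 0 < η / 2 := by linarith
  have hb3 : ∀ z, b z ≠ 0 → P.f g₃ z.1 + η / 2 ≤ z.2 := fun z hz => (hbz z hz).2.1 g₃ h3c hη2
  obtain ⟨c, hc, hgap⟩ := gap_ineq h3c hbc hbper hb0 hb1 hη' hb3 hβ
  obtain ⟨N, hN⟩ := zero_ineq h3c hbc hbper hb0 hb1 hη' hb3 (fun z hz => (hbz z hz).2.2.1) hβ
  have hG : ∀ a d : ℕ, ∃ g : ℝ → ℝ, (0 < a → 3 * a ≤ d → Nat.Coprime a d → IsRat P a d g) ∧
      (a = 1 → d = 3 → g = g₃) := by
    intro a d
    by_cases h : a = 1 ∧ d = 3
    · refine ⟨g₃, fun _ _ _ => ?_, fun _ _ => rfl⟩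
      rw [h.1, h.2]
      exact h3
    · by_cases h' : 0 < a ∧ 3 * a ≤ d ∧ Nat.Coprime a d
      · obtain ⟨g, hg⟩ := hF a d h'.1 h'.2.1 h'.2.2
        exact ⟨g, fun _ _ _ => hg, fun e1 e2 => absurd ⟨e1, e2⟩ h⟩
      · exact ⟨g₃, fun e1 e2 e3 => absurd ⟨e1, e2, e3⟩ h', fun _ _ => rfl⟩
  choose G hGr hG3 using hG
  have hdich : ∀ a d : ℕ, 0 < a → 3 * a ≤ d → Nat.Coprime a d → ¬ p + η ≤ P.f (G a d) x →
      P.f (G a d) x + η ≤ p := by
    intro a d e1 e2 e3 e4
    have := hcon a d (G a d) (hGr a d e1 e2 e3)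
    push Not at e4
    rcases le_abs.1 (hηε.trans this) with h | h <;> linarith
  have hle3 : ∀ a d : ℕ, 0 < a → 3 * a ≤ d → Nat.Coprime a d → ∀ y, G a d y ≤ g₃ y := by
    intro a d e1 e2 e3 y
    rcases Nat.lt_or_ge (a * 3) (1 * d) with h | h
    · exact (rat_lt (hGr a d e1 e2 e3) h3 h y).le
    · have hd : d = 3 * a := by omega
      have ha : a = 1 := by
        rw [hd] at e3
        exact Nat.Coprime.eq_one_of_dvd e3 (Dvd.intro_left 3 rfl)
      rw [hG3 a d ha (by omega)]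
  have hcut := cut (fun a d => p + η ≤ P.f (G a d) x) (by
      intro a d a' d' e1 e2 e3 e4 e5 e6 hlt hL
      have := rat_lt (hGr a d e1 e2 e3) (hGr a' d' e4 e5 e6) hlt x
      have := f_anti (hGr a d e1 e2 e3).toIsCircle (hGr a' d' e4 e5 e6).toIsCircle this
      linarith) (by
      rw [hG3 1 3 rfl rfl]
      push Not
      linarith) c hc (by
      intro a d a' d' e1 e2 e3 e4 e5 e6 hL hL'
      have hg := hGr a d e1 e2 e3
      have hg' := hGr a' d' e4 e5 e6
      have hle : ∀ y, G a d y ≤ G a' d' y := by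
        rcases lt_trichotomy (a * d') (a' * d) with h | h | h
        · exact fun y => (rat_lt hg hg' h y).le
        · exfalso
          have q1 : a ∣ a' := e3.dvd_of_dvd_mul_right ⟨d', h.symm⟩
          have q2 : a' ∣ a := e6.dvd_of_dvd_mul_right ⟨d, h⟩
          have ha : a = a' := Nat.dvd_antisymm q1 q2
          subst ha
          have hd : d' = d := Nat.eq_of_mul_eq_mul_left e1 h
          subst hd
          exact hL' hL
        · exfalso
          have := rat_lt hg' hg h x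
          have := f_anti hg'.toIsCircle hg.toIsCircle this
          exact hL' (by linarith)
      exact hgap a d a' d' (G a d) (G a' d') hg hg' hle (hle3 a' d' e4 e5 e6)
        (fun z hz => (hbz z hz).1 _ hg.toIsCircle hL)
        (fun z hz => (hbz z hz).2.1 _ hg'.toIsCircle (hdich a' d' e4 e5 e6 hL')))
  have hfin := hN (N + 3) (G 1 (N + 3))
    (hGr 1 (N + 3) one_pos (by omega) (Nat.coprime_one_left _))
    (hle3 1 (N + 3) one_pos (by omega) (Nat.coprime_one_left _))
    (fun z hz => (hbz z hz).2.1 _ (hGr 1 (N + 3) one_pos (by omega) (Nat.coprime_one_left _)).toIsCircle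
      (hdich 1 (N + 3) one_pos (by omega) (Nat.coprime_one_left _)
        (hcut 1 (N + 3) one_pos (by omega) (Nat.coprime_one_left _))))
  omega

end Bil
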