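import Pool.Agent.Work.MP_aa14e2_an.MInv

/-!
# Module DenseGap  (100-180 lines)

Setting of the proof: `x₀ p₀ η` with `f g₃ x₀ < p₀ - η`... such that NO rational invariant curve (reduced `p/q ≤ 1/3`) passes
through `(x₀ , (p₀-η, p₀+η))`.  `b` = bump of `exists_bump`, `β = M P g₃ b > 0`.

`gap_ineq` (DenseGap).  Let `g` be a circle of type `(p,q)` with `p₀ + η ≤ f g x₀` and `g'` one of type `(p',q')` with
`f g' x₀ + η ≤ p₀`.  (So `g < g'` everywhere? we get this as hypothesis `hlt`.)  Let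
`A F := M P g' F - M P g F` = integral of `F` over the strip `{f g' x ≤ p ≤ f g x}`.  Let `C` be the constant of `T_ord`, `ε = η/(2C)`.
 (a) for `z` in the strip (`-h(z.1+π) ≤ f g' ≤ z.2`, by `f_lt`): all iterates stay in the strip (`T_reg` for `g'`, `T_below` for `g`),
     `g^[n] z.1 ≤ (T^[n] z).1 ≤ g'^[n] z.1` (induction, monotonicity of `g`, `Y_reg`), and by `T_ord`
     (for points `z` with `b z ≠ 0` we have `z.2 + η/2 ≤ f g z.1`):
     `(T^[q] z).1 ≥ g ((T^[q-1] z).1) + ε b (T^[q-1] z) ≥ z.1 + 2π p + ε b (T^[q-1] z)`;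
     similarly `(T^[q'] z).1 ≤ z.1 + 2π p' - ε b (T^[q'-1] z)`.
 (b) `A` is invariant: `A (F∘T^[n]) = A F` for continuous periodic `F` (`M_T_iter`).  `c := A (fun z => (T z).1 - z.1)`;
     `A (fun z => (T^[n] z).1 - z.1) = n c` (telescoping sum; `z ↦ (T z).1 - z.1` is continuous and periodic by `T_per`).
     `A b = β` because `b = 0` on `{f g x ≤ p}` (so `M P g b = 0`) and `M P g' b = M P g₃ b` (`b` vanishes on
     `{p ≤ f g' x}` and on `{p ≤ f g₃ x}`, `f g₃ x₀ + η ≤ p₀` too).  `A 1 =: m > 0`... only `0 ≤ A 1 ≤ M P g₃ 1 =: μ`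
     if `f g₃ ≤ f g'` is needed: the hypothesis `h3` (`g' ≤ g₃`).
     Integrating (a): `q c - 2π p m ≥ ε β` and `2π p' m - q' c ≥ ε β`.
 (c) multiply by `q'` and `q` and add: `2π m (p' q - p q') ≥ ε β (q + q')`, so `ε β/(2π μ) (q+q') ≤ p' q - p q'` (`μ > 0`, `m ≤ μ`,
     `p' q - p q' ≥ 0`).
-/

noncomputable section
open Real Set MeasureTheory
namespace Bil

private theorem gp_inner_cont {P : Supp} {g g' : ℝ → ℝ} (hg : IsCircle P g) (hg' : IsCircle P g')
    {F : ℝ × ℝ → ℝ} (hF : Continuous F) :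
    Continuous fun x => ∫ p in (P.f g' x)..(P.f g x), F (x, p) := by
  have h1 : Continuous fun x => ∫ p in (0:ℝ)..(P.f g x), F (x, p) :=
    intervalIntegral.continuous_parametric_intervalIntegral_of_continuous
      (f := fun x p => F (x, p)) (by exact hF) (f_cont hg)
  have h2 : Continuous fun x => ∫ p in (0:ℝ)..(P.f g' x), F (x, p) :=
    intervalIntegral.continuous_parametric_intervalIntegral_of_continuous
      (f := fun x p => F (x, p)) (by exact hF) (f_cont hg')
  have e : (fun x => ∫ p in (P.f g' x)..(P.f g x), F (x, p)) =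
      fun x => (∫ p in (0:ℝ)..(P.f g x), F (x, p)) - ∫ p in (0:ℝ)..(P.f g' x), F (x, p) := by
    funext x
    have hi : ∀ a b : ℝ, IntervalIntegrable (fun p => F (x, p)) volume a b := fun a b =>
      (hF.comp (Continuous.prodMk_right x)).intervalIntegrable a b
    rw [intervalIntegral.integral_interval_sub_left (hi _ _) (hi _ _)]
  rw [e]
  exact h1.sub h2

private theorem gp_inner_cont' {P : Supp} {g : ℝ → ℝ} (hg : IsCircle P g)
    {F : ℝ × ℝ → ℝ} (hF : Continuous F) :
    Continuous fun x => ∫ p in (P.f g x)..(P.h x), F (x, p) := by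
  have h1 : Continuous fun x => ∫ p in (0:ℝ)..(P.h x), F (x, p) :=
    intervalIntegral.continuous_parametric_intervalIntegral_of_continuous
      (f := fun x p => F (x, p)) (by exact hF) P.c0
  have h2 : Continuous fun x => ∫ p in (0:ℝ)..(P.f g x), F (x, p) :=
    intervalIntegral.continuous_parametric_intervalIntegral_of_continuous
      (f := fun x p => F (x, p)) (by exact hF) (f_cont hg)
  have e : (fun x => ∫ p in (P.f g x)..(P.h x), F (x, p)) =
      fun x => (∫ p in (0:ℝ)..(P.h x), F (x, p)) - ∫ p in (0:ℝ)..(P.f g x), F (x, p) := by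
    funext x
    have hi : ∀ a b : ℝ, IntervalIntegrable (fun p => F (x, p)) volume a b := fun a b =>
      (hF.comp (Continuous.prodMk_right x)).intervalIntegrable a b
    rw [intervalIntegral.integral_interval_sub_left (hi _ _) (hi _ _)]
  rw [e]
  exact h1.sub h2

/-- difference of two region integrals = integral over the strip -/
private theorem gp_diff {P : Supp} {g g' : ℝ → ℝ} (hg : IsCircle P g) (hg' : IsCircle P g')
    {F : ℝ × ℝ → ℝ} (hF : Continuous F) :
    M P g' F - M P g F = ∫ x in (0:ℝ)..(2 * π), ∫ p in (P.f g' x)..(P.f g x), F (x, p) := by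
  unfold M
  rw [← intervalIntegral.integral_sub ((gp_inner_cont' hg' hF).intervalIntegrable _ _)
    ((gp_inner_cont' hg hF).intervalIntegrable _ _)]
  refine intervalIntegral.integral_congr fun x _ => ?_
  have hi : ∀ a b : ℝ, IntervalIntegrable (fun p => F (x, p)) volume a b := fun a b =>
    (hF.comp (Continuous.prodMk_right x)).intervalIntegrable a b
  have := intervalIntegral.integral_add_adjacent_intervals (hi (P.f g' x) (P.f g x)) (hi (P.f g x) (P.h x))
  linarith

private theorem gp_f_le {P : Supp} {g g' : ℝ → ℝ} (hg : IsCircle P g) (hg' : IsCircle P g') {x : ℝ}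
    (h : g x ≤ g' x) : P.f g' x ≤ P.f g x := by
  rcases h.lt_or_eq with h | h
  · exact (f_anti hg hg' h).le
  · unfold Supp.f
    rw [h]

private theorem gp_mono {P : Supp} {g g' : ℝ → ℝ} (hg : IsCircle P g) (hg' : IsCircle P g')
    (hle : ∀ x, g x ≤ g' x) {F G : ℝ × ℝ → ℝ} (hF : Continuous F) (hG : Continuous G)
    (h : ∀ z : ℝ × ℝ, P.f g' z.1 ≤ z.2 → z.2 ≤ P.f g z.1 → F z ≤ G z) :
    M P g' F - M P g F ≤ M P g' G - M P g G := by
  rw [gp_diff hg hg' hF, gp_diff hg hg' hG]
  refine intervalIntegral.integral_mono_on (by positivity) ((gp_inner_cont hg hg' hF).intervalIntegrable _ _)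
    ((gp_inner_cont hg hg' hG).intervalIntegrable _ _) fun x _ => ?_
  have hi : ∀ {F : ℝ × ℝ → ℝ}, Continuous F → ∀ a b : ℝ,
      IntervalIntegrable (fun p => F (x, p)) volume a b := fun hF a b =>
    (hF.comp (Continuous.prodMk_right x)).intervalIntegrable a b
  refine intervalIntegral.integral_mono_on (gp_f_le hg hg' (hle x)) (hi hF _ _) (hi hG _ _) fun p hp => ?_
  exact h (x, p) hp.1 hp.2

private theorem gp_iter_cont (P : Supp) (n : ℕ) : Continuous (P.T^[n]) := (T_cont P).iterate n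

private theorem gp_iter_per (P : Supp) (n : ℕ) (x p : ℝ) :
    P.T^[n] (x + 2 * π, p) = ((P.T^[n] (x, p)).1 + 2 * π, (P.T^[n] (x, p)).2) := by
  induction n generalizing x p with
  | zero => simp
  | succ n ih =>
    rw [Function.iterate_succ_apply, Function.iterate_succ_apply, T_per, ih]

private theorem gp_disp {P : Supp} {g : ℝ → ℝ} (hg : IsCircle P g) (n : ℕ) :
    M P g (fun z => (P.T^[n] z).1 - z.1) = n * M P g (fun z => (P.T z).1 - z.1) := by
  have hDc : Continuous fun z : ℝ × ℝ => (P.T z).1 - z.1 :=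
    (continuous_fst.comp (T_cont P)).sub continuous_fst
  induction n with
  | zero =>
    simp [M]
  | succ n ih =>
    have e : (fun z : ℝ × ℝ => (P.T^[n + 1] z).1 - z.1) =
        fun z => ((P.T^[n] z).1 - z.1) + ((fun z : ℝ × ℝ => (P.T z).1 - z.1) ∘ P.T^[n]) z := by
      funext z
      rw [Function.iterate_succ_apply']
      simp only [Function.comp]
      ring
    rw [e, M_add hg (F := fun z : ℝ × ℝ => (P.T^[n] z).1 - z.1)
      (G := (fun z : ℝ × ℝ => (P.T z).1 - z.1) ∘ P.T^[n])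
      ((continuous_fst.comp (gp_iter_cont P n)).sub continuous_fst)
      (hDc.comp (gp_iter_cont P n)), ih, M_T_iter hg hDc ?_ n]
    · push_cast
      ring
    · intro x p
      simp only [T_per]
      ring

theorem gap_ineq {P : Supp} {g₃ : ℝ → ℝ} (hg₃ : IsCircle P g₃) {b : ℝ × ℝ → ℝ} (hb : Continuous b)
    (hper : ∀ x p, b (x + 2 * π, p) = b (x, p)) (h0 : ∀ z, 0 ≤ b z) (h1 : ∀ z, b z ≤ 1) {η : ℝ} (hη : 0 < η)
    (hg₃b : ∀ z, b z ≠ 0 → P.f g₃ z.1 + η ≤ z.2) (hβ : 0 < M P g₃ b) :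
    ∃ c, 0 < c ∧ ∀ (p q p' q' : ℕ) (g g' : ℝ → ℝ), IsRat P p q g → IsRat P p' q' g' → (∀ x, g x ≤ g' x) →
      (∀ x, g' x ≤ g₃ x) → (∀ z, b z ≠ 0 → z.2 + η ≤ P.f g z.1) → (∀ z, b z ≠ 0 → P.f g' z.1 + η ≤ z.2) →
      c * ((q : ℝ) + q') ≤ (p' : ℝ) * q - p * q' := by
  obtain ⟨C, hC, hord⟩ := T_ord P
  set ε := η / C with hε
  have hε0 : 0 < ε := div_pos hη hC
  set β := M P g₃ b with hβd
  set μ := M P g₃ (fun _ => 1) with hμ
  have c1 : Continuous (fun _ : ℝ × ℝ => (1 : ℝ)) := continuous_const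
  have hμ0 : 0 ≤ μ := by
    rw [hμ]
    unfold M
    refine intervalIntegral.integral_nonneg (by positivity) fun x _ => ?_
    rw [intervalIntegral.integral_const, smul_eq_mul, mul_one]
    linarith [(f_lt hg₃ x).2]
  refine ⟨ε * β / (2 * π * (μ + 1)), by positivity, ?_⟩
  intro p q p' q' g g' hg hg' hle hle3 hbg hbg'
  have hgc := hg.toIsCircle
  have hgc' := hg'.toIsCircle
  -- the strip
  have hstrip : ∀ z : ℝ × ℝ, P.f g' z.1 ≤ z.2 → z.2 ≤ P.f g z.1 →
      P.f g' (P.T z).1 ≤ (P.T z).2 ∧ (P.T z).2 ≤ P.f g (P.T z).1 ∧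
      g z.1 + ε * b z ≤ (P.T z).1 ∧ (P.T z).1 + ε * b z ≤ g' z.1 := by
    intro z hz1 hz2
    have htop := (f_lt hgc z.1).2
    have hbot := (f_lt hgc' z.1).1
    have hzr : z ∈ Reg P g' := ⟨hz1, hz2.trans htop.le⟩
    have r1 := T_reg hgc' hzr
    have r2 := T_below hgc (z := z) (by linarith) hz2
    have r3 := Y_reg hgc' hzr
    refine ⟨r1.1, r2.2.1, ?_, ?_⟩
    · by_cases hbz : b z = 0
      · rw [hbz, mul_zero, add_zero]
        exact r2.2.2
      · have := (hord g hgc z η hη.le).1 (by linarith) (hbg z hbz)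
        have h2 : ε * b z ≤ ε := by nlinarith [h1 z]
        rw [← hε] at this
        linarith
    · by_cases hbz : b z = 0
      · rw [hbz, mul_zero, add_zero]
        exact r3.2
      · have := (hord g' hgc' z η hη.le).2 (hbg' z hbz) (by linarith)
        have h2 : ε * b z ≤ ε := by nlinarith [h1 z]
        rw [← hε] at this
        linarith
  have hiter : ∀ (n : ℕ) (z : ℝ × ℝ), P.f g' z.1 ≤ z.2 → z.2 ≤ P.f g z.1 →
      P.f g' (P.T^[n] z).1 ≤ (P.T^[n] z).2 ∧ (P.T^[n] z).2 ≤ P.f g (P.T^[n] z).1 ∧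
      g^[n] z.1 ≤ (P.T^[n] z).1 ∧ (P.T^[n] z).1 ≤ g'^[n] z.1 := by
    intro n z hz1 hz2
    induction n with
    | zero => exact ⟨hz1, hz2, le_rfl, le_rfl⟩
    | succ n ih =>
      obtain ⟨i1, i2, i3, i4⟩ := ih
      obtain ⟨j1, j2, j3, j4⟩ := hstrip _ i1 i2
      have hb0 := mul_nonneg hε0.le (h0 (P.T^[n] z))
      rw [Function.iterate_succ_apply' P.T, Function.iterate_succ_apply' g, Function.iterate_succ_apply' g']
      refine ⟨j1, j2, ?_, ?_⟩
      · have := hgc.mono.monotone i3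
        linarith
      · have := hgc'.mono.monotone i4
        linarith
  obtain ⟨q0, rfl⟩ : ∃ q0, q = q0 + 1 := ⟨q - 1, by have := hg.qpos; omega⟩
  obtain ⟨q0', rfl⟩ : ∃ q0', q' = q0' + 1 := ⟨q' - 1, by have := hg'.qpos; omega⟩
  have hlow : ∀ z : ℝ × ℝ, P.f g' z.1 ≤ z.2 → z.2 ≤ P.f g z.1 →
      2 * π * p + ε * b (P.T^[q0] z) ≤ (P.T^[q0 + 1] z).1 - z.1 := by
    intro z hz1 hz2
    obtain ⟨i1, i2, i3, i4⟩ := hiter q0 z hz1 hz2
    obtain ⟨j1, j2, j3, j4⟩ := hstrip _ i1 i2
    have e := hg.iter z.1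
    rw [Function.iterate_succ_apply'] at e ⊢
    have := hgc.mono.monotone i3
    linarith
  have hupp : ∀ z : ℝ × ℝ, P.f g' z.1 ≤ z.2 → z.2 ≤ P.f g z.1 →
      (P.T^[q0' + 1] z).1 - z.1 ≤ 2 * π * p' + (-ε) * b (P.T^[q0'] z) := by
    intro z hz1 hz2
    obtain ⟨i1, i2, i3, i4⟩ := hiter q0' z hz1 hz2
    obtain ⟨j1, j2, j3, j4⟩ := hstrip _ i1 i2
    have e := hg'.iter z.1
    rw [Function.iterate_succ_apply'] at e ⊢
    have := hgc'.mono.monotone i4
    linarith
  -- integrate
  set c₀ := M P g' (fun z => (P.T z).1 - z.1) - M P g (fun z => (P.T z).1 - z.1) with hc₀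
  set m := M P g' (fun _ => 1) - M P g (fun _ => 1) with hm
  have hAb : M P g' b - M P g b = β := by
    have e1 : M P g b = 0 := by
      unfold M
      rw [intervalIntegral.integral_congr (g := fun _ => (0 : ℝ)), intervalIntegral.integral_zero]
      intro x _
      simp only
      rw [intervalIntegral.integral_congr (g := fun _ => (0 : ℝ)), intervalIntegral.integral_zero]
      intro t ht
      rw [uIcc_of_le (f_lt hgc x).2.le] at ht
      by_contra hbz
      have := hbg (x, t) hbz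
      simp only at this
      linarith [ht.1]
    have e2 : M P g₃ b - M P g' b = 0 := by
      rw [gp_diff hgc' hg₃ hb]
      rw [intervalIntegral.integral_congr (g := fun _ => (0 : ℝ)), intervalIntegral.integral_zero]
      intro x _
      simp only
      rw [intervalIntegral.integral_congr (g := fun _ => (0 : ℝ)), intervalIntegral.integral_zero]
      intro t ht
      rw [uIcc_of_le (gp_f_le hgc' hg₃ (hle3 x))] at ht
      by_contra hbz
      have := hbg' (x, t) hbz
      simp only at this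
      linarith [ht.2]
    linarith
  have hm0 : 0 ≤ m := by
    rw [hm, gp_diff hgc hgc' c1]
    refine intervalIntegral.integral_nonneg (by positivity) fun x _ => ?_
    rw [intervalIntegral.integral_const, smul_eq_mul, mul_one]
    linarith [gp_f_le hgc hgc' (hle x)]
  have hmμ : m ≤ μ := by
    have e1 : M P g' (fun _ => 1) ≤ μ := by
      have : 0 ≤ M P g₃ (fun _ => 1) - M P g' (fun _ => 1) := by
        rw [gp_diff hgc' hg₃ c1]
        refine intervalIntegral.integral_nonneg (by positivity) fun x _ => ?_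
        rw [intervalIntegral.integral_const, smul_eq_mul, mul_one]
        linarith [gp_f_le hgc' hg₃ (hle3 x)]
      linarith
    have e2 : 0 ≤ M P g (fun _ => 1) := by
      unfold M
      refine intervalIntegral.integral_nonneg (by positivity) fun x _ => ?_
      rw [intervalIntegral.integral_const, smul_eq_mul, mul_one]
      linarith [(f_lt hgc x).2]
    linarith
  have hcomp : ∀ (a e : ℝ) (n : ℕ) {G : ℝ → ℝ}, IsCircle P G →
      M P G (fun z => a + e * b (P.T^[n] z)) = a * M P G (fun _ => 1) + e * M P G b := by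
    intro a e n G hG
    have e1 : (fun z : ℝ × ℝ => a + e * b (P.T^[n] z)) =
        fun z => (fun z : ℝ × ℝ => a * (fun _ : ℝ × ℝ => (1:ℝ)) z) z + (fun z => e * (b ∘ P.T^[n]) z) z := by
      funext z
      simp
    rw [e1, M_add hG (F := fun z : ℝ × ℝ => a * (fun _ : ℝ × ℝ => (1:ℝ)) z)
      (G := fun z => e * (b ∘ P.T^[n]) z)
      (continuous_const.mul c1) (continuous_const.mul (hb.comp (gp_iter_cont P n))),
      M_smul, M_smul, M_T_iter hG hb hper n]
  have hDn : ∀ n : ℕ, Continuous fun z : ℝ × ℝ => (P.T^[n] z).1 - z.1 := fun n =>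
    (continuous_fst.comp (gp_iter_cont P n)).sub continuous_fst
  have hBn : ∀ (a e : ℝ) (n : ℕ), Continuous fun z : ℝ × ℝ => a + e * b (P.T^[n] z) := fun a e n =>
    continuous_const.add (continuous_const.mul (hb.comp (gp_iter_cont P n)))
  have I1 := gp_mono hgc hgc' hle (hBn (2 * π * p) ε q0) (hDn (q0 + 1)) hlow
  have I2 := gp_mono hgc hgc' hle (hDn (q0' + 1)) (hBn (2 * π * p') (-ε) q0') hupp
  rw [hcomp _ _ _ hgc, hcomp _ _ _ hgc', gp_disp hgc, gp_disp hgc'] at I1 I2
  have J1 : 2 * π * p * m + ε * β ≤ ((q0 + 1 : ℕ) : ℝ) * c₀ := by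
    rw [hm, hc₀, ← hAb]
    linarith
  have J2 : ((q0' + 1 : ℕ) : ℝ) * c₀ ≤ 2 * π * p' * m - ε * β := by
    rw [hm, hc₀, ← hAb]
    linarith
  set q := q0 + 1 with hq
  set q' := q0' + 1 with hq'
  have hqp : (0 : ℝ) < q := by exact_mod_cast hg.qpos
  have hqp' : (0 : ℝ) < q' := by exact_mod_cast hg'.qpos
  have K : ε * β * ((q : ℝ) + q') ≤ 2 * π * m * ((p' : ℝ) * q - p * q') := by
    have a1 := mul_le_mul_of_nonneg_left J1 hqp'.le
    have a2 := mul_le_mul_of_nonneg_left J2 hqp.le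
    nlinarith
  have hεβ : 0 < ε * β := mul_pos hε0 hβ
  have hd : 0 < (p' : ℝ) * q - p * q' := by
    by_contra hcon
    push Not at hcon
    have : 2 * π * m * ((p' : ℝ) * q - p * q') ≤ 0 :=
      mul_nonpos_of_nonneg_of_nonpos (by positivity) hcon
    have : 0 < ε * β * ((q : ℝ) + q') := by positivity
    linarith
  have K2 : ε * β * ((q : ℝ) + q') ≤ 2 * π * (μ + 1) * ((p' : ℝ) * q - p * q') := by
    refine K.trans (mul_le_mul_of_nonneg_right ?_ hd.le)
    exact mul_le_mul_of_nonneg_left (by linarith) (by positivity)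
  rw [div_mul_eq_mul_div, div_le_iff₀ (by positivity)]
  linarith

end Bil
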