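import Pool.Agent.Work.MP_aa14e2_an.GeoTable

/-!
# Sanity check of the geometric definitions: the unit disc is a `Table` with rotational invariant circles
of all rotation numbers `p/q ∈ (0,1/2)`, and its boundary is an ellipse.
-/

noncomputable section
open Real Complex
namespace Bil

lemma disc_deriv (s : ℝ) : HasDerivAt (fun s : ℝ => exp (s * I)) (I * exp (s * I)) s := by
  have h1 : HasDerivAt (fun s : ℝ => (s : ℂ) * I) (1 * I) s := (Complex.ofRealCLM.hasDerivAt (x := s)).mul_const I
  have h2 := (Complex.hasDerivAt_exp ((s : ℂ) * I)).comp_of_eq s h1 rfl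
  exact h2.congr_deriv (by ring)

/-- the unit disc -/
def disc : Table where
  Ω := Metric.ball 0 1
  γ s := exp (s * I)
  L := 2 * π
  L_pos := by positivity
  isOpen := Metric.isOpen_ball
  convex := convex_ball _ _
  strict := by
    rw [closure_ball (0 : ℂ) one_ne_zero]
    exact strictConvex_closedBall ℝ 0 1
  smooth := by
    have : ContDiff ℝ (⊤ : ℕ∞) (fun s : ℝ => (s : ℂ) * I) :=
      (Complex.ofRealCLM.contDiff).mul contDiff_const
    exact this.cexp
  speed s := by
    rw [(disc_deriv s).deriv]
    simp [Complex.norm_exp]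
  closed s := by
    push_cast
    rw [add_mul, Complex.exp_add, show (2 * (π : ℂ)) * I = 2 * π * I by ring, Complex.exp_two_pi_mul_I, mul_one]
  simple s t h := by
    rw [Complex.exp_eq_exp_iff_exists_int] at h
    obtain ⟨n, hn⟩ := h
    refine ⟨-n, ?_⟩
    have h1 := congrArg Complex.im hn
    simp at h1
    push_cast
    linarith
  bdry := by
    rw [frontier_ball (0 : ℂ) one_ne_zero]
    ext z
    simp only [mem_sphere_iff_norm, sub_zero, Set.mem_range]
    constructor
    · intro h
      refine ⟨Complex.arg z, ?_⟩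
      have := Complex.norm_mul_exp_arg_mul_I z
      rw [h] at this
      simpa using this
    · rintro ⟨s, rfl⟩
      simp [Complex.norm_exp]
  left s := by
    refine ⟨1, one_pos, ?_⟩
    rw [(disc_deriv s).deriv]
    have : exp (s * I) + (1 : ℝ) * (I * (I * exp (s * I))) = 0 := by
      have := Complex.I_mul_I
      push_cast
      linear_combination exp (s * I) * this
    rw [this]
    simp

theorem disc_circle (p q : ℕ) (hp : 0 < p) (hpq : 2 * p < q) : disc.HasRationalCircle p q := by
  have hq : 0 < q := by omega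
  have hq' : (0 : ℝ) < q := by exact_mod_cast hq
  have hp' : (0 : ℝ) < p := by exact_mod_cast hp
  have hpq' : 2 * (p : ℝ) < q := by exact_mod_cast hpq
  set θ : ℝ := π * p / q with hθ
  have h1 : 0 < θ := by positivity
  have h2 : 2 * θ < π := by
    rw [hθ, ← mul_div_assoc, div_lt_iff₀ hq']
    nlinarith [pi_pos]
  have hB : ∀ s : ℝ, disc.Bounce (s, θ) (s + 2 * θ, θ) := by
    intro s
    refine ⟨h1, by show θ < π; linarith, h1, by show θ < π; linarith, by show s < s + 2 * θ; linarith,
      by show s + 2 * θ < s + 2 * π; linarith [pi_pos], 2 * Real.sin θ, ?_, ?_, ?_⟩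
    · have := Real.sin_pos_of_pos_of_lt_pi h1 (by linarith)
      positivity
    · show exp (((s + 2 * θ : ℝ) : ℂ) * I) - exp ((s : ℂ) * I) = _
      have e : deriv disc.γ s = I * exp (s * I) := (disc_deriv s).deriv
      show _ = ((2 * Real.sin θ : ℝ) : ℂ) * (exp ((θ : ℝ) * I) * deriv disc.γ s)
      rw [e]
      push_cast
      rw [Complex.sin]
      have e1 : exp ((s + 2 * θ) * I) = exp (s * I) * exp (θ * I) * exp (θ * I) := by
        rw [← Complex.exp_add, ← Complex.exp_add]; ring_nf
      have e2 : exp (-θ * I) * exp (θ * I) = 1 := by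
        rw [← Complex.exp_add]; simp
      rw [e1]
      have := Complex.I_sq
      linear_combination (exp (s * I)) * e2 - (exp (-θ * I) - exp (θ * I)) * exp (θ * I) * exp (s * I) * this
    · show exp (((s + 2 * θ : ℝ) : ℂ) * I) - exp ((s : ℂ) * I) = _
      have e : deriv disc.γ (s + 2 * θ) = I * exp ((s + 2 * θ : ℝ) * I) := (disc_deriv _).deriv
      show _ = ((2 * Real.sin θ : ℝ) : ℂ) * (exp (-((θ : ℝ) * I)) * deriv disc.γ (s + 2 * θ))
      rw [e]
      push_cast
      rw [Complex.sin]
      have e1 : exp ((s + 2 * θ) * I) = exp (s * I) * exp (θ * I) * exp (θ * I) := by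
        rw [← Complex.exp_add, ← Complex.exp_add]; ring_nf
      have e2 : exp (-θ * I) * exp (θ * I) = 1 := by
        rw [← Complex.exp_add]; simp
      rw [e1, show -((θ : ℂ) * I) = -θ * I by ring]
      have := Complex.I_sq
      set E := exp (s * I)
      set u := exp (θ * I)
      set v := exp (-θ * I)
      linear_combination ((1 + u * v) * E - u * u * E) * e2 - (v - u) * (v * (E * u * u)) * this
  have hc : ∀ t : ℝ, ((2 * π * t : ℝ), θ) = ((2 * π * t : ℝ), θ) := fun _ => rfl
  refine ⟨fun t => (2 * π * t, θ), ⟨by fun_prop, fun t => ?_, fun t => ⟨h1, by show θ < π; linarith⟩, fun t => ?_, fun t => ?_⟩, fun t => ?_⟩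
  · show (2 * π * (t + 1), θ) = (2 * π * t + 2 * π, θ)
    rw [mul_add, mul_one]
  · refine ⟨t + θ / π, ?_⟩
    have := hB (2 * π * t)
    have e : 2 * π * t + 2 * θ = 2 * π * (t + θ / π) := by field_simp
    rw [e] at this
    exact this
  · refine ⟨t - θ / π, ?_⟩
    have := hB (2 * π * (t - θ / π))
    have e : 2 * π * (t - θ / π) + 2 * θ = 2 * π * t := by field_simp; ring
    rw [e] at this
    exact this
  · refine ⟨fun i => (2 * π * t + i * (2 * θ), θ), by simp, fun i _ => ?_, ?_⟩
    · have := hB (2 * π * t + i * (2 * θ))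
      have e : 2 * π * t + i * (2 * θ) + 2 * θ = 2 * π * t + ((i + 1 : ℕ) : ℝ) * (2 * θ) := by
        push_cast; ring
      rw [e] at this
      exact this
    · show (2 * π * t + q * (2 * θ), θ) = (2 * π * t + p * (2 * π), θ)
      congr 2
      rw [hθ]
      field_simp

end Bil
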