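import Pool.Agent.Work.MP_aa14e2_an.Basic

/-!
# Module FProps  (elementary, 80-150 lines)

Properties of the graph `p = P.f g x = - P.s1 x (g x)` of an invariant curve.

PROOFS.
* `exists_inv`: `g` is strictly monotone, continuous and `g x > x`, `g (x+2π) = g x + 2π`, hence unbounded in both
  directions, so it is an order isomorphism / homeomorphism (`StrictMono.orderIso...`, or IVT + `choose`).
* `f_g`: this is `hg.eq x` rearranged.  `f_per`: `s1_shift` and `hg.per`. `f_cont`: composition.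
* `f_lt`: `f g x = -s1 x (g x) < -s1 x x = h x` (`s1_mono`, `s1_diag`), and `> -s1 x (x+2π) = -h (x+π)` (`s1_end`).
* `f_anti`: `g x < g' x` gives `f g' x < f g x` (`s1_mono`).
* `f_lip`: let `C` be the bound of `Supp.bound`.  For `x < x'` (general `x,x'`):  as `g x ≤ g x'` and `-s1 x' ·` is
  decreasing on `[x', x'+2π]`: if `x' ≤ g x` then `f g x' = -s1 x' (g x') ≤ -s1 x' (g x)`, so
  `f g x' - f g x ≤ -s1 x' (g x) + s1 x (g x) ≤ C (x'-x)` (mean value theorem with `s1_dx`, `|s11| ≤ C`).
  For the other inequality use `f g x' = s2 (k x') x'` with `k` the inverse of `g` (`f_g` at `k x'`), `k x ≤ k x'`,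
  `s2 · x'` increasing on `[x'-2π, x']`: if `x' - 2π ≤ k x` then `f g x' ≥ s2 (k x) x'`, so
  `f g x' - f g x ≥ s2 (k x) x' - s2 (k x) x ≥ -C (x'-x)` (`s2_dy`, `|s22| ≤ C`).
  The side conditions hold when `x'-x` is small (there is `η>0` with `g x - x ≥ η`, `2π - (x - k x) ≥ η` for all `x`
  by periodicity and compactness); a function that satisfies `|f x' - f x| ≤ C|x'-x|` whenever `|x'-x| ≤ η` satisfies
  it for all `x,x'` (chain of small steps; or via: the set of `x'≥x` where the bound holds is closed and open;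
  or `LipschitzOnWith` on convex sets).  The constant `C` must not depend on `g` (the `η` may).
  ALTERNATIVE without `η`: the monotonicity inequalities hold for all `x'`: if `x' > g x` ... the small steps are easier.
-/

noncomputable section
open Real Set
namespace Bil

private lemma fp_tendsto {P : Supp} {g : ℝ → ℝ} (hg : IsCircle P g) : Function.Surjective g := by
  have h1 : Filter.Tendsto g Filter.atTop Filter.atTop :=
    Filter.tendsto_atTop_mono (fun x => (hg.lt x).le) Filter.tendsto_id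
  have h2 : Filter.Tendsto g Filter.atBot Filter.atBot :=
    Filter.tendsto_atBot_mono (fun x => (hg.lt2 x).le)
      (Filter.tendsto_atBot_add_const_right _ _ Filter.tendsto_id)
  exact hg.cont.surjective h1 h2

theorem exists_inv {P : Supp} {g : ℝ → ℝ} (hg : IsCircle P g) :
    ∃ k : ℝ → ℝ, StrictMono k ∧ Continuous k ∧ (∀ x, k (g x) = x) ∧ (∀ x, g (k x) = x) ∧
      (∀ x, k (x + 2 * π) = k x + 2 * π) ∧ (∀ x, k x < x) ∧ (∀ x, x - 2 * π < k x) := by
  let e : ℝ ≃o ℝ := hg.mono.orderIsoOfSurjective g (fp_tendsto hg)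
  have he : ∀ x, e x = g x := fun x => rfl
  have h1 : ∀ x, e.symm (g x) = x := fun x => by rw [← he, e.symm_apply_apply]
  have h2 : ∀ x, g (e.symm x) = x := fun x => by rw [← he, e.apply_symm_apply]
  refine ⟨e.symm, e.symm.strictMono, e.symm.continuous, h1, h2, fun x => ?_, fun x => ?_,
    fun x => ?_⟩
  · apply hg.mono.injective
    rw [h2, hg.per, h2]
  · have := hg.lt (e.symm x)
    rwa [h2] at this
  · have := hg.lt2 (e.symm x)
    rw [h2] at this
    linarith

theorem f_g {P : Supp} {g : ℝ → ℝ} (hg : IsCircle P g) (x : ℝ) : P.f g (g x) = P.s2 x (g x) := by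
  have := hg.eq x
  unfold Supp.f
  linarith

theorem f_per {P : Supp} {g : ℝ → ℝ} (hg : IsCircle P g) (x : ℝ) : P.f g (x + 2 * π) = P.f g x := by
  unfold Supp.f
  rw [hg.per, P.s1_shift]

theorem f_cont {P : Supp} {g : ℝ → ℝ} (hg : IsCircle P g) : Continuous (P.f g) := by
  unfold Supp.f
  exact (P.cs1.comp (continuous_id.prodMk hg.cont)).neg

theorem f_lt {P : Supp} {g : ℝ → ℝ} (hg : IsCircle P g) (x : ℝ) :
    - P.h (x + π) < P.f g x ∧ P.f g x < P.h x := by
  have hp := pi_pos
  have h1 := P.s1_mono x (left_mem_Icc.2 (by linarith)) ⟨(hg.lt x).le, (hg.lt2 x).le⟩ (hg.lt x)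
  have h2 := P.s1_mono x ⟨(hg.lt x).le, (hg.lt2 x).le⟩ (right_mem_Icc.2 (by linarith)) (hg.lt2 x)
  simp only [P.s1_diag, P.s1_end] at h1 h2
  unfold Supp.f
  constructor <;> linarith

theorem f_anti {P : Supp} {g g' : ℝ → ℝ} (hg : IsCircle P g) (hg' : IsCircle P g') {x : ℝ}
    (h : g x < g' x) : P.f g' x < P.f g x := by
  have h1 := P.s1_mono x ⟨(hg.lt x).le, (hg.lt2 x).le⟩ ⟨(hg'.lt x).le, (hg'.lt2 x).le⟩ h
  simp only at h1
  unfold Supp.f
  linarith

private lemma fp_chain {u : ℝ → ℝ} {C η : ℝ} (hη : 0 < η)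
    (h : ∀ a b, a ≤ b → b ≤ a + η → |u b - u a| ≤ C * (b - a)) {a b : ℝ} (hab : a ≤ b) :
    |u b - u a| ≤ C * (b - a) := by
  obtain ⟨N, hN⟩ := exists_nat_gt ((b - a) / η)
  have hN0 : (0 : ℝ) < (N : ℝ) :=
    lt_of_le_of_lt (div_nonneg (by linarith) hη.le) hN
  set d := (b - a) / N with hd
  have hd0 : 0 ≤ d := div_nonneg (by linarith) hN0.le
  have hdη : d ≤ η := by
    rw [hd, div_le_iff₀ hN0]
    rw [div_lt_iff₀ hη] at hN
    linarith
  have key : ∀ m : ℕ, |u (a + m * d) - u a| ≤ C * (m * d) := by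
    intro m
    induction m with
    | zero => simp
    | succ m ih =>
      have h1 := h (a + m * d) (a + (m + 1) * d) (by nlinarith) (by nlinarith)
      have e : u (a + ((m + 1 : ℕ) : ℝ) * d) - u a
          = (u (a + (m + 1) * d) - u (a + m * d)) + (u (a + m * d) - u a) := by
        push_cast; ring
      rw [e]
      refine (abs_add_le _ _).trans ?_
      push_cast
      have e2 : a + (m + 1) * d - (a + m * d) = d := by ring
      rw [e2] at h1
      linarith
  have := key N
  have e3 : (N : ℝ) * d = b - a := by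
    rw [hd]; field_simp
  rw [e3] at this
  simpa using this

private lemma fp_min {u : ℝ → ℝ} (hu : Continuous u) (hp : ∀ x, u (x + 2 * π) = u x)
    (h0 : ∀ x, 0 < u x) : ∃ η, 0 < η ∧ ∀ x, η ≤ u x := by
  have hP : Function.Periodic u (2 * π) := hp
  obtain ⟨y, hy, hmin⟩ := (isCompact_Icc (a := (0:ℝ)) (b := 2 * π)).exists_isMinOn
    ⟨0, left_mem_Icc.2 (by positivity)⟩ hu.continuousOn
  refine ⟨u y, h0 y, fun x => ?_⟩
  obtain ⟨z, hz, e⟩ := hP.exists_mem_Ico₀ (by positivity : (0:ℝ) < 2 * π) x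
  rw [e]
  exact hmin ⟨hz.1, hz.2.le⟩

/-- equi-Lipschitz property of invariant curves -/
theorem f_lip (P : Supp) : ∃ C, 0 < C ∧ ∀ g, IsCircle P g → ∀ x y, |P.f g x - P.f g y| ≤ C * |x - y| := by
  obtain ⟨C, hC, hb⟩ := P.bound
  refine ⟨C, hC, fun g hg => ?_⟩
  obtain ⟨k, hk, kc, kg, gk, kp, klt, klt2⟩ := exists_inv hg
  obtain ⟨η1, hη1, h1⟩ := fp_min (u := fun x => g x - x) (hg.cont.sub continuous_id)
    (fun x => by rw [hg.per]; ring) (fun x => by linarith [hg.lt x])
  obtain ⟨η2, hη2, h2⟩ := fp_min (u := fun x => k x + 2 * π - x)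
    ((kc.add continuous_const).sub continuous_id)
    (fun x => by rw [kp]; ring) (fun x => by linarith [klt2 x])
  have L1 : ∀ x x' y, |P.s1 x' y - P.s1 x y| ≤ C * |x' - x| := by
    intro x x' y
    have := Convex.norm_image_sub_le_of_norm_hasDerivWithin_le (f := fun x => P.s1 x y)
      (f' := fun x => P.s11 x y) (s := univ) (x := x) (y := x') (C := C)
      (fun z _ => (P.s1_dx z y).hasDerivWithinAt) (fun z _ => (hb z y).2.2.1) convex_univ
      (mem_univ _) (mem_univ _)
    simpa [Real.norm_eq_abs] using this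
  have L2 : ∀ x y y', |P.s2 x y' - P.s2 x y| ≤ C * |y' - y| := by
    intro x y y'
    have := Convex.norm_image_sub_le_of_norm_hasDerivWithin_le (f := fun y => P.s2 x y)
      (f' := fun y => P.s22 x y) (s := univ) (x := y) (y := y') (C := C)
      (fun z _ => (P.s2_dy x z).hasDerivWithinAt) (fun z _ => (hb x z).2.2.2.2) convex_univ
      (mem_univ _) (mem_univ _)
    simpa [Real.norm_eq_abs] using this
  have hfk : ∀ x, P.f g x = P.s2 (k x) x := by
    intro x
    have := f_g hg (k x)
    rwa [gk] at this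
  have loc : ∀ a b, a ≤ b → b ≤ a + min η1 η2 → |P.f g b - P.f g a| ≤ C * (b - a) := by
    intro x x' hx hx'
    have e1 : x' ≤ g x := by have := h1 x; have := min_le_left η1 η2; linarith
    have e2 : x' - 2 * π ≤ k x := by have := h2 x; have := min_le_right η1 η2; linarith
    have m1 : g x ≤ g x' := hg.mono.monotone hx
    have m2 : k x ≤ k x' := hk.monotone hx
    rw [abs_le]
    have habs : |x' - x| = x' - x := abs_of_nonneg (by linarith)
    constructor
    · have a1 := (P.s2_mono x').monotoneOn ⟨e2, m2.trans (klt x').le⟩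
        ⟨(klt2 x').le, (klt x').le⟩ m2
      have a2 := L2 (k x) x x'
      rw [habs] at a2
      have a3 := neg_abs_le (P.s2 (k x) x' - P.s2 (k x) x)
      rw [hfk x', hfk x]
      linarith
    · have a1 := (P.s1_mono x').monotoneOn ⟨e1, m1.trans (hg.lt2 x').le⟩
        ⟨(hg.lt x').le, (hg.lt2 x').le⟩ m1
      have a2 := L1 x x' (g x)
      rw [habs] at a2
      have a3 := neg_abs_le (P.s1 x' (g x) - P.s1 x (g x))
      unfold Supp.f
      linarith
  intro x y
  rcases le_total x y with h | h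
  · rw [abs_sub_comm (P.f g x), abs_sub_comm x y, abs_of_nonneg (by linarith : 0 ≤ y - x)]
    exact fp_chain (lt_min hη1 hη2) loc h
  · rw [abs_of_nonneg (by linarith : 0 ≤ x - y)]
    exact fp_chain (lt_min hη1 hη2) loc h

end Bil
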