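import Pool.Agent.Work.MP_aa14e2_an.GeoAngA

/-!
# Module GeoAng  (angles)

PROOF of `exists_ang`.  For `x<y<x+L`, `γ y ≠ γ x` (`simple`).  Put `c x y = conj τ(x) (γ y - γ x)`, a number in the upper half plane
(`left_of`), and `φ x y = Ψ x + arg (c x y)`.  Then `conj τ(y) (γ y - γ x) = |c| e^{i(φ - Ψ y)}` is in the lower half plane, so
`φ < Ψ y < φ + π`.  Derivatives: `∂φ/∂y = sin (Ψ y - φ)/|c| > 0` and `∂φ/∂x = sin (arg c)/|c| > 0`.
`surj`: IVT with the bounds `lt1`.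
-/

noncomputable section
open Real Complex
namespace Bil

private def gaC (T : Table) (x y : ℝ) : ℂ := (starRingEnd ℂ) (deriv T.γ x) * (T.γ y - T.γ x)

private lemma gaC_im (T : Table) {x y : ℝ} (h1 : x < y) (h2 : y < x + T.L) : 0 < (gaC T x y).im :=
  T.left_of x y (geo_ne T h1 h2)

private lemma gaC_slit (T : Table) {x y : ℝ} (h1 : x < y) (h2 : y < x + T.L) :
    gaC T x y ∈ Complex.slitPlane := by
  rw [Complex.mem_slitPlane_iff]
  exact Or.inr (gaC_im T h1 h2).ne'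

private lemma gaC_ne (T : Table) {x y : ℝ} (h1 : x < y) (h2 : y < x + T.L) : gaC T x y ≠ 0 :=
  Complex.slitPlane_ne_zero (gaC_slit T h1 h2)

private lemma gaC_arg (T : Table) {x y : ℝ} (h1 : x < y) (h2 : y < x + T.L) :
    0 < Complex.arg (gaC T x y) ∧ Complex.arg (gaC T x y) < π := by
  have h := gaC_im T h1 h2
  refine ⟨?_, ?_⟩
  · have h3 := (Complex.arg_nonneg_iff (z := gaC T x y)).2 h.le
    refine lt_of_le_of_ne h3 fun h0 => ?_
    rw [eq_comm, Complex.arg_eq_zero_iff] at h0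
    linarith [h0.2]
  · exact Complex.arg_lt_pi_iff.2 (Or.inr h.ne')

private def gaφ (T : Table) (Ψ : ℝ → ℝ) (x y : ℝ) : ℝ := Ψ x + Complex.arg (gaC T x y)

private lemma ga_chord (T : Table) {Ψ : ℝ → ℝ}
    (hΨ : ∀ s, deriv T.γ s = I * Complex.exp (Ψ s * I)) (x y : ℝ) :
    T.γ y - T.γ x = ‖gaC T x y‖ * (I * Complex.exp (gaφ T Ψ x y * I)) := by
  have h1 := Complex.norm_mul_exp_arg_mul_I (gaC T x y)
  have h2 : deriv T.γ x * (starRingEnd ℂ) (deriv T.γ x) = 1 := by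
    rw [Complex.mul_conj, Complex.normSq_eq_norm_sq, T.speed x]
    norm_num
  have h3 : T.γ y - T.γ x = deriv T.γ x * gaC T x y := by
    unfold gaC
    rw [← mul_assoc, h2, one_mul]
  have h4 : Complex.exp (gaφ T Ψ x y * I)
      = Complex.exp (Ψ x * I) * Complex.exp (Complex.arg (gaC T x y) * I) := by
    rw [← Complex.exp_add]
    congr 1
    unfold gaφ
    push_cast
    ring
  rw [h3, h4, hΨ x]
  conv_lhs => rw [← h1]
  ring

private lemma ga_sin_neg (T : Table) {Ψ : ℝ → ℝ}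
    (hΨ : ∀ s, deriv T.γ s = I * Complex.exp (Ψ s * I)) {x y : ℝ} (h1 : x < y)
    (h2 : y < x + T.L) : 0 < Real.sin (Ψ y - gaφ T Ψ x y) := by
  have h3 := T.left_of y x (geo_ne T h1 h2).symm
  have h4 : (starRingEnd ℂ) (deriv T.γ y) * (T.γ x - T.γ y)
      = -(‖gaC T x y‖ * Complex.exp (((gaφ T Ψ x y - Ψ y : ℝ) : ℂ) * I)) := by
    rw [← geo_conj_exp, ← hΨ y]
    have h5 := ga_chord T hΨ x y
    calc (starRingEnd ℂ) (deriv T.γ y) * (T.γ x - T.γ y)
        = -((starRingEnd ℂ) (deriv T.γ y) * (T.γ y - T.γ x)) := by ring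
      _ = _ := by rw [h5]; ring
  rw [h4, Complex.neg_im, Complex.im_ofReal_mul, geo_im_exp] at h3
  have h6 : Real.sin (gaφ T Ψ x y - Ψ y) = - Real.sin (Ψ y - gaφ T Ψ x y) := by
    rw [← Real.sin_neg]
    congr 1
    ring
  rw [h6] at h3
  have h7 : 0 < ‖gaC T x y‖ * Real.sin (Ψ y - gaφ T Ψ x y) := by linarith
  exact (mul_pos_iff_of_pos_left (norm_pos_iff.2 (gaC_ne T h1 h2))).1 h7

private lemma ga_lt1 (T : Table) {Ψ : ℝ → ℝ}
    (hΨ : ∀ s, deriv T.γ s = I * Complex.exp (Ψ s * I)) (hm : StrictMono Ψ)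
    (hp : ∀ s, Ψ (s + T.L) = Ψ s + 2 * π) {x y : ℝ} (h1 : x < y)
    (h2 : y < x + T.L) : Ψ x < gaφ T Ψ x y ∧ gaφ T Ψ x y < Ψ y ∧ gaφ T Ψ x y < Ψ x + π ∧
      Ψ y < gaφ T Ψ x y + π := by
  have h3 := gaC_arg T h1 h2
  have h4 := ga_sin_neg T hΨ h1 h2
  have h5 := hm h1
  have h6 := hm h2
  rw [hp] at h6
  have e : gaφ T Ψ x y = Ψ x + Complex.arg (gaC T x y) := rfl
  have a1 : Ψ x < gaφ T Ψ x y := by rw [e]; linarith
  have a2 : gaφ T Ψ x y < Ψ x + π := by rw [e]; linarith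
  refine ⟨a1, ?_, a2, ?_⟩
  · by_contra hcon
    push Not at hcon
    have := Real.sin_nonpos_of_nonpos_of_neg_pi_le (x := Ψ y - gaφ T Ψ x y) (by linarith)
      (by linarith)
    linarith
  · by_contra hcon
    push Not at hcon
    have h7 : 0 ≤ Real.sin (Ψ y - gaφ T Ψ x y - π) :=
      Real.sin_nonneg_of_nonneg_of_le_pi (by linarith) (by linarith)
    rw [Real.sin_sub_pi] at h7
    linarith

private lemma ga_periodic (T : Table) (s : ℝ) : deriv T.γ (s + T.L) = deriv T.γ s := by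
  have h1 : (fun x => T.γ (x + T.L)) = T.γ := funext T.closed
  have h2 : deriv (fun x => T.γ (x + T.L)) s = deriv T.γ (s + T.L) := deriv_comp_add_const _ _ _
  rw [h1] at h2
  exact h2.symm

private lemma ga_dγ (T : Table) (s : ℝ) : HasDerivAt T.γ (deriv T.γ s) s :=
  ((contDiff_infty_iff_deriv.1 T.smooth).1 s).hasDerivAt

private lemma ga_arg_deriv {f : ℝ → ℂ} {f' : ℂ} {x : ℝ} (h1 : HasDerivAt f f' x)
    (h2 : f x ∈ Complex.slitPlane) : HasDerivAt (fun t => Complex.arg (f t)) (f' / f x).im x := by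
  have h3 := Complex.imCLM.hasFDerivAt.comp_hasDerivAt x (h1.clog_real h2)
  refine h3.congr_of_eventuallyEq (Filter.Eventually.of_forall fun t => ?_)
  simp [Complex.log_im]

private lemma ga_dright (T : Table) {Ψ : ℝ → ℝ}
    (hΨ : ∀ s, deriv T.γ s = I * Complex.exp (Ψ s * I)) {x y : ℝ} (h1 : x < y)
    (h2 : y < x + T.L) : ∃ c, 0 < c ∧ HasDerivAt (fun y => gaφ T Ψ x y) c y := by
  have hne := gaC_ne T h1 h2
  have hpos : 0 < ‖gaC T x y‖ := norm_pos_iff.2 hne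
  have hf : HasDerivAt (fun t => gaC T x t) ((starRingEnd ℂ) (deriv T.γ x) * deriv T.γ y) y :=
    ((ga_dγ T y).sub_const _).const_mul _
  have h3 := (ga_arg_deriv hf (gaC_slit T h1 h2)).const_add (Ψ x)
  refine ⟨_, ?_, h3⟩
  have h4 : (starRingEnd ℂ) (deriv T.γ x) * deriv T.γ y / gaC T x y
      = ((‖gaC T x y‖⁻¹ : ℝ) : ℂ) * Complex.exp (((Ψ y - gaφ T Ψ x y : ℝ) : ℂ) * I) := by
    rw [hΨ x, hΨ y, geo_conj_exp]
    have h5 := Complex.norm_mul_exp_arg_mul_I (gaC T x y)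
    rw [div_eq_iff hne]
    conv_rhs => rw [← h5]
    have h6 : Complex.exp (((Ψ y - Ψ x : ℝ) : ℂ) * I)
        = Complex.exp (((Ψ y - gaφ T Ψ x y : ℝ) : ℂ) * I)
          * Complex.exp (Complex.arg (gaC T x y) * I) := by
      rw [← Complex.exp_add]
      congr 1
      unfold gaφ
      push_cast
      ring
    rw [h6, Complex.ofReal_inv]
    have h7 : (‖gaC T x y‖ : ℂ) ≠ 0 := by exact_mod_cast hpos.ne'
    rw [norm_mul, Complex.norm_real, Complex.norm_exp_ofReal_mul_I, mul_one, norm_norm]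
    have h8 : Complex.arg (↑‖gaC T x y‖ * Complex.exp (↑(Complex.arg (gaC T x y)) * I))
        = Complex.arg (gaC T x y) := by rw [h5]
    field_simp
  rw [h4, Complex.im_ofReal_mul, geo_im_exp]
  exact mul_pos (inv_pos.2 hpos) (ga_sin_neg T hΨ h1 h2)

private lemma ga_dleft (T : Table) {Ψ : ℝ → ℝ} (hs : ContDiff ℝ (⊤ : ℕ∞) Ψ)
    (hΨ : ∀ s, deriv T.γ s = I * Complex.exp (Ψ s * I)) {x y : ℝ} (h1 : x < y)
    (h2 : y < x + T.L) : ∃ c, 0 < c ∧ HasDerivAt (fun x => gaφ T Ψ x y) c x := by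
  have hne := gaC_ne T h1 h2
  have hdΨ : HasDerivAt Ψ (deriv Ψ x) x := ((contDiff_infty_iff_deriv.1 hs).1 x).hasDerivAt
  have hdτ : HasDerivAt (deriv T.γ) (deriv T.γ x * ((deriv Ψ x : ℝ) * I)) x := by
    have h3 : HasDerivAt (fun s => I * Complex.exp (Ψ s * I))
        (I * (Complex.exp (Ψ x * I) * ((deriv Ψ x : ℝ) * I))) x :=
      ((hdΨ.ofReal_comp.mul_const I).cexp).const_mul I
    have h4 : deriv T.γ = fun s => I * Complex.exp (Ψ s * I) := funext hΨ
    rw [h4]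
    refine h3.congr_deriv ?_
    ring
  have hcτ : HasDerivAt (fun s => (starRingEnd ℂ) (deriv T.γ s))
      ((starRingEnd ℂ) (deriv T.γ x * ((deriv Ψ x : ℝ) * I))) x :=
    (Complex.conjCLE.toContinuousLinearMap.hasFDerivAt).comp_hasDerivAt x hdτ
  have hf : HasDerivAt (fun t => gaC T t y) (-(I * (deriv Ψ x : ℝ)) * gaC T x y - 1) x := by
    have h5 := hcτ.mul ((ga_dγ T x).const_sub (T.γ y))
    refine h5.congr_deriv ?_
    have h6 : (starRingEnd ℂ) (deriv T.γ x) * deriv T.γ x = 1 := by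
      rw [mul_comm, Complex.mul_conj, Complex.normSq_eq_norm_sq, T.speed x]
      norm_num
    unfold gaC
    rw [map_mul, map_mul, Complex.conj_I, Complex.conj_ofReal]
    linear_combination (-1 : ℂ) * h6
  have h7 := hdΨ.add (ga_arg_deriv hf (gaC_slit T h1 h2))
  refine ⟨_, ?_, h7⟩
  have h8 : (-(I * ((deriv Ψ x : ℝ) : ℂ)) * gaC T x y - 1) / gaC T x y
      = -(I * ((deriv Ψ x : ℝ) : ℂ)) - (gaC T x y)⁻¹ := by
    field_simp
  rw [h8, Complex.sub_im, Complex.neg_im, Complex.inv_im]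
  have h9 : (I * ((deriv Ψ x : ℝ) : ℂ)).im = deriv Ψ x := by simp
  rw [h9]
  have h10 : 0 < (gaC T x y).im / Complex.normSq (gaC T x y) :=
    div_pos (gaC_im T h1 h2) (Complex.normSq_pos.2 hne)
  have h11 : -(gaC T x y).im / Complex.normSq (gaC T x y)
      = -((gaC T x y).im / Complex.normSq (gaC T x y)) := by ring
  rw [h11]
  linarith

theorem exists_ang (T : Table) : Nonempty (Ang T) := by
  obtain ⟨Ψ, hs, hΨ, hm, hp⟩ := exists_tangent_angle T
  have hcont : ContinuousOn (fun z : ℝ × ℝ => gaφ T Ψ z.1 z.2)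
      {z | z.1 < z.2 ∧ z.2 < z.1 + T.L} := by
    intro z hz
    have hγc : Continuous T.γ := T.smooth.continuous
    have hτc : Continuous (deriv T.γ) := (contDiff_infty_iff_deriv.1 T.smooth).2.continuous
    have hC : Continuous fun z : ℝ × ℝ => gaC T z.1 z.2 := by
      unfold gaC
      exact (Complex.continuous_conj.comp (hτc.comp continuous_fst)).mul
        ((hγc.comp continuous_snd).sub (hγc.comp continuous_fst))
    have h1 : ContinuousAt (fun z : ℝ × ℝ => Complex.arg (gaC T z.1 z.2)) z :=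
      ContinuousAt.comp (f := fun z : ℝ × ℝ => gaC T z.1 z.2)
        (Complex.continuousAt_arg (gaC_slit T hz.1 hz.2)) hC.continuousAt
    exact ((hs.continuous.comp continuous_fst).continuousAt.add h1).continuousWithinAt
  have hml : ∀ x x' y, x < x' → x' < y → y < x + T.L → gaφ T Ψ x y < gaφ T Ψ x' y := by
    intro x x' y h1 h2 h3
    have key : StrictMonoOn (fun t => gaφ T Ψ t y) (Set.Ioo (y - T.L) y) := by
      have hd : ∀ t ∈ Set.Ioo (y - T.L) y, ∃ c, 0 < c ∧ HasDerivAt (fun x => gaφ T Ψ x y) c t :=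
        fun t ht => ga_dleft T hs hΨ ht.2 (by linarith [ht.1])
      refine strictMonoOn_of_deriv_pos (convex_Ioo _ _) (fun t ht => ?_) (fun t ht => ?_)
      · obtain ⟨c, _, hc⟩ := hd t ht
        exact hc.continuousAt.continuousWithinAt
      · rw [interior_Ioo] at ht
        obtain ⟨c, hc0, hc⟩ := hd t ht
        rwa [hc.deriv]
    exact key ⟨by linarith, by linarith⟩ ⟨by linarith, h2⟩ h1
  have hmr : ∀ x y y', x < y → y < y' → y' < x + T.L → gaφ T Ψ x y < gaφ T Ψ x y' := by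
    intro x y y' h1 h2 h3
    have key : StrictMonoOn (fun t => gaφ T Ψ x t) (Set.Ioo x (x + T.L)) := by
      have hd : ∀ t ∈ Set.Ioo x (x + T.L), ∃ c, 0 < c ∧ HasDerivAt (fun y => gaφ T Ψ x y) c t :=
        fun t ht => ga_dright T hΨ ht.1 ht.2
      refine strictMonoOn_of_deriv_pos (convex_Ioo _ _) (fun t ht => ?_) (fun t ht => ?_)
      · obtain ⟨c, _, hc⟩ := hd t ht
        exact hc.continuousAt.continuousWithinAt
      · rw [interior_Ioo] at ht
        obtain ⟨c, hc0, hc⟩ := hd t ht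
        rwa [hc.deriv]
    exact key ⟨h1, by linarith⟩ ⟨by linarith, h3⟩ h2
  refine ⟨⟨Ψ, gaφ T Ψ, hs, hΨ, hm, hp, fun x y h1 h2 => ?_, fun x y h1 h2 =>
    ga_lt1 T hΨ hm hp h1 h2, hcont, hml, hmr, fun x y _ _ => ?_,
    fun x y h1 h2 => ga_dright T hΨ h1 h2, fun x y h1 h2 => ga_dleft T hs hΨ h1 h2,
    fun x θ h1 h2 => ?_⟩⟩
  · exact ⟨‖gaC T x y‖, norm_pos_iff.2 (gaC_ne T h1 h2), ga_chord T hΨ x y⟩
  · unfold gaφ gaC
    rw [hp, ga_periodic, T.closed, T.closed]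
    ring
  · have hpi := Real.pi_pos
    have hL := T.L_pos
    have hr : ∀ θ', 0 < θ' → θ' < 2 * π → ∃ y ∈ Set.Ioo x (x + T.L), Ψ y = Ψ x + θ' := by
      intro θ' h3 h4
      obtain ⟨y, hy, he⟩ := intermediate_value_Ioo (by linarith : x ≤ x + T.L)
        hs.continuous.continuousOn
        (⟨by linarith, by rw [hp]; linarith⟩ : Ψ x + θ' ∈ Set.Ioo (Ψ x) (Ψ (x + T.L)))
      exact ⟨y, hy, he⟩
    obtain ⟨y1, hy1, e1⟩ := hr θ h1 (by linarith)
    obtain ⟨y2, hy2, e2⟩ := hr (θ + π) (by linarith) (by linarith)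
    have h12 : y1 < y2 := hm.lt_iff_lt.1 (by rw [e1, e2]; linarith)
    have b1 := (ga_lt1 T hΨ hm hp hy1.1 hy1.2).2.1
    have b2 := (ga_lt1 T hΨ hm hp hy2.1 hy2.2).2.2.2
    have hc : ContinuousOn (fun t => gaφ T Ψ x t) (Set.Icc y1 y2) := by
      intro t ht
      obtain ⟨c, _, hc⟩ := ga_dright T hΨ (x := x) (y := t) (by linarith [hy1.1, ht.1])
        (by linarith [hy2.2, ht.2])
      exact hc.continuousAt.continuousWithinAt
    obtain ⟨y, hy, he⟩ := intermediate_value_Icc h12.le hc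
      (⟨by linarith, by linarith⟩ : Ψ x + θ ∈ Set.Icc (gaφ T Ψ x y1) (gaφ T Ψ x y2))
    exact ⟨y, by linarith [hy1.1, hy.1], by linarith [hy2.2, hy.2], he⟩

end Bil
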