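import Pool.Agent.Work.MP_aa14e2_an.GeoLeft

/-!
# Module GeoAngA : the tangent angle of a table

PROOF of `exists_tangent_angle`.  `τ = deriv γ` is smooth with `|τ| = 1`.  `κ s = (conj (τ s) * deriv τ s).im`,
`τ' = i κ τ`.  `Ψ s = Ψ₀ + ∫_0^s κ`; then `τ e^{-iΨ}` is constant.  With `u t = Im (conj τ(s) (γ t - γ s))` one has
`u' t = sin (Ψ t - Ψ s)`, so arbitrarily close to `s` on the right there are points `t` with `Ψ t > Ψ s`.
-/

noncomputable section
open Real Complex
namespace Bil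

lemma geo_ne (T : Table) {s t : ℝ} (h1 : s < t) (h2 : t < s + T.L) : T.γ t ≠ T.γ s := by
  intro h
  obtain ⟨n, hn⟩ := T.simple s t h.symm
  have h3 : (0 : ℝ) < n * T.L := by linarith
  have h4 : (n : ℝ) * T.L < 1 * T.L := by linarith
  have h5 : (n : ℝ) < 1 := lt_of_mul_lt_mul_right h4 T.L_pos.le
  have h6 : (0 : ℝ) < n := by
    by_contra hcon
    push Not at hcon
    have := mul_nonpos_of_nonpos_of_nonneg hcon T.L_pos.le
    linarith
  have h7 : (0 : ℤ) < n := by exact_mod_cast h6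
  have h8 : n < (1 : ℤ) := by exact_mod_cast h5
  omega

lemma geo_conj_exp (a b : ℝ) :
    (starRingEnd ℂ) (I * Complex.exp (a * I)) * (I * Complex.exp (b * I))
      = Complex.exp (((b - a : ℝ) : ℂ) * I) := by
  rw [map_mul, conj_I, ← Complex.exp_conj, map_mul, conj_ofReal, conj_I]
  have e : Complex.exp (((b - a : ℝ) : ℂ) * I) = Complex.exp (a * -I) * Complex.exp (b * I) := by
    rw [← Complex.exp_add]
    congr 1
    push_cast
    ring
  rw [e]
  linear_combination (-(Complex.exp (a * -I) * Complex.exp (b * I))) * I_mul_I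

lemma geo_im_exp (a : ℝ) : (Complex.exp ((a : ℂ) * I)).im = Real.sin a := by
  rw [Complex.exp_ofReal_mul_I_im]

private lemma ga_right (T : Table) {Ψ : ℝ → ℝ} (hc : Continuous Ψ)
    (hΨ : ∀ s, deriv T.γ s = I * Complex.exp (Ψ s * I)) (s : ℝ) {ε : ℝ} (hε : 0 < ε) :
    ∃ t, s < t ∧ t < s + ε ∧ Ψ s < Ψ t := by
  by_contra hcon
  push Not at hcon
  obtain ⟨δ, hδ, hd⟩ := Metric.continuousAt_iff.1 (hc.continuousAt (x := s)) π Real.pi_pos
  set r := min ε (min δ T.L) / 2 with hr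
  have hm : 0 < min ε (min δ T.L) := lt_min hε (lt_min hδ T.L_pos)
  have hr0 : 0 < r := by rw [hr]; linarith
  have hr1 : r < ε := by
    have := min_le_left ε (min δ T.L)
    rw [hr]; linarith
  have hr2 : r < δ := by
    have := (min_le_right ε (min δ T.L)).trans (min_le_left δ T.L)
    rw [hr]; linarith
  have hr3 : r < T.L := by
    have := (min_le_right ε (min δ T.L)).trans (min_le_right δ T.L)
    rw [hr]; linarith
  have hγ := contDiff_infty_iff_deriv.1 T.smooth
  have hu : ∀ t, HasDerivAt (fun t => ((starRingEnd ℂ) (deriv T.γ s) * (T.γ t - T.γ s)).im)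
      (Real.sin (Ψ t - Ψ s)) t := by
    intro t
    have h1 : HasDerivAt (fun t => (starRingEnd ℂ) (deriv T.γ s) * (T.γ t - T.γ s))
        ((starRingEnd ℂ) (deriv T.γ s) * deriv T.γ t) t :=
      (((hγ.1 t).hasDerivAt).sub_const _).const_mul _
    have h2 := Complex.imCLM.hasFDerivAt.comp_hasDerivAt t h1
    refine h2.congr_deriv ?_
    rw [Complex.imCLM_apply, hΨ s, hΨ t, geo_conj_exp, geo_im_exp]
  have hanti : AntitoneOn (fun t => ((starRingEnd ℂ) (deriv T.γ s) * (T.γ t - T.γ s)).im)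
      (Set.Icc s (s + r)) := by
    refine antitoneOn_of_deriv_nonpos (convex_Icc _ _)
      (fun t _ => (hu t).continuousAt.continuousWithinAt)
      (fun t _ => (hu t).differentiableAt.differentiableWithinAt) (fun t ht => ?_)
    rw [interior_Icc] at ht
    rw [(hu t).deriv]
    have h1 := hcon t ht.1 (by linarith [ht.2])
    have h2 := hd (x := t) (by rw [Real.dist_eq, abs_lt]; constructor <;> linarith [ht.1, ht.2])
    rw [Real.dist_eq, abs_lt] at h2
    exact Real.sin_nonpos_of_nonpos_of_neg_pi_le (by linarith) (by linarith)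
  have h1 := hanti (Set.left_mem_Icc.2 (by linarith)) (Set.right_mem_Icc.2 (by linarith))
    (by linarith : s ≤ s + r)
  simp only [sub_self, mul_zero, Complex.zero_im] at h1
  have h2 := T.left_of s (s + r) (geo_ne T (by linarith) (by linarith))
  linarith

private lemma ga_mono (T : Table) {Ψ : ℝ → ℝ} (hc : Continuous Ψ)
    (hΨ : ∀ s, deriv T.γ s = I * Complex.exp (Ψ s * I)) : StrictMono Ψ := by
  intro a b hab
  obtain ⟨c, hcm, hmax⟩ := (isCompact_Icc (a := a) (b := b)).exists_isMaxOn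
    ⟨a, Set.left_mem_Icc.2 hab.le⟩ hc.continuousOn
  have hcb : c = b := by
    by_contra hne
    have hlt : c < b := lt_of_le_of_ne hcm.2 hne
    obtain ⟨t, ht1, ht2, ht3⟩ := ga_right T hc hΨ c (by linarith : 0 < b - c)
    have := hmax (⟨by linarith [hcm.1], by linarith⟩ : t ∈ Set.Icc a b)
    simp only [Set.mem_setOf_eq] at this
    linarith
  rw [hcb] at hmax
  obtain ⟨t, ht1, ht2, ht3⟩ := ga_right T hc hΨ a (by linarith : 0 < b - a)
  have h1 := hmax (⟨by linarith, by linarith⟩ : t ∈ Set.Icc a b)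
  simp only [Set.mem_setOf_eq] at h1
  linarith

theorem exists_tangent_angle (T : Table) : ∃ Ψ : ℝ → ℝ, ContDiff ℝ (⊤ : ℕ∞) Ψ ∧
    (∀ s, deriv T.γ s = I * exp (Ψ s * I)) ∧ StrictMono Ψ ∧ (∀ s, Ψ (s + T.L) = Ψ s + 2 * π) := by
  have hγ := contDiff_infty_iff_deriv.1 T.smooth
  set τ : ℝ → ℂ := deriv T.γ with hτ
  have hτs : ContDiff ℝ (⊤ : ℕ∞) τ := hγ.2
  have hτ2 := contDiff_infty_iff_deriv.1 hτs
  have hdτ : ∀ s, HasDerivAt τ (deriv τ s) s := fun s => (hτ2.1 s).hasDerivAt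
  have hnorm : ∀ s, τ s * (starRingEnd ℂ) (τ s) = 1 := by
    intro s
    rw [Complex.mul_conj, Complex.normSq_eq_norm_sq, T.speed s]
    norm_num
  have hconj : ∀ s, HasDerivAt (fun s => (starRingEnd ℂ) (τ s)) ((starRingEnd ℂ) (deriv τ s)) s :=
    fun s => (Complex.conjCLE.toContinuousLinearMap.hasFDerivAt).comp_hasDerivAt s (hdτ s)
  have hre : ∀ s, ((starRingEnd ℂ) (τ s) * deriv τ s).re = 0 := by
    intro s
    have h1 := (hdτ s).mul (hconj s)
    have h2 : (fun s => τ s * (starRingEnd ℂ) (τ s)) = fun _ => (1 : ℂ) := funext hnorm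
    have h3 : HasDerivAt (fun s => τ s * (starRingEnd ℂ) (τ s)) 0 s := by
      rw [h2]; exact hasDerivAt_const _ _
    have h4 := h1.unique h3
    have h5 := congrArg Complex.re h4
    simp only [Complex.add_re, Complex.mul_re, Complex.conj_re, Complex.conj_im,
      Complex.zero_re] at h5 ⊢
    linarith
  set κ : ℝ → ℝ := fun s => ((starRingEnd ℂ) (τ s) * deriv τ s).im with hκ
  have hτ' : ∀ s, deriv τ s = I * (κ s : ℂ) * τ s := by
    intro s
    have h1 : (starRingEnd ℂ) (τ s) * deriv τ s = I * (κ s : ℂ) := by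
      apply Complex.ext
      · rw [hre s]; simp
      · simp [hκ]
    calc deriv τ s = (τ s * (starRingEnd ℂ) (τ s)) * deriv τ s := by rw [hnorm, one_mul]
      _ = τ s * ((starRingEnd ℂ) (τ s) * deriv τ s) := by ring
      _ = I * (κ s : ℂ) * τ s := by rw [h1]; ring
  have hκs : ContDiff ℝ (⊤ : ℕ∞) κ := by
    have h1 : ContDiff ℝ (⊤ : ℕ∞) fun s => (starRingEnd ℂ) (τ s) :=
      Complex.conjCLE.toContinuousLinearMap.contDiff.comp hτs
    exact Complex.imCLM.contDiff.comp (h1.mul hτ2.2)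
  set Ψ₀ : ℝ := Complex.arg (τ 0 / I) with hΨ₀
  have hτ0 : τ 0 = I * Complex.exp (Ψ₀ * I) := by
    have h1 := Complex.norm_mul_exp_arg_mul_I (τ 0 / I)
    have h2 : ‖τ 0 / I‖ = 1 := by
      rw [norm_div, Complex.norm_I, div_one]
      exact T.speed 0
    rw [h2, Complex.ofReal_one, one_mul] at h1
    rw [hΨ₀, h1]
    field_simp
  set Ψ : ℝ → ℝ := fun s => Ψ₀ + ∫ t in (0 : ℝ)..s, κ t with hΨd
  have hΨ' : ∀ s, HasDerivAt Ψ (κ s) s := by
    intro s
    have := (hκs.continuous.integral_hasStrictDerivAt 0 s).hasDerivAt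
    exact this.const_add _
  have hΨs : ContDiff ℝ (⊤ : ℕ∞) Ψ := by
    refine contDiff_infty_iff_deriv.2 ⟨fun s => (hΨ' s).differentiableAt, ?_⟩
    have : deriv Ψ = κ := funext fun s => (hΨ' s).deriv
    rw [this]
    exact hκs
  have htan : ∀ s, τ s = I * Complex.exp (Ψ s * I) := by
    have hE : ∀ s, HasDerivAt (fun s => Complex.exp (-((Ψ s : ℝ) : ℂ) * I))
        (Complex.exp (-((Ψ s : ℝ) : ℂ) * I) * (-((κ s : ℝ) : ℂ) * I)) s := by
      intro s
      have h1 : HasDerivAt (fun s => ((Ψ s : ℝ) : ℂ)) ((κ s : ℝ) : ℂ) s := (hΨ' s).ofReal_comp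
      exact ((h1.neg).mul_const I).cexp
    have hF : ∀ s, HasDerivAt (fun s => τ s * Complex.exp (-((Ψ s : ℝ) : ℂ) * I)) 0 s := by
      intro s
      refine ((hdτ s).mul (hE s)).congr_deriv ?_
      rw [hτ' s]
      ring
    intro s
    have h1 := is_const_of_deriv_eq_zero (f := fun s => τ s * Complex.exp (-((Ψ s : ℝ) : ℂ) * I))
      (fun s => (hF s).differentiableAt) (fun s => (hF s).deriv) s 0
    have h2 : Ψ 0 = Ψ₀ := by simp [hΨd]
    rw [hτ0, h2, mul_assoc, ← Complex.exp_add] at h1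
    have h3 : ((Ψ₀ : ℝ) : ℂ) * I + -((Ψ₀ : ℝ) : ℂ) * I = 0 := by ring
    rw [h3, Complex.exp_zero, mul_one] at h1
    calc τ s = τ s * (Complex.exp (-((Ψ s : ℝ) : ℂ) * I) * Complex.exp (((Ψ s : ℝ) : ℂ) * I)) := by
          rw [← Complex.exp_add]
          have : -((Ψ s : ℝ) : ℂ) * I + ((Ψ s : ℝ) : ℂ) * I = 0 := by ring
          rw [this, Complex.exp_zero, mul_one]
      _ = (τ s * Complex.exp (-((Ψ s : ℝ) : ℂ) * I)) * Complex.exp (((Ψ s : ℝ) : ℂ) * I) := by ring
      _ = I * Complex.exp (Ψ s * I) := by rw [h1]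
  have hmono : StrictMono Ψ := ga_mono T hΨs.continuous htan
  refine ⟨Ψ, hΨs, htan, hmono, fun s => ?_⟩
  have hτp : τ (s + T.L) = τ s := by
    have h1 : (fun x => T.γ (x + T.L)) = T.γ := funext T.closed
    have h2 : deriv (fun x => T.γ (x + T.L)) s = deriv T.γ (s + T.L) := deriv_comp_add_const _ _ _
    rw [h1] at h2
    exact h2.symm
  rw [htan, htan] at hτp
  have h3 := mul_left_cancel₀ Complex.I_ne_zero hτp
  rw [Complex.exp_eq_exp_iff_exists_int] at h3
  obtain ⟨m, hm⟩ := h3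
  have h4 : Ψ (s + T.L) = Ψ s + m * (2 * π) := by
    have h5 : ((Ψ (s + T.L) : ℝ) : ℂ) * I = ((Ψ s + m * (2 * π) : ℝ) : ℂ) * I := by
      rw [hm]; push_cast; ring
    exact_mod_cast mul_right_cancel₀ Complex.I_ne_zero h5
  have h5 := hmono (show s < s + T.L by linarith [T.L_pos])
  have hpi := Real.pi_pos
  have hm1 : 1 ≤ m := by
    by_contra hcon
    push Not at hcon
    have : m ≤ 0 := by omega
    have h6 : (m : ℝ) ≤ 0 := by exact_mod_cast this
    nlinarith
  have hm2 : m ≤ 1 := by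
    by_contra hcon
    push Not at hcon
    have h6 : (2 : ℝ) ≤ m := by exact_mod_cast hcon
    have h7 : Ψ s + 2 * π < Ψ (s + T.L) := by rw [h4]; nlinarith
    obtain ⟨t, ht, hte⟩ := intermediate_value_Ioo (by linarith [T.L_pos] : s ≤ s + T.L)
      hΨs.continuous.continuousOn (⟨by linarith, h7⟩ : Ψ s + 2 * π ∈ Set.Ioo (Ψ s) (Ψ (s + T.L)))
    have h8 : τ t = τ s := by
      rw [htan, htan, hte]
      have : ((Ψ s + 2 * π : ℝ) : ℂ) * I = (Ψ s : ℂ) * I + 2 * π * I := by push_cast; ring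
      rw [this, Complex.exp_add, Complex.exp_two_pi_mul_I, mul_one]
    have hne := geo_ne T ht.1 ht.2
    have h9 := T.left_of s t hne
    have h10 := T.left_of t s hne.symm
    have h11 : deriv T.γ t = deriv T.γ s := h8
    rw [h11] at h10
    have h12 : (starRingEnd ℂ) (deriv T.γ s) * (T.γ s - T.γ t)
        = - ((starRingEnd ℂ) (deriv T.γ s) * (T.γ t - T.γ s)) := by ring
    rw [h12, Complex.neg_im] at h10
    linarith
  have hm3 : m = 1 := le_antisymm hm2 hm1
  rw [h4, hm3]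
  push_cast
  ring

end Bil
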