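import Mathlib

/-!
# Sweeping: a continuous curve of (p,q)-periodic stationary configurations is a graph

Abstract part of MP_aa14e2_an (helper48).  `S1`, `S2` play the role of the two partial derivatives of a
twist generating function on `a < b < a + P`.
-/

set_option autoImplicit false

namespace Pool.Agent.AA14

open Set Filter Topology

/-- Twist data: the partial derivatives of a generating function with positive mixed derivative on
the strip `a < b < a + P`, periodic under the simultaneous translation by `P`. -/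
structure SwTwist (P : ℝ) (S1 S2 : ℝ → ℝ → ℝ) : Prop where
  P_pos : 0 < P
  mono1 : ∀ a b b' : ℝ, a < b → b < b' → b' < a + P → S1 a b < S1 a b'
  mono2 : ∀ a a' b : ℝ, a < a' → a' < b → b < a + P → S2 a b < S2 a' b



/-- Stationary configuration. -/
structure SwStat (P : ℝ) (S1 S2 : ℝ → ℝ → ℝ) (x : ℤ → ℝ) : Prop where
  lt : ∀ k : ℤ, x k < x (k + 1)
  lt' : ∀ k : ℤ, x (k + 1) < x k + P
  stat : ∀ k : ℤ, S2 (x (k - 1)) (x k) + S1 (x k) (x (k + 1)) = 0

/-- `(p,q)`-periodic configuration. -/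
def SwPer (P : ℝ) (p : ℤ) (q : ℕ) (x : ℤ → ℝ) : Prop :=
  ∀ k : ℤ, x (k + q) = x k + p * P

/-- A continuous closed curve (winding once) of stationary `(p,q)`-periodic configurations. -/
structure SwFam (P : ℝ) (S1 S2 : ℝ → ℝ → ℝ) (p : ℤ) (q : ℕ) (X : ℝ → ℤ → ℝ) : Prop where
  q_pos : 0 < q
  cont : ∀ k : ℤ, Continuous fun t => X t k
  shift : ∀ (t : ℝ) (k : ℤ), X (t + 1) k = X t k + P
  stat : ∀ t : ℝ, SwStat P S1 S2 (X t)
  per : ∀ t : ℝ, SwPer P p q (X t)

/-- The graph of an increasing homeomorphism, invariant, all of whose points are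
`(p,q)`-periodic. -/
structure SwCircle (P : ℝ) (S1 S2 : ℝ → ℝ → ℝ) (p : ℤ) (q : ℕ) (g : ℝ ≃o ℝ) : Prop where
  q_pos : 0 < q
  shift : ∀ t : ℝ, g (t + P) = g t + P
  lt : ∀ t : ℝ, t < g t
  lt' : ∀ t : ℝ, g t < t + P
  stat : ∀ t : ℝ, S2 t (g t) + S1 (g t) (g (g t)) = 0
  iter : ∀ t : ℝ, (g^[q]) t = t + p * P

variable {P : ℝ} {S1 S2 : ℝ → ℝ → ℝ} {p : ℤ} {q : ℕ} {X : ℝ → ℤ → ℝ}

/-! ### Contact spreads -/

theorem sw_contact_step (hT : SwTwist P S1 S2) {x y : ℤ → ℝ} (hx : SwStat P S1 S2 x)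
    (hy : SwStat P S1 S2 y) (hle : ∀ k, x k ≤ y k) {k : ℤ} (hk : x k = y k) :
    x (k - 1) = y (k - 1) ∧ x (k + 1) = y (k + 1) := by
  have h1 := hx.stat k
  have h2 := hy.stat k
  have hx1 := hx.lt (k - 1)
  have hx1' := hx.lt' (k - 1)
  have hy1 := hy.lt (k - 1)
  have hy1' := hy.lt' (k - 1)
  simp only [sub_add_cancel] at hx1 hx1' hy1 hy1'
  have hx2 := hx.lt k
  have hx2' := hx.lt' k
  have hy2 := hy.lt k
  have hy2' := hy.lt' k
  rw [hk] at h1 hx1 hx1' hx2 hx2'
  have a1 : S2 (x (k - 1)) (y k) ≤ S2 (y (k - 1)) (y k) := by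
    rcases (hle (k - 1)).lt_or_eq with h | h
    · exact (hT.mono2 _ _ _ h hy1 hx1').le
    · rw [h]
  have a2 : S1 (y k) (x (k + 1)) ≤ S1 (y k) (y (k + 1)) := by
    rcases (hle (k + 1)).lt_or_eq with h | h
    · exact (hT.mono1 _ _ _ hx2 h hy2').le
    · rw [h]
  constructor
  · rcases (hle (k - 1)).lt_or_eq with h | h
    · have := hT.mono2 _ _ _ h hy1 hx1'
      linarith
    · exact h
  · rcases (hle (k + 1)).lt_or_eq with h | h
    · have := hT.mono1 _ _ _ hx2 h hy2'
      linarith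
    · exact h

theorem sw_contact (hT : SwTwist P S1 S2) {x y : ℤ → ℝ} (hx : SwStat P S1 S2 x)
    (hy : SwStat P S1 S2 y) (hle : ∀ k, x k ≤ y k) {k : ℤ} (hk : x k = y k) : x = y := by
  have up : ∀ n : ℕ, x (k + n) = y (k + n) := by
    intro n
    induction n with
    | zero => simpa using hk
    | succ n ih =>
      have := (sw_contact_step hT hx hy hle ih).2
      push_cast
      rw [← add_assoc]
      exact this
  have dn : ∀ n : ℕ, x (k - n) = y (k - n) := by
    intro n
    induction n with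
    | zero => simpa using hk
    | succ n ih =>
      have := (sw_contact_step hT hx hy hle ih).1
      push_cast
      rw [show k - ((n : ℤ) + 1) = k - n - 1 by ring]
      exact this
  funext m
  rcases le_total k m with h | h
  · obtain ⟨n, hn⟩ := Int.eq_ofNat_of_zero_le (sub_nonneg.2 h)
    have := up n
    rwa [show k + (n : ℤ) = m by omega] at this
  · obtain ⟨n, hn⟩ := Int.eq_ofNat_of_zero_le (sub_nonneg.2 h)
    have := dn n
    rwa [show k - (n : ℤ) = m by omega] at this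

/-! ### Uniqueness of continuation -/

theorem sw_next (hT : SwTwist P S1 S2) {a b c c' : ℝ} (h1 : b < c) (h2 : c < b + P)
    (h1' : b < c') (h2' : c' < b + P) (h : S2 a b + S1 b c = 0) (h' : S2 a b + S1 b c' = 0) :
    c = c' := by
  rcases lt_trichotomy c c' with hc | hc | hc
  · have := hT.mono1 _ _ _ h1 hc h2'
    linarith
  · exact hc
  · have := hT.mono1 _ _ _ h1' hc h2
    linarith

/-! ### Periodicity bookkeeping -/

theorem SwPer.mul {x : ℤ → ℝ} (h : SwPer P p q x) (k m : ℤ) :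
    x (k + q * m) = x k + m * (p * P) := by
  have up : ∀ (k : ℤ) (n : ℕ), x (k + q * n) = x k + n * (p * P) := by
    intro k n
    induction n with
    | zero => simp
    | succ n ih =>
      have := h (k + q * n)
      rw [show k + (q : ℤ) * ((n + 1 : ℕ) : ℤ) = k + q * n + q by push_cast; ring, this, ih]
      push_cast
      ring
  rcases Int.eq_nat_or_neg m with ⟨n, rfl | rfl⟩
  · have := up k n
    rw [this]
    push_cast
    ring
  · have := up (k + q * (-(n : ℤ))) n
    rw [show k + (q : ℤ) * -(n : ℤ) + q * n = k by ring] at this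
    push_cast
    linarith

theorem SwPer.exists_range {x : ℤ → ℝ} (_h : SwPer P p q x) (hq : 0 < q) (k : ℤ) :
    ∃ (j : ℕ) (m : ℤ), j < q ∧ k = j + q * m := by
  have hq' : (0 : ℤ) < q := by exact_mod_cast hq
  refine ⟨(k % q).toNat, k / q, ?_, ?_⟩
  · have h1 := Int.emod_nonneg k hq'.ne'
    have h2 := Int.emod_lt_of_pos k hq'
    omega
  · have h1 := Int.emod_nonneg k hq'.ne'
    have h2 := Int.emod_add_mul_ediv k q
    rw [Int.toNat_of_nonneg h1]
    exact h2.symm

/-! ### Behaviour at infinity -/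

theorem SwFam.shift_int (hX : SwFam P S1 S2 p q X) (t : ℝ) (k : ℤ) (n : ℤ) :
    X (t + n) k = X t k + n * P := by
  have up : ∀ (t : ℝ) (n : ℕ), X (t + n) k = X t k + n * P := by
    intro t n
    induction n with
    | zero => simp
    | succ n ih =>
      have := hX.shift (t + n) k
      rw [show t + ((n + 1 : ℕ) : ℝ) = t + n + 1 by push_cast; ring, this, ih]
      push_cast
      ring
  rcases Int.eq_nat_or_neg n with ⟨m, rfl | rfl⟩
  · exact_mod_cast up t m
  · have := up (t + ((-(m : ℤ) : ℤ) : ℝ)) m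
    rw [show t + ((-(m : ℤ) : ℤ) : ℝ) + m = t by push_cast; ring] at this
    push_cast at this ⊢
    linarith

theorem SwFam.bounds (hT : SwTwist P S1 S2) (hX : SwFam P S1 S2 p q X) (k : ℤ) :
    ∃ C : ℝ, ∀ t : ℝ, |X t k - t * P| ≤ C := by
  obtain ⟨M, hM⟩ := (isCompact_Icc (a := (0 : ℝ)) (b := 1)).exists_bound_of_continuousOn
    (f := fun t => X t k) (hX.cont k).continuousOn
  refine ⟨M + P, fun t => ?_⟩
  have h1 := hX.shift_int (Int.fract t) k ⌊t⌋
  have h2 : Int.fract t + ⌊t⌋ = t := Int.fract_add_floor t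
  rw [h2] at h1
  have h3 := hM (Int.fract t) ⟨Int.fract_nonneg t, (Int.fract_lt_one t).le⟩
  rw [Real.norm_eq_abs] at h3
  have h4 : X t k - t * P = X (Int.fract t) k - Int.fract t * P := by
    rw [h1]
    have : t * P = Int.fract t * P + ⌊t⌋ * P := by rw [← add_mul, h2]
    linarith
  rw [h4]
  have hP := hT.P_pos
  have h5 : |Int.fract t * P| ≤ P := by
    rw [abs_of_nonneg (mul_nonneg (Int.fract_nonneg t) hP.le)]
    have := (Int.fract_lt_one t).le
    nlinarith
  calc |X (Int.fract t) k - Int.fract t * P| ≤ |X (Int.fract t) k| + |Int.fract t * P| := abs_sub _ _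
    _ ≤ M + P := add_le_add h3 h5

theorem SwFam.surj (hT : SwTwist P S1 S2) (hX : SwFam P S1 S2 p q X) (k : ℤ) (v : ℝ) :
    ∃ t : ℝ, X t k = v := by
  obtain ⟨C, hC⟩ := hX.bounds hT k
  have hP := hT.P_pos
  have h1 := hC ((v - C) / P)
  have h2 := hC ((v + C) / P)
  rw [div_mul_cancel₀ _ hP.ne'] at h1 h2
  rw [abs_le] at h1 h2
  exact mem_range_of_exists_le_of_exists_ge (hX.cont k) ⟨(v - C) / P, by linarith⟩
    ⟨(v + C) / P, by linarith⟩

/-! ### The sweep -/

theorem SwFam.sweep (hT : SwTwist P S1 S2) (hX : SwFam P S1 S2 p q X) {y : ℤ → ℝ}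
    (hy : SwStat P S1 S2 y) (hyp : SwPer P p q y) :
    ∃ t0 : ℝ, X t0 = y ∧ ∀ t < t0, ∀ k, X t k < y k := by
  have hP := hT.P_pos
  -- comparison on a fundamental domain is enough
  have red : ∀ t : ℝ, (∀ j : ℕ, j < q → X t j < y j) → ∀ k : ℤ, X t k < y k := by
    intro t h k
    obtain ⟨j, m, hj, rfl⟩ := hyp.exists_range hX.q_pos k
    rw [hyp.mul, (hX.per t).mul]
    have := h j hj
    linarith
  let A : Set ℝ := {t | ∃ j : ℕ, j < q ∧ y j ≤ X t j}
  have hAc : IsClosed A := by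
    have : A = ⋃ j ∈ Finset.range q, {t | y (j : ℤ) ≤ X t (j : ℤ)} := by
      ext t
      simp [A]
    rw [this]
    exact isClosed_biUnion_finset fun j _ => isClosed_le continuous_const (hX.cont j)
  have hAne : A.Nonempty := by
    obtain ⟨t, ht⟩ := hX.surj hT 0 (y 0)
    exact ⟨t, 0, hX.q_pos, by simp [ht]⟩
  have hAb : BddBelow A := by
    have : ∀ j : ℕ, ∃ B : ℝ, ∀ t, y j ≤ X t j → B ≤ t := by
      intro j
      obtain ⟨C, hC⟩ := hX.bounds hT j
      refine ⟨(y j - C) / P, fun t ht => ?_⟩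
      have := (abs_le.1 (hC t)).2
      rw [div_le_iff₀ hP]
      linarith
    choose B hB using this
    have hne : (Finset.range q).Nonempty := ⟨0, Finset.mem_range.2 hX.q_pos⟩
    refine ⟨(Finset.range q).inf' hne B, ?_⟩
    rintro t ⟨j, hj, hjt⟩
    exact (Finset.inf'_le B (Finset.mem_range.2 hj)).trans (hB j t hjt)
  have hmem := hAc.csInf_mem hAne hAb
  set t0 := sInf A with ht0
  have hlt : ∀ t < t0, ∀ k, X t k < y k := by
    intro t ht
    apply red
    intro j hj
    by_contra hcon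
    push Not at hcon
    have : t0 ≤ t := csInf_le hAb ⟨j, hj, hcon⟩
    linarith
  have hle : ∀ k, X t0 k ≤ y k := by
    intro k
    have h1 : Tendsto (fun t => X t k) (𝓝[<] t0) (𝓝 (X t0 k)) :=
      ((hX.cont k).tendsto t0).mono_left nhdsWithin_le_nhds
    refine le_of_tendsto h1 ?_
    filter_upwards [self_mem_nhdsWithin] with t ht
    exact (hlt t ht k).le
  obtain ⟨j, hj, hjt⟩ := hmem
  exact ⟨t0, sw_contact hT (hX.stat t0) hy hle (le_antisymm (hle j) hjt), hlt⟩

/-- The family is totally ordered. -/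
theorem SwFam.trichotomy (hT : SwTwist P S1 S2) (hX : SwFam P S1 S2 p q X) {y z : ℤ → ℝ}
    (hy : SwStat P S1 S2 y) (hyp : SwPer P p q y) (hz : SwStat P S1 S2 z)
    (hzp : SwPer P p q z) : (∀ k, y k < z k) ∨ y = z ∨ (∀ k, z k < y k) := by
  obtain ⟨t, ht, ht'⟩ := hX.sweep hT hy hyp
  obtain ⟨s, hs, hs'⟩ := hX.sweep hT hz hzp
  rcases lt_trichotomy t s with h | h | h
  · left
    intro k
    rw [← ht]
    exact hs' t h k
  · right; left
    rw [← ht, ← hs, h]
  · right; right
    intro k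
    rw [← hs]
    exact ht' s h k

theorem SwFam.lt_of_lt (hT : SwTwist P S1 S2) (hX : SwFam P S1 S2 p q X) {y z : ℤ → ℝ}
    (hy : SwStat P S1 S2 y) (hyp : SwPer P p q y) (hz : SwStat P S1 S2 z)
    (hzp : SwPer P p q z) {k : ℤ} (h : y k < z k) (m : ℤ) : y m < z m := by
  rcases hX.trichotomy hT hy hyp hz hzp with h1 | h1 | h1
  · exact h1 m
  · rw [h1] at h
    exact absurd h (lt_irrefl _)
  · exact absurd (h1 k) (not_lt.2 h.le)

theorem SwFam.eq_of_eq (hT : SwTwist P S1 S2) (hX : SwFam P S1 S2 p q X) {y z : ℤ → ℝ}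
    (hy : SwStat P S1 S2 y) (hyp : SwPer P p q y) (hz : SwStat P S1 S2 z)
    (hzp : SwPer P p q z) {k : ℤ} (h : y k = z k) : y = z := by
  rcases hX.trichotomy hT hy hyp hz hzp with h1 | h1 | h1
  · exact absurd h (h1 k).ne
  · exact h1
  · exact absurd h (h1 k).ne'

theorem SwStat.shift {x : ℤ → ℝ} (h : SwStat P S1 S2 x) (m : ℤ) :
    SwStat P S1 S2 fun k => x (k + m) where
  lt k := by
    have := h.lt (k + m)
    rwa [show k + m + 1 = k + 1 + m by ring] at this
  lt' k := by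
    have := h.lt' (k + m)
    rwa [show k + m + 1 = k + 1 + m by ring] at this
  stat k := by
    have := h.stat (k + m)
    rwa [show k + m + 1 = k + 1 + m by ring, show k + m - 1 = k - 1 + m by ring] at this

theorem SwPer.shift {x : ℤ → ℝ} (h : SwPer P p q x) (m : ℤ) :
    SwPer P p q fun k => x (k + m) := by
  intro k
  have := h (k + m)
  rwa [show k + m + (q : ℤ) = k + q + m by ring] at this

/-- **Graph theorem.** -/
theorem SwFam.exists_circle (hT : SwTwist P S1 S2) (hX : SwFam P S1 S2 p q X) :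
    ∃ g : ℝ ≃o ℝ, SwCircle P S1 S2 p q g ∧ (∀ t, g (X t 0) = X t 1) ∧
      (∀ v, ∃ t, X t 0 = v ∧ X t 1 = g v) ∧
      ∀ y : ℤ → ℝ, SwStat P S1 S2 y → SwPer P p q y → ∀ k, y (k + 1) = g (y k) := by
  choose τ hτ using hX.surj hT 0
  have key : ∀ t, X (τ (X t 0)) = X t := fun t =>
    hX.eq_of_eq hT (hX.stat _) (hX.per _) (hX.stat t) (hX.per t) (hτ (X t 0))
  have hmono : StrictMono fun v => X (τ v) 1 := by
    intro v w hvw
    refine hX.lt_of_lt hT (hX.stat _) (hX.per _) (hX.stat _) (hX.per _) (k := 0) ?_ 1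
    rw [hτ, hτ]
    exact hvw
  have hsurj : Function.Surjective fun v => X (τ v) 1 := by
    intro v
    obtain ⟨t, ht⟩ := hX.surj hT 1 v
    exact ⟨X t 0, by simp only [key, ht]⟩
  let g : ℝ ≃o ℝ := StrictMono.orderIsoOfSurjective _ hmono hsurj
  have hg : ∀ v, g v = X (τ v) 1 := fun v => rfl
  have hgX : ∀ t, g (X t 0) = X t 1 := fun t => by rw [hg, key]
  have hall : ∀ y : ℤ → ℝ, SwStat P S1 S2 y → SwPer P p q y → ∀ k, y (k + 1) = g (y k) := by
    intro y hy hyp k
    obtain ⟨t, ht, -⟩ := hX.sweep hT (hy.shift k) (hyp.shift k)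
    have h0 : X t 0 = y k := by
      rw [ht]
      simp
    have h1 : X t 1 = y (k + 1) := by
      rw [ht]
      simp [add_comm]
    rw [← h0, hgX, h1]
  have hXg : ∀ t k, X t (k + 1) = g (X t k) := fun t => hall _ (hX.stat t) (hX.per t)
  have hXit : ∀ (t : ℝ) (n : ℕ), X t n = (g^[n]) (X t 0) := by
    intro t n
    induction n with
    | zero => simp
    | succ n ih =>
      rw [Function.iterate_succ_apply', ← ih, ← hXg]
      push_cast
      rfl
  refine ⟨g, ?_, hgX, fun v => ⟨τ v, hτ v, rfl⟩, hall⟩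
  refine ⟨hX.q_pos, fun v => ?_, fun v => ?_, fun v => ?_, fun v => ?_, fun v => ?_⟩
  · have h1 := hX.shift (τ v) 0
    rw [hτ] at h1
    rw [← h1, hgX, hX.shift, hg]
  · rw [hg]
    have := (hX.stat (τ v)).lt 0
    rwa [hτ, zero_add] at this
  · rw [hg]
    have := (hX.stat (τ v)).lt' 0
    rwa [hτ, zero_add] at this
  · have h1 := (hX.stat (τ v)).stat 1
    have h2 : X (τ v) (1 + 1) = g (X (τ v) 1) := hXg (τ v) 1
    rw [h2] at h1
    simp only [sub_self] at h1
    rw [hτ] at h1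
    exact h1
  · have h1 := hXit (τ v) q
    rw [hτ] at h1
    rw [← h1]
    have h2 := (hX.per (τ v)) 0
    rw [zero_add, hτ] at h2
    exact h2

end Pool.Agent.AA14
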