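import Pool.Agent.Work.MP_aa14e2_an.GeoNext
import Pool.Agent.Work.MP_aa14e2_an.Sweep

/-!
# Module GeoCross  (Birkhoff graph theorem for circles of periodic points, 150-250 lines; uses `GeoNext`)

PROOF. Let `F (s,θ) = (N s θ, Ψ(N s θ) - φ s (N s θ))` be the billiard map on `{0<θ<π}` (continuous, maps this set to itself by `lt1`).  By `bounce_iff`,
`Bounce z z' ↔ 0<z.2<π ∧ z' = F z`.  For `t ∈ ℝ` and `n ∈ ℕ` let `x n t = (F^[n] (c t)).1`.
(a) `x n` is continuous, `x n (t+1) = x n t + L`, `x (n+q) t = x n t + p L` (the orbit `z` of the hypothesis is `F^[i] (c t)`), and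
    `φ (x n t) (x (n+1) t) + φ (x (n+1) t) (x (n+2) t) = 2 Ψ (x (n+1) t)` (*).
(b) if `x n t = x n t'` and `x (n+1) t = x (n+1) t'` for some `n` then `F^[n] (c t)` and `F^[n] (c t')` agree (the angle is `φ - Ψ`); apply `F` until the next multiple `kq ≥ n` of `q`:
    `F^[kq] (c t) = c t + (kpL, 0)`, so `c t = c t'` and `t = t'` by `inj`.
(c) crossing: if for some `n`: `x (n+1) t = x (n+1) t'`, `x n t ≤ x n t'`, `x (n+2) t ≤ x (n+2) t'`, then by (*) and strict monotonicity of `φ` in both variables both are equalities.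
(d) CLAIM: `t < t'` implies `x n t < x n t'` for all `n`.  Let `U = {(t,t') | t<t', ∀ n, x n t < x n t'}` in `Δ = {(t,t') | t<t'}` (convex, so connected).
   `U` is open in `Δ` (by periodicity only finitely many `n`, `n < q`), closed in `Δ` (at a limit point `x n t ≤ x n t'` for all `n`; equality at some `n` — replace `n` by `n+q`, so `n ≥ 1` —
   gives by (c) equality at `n-1`, then by (b) `t = t'`), and contains `(t,t+1)`.  So `U = Δ`.
(e) In particular `t ↦ (c t).1 = x 0 t` is strictly increasing, continuous, with `x 0 (t+1) = x 0 t + L`: a homeomorphism.  For `s ∈ ℝ` let `t = (x 0)⁻¹ s` and `G s = x 1 t`.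
   `G` is strictly increasing, continuous, `G (s+L) = G s + L`, `s < G s < s+L`.  By `maps`: `F (c t) = c t'` for some `t'`, so `x n t' = x (n+1) t`; hence
   `G (x n t) = x (n+1) t` for all `n` (induction: `x n t = x 0 t''` where `c t'' = F^[n] (c t)`).  So `G^[q] s = s + pL` and (*) gives `eq`.
-/

noncomputable section
open Real Complex
namespace Bil

open Set Filter Topology

private theorem gc_twist {T : Table} (A : Ang T) :
    Pool.Agent.AA14.SwTwist T.L (fun a b => A.φ a b - A.Ψ a) (fun a b => A.φ a b - A.Ψ b) where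
  P_pos := T.L_pos
  mono1 a b b' h1 h2 h3 := by
    have := A.mono_right a b b' h1 h2 h3
    linarith
  mono2 a a' b h1 h2 h3 := by
    have := A.mono_left a a' b h1 h2 h3
    linarith

private theorem gc_psi {T : Table} (A : Ang T) (a : ℝ) (j : ℤ) :
    A.Ψ (a + j * T.L) = A.Ψ a + j * (2 * π) := by
  have up : ∀ (a : ℝ) (n : ℕ), A.Ψ (a + n * T.L) = A.Ψ a + n * (2 * π) := by
    intro a n
    induction n with
    | zero => simp
    | succ n ih =>
      rw [show a + ((n + 1 : ℕ) : ℝ) * T.L = a + n * T.L + T.L by push_cast; ring, A.per, ih]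
      push_cast
      ring
  rcases Int.eq_nat_or_neg j with ⟨m, rfl | rfl⟩
  · exact_mod_cast up a m
  · have := up (a + ((-(m : ℤ) : ℤ) : ℝ) * T.L) m
    rw [show a + ((-(m : ℤ) : ℤ) : ℝ) * T.L + m * T.L = a by push_cast; ring] at this
    push_cast at this ⊢
    linarith

private theorem gc_phi {T : Table} (A : Ang T) {a b : ℝ} (h1 : a < b) (h2 : b < a + T.L) (j : ℤ) :
    A.φ (a + j * T.L) (b + j * T.L) = A.φ a b + j * (2 * π) := by
  have up : ∀ (a b : ℝ) (n : ℕ), a < b → b < a + T.L →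
      A.φ (a + n * T.L) (b + n * T.L) = A.φ a b + n * (2 * π) := by
    intro a b n h1 h2
    induction n with
    | zero => simp
    | succ n ih =>
      rw [show a + ((n + 1 : ℕ) : ℝ) * T.L = a + n * T.L + T.L by push_cast; ring,
        show b + ((n + 1 : ℕ) : ℝ) * T.L = b + n * T.L + T.L by push_cast; ring,
        A.perφ _ _ (by linarith) (by linarith), ih]
      push_cast
      ring
  rcases Int.eq_nat_or_neg j with ⟨m, rfl | rfl⟩
  · exact_mod_cast up a b m h1 h2
  · have := up (a + ((-(m : ℤ) : ℤ) : ℝ) * T.L) (b + ((-(m : ℤ) : ℤ) : ℝ) * T.L) m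
      (by linarith) (by linarith)
    rw [show a + ((-(m : ℤ) : ℤ) : ℝ) * T.L + m * T.L = a by push_cast; ring,
      show b + ((-(m : ℤ) : ℤ) : ℝ) * T.L + m * T.L = b by push_cast; ring] at this
    push_cast at this ⊢
    linarith

theorem exists_scircle {T : Table} (A : Ang T) {p q : ℕ} (hq : 0 < q) (h : T.HasRationalCircle p q) :
    ∃ G : ℝ → ℝ, SCircle T A p q G := by
  obtain ⟨N, hNc, hN⟩ := exists_next A
  obtain ⟨c, hc, hper⟩ := h
  have hL := T.L_pos
  have hq' : (0 : ℤ) < q := by exact_mod_cast hq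
  -- uniqueness
  have hinj : ∀ x y y' : ℝ, x < y → y < x + T.L → x < y' → y' < x + T.L → A.φ x y = A.φ x y' → y = y' := by
    intro x y y' h1 h2 h3 h4 h5
    rcases lt_trichotomy y y' with h | h | h
    · have := A.mono_right x y y' h1 h h4
      linarith
    · exact h
    · have := A.mono_right x y' y h3 h h2
      linarith
  let D : Set (ℝ × ℝ) := {z | 0 < z.2 ∧ z.2 < π}
  let F : ℝ × ℝ → ℝ × ℝ := fun z => (N z.1 z.2, A.Ψ (N z.1 z.2) - A.φ z.1 (N z.1 z.2))
  have hFD : ∀ z ∈ D, F z ∈ D := by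
    intro z hz
    obtain ⟨h1, h2, h3⟩ := hN z.1 z.2 hz.1 hz.2
    obtain ⟨h4, h5, h6, h7⟩ := A.lt1 z.1 (N z.1 z.2) h1 h2
    refine ⟨?_, ?_⟩
    · show 0 < A.Ψ (N z.1 z.2) - A.φ z.1 (N z.1 z.2)
      linarith
    · show A.Ψ (N z.1 z.2) - A.φ z.1 (N z.1 z.2) < π
      linarith
  have hFc : ContinuousOn F D := by
    have h1 : ContinuousOn (fun z : ℝ × ℝ => A.Ψ (N z.1 z.2)) D :=
      A.smooth.continuous.comp_continuousOn hNc
    have h2 : ContinuousOn (fun z : ℝ × ℝ => A.φ z.1 (N z.1 z.2)) D := by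
      refine A.cont.comp (t := {z | z.1 < z.2 ∧ z.2 < z.1 + T.L})
        (f := fun z : ℝ × ℝ => (z.1, N z.1 z.2)) (continuous_fst.continuousOn.prodMk hNc) ?_
      intro z hz
      obtain ⟨h1, h2, -⟩ := hN z.1 z.2 hz.1 hz.2
      exact ⟨h1, h2⟩
    exact hNc.prodMk (h1.sub h2)
  have hFs : ∀ z ∈ D, F (z.1 + T.L, z.2) = ((F z).1 + T.L, (F z).2) := by
    intro z hz
    obtain ⟨h1, h2, h3⟩ := hN z.1 z.2 hz.1 hz.2
    obtain ⟨h1', h2', h3'⟩ := hN (z.1 + T.L) z.2 hz.1 hz.2
    have h4 := A.perφ _ _ h1 h2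
    have h5 := A.per z.1
    have e : N (z.1 + T.L) z.2 = N z.1 z.2 + T.L := by
      refine hinj (z.1 + T.L) _ _ h1' h2' (by linarith) (by linarith) ?_
      rw [h3', h4, h3, h5]
      ring
    refine Prod.ext ?_ ?_
    · exact e
    · show A.Ψ (N (z.1 + T.L) z.2) - A.φ (z.1 + T.L) (N (z.1 + T.L) z.2) = _
      rw [e, A.per, h4]
      show _ = A.Ψ (N z.1 z.2) - A.φ z.1 (N z.1 z.2)
      ring
  have hFb : ∀ z z', T.Bounce z z' → z' = F z := by
    intro z z' hb
    obtain ⟨h1, h2, h3, h4, h5, h6, h7, h8⟩ := (bounce_iff A z z').1 hb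
    obtain ⟨h9, h10, h11⟩ := hN z.1 z.2 h1 h2
    have e : z'.1 = N z.1 z.2 := hinj _ _ _ h5 h6 h9 h10 (by rw [h7, h11])
    refine Prod.ext e ?_
    show z'.2 = A.Ψ (N z.1 z.2) - A.φ z.1 (N z.1 z.2)
    rw [← e]
    linarith
  have hcD : ∀ t, c t ∈ D := fun t => hc.mem t
  have hitD : ∀ (n : ℕ) (t : ℝ), F^[n] (c t) ∈ D := by
    intro n t
    induction n with
    | zero => simpa using hcD t
    | succ n ih =>
      rw [Function.iterate_succ_apply']
      exact hFD _ ih
  have hFq : ∀ t, F^[q] (c t) = ((c t).1 + p * T.L, (c t).2) := by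
    intro t
    obtain ⟨z, hz0, hz, hzq⟩ := hper t
    have : ∀ i ≤ q, z i = F^[i] (c t) := by
      intro i hi
      induction i with
      | zero => simpa using hz0
      | succ i ih =>
        rw [Function.iterate_succ_apply', ← ih (by omega)]
        exact hFb _ _ (hz i (by omega))
    rw [← this q le_rfl, hzq]
  have hFsn : ∀ (m : ℕ) (z : ℝ × ℝ), z ∈ D → F (z.1 + m * T.L, z.2) = ((F z).1 + m * T.L, (F z).2) := by
    intro m
    induction m with
    | zero => intro z hz; simp
    | succ m ih =>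
      intro z hz
      have h1 := ih z hz
      have h2 : (z.1 + m * T.L, z.2) ∈ D := hz
      have h3 := hFs _ h2
      simp only at h3
      rw [h1] at h3
      have e : z.1 + ((m + 1 : ℕ) : ℝ) * T.L = z.1 + m * T.L + T.L := by push_cast; ring
      rw [e, h3]
      refine Prod.ext ?_ rfl
      push_cast
      ring
  have hFsi : ∀ (n : ℕ) (m : ℕ) (z : ℝ × ℝ), z ∈ D → F^[n] (z.1 + m * T.L, z.2) =
      ((F^[n] z).1 + m * T.L, (F^[n] z).2) := by
    intro n m
    induction n with
    | zero => intro z hz; simp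
    | succ n ih =>
      intro z hz
      rw [Function.iterate_succ_apply, Function.iterate_succ_apply, hFsn m z hz]
      exact ih (F z) (hFD z hz)
  -- positions
  let x : ℕ → ℝ → ℝ := fun n t => (F^[n] (c t)).1
  have hx0 : ∀ t, x 0 t = (c t).1 := fun t => rfl
  have hxc : ∀ n, Continuous (x n) := by
    intro n
    have : Continuous fun t => F^[n] (c t) := by
      induction n with
      | zero => simpa using hc.cont
      | succ n ih =>
        simp only [Function.iterate_succ_apply']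
        exact hFc.comp_continuous ih (hitD n)
    exact continuous_fst.comp this
  have hxL : ∀ n t, x n (t + 1) = x n t + T.L := by
    intro n t
    have h1 := hFsi n 1 (c t) (hcD t)
    rw [Nat.cast_one, one_mul] at h1
    show (F^[n] (c (t + 1))).1 = _
    rw [hc.wind, h1]
  have hxq : ∀ n t, x (n + q) t = x n t + p * T.L := by
    intro n t
    show (F^[n + q] (c t)).1 = _
    rw [Function.iterate_add_apply, hFq, hFsi n p (c t) (hcD t)]
  have hxlt : ∀ n t, x n t < x (n + 1) t ∧ x (n + 1) t < x n t + T.L := by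
    intro n t
    obtain ⟨h1, h2, -⟩ := hN _ _ (hitD n t).1 (hitD n t).2
    have e : x (n + 1) t = N (F^[n] (c t)).1 (F^[n] (c t)).2 := by
      show (F^[n + 1] (c t)).1 = _
      rw [Function.iterate_succ_apply']
    rw [e]
    exact ⟨h1, h2⟩
  have hxst : ∀ n t, A.φ (x n t) (x (n + 1) t) + A.φ (x (n + 1) t) (x (n + 2) t) =
      2 * A.Ψ (x (n + 1) t) := by
    intro n t
    have e1 : F^[n + 1] (c t) = F (F^[n] (c t)) := Function.iterate_succ_apply' _ _ _
    have e2 : F^[n + 2] (c t) = F (F^[n + 1] (c t)) := Function.iterate_succ_apply' _ _ _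
    obtain ⟨-, -, h3⟩ := hN _ _ (hitD (n + 1) t).1 (hitD (n + 1) t).2
    have e3 : x (n + 2) t = N (F^[n + 1] (c t)).1 (F^[n + 1] (c t)).2 := by
      show (F^[n + 2] (c t)).1 = _
      rw [e2]
    have e4 : x (n + 1) t = N (F^[n] (c t)).1 (F^[n] (c t)).2 := by
      show (F^[n + 1] (c t)).1 = _
      rw [e1]
    have e5 : (F^[n + 1] (c t)).2 = A.Ψ (x (n + 1) t) - A.φ (x n t) (x (n + 1) t) := by
      rw [e4, e1]
    have e6 : A.φ (x (n + 1) t) (x (n + 2) t) = A.Ψ (x (n + 1) t) + (F^[n + 1] (c t)).2 := by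
      rw [e3]
      exact h3
    rw [e6, e5]
    ring
  -- bi-infinite configurations
  let X : ℝ → ℤ → ℝ := fun t k => x (k % q).toNat t + (k / q : ℤ) * (p * T.L)
  have hxq' : ∀ (n m : ℕ) t, x (n + q * m) t = x n t + m * (p * T.L) := by
    intro n m t
    induction m with
    | zero => simp
    | succ m ih =>
      rw [show n + q * (m + 1) = n + q * m + q by ring, hxq, ih]
      push_cast
      ring
  have hX : ∀ (t : ℝ) (m : ℤ) (n : ℕ), X t (q * m + n) = x n t + m * (p * T.L) := by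
    intro t m n
    have e1 : ((q : ℤ) * m + n) % q = (n : ℤ) % q := by
      rw [add_comm]
      exact Int.add_mul_emod_self_left _ _ _
    have e2 : ((q : ℤ) * m + n) / q = m + (n : ℤ) / q := by
      rw [add_comm, Int.add_mul_ediv_left _ _ hq'.ne', add_comm]
    have e3 : ((n : ℤ) % q).toNat = n % q := by
      have : ((n : ℤ) % q) = ((n % q : ℕ) : ℤ) := by push_cast; rfl
      rw [this, Int.toNat_natCast]
    have e4 : ((n : ℤ) / q) = ((n / q : ℕ) : ℤ) := by push_cast; rfl
    show x (((q : ℤ) * m + n) % q).toNat t + ((((q : ℤ) * m + n) / q : ℤ) : ℝ) * (p * T.L) = _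
    rw [e1, e2, e3, e4]
    have h5 := hxq' (n % q) (n / q) t
    rw [Nat.mod_add_div] at h5
    rw [h5, Int.cast_add, Int.cast_natCast]
    ring
  have hex : ∀ k : ℤ, ∃ (m : ℤ) (n : ℕ), k = q * m + (n + 1 : ℕ) := by
    intro k
    refine ⟨(k - 1) / q, ((k - 1) % q).toNat, ?_⟩
    have h1 := Int.emod_nonneg (k - 1) hq'.ne'
    have h2 := Int.emod_add_mul_ediv (k - 1) q
    push_cast
    rw [Int.toNat_of_nonneg h1]
    linarith
  have hfam : Pool.Agent.AA14.SwFam T.L (fun a b => A.φ a b - A.Ψ a) (fun a b => A.φ a b - A.Ψ b)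
      p q X := by
    refine ⟨hq, fun k => ?_, fun t k => ?_, fun t => ⟨fun k => ?_, fun k => ?_, fun k => ?_⟩,
      fun t k => ?_⟩
    · obtain ⟨m, n, rfl⟩ := hex k
      simp only [hX]
      exact (hxc _).add continuous_const
    · obtain ⟨m, n, rfl⟩ := hex k
      rw [hX, hX, hxL]
      ring
    · obtain ⟨m, n, rfl⟩ := hex k
      rw [show (q : ℤ) * m + ((n + 1 : ℕ) : ℤ) + 1 = q * m + ((n + 1 + 1 : ℕ) : ℤ) by push_cast; ring,
        hX, hX]
      have := (hxlt (n + 1) t).1
      linarith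
    · obtain ⟨m, n, rfl⟩ := hex k
      rw [show (q : ℤ) * m + ((n + 1 : ℕ) : ℤ) + 1 = q * m + ((n + 1 + 1 : ℕ) : ℤ) by push_cast; ring,
        hX, hX]
      have := (hxlt (n + 1) t).2
      linarith
    · obtain ⟨m, n, rfl⟩ := hex k
      have e1 : (q : ℤ) * m + ((n + 1 : ℕ) : ℤ) - 1 = q * m + (n : ℤ) := by push_cast; ring
      have e2 : (q : ℤ) * m + ((n + 1 : ℕ) : ℤ) + 1 = q * m + ((n + 2 : ℕ) : ℤ) := by push_cast; ring
      rw [e1, e2]
      simp only [hX]
      have e3 : (m : ℝ) * (p * T.L) = ((m * p : ℤ) : ℝ) * T.L := by push_cast; ring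
      rw [e3, gc_phi A (hxlt n t).1 (hxlt n t).2, gc_phi A (hxlt (n + 1) t).1 (hxlt (n + 1) t).2, gc_psi]
      have := hxst n t
      rw [show n + 1 + 1 = n + 2 by ring]
      linarith
    · obtain ⟨m, n, rfl⟩ := hex k
      rw [show (q : ℤ) * m + ((n + 1 : ℕ) : ℤ) + q = q * (m + 1) + ((n + 1 : ℕ) : ℤ) by push_cast; ring,
        hX, hX]
      push_cast
      ring
  obtain ⟨g, hg, -⟩ := hfam.exists_circle (gc_twist A)
  refine ⟨g, g.strictMono, g.continuous, hg.shift, hg.lt, hg.lt', fun s => ?_, hq, fun s => ?_⟩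
  · have := hg.stat s
    linarith
  · have := hg.iter s
    simpa using this

end Bil
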