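import Pool.Agent.Work.MP_aa14e2_an.GeoTable

/-!
# MP_aa14e2_an : auxiliary geometric structures (not used in the final statement)
-/

noncomputable section

open Real Complex

namespace Bil

/-- tangent angle `Ψ` (lifted angle of the outer normal) and chord angle `φ` of a table -/
structure Ang (T : Table) where
  Ψ : ℝ → ℝ
  φ : ℝ → ℝ → ℝ
  smooth : ContDiff ℝ (⊤ : ℕ∞) Ψ
  tan : ∀ s, deriv T.γ s = I * exp (Ψ s * I)
  mono : StrictMono Ψ
  per : ∀ s, Ψ (s + T.L) = Ψ s + 2 * π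
  /-- the chord from `γ x` to `γ y` has the direction `i e^{iφ}` -/
  chord : ∀ x y, x < y → y < x + T.L → ∃ l : ℝ, 0 < l ∧ T.γ y - T.γ x = l * (I * exp (φ x y * I))
  lt1 : ∀ x y, x < y → y < x + T.L → Ψ x < φ x y ∧ φ x y < Ψ y ∧ φ x y < Ψ x + π ∧ Ψ y < φ x y + π
  cont : ContinuousOn (fun z : ℝ × ℝ => φ z.1 z.2) {z | z.1 < z.2 ∧ z.2 < z.1 + T.L}
  mono_left : ∀ x x' y, x < x' → x' < y → y < x + T.L → φ x y < φ x' y
  mono_right : ∀ x y y', x < y → y < y' → y' < x + T.L → φ x y < φ x y'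
  perφ : ∀ x y, x < y → y < x + T.L → φ (x + T.L) (y + T.L) = φ x y + 2 * π
  /-- one sided speeds: `∂φ/∂y` and `∂φ/∂x` are positive -/
  dright : ∀ x y, x < y → y < x + T.L → ∃ c, 0 < c ∧ HasDerivAt (fun y => φ x y) c y
  dleft : ∀ x y, x < y → y < x + T.L → ∃ c, 0 < c ∧ HasDerivAt (fun x => φ x y) c x
  /-- every direction is attained -/
  surj : ∀ x θ, 0 < θ → θ < π → ∃ y, x < y ∧ y < x + T.L ∧ φ x y = Ψ x + θ

/-- circle map in the arclength parameter of an invariant circle of periodic points of type `(p,q)` -/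
structure SCircle (T : Table) (A : Ang T) (p q : ℕ) (G : ℝ → ℝ) : Prop where
  mono : StrictMono G
  cont : Continuous G
  per : ∀ s, G (s + T.L) = G s + T.L
  lt : ∀ s, s < G s
  lt2 : ∀ s, G s < s + T.L
  eq : ∀ s, A.φ s (G s) + A.φ (G s) (G (G s)) = 2 * A.Ψ (G s)
  qpos : 0 < q
  iter : ∀ s, G^[q] s = s + p * T.L

end Bil
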