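import Pool.Agent.Work.MP_aa14e2_an.GeoDefs
import Pool.Agent.Work.MP_aa14e2_an.Basic

/-!
# Module GeoEllipse  (100-180 lines)

PROOF. Let `b = b1 + i b2`, `k x = h x + b1 cos x + b2 sin x`, `k1 = k' = h1 - b1 sin + b2 cos`; then `γ s + b = (k(Ψ s) + i k1(Ψ s)) e^{iΨ s}` (as `b = ((b1 cos x + b2 sin x) + i(-b1 sin x + b2 cos x)) e^{ix}`).
(1) `k > 0`: `k² x = A + B cos 2x + C sin 2x` is `π`-periodic, so `k (x+π) = ± k x`.  `k x + k (x+π) = h x + h(x+π) > 0` (width is positive:
    `h x + h (x+π) = ∫_0^π (h+h2)(x+t) sin t dt`, or: the function `sin t (h'...)`: `d/dt [ -h1.. ]`: `∫ (h+h'') sin = [h1 sin - h cos]_0^π = h(x+π) + h x`).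
    So `k(x+π) = k x > 0`.
(2) Choose `β, R ≥ 0` with `B cos 2x + C sin 2x = R cos (2(x-β))` (`R = √(B²+C²)`).  `A - R = k(β+π/2)² > 0`.  Put `a = √(A+R)`, `e = √(A-R)`, `F = √(2R) e^{iβ}` so that
    `a² - e² = |F|² = 2R`, foci `F₁ = F - b`, `F₂ = -F - b`, `dist F₁ F₂ = 2√(2R) < 2a`.
(3) Write `z = γ s + b = (X₀ + i Y₀) e^{iβ}`, `τ = Ψ s - β`: `k² = a² cos²τ + e² sin²τ`, `k k1 = (e²-a²) sin τ cos τ`; `X₀ = k cos τ - k1 sin τ = a² cos τ/k`,
    `Y₀ = k sin τ + k1 cos τ = e² sin τ/k`.  So `X₀²/a² + Y₀²/e² = 1`.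
    Conversely each `(X₀,Y₀)` with `X₀²/a²+Y₀²/e² = 1` is of this form: choose `τ` with `(cos τ, sin τ) = κ (X₀/a², Y₀/e²)`, `κ = (X₀²/a⁴+Y₀²/e⁴)^{-1/2}`; then `k² = a²cos²τ + e² sin²τ = κ²`, `k = κ`; `Ψ` is surjective
    (continuous, `Ψ (s+L) = Ψ s + 2π`).
(4) for real `X₀,Y₀` : `X₀²/a² + Y₀²/e² = 1` iff `|z' - F'| + |z' + F'| = 2a` with `z' = X₀+iY₀`, `F' = √(a²-e²)`: classical.  If the equation holds, `|z'∓F'|² = (a ∓ F'X₀/a)²` and `a ∓ F' X₀/a > 0`.  Conversely
    from `d₁+d₂ = 2a`, `d₂² - d₁² = 4F'X₀` we get `d₂ = a + F'X₀/a`, square.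
-/

noncomputable section
open Real Complex
namespace Bil

private lemma el_surj {u : ℝ → ℝ} {L : ℝ} (hc : Continuous u) (hm : StrictMono u)
    (hp : ∀ s, u (s + L) = u s + 2 * π) : Function.Surjective u := by
  have h1 : ∀ (n : ℕ) (s : ℝ), u (s + n * L) = u s + n * (2 * π) := by
    intro n
    induction n with
    | zero => intro s; simp
    | succ n ih =>
      intro s
      have e : s + ((n + 1 : ℕ) : ℝ) * L = (s + n * L) + L := by push_cast; ring
      rw [e, hp, ih]
      push_cast; ring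
  have hpi := Real.pi_pos
  have t1 : Filter.Tendsto u Filter.atTop Filter.atTop := by
    refine Filter.tendsto_atTop_atTop_of_monotone hm.monotone fun b => ?_
    obtain ⟨n, hn⟩ := exists_nat_gt ((b - u 0) / (2 * π))
    refine ⟨0 + n * L, ?_⟩
    rw [h1]
    rw [div_lt_iff₀ (by positivity)] at hn
    linarith
  have t2 : Filter.Tendsto u Filter.atBot Filter.atBot := by
    refine Filter.tendsto_atBot_atBot_of_monotone hm.monotone fun b => ?_
    obtain ⟨n, hn⟩ := exists_nat_gt ((u 0 - b) / (2 * π))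
    refine ⟨0 - n * L, ?_⟩
    have h2 := h1 n (0 - n * L)
    have e : (0 : ℝ) - n * L + n * L = 0 := by ring
    rw [e] at h2
    rw [div_lt_iff₀ (by positivity)] at hn
    linarith
  exact hc.surjective t1 t2

/-- the two descriptions of an ellipse. -/
private lemma el_iff {A E f : ℝ} (hA : 0 < A) (hE : 0 < E) (hf : 0 ≤ f)
    (hfe : f ^ 2 = A ^ 2 - E ^ 2) (w : ℂ) :
    ‖w - f‖ + ‖w + f‖ = 2 * A ↔ E ^ 2 * w.re ^ 2 + A ^ 2 * w.im ^ 2 = A ^ 2 * E ^ 2 := by
  have hd1 : ‖w - f‖ ^ 2 = (w.re - f) ^ 2 + w.im ^ 2 := by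
    rw [← Complex.normSq_eq_norm_sq, Complex.normSq_apply]
    simp
    ring
  have hd2 : ‖w + f‖ ^ 2 = (w.re + f) ^ 2 + w.im ^ 2 := by
    rw [← Complex.normSq_eq_norm_sq, Complex.normSq_apply]
    simp
    ring
  have hfA : f < A := by
    by_contra hcon
    push Not at hcon
    have : A ^ 2 ≤ f ^ 2 := pow_le_pow_left₀ hA.le hcon 2
    have : 0 < E ^ 2 := by positivity
    linarith
  set X := w.re
  set Y := w.im
  set d1 := ‖w - f‖
  set d2 := ‖w + f‖
  have h10 : 0 ≤ d1 := norm_nonneg _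
  have h20 : 0 ≤ d2 := norm_nonneg _
  constructor
  · intro h
    have h1 : A * (d2 - d1) = 2 * f * X := by
      have : (d2 - d1) * (d2 + d1) = 4 * f * X := by nlinarith
      have h2 : d2 + d1 = 2 * A := by linarith
      rw [h2] at this
      linarith
    have h2 : A * d2 = A ^ 2 + f * X := by nlinarith
    have h3 : A ^ 2 * d2 ^ 2 = (A ^ 2 + f * X) ^ 2 := by rw [← h2]; ring
    rw [hd2] at h3
    have h4 : E ^ 2 = A ^ 2 - f ^ 2 := by linarith
    rw [h4]
    linear_combination h3
  · intro h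
    have hE2 : E ^ 2 = A ^ 2 - f ^ 2 := by linarith
    have hX : X ^ 2 ≤ A ^ 2 := by
      have h1 : E ^ 2 * X ^ 2 ≤ E ^ 2 * A ^ 2 := by
        have : 0 ≤ A ^ 2 * Y ^ 2 := by positivity
        linarith
      exact le_of_mul_le_mul_left h1 (by positivity)
    have hXa : |X| ≤ A := abs_le_of_sq_le_sq hX hA.le
    have hb := abs_le.1 hXa
    have hfX : |f * X| < A ^ 2 := by
      rw [abs_mul, abs_of_nonneg hf]
      calc f * |X| ≤ f * A := mul_le_mul_of_nonneg_left hXa hf
        _ < A * A := mul_lt_mul_of_pos_right hfA hA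
        _ = A ^ 2 := by ring
    have hb2 := abs_lt.1 hfX
    have e1 : (A * d1) ^ 2 = (A ^ 2 - f * X) ^ 2 := by
      rw [mul_pow, hd1]
      rw [hE2] at h
      linear_combination h
    have e2 : (A * d2) ^ 2 = (A ^ 2 + f * X) ^ 2 := by
      rw [mul_pow, hd2]
      rw [hE2] at h
      linear_combination h
    have g1 : A * d1 = A ^ 2 - f * X :=
      (pow_left_inj₀ (by positivity) (by linarith [hb2.2]) two_ne_zero).1 e1
    have g2 : A * d2 = A ^ 2 + f * X :=
      (pow_left_inj₀ (by positivity) (by linarith [hb2.1]) two_ne_zero).1 e2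
    have g3 : A * (d1 + d2) = A * (2 * A) := by rw [mul_add, g1, g2]; ring
    exact mul_left_cancel₀ hA.ne' g3

theorem ellipse_of {T : Table} {A : Ang T} {P : Supp}
    (hP : ∀ s, T.γ s = ((P.h (A.Ψ s) : ℂ) + P.h1 (A.Ψ s) * I) * exp (A.Ψ s * I)) {b1 b2 a b c : ℝ}
    (h : ∀ x, (P.h x + b1 * Real.cos x + b2 * Real.sin x) ^ 2 = a + b * Real.cos (2 * x) + c * Real.sin (2 * x)) :
    IsEllipse (Set.range T.γ) := by
  have hpi := Real.pi_pos
  set K : ℝ → ℝ := fun x => P.h x + b1 * Real.cos x + b2 * Real.sin x with hK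
  set K1 : ℝ → ℝ := fun x => P.h1 x - b1 * Real.sin x + b2 * Real.cos x with hK1
  have hKd : ∀ x, HasDerivAt K (K1 x) x := by
    intro x
    refine (((P.d0 x).add ((Real.hasDerivAt_cos x).const_mul b1)).add
      ((Real.hasDerivAt_sin x).const_mul b2)).congr_deriv ?_
    simp only [hK1]
    ring
  -- positivity of `K`
  have hKpos : ∀ x, 0 < K x := by
    intro x
    have h1 := P.s1_mono x (Set.left_mem_Icc.2 (by linarith)) (Set.right_mem_Icc.2 (by linarith))
      (by linarith : x < x + 2 * π)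
    simp only [P.s1_diag, P.s1_end] at h1
    have h2 : K (x + π) + K x = P.h (x + π) + P.h x := by
      simp only [hK, Real.cos_add_pi, Real.sin_add_pi]
      ring
    have h3 : K (x + π) ^ 2 = K x ^ 2 := by
      simp only [hK]
      rw [h, h]
      have e : 2 * (x + π) = 2 * x + 2 * π := by ring
      rw [e, Real.cos_add_two_pi, Real.sin_add_two_pi]
    rcases sq_eq_sq_iff_eq_or_eq_neg.1 h3 with h4 | h4 <;> linarith
  -- phase
  set R : ℝ := ‖(b : ℂ) + c * I‖ with hR
  set β : ℝ := Complex.arg ((b : ℂ) + c * I) / 2 with hβ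
  have hRc : R * Real.cos (2 * β) = b := by
    have := Complex.norm_mul_cos_arg ((b : ℂ) + c * I)
    rw [hR, hβ, mul_div_cancel₀ _ (two_ne_zero), this]
    simp
  have hRs : R * Real.sin (2 * β) = c := by
    have := Complex.norm_mul_sin_arg ((b : ℂ) + c * I)
    rw [hR, hβ, mul_div_cancel₀ _ (two_ne_zero), this]
    simp
  have hR0 : 0 ≤ R := norm_nonneg _
  have hK2 : ∀ x, K x ^ 2 = a + R * Real.cos (2 * (x - β)) := by
    intro x
    simp only [hK]
    rw [h, mul_sub, Real.cos_sub, ← hRc, ← hRs]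
    ring
  have hKK : ∀ x, K x * K1 x = - R * Real.sin (2 * (x - β)) := by
    intro x
    have d1 : HasDerivAt (fun x => K x ^ 2) (2 * K x * K1 x) x := by
      refine ((hKd x).pow 2).congr_deriv ?_
      norm_num
    have d2 : HasDerivAt (fun x => a + R * Real.cos (2 * (x - β)))
        (R * (- Real.sin (2 * (x - β)) * 2)) x := by
      have e1 : HasDerivAt (fun x => 2 * (x - β)) 2 x := by
        simpa using ((hasDerivAt_id x).sub_const β).const_mul 2
      exact ((e1.cos).const_mul R).const_add a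
    have e2 : (fun x => K x ^ 2) = fun x => a + R * Real.cos (2 * (x - β)) := funext hK2
    rw [e2] at d1
    have := d1.unique d2
    linarith
  have hm : 0 < a - R := by
    have h1 := hK2 (β + π / 2)
    have e : 2 * (β + π / 2 - β) = π := by ring
    rw [e, Real.cos_pi] at h1
    have h2 := hKpos (β + π / 2)
    have : 0 < K (β + π / 2) ^ 2 := by positivity
    linarith
  have hp : 0 < a + R := by linarith
  have hX : ∀ x, K x * (K x * Real.cos (x - β) - K1 x * Real.sin (x - β))
      = (a + R) * Real.cos (x - β) := by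
    intro x
    have e1 := hK2 x
    have e2 := hKK x
    rw [Real.cos_two_mul'] at e1
    rw [Real.sin_two_mul] at e2
    have e3 := Real.sin_sq_add_cos_sq (x - β)
    linear_combination (Real.cos (x - β)) * e1 - (Real.sin (x - β)) * e2
      + (R * Real.cos (x - β)) * e3
  have hY : ∀ x, K x * (K x * Real.sin (x - β) + K1 x * Real.cos (x - β))
      = (a - R) * Real.sin (x - β) := by
    intro x
    have e1 := hK2 x
    have e2 := hKK x
    rw [Real.cos_two_mul'] at e1
    rw [Real.sin_two_mul] at e2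
    have e3 := Real.sin_sq_add_cos_sq (x - β)
    linear_combination (Real.sin (x - β)) * e1 + (Real.cos (x - β)) * e2
      - (R * Real.sin (x - β)) * e3
  have hK3 : ∀ x, K x ^ 2 = (a + R) * Real.cos (x - β) ^ 2 + (a - R) * Real.sin (x - β) ^ 2 := by
    intro x
    have e1 := hK2 x
    rw [Real.cos_two_mul'] at e1
    have e3 := Real.sin_sq_add_cos_sq (x - β)
    linear_combination e1 - a * e3
  set bb : ℂ := (b1 : ℂ) + b2 * I with hbb
  have hγ : ∀ s, (T.γ s + bb) * Complex.exp (-(β * I))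
      = ((K (A.Ψ s) * Real.cos (A.Ψ s - β) - K1 (A.Ψ s) * Real.sin (A.Ψ s - β) : ℝ) : ℂ)
        + ((K (A.Ψ s) * Real.sin (A.Ψ s - β) + K1 (A.Ψ s) * Real.cos (A.Ψ s - β) : ℝ) : ℂ) * I := by
    intro s
    set x := A.Ψ s with hx
    have e1 : Complex.exp (x * I) = (Real.cos x : ℂ) + (Real.sin x : ℂ) * I := by
      rw [Complex.exp_mul_I]
      push_cast
      rfl
    have e2 : T.γ s + bb = ((K x : ℂ) + (K1 x : ℂ) * I) * Complex.exp (x * I) := by
      rw [hP s, ← hx, e1]
      simp only [hK, hK1, hbb]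
      push_cast
      have e3 : (Complex.sin x) ^ 2 + (Complex.cos x) ^ 2 = 1 := Complex.sin_sq_add_cos_sq _
      linear_combination (-((b1 : ℂ) + b2 * I)) * e3 + ((b1 : ℂ) * (Complex.sin x) ^ 2
        - (b2 : ℂ) * Complex.sin x * Complex.cos x) * I_sq
    have e4 : Complex.exp (x * I) * Complex.exp (-(β * I))
        = (Real.cos (x - β) : ℂ) + (Real.sin (x - β) : ℂ) * I := by
      rw [← Complex.exp_add]
      have : (x : ℂ) * I + -((β : ℂ) * I) = ((x - β : ℝ) : ℂ) * I := by push_cast; ring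
      rw [this, Complex.exp_mul_I]
      push_cast
      rfl
    rw [e2, mul_assoc, e4]
    push_cast
    linear_combination ((K1 x : ℂ) * Complex.sin (x - β)) * I_sq
  have hE : ∀ s, (a - R) * ((T.γ s + bb) * Complex.exp (-(β * I))).re ^ 2
      + (a + R) * ((T.γ s + bb) * Complex.exp (-(β * I))).im ^ 2 = (a + R) * (a - R) := by
    intro s
    set x := A.Ψ s with hx
    rw [hγ s, ← hx]
    have e1 : ∀ u v : ℝ, ((u : ℂ) + (v : ℂ) * I).re = u := fun u v => by simp
    have e2 : ∀ u v : ℝ, ((u : ℂ) + (v : ℂ) * I).im = v := fun u v => by simp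
    rw [e1, e2]
    have hk := hKpos x
    have h1 := hX x
    have h2 := hY x
    have h3 := hK3 x
    set X0 := K x * Real.cos (x - β) - K1 x * Real.sin (x - β)
    set Y0 := K x * Real.sin (x - β) + K1 x * Real.cos (x - β)
    have h4 : K x ^ 2 * ((a - R) * X0 ^ 2 + (a + R) * Y0 ^ 2) = K x ^ 2 * ((a + R) * (a - R)) := by
      calc K x ^ 2 * ((a - R) * X0 ^ 2 + (a + R) * Y0 ^ 2)
          = (a - R) * (K x * X0) ^ 2 + (a + R) * (K x * Y0) ^ 2 := by ring
        _ = (a + R) * (a - R) * ((a + R) * Real.cos (x - β) ^ 2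
            + (a - R) * Real.sin (x - β) ^ 2) := by rw [h1, h2]; ring
        _ = K x ^ 2 * ((a + R) * (a - R)) := by rw [← h3]; ring
    exact mul_left_cancel₀ (by positivity) h4
  have hsq1 : Real.sqrt (a + R) ^ 2 = a + R := Real.sq_sqrt hp.le
  have hsq2 : Real.sqrt (a - R) ^ 2 = a - R := Real.sq_sqrt hm.le
  have hsq3 : Real.sqrt (2 * R) ^ 2 = 2 * R := Real.sq_sqrt (by linarith)
  have hiff := fun w : ℂ => el_iff (Real.sqrt_pos.2 hp) (Real.sqrt_pos.2 hm)
    (Real.sqrt_nonneg (2 * R)) (by rw [hsq1, hsq2, hsq3]; ring) w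
  rw [hsq1, hsq2] at hiff
  have hexp : Complex.exp (-(β * I)) * Complex.exp (β * I) = 1 := by
    rw [← Complex.exp_add]; simp
  have hexpn : ‖Complex.exp (β * I)‖ = 1 := Complex.norm_exp_ofReal_mul_I β
  have hne : Complex.exp (-(β * I)) ≠ 0 := Complex.exp_ne_zero _
  have hdist : ∀ (z : ℂ) (f : ℝ), dist z ((f : ℂ) * Complex.exp (β * I) - bb)
      = ‖(z + bb) * Complex.exp (-(β * I)) - f‖ := by
    intro z f
    rw [dist_eq_norm]
    have e : z - ((f : ℂ) * Complex.exp (β * I) - bb)
        = ((z + bb) * Complex.exp (-(β * I)) - f) * Complex.exp (β * I) := by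
      linear_combination (-(z + bb)) * hexp
    rw [e, norm_mul, hexpn, mul_one]
  refine ⟨((Real.sqrt (2 * R) : ℝ) : ℂ) * Complex.exp (β * I) - bb,
    ((-Real.sqrt (2 * R) : ℝ) : ℂ) * Complex.exp (β * I) - bb, Real.sqrt (a + R), ?_, ?_⟩
  · rw [dist_eq_norm]
    have e : ((Real.sqrt (2 * R) : ℝ) : ℂ) * Complex.exp (β * I) - bb
        - (((-Real.sqrt (2 * R) : ℝ) : ℂ) * Complex.exp (β * I) - bb)
        = ((2 * Real.sqrt (2 * R) : ℝ) : ℂ) * Complex.exp (β * I) := by
      push_cast; ring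
    rw [e, norm_mul, hexpn, mul_one, Complex.norm_real, Real.norm_of_nonneg (by positivity)]
    have : Real.sqrt (2 * R) < Real.sqrt (a + R) := Real.sqrt_lt_sqrt (by linarith) (by linarith)
    linarith
  · ext z
    simp only [Set.mem_range, Set.mem_setOf_eq]
    rw [hdist, hdist]
    have e : (z + bb) * Complex.exp (-(β * I)) - ((-Real.sqrt (2 * R) : ℝ) : ℂ)
        = (z + bb) * Complex.exp (-(β * I)) + ((Real.sqrt (2 * R) : ℝ) : ℂ) := by
      push_cast; ring
    rw [e, hiff]
    constructor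
    · rintro ⟨s, rfl⟩
      exact hE s
    · intro hz
      set w := (z + bb) * Complex.exp (-(β * I)) with hw
      set v : ℂ := ((w.re / (a + R) : ℝ) : ℂ) + ((w.im / (a - R) : ℝ) : ℂ) * I with hv
      have f1 : ∀ u v : ℝ, ((u : ℂ) + (v : ℂ) * I).re = u := fun u v => by simp
      have f2 : ∀ u v : ℝ, ((u : ℂ) + (v : ℂ) * I).im = v := fun u v => by simp
      have hvre : v.re = w.re / (a + R) := f1 _ _
      have hvim : v.im = w.im / (a - R) := f2 _ _
      have hv0 : 0 < ‖v‖ := by
        rw [norm_pos_iff]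
        intro h0
        rw [h0] at hvre hvim
        simp only [Complex.zero_re, Complex.zero_im] at hvre hvim
        have h1 : w.re = 0 := by
          rcases div_eq_zero_iff.1 hvre.symm with h | h
          · exact h
          · linarith
        have h2 : w.im = 0 := by
          rcases div_eq_zero_iff.1 hvim.symm with h | h
          · exact h
          · linarith
        rw [h1, h2] at hz
        have : 0 < (a + R) * (a - R) := mul_pos hp hm
        nlinarith
      obtain ⟨s, hs⟩ := el_surj A.smooth.continuous A.mono A.per (Complex.arg v + β)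
      refine ⟨s, ?_⟩
      set x := A.Ψ s with hx
      have hxb : x - β = Complex.arg v := by rw [hs]; ring
      have hc := Complex.norm_mul_cos_arg v
      have hsn := Complex.norm_mul_sin_arg v
      rw [← hxb, hvre] at hc
      rw [← hxb, hvim] at hsn
      have hc' : w.re = (a + R) * (‖v‖ * Real.cos (x - β)) := by rw [hc]; field_simp
      have hs' : w.im = (a - R) * (‖v‖ * Real.sin (x - β)) := by rw [hsn]; field_simp
      have hk := hKpos x
      have hkv : K x * ‖v‖ = 1 := by
        have h1 : (K x * ‖v‖) ^ 2 = 1 := by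
          rw [hc', hs'] at hz
          have h2 : (a + R) * (a - R) * (K x * ‖v‖) ^ 2 = (a + R) * (a - R) * 1 := by
            rw [mul_pow, hK3 x]
            linear_combination hz
          exact mul_left_cancel₀ (mul_pos hp hm).ne' h2
        have h3 : 0 ≤ K x * ‖v‖ := by positivity
        nlinarith
      have hX' : K x * Real.cos (x - β) - K1 x * Real.sin (x - β) = w.re := by
        have h1 : K x * (K x * Real.cos (x - β) - K1 x * Real.sin (x - β)) = K x * w.re := by
          rw [hX x, hc']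
          linear_combination (-(a + R) * Real.cos (x - β)) * hkv
        exact mul_left_cancel₀ hk.ne' h1
      have hY' : K x * Real.sin (x - β) + K1 x * Real.cos (x - β) = w.im := by
        have h1 : K x * (K x * Real.sin (x - β) + K1 x * Real.cos (x - β)) = K x * w.im := by
          rw [hY x, hs']
          linear_combination (-(a - R) * Real.sin (x - β)) * hkv
        exact mul_left_cancel₀ hk.ne' h1
      have h1 := hγ s
      rw [← hx, hX', hY', Complex.re_add_im, hw] at h1
      have h2 := mul_right_cancel₀ hne h1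
      exact add_right_cancel h2

end Bil
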