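import Pool.Agent.Work.MP_aa14e2_an.GeoDefs

/-!
# Module GeoLeft  (convexity, 40-90 lines)

The curve lies strictly on the left of each of its tangent lines.

PROOF. `γ s ∈ frontier Ω` and `Ω` is open, so `γ s ∉ Ω`.  `geometric_hahn_banach_open_point` gives a continuous linear `f : ℂ →L[ℝ] ℝ` with
`f a < f (γ s)` for all `a ∈ Ω`.  Hence `f z ≤ f (γ s)` on `closure Ω` (which contains `frontier Ω = range γ`), so `t ↦ f (γ t)` has a maximum at `s` and
`f (deriv γ s) = 0`.  With `τ = deriv γ s`, `‖τ‖ = 1`, every `z` is `z = τ (x + iy)`, `x + i y = conj τ z`, so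
`f z = y f(iτ) = (conj τ * z).im * f (I τ)`.  By `left`, `f (γ s + r Iτ) < f (γ s)`, so `f (I τ) < 0`.  Thus for `z ∈ Ω`: `0 < (conj τ (z - γ s)).im`.
If `γ t ≠ γ s`: both points are in `closure Ω`; by strict convexity the midpoint is in `interior (closure Ω) = Ω`
(`Convex.interior_closure_eq_interior_of_nonempty_interior` and `IsOpen`), so `0 < (conj τ ((γ t - γ s)/2)).im`.
-/

noncomputable section
open Real Complex
namespace Bil

private lemma gl_mem (T : Table) (s : ℝ) : T.γ s ∈ closure T.Ω := by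
  have h : T.γ s ∈ frontier T.Ω := by
    rw [T.bdry]
    exact ⟨s, rfl⟩
  exact frontier_subset_closure h

private lemma gl_nmem (T : Table) (s : ℝ) : T.γ s ∉ T.Ω := by
  have h : T.γ s ∈ frontier T.Ω := by
    rw [T.bdry]
    exact ⟨s, rfl⟩
  rw [T.isOpen.frontier_eq] at h
  exact h.2

theorem Table.left_of_Ω (T : Table) (s : ℝ) {z : ℂ} (h : z ∈ T.Ω) :
    0 < ((starRingEnd ℂ) (deriv T.γ s) * (z - T.γ s)).im := by
  obtain ⟨f, hf⟩ := geometric_hahn_banach_open_point T.convex T.isOpen (gl_nmem T s)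
  have hle : ∀ y ∈ closure T.Ω, f y ≤ f (T.γ s) := by
    intro y hy
    have hcl : IsClosed {y | f y ≤ f (T.γ s)} := isClosed_le f.continuous continuous_const
    exact closure_minimal (fun a ha => (hf a ha).le) hcl hy
  set τ := deriv T.γ s with hτ
  have hdiff : HasDerivAt T.γ τ s :=
    (T.smooth.differentiable (by simp)).differentiableAt.hasDerivAt
  have hfd : HasDerivAt (fun t => f (T.γ t)) (f τ) s := f.hasFDerivAt.comp_hasDerivAt s hdiff
  have hmax : IsLocalMax (fun t => f (T.γ t)) s :=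
    Filter.Eventually.of_forall fun t => hle _ (gl_mem T t)
  have h0 : f τ = 0 := hmax.hasDerivAt_eq_zero hfd
  have hn : ‖τ‖ = 1 := T.speed s
  have hττ : τ * (starRingEnd ℂ) τ = 1 := by
    rw [Complex.mul_conj, Complex.normSq_eq_norm_sq, hn]
    simp
  have hdec : ∀ y : ℂ, f y = ((starRingEnd ℂ) τ * y).im * f (I * τ) := by
    intro y
    set c := (starRingEnd ℂ) τ * y with hc
    have e : y = c.re • τ + c.im • (I * τ) := by
      have e1 : y = τ * c := by
        rw [hc, ← mul_assoc, hττ, one_mul]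
      have e2 : (c.re : ℂ) + c.im * I = c := Complex.re_add_im c
      rw [Complex.real_smul, Complex.real_smul]
      calc y = τ * c := e1
        _ = τ * ((c.re : ℂ) + c.im * I) := by rw [e2]
        _ = c.re * τ + c.im * (I * τ) := by ring
    have e3 : f y = f (c.re • τ + c.im • (I * τ)) := congrArg f e
    rw [e3, map_add, map_smul, map_smul, h0, smul_zero, zero_add, smul_eq_mul]
  have hneg : f (I * τ) < 0 := by
    obtain ⟨r, hr, hmem⟩ := T.left s
    have h1 := hf _ hmem
    rw [← Complex.real_smul, map_add, map_smul, smul_eq_mul] at h1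
    by_contra hc
    have := mul_nonneg hr.le (not_lt.1 hc)
    linarith
  have h2 := hf z h
  have h3 : f (z - T.γ s) < 0 := by
    rw [map_sub]
    linarith
  rw [hdec] at h3
  by_contra hc
  have := mul_nonneg_of_nonpos_of_nonpos (not_lt.1 hc) hneg.le
  linarith

theorem Table.left_of (T : Table) (s t : ℝ) (h : T.γ t ≠ T.γ s) :
    0 < ((starRingEnd ℂ) (deriv T.γ s) * (T.γ t - T.γ s)).im := by
  have hmid : (1 / 2 : ℝ) • T.γ t + (1 / 2 : ℝ) • T.γ s ∈ interior (closure T.Ω) :=
    T.strict (gl_mem T t) (gl_mem T s) h (by norm_num) (by norm_num) (by norm_num)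
  have hne : (interior T.Ω).Nonempty := by
    obtain ⟨r, -, hr⟩ := T.left s
    rw [T.isOpen.interior_eq]
    exact ⟨_, hr⟩
  rw [T.convex.interior_closure_eq_interior_of_nonempty_interior hne, T.isOpen.interior_eq] at hmid
  have h1 := T.left_of_Ω s hmid
  have e : (starRingEnd ℂ) (deriv T.γ s) * ((1 / 2 : ℝ) • T.γ t + (1 / 2 : ℝ) • T.γ s - T.γ s)
      = (1 / 2 : ℝ) * ((starRingEnd ℂ) (deriv T.γ s) * (T.γ t - T.γ s)) := by
    rw [Complex.real_smul, Complex.real_smul]
    push_cast
    ring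
  rw [e, Complex.im_ofReal_mul] at h1
  linarith

end Bil
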