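import Pool.Agent.Work.MP_aa14e2_an.GeoDefs

/-!
# Module GeoMather  (Mather's theorem: positive curvature, 30-80 lines)

PROOF. Fix `s₀`, let `k = G⁻¹` (`G` is a homeomorphism of `ℝ`: strictly monotone, continuous, `G (s+L) = G s + L`), `x₋ = k s₀ < s₀ < x₊ = G s₀`.
For `s > s₀` close to `s₀`: `x₋ < k s < s`... `x₋ < k s`, `x₊ < G s`, so `φ x₋ s + φ s x₊ < φ (k s) s + φ s (G s) = 2 Ψ s` (`eq` at `k s`), with equality at `s = s₀`.  Hence
`m s = 2 Ψ s - φ x₋ s - φ s x₊` is `≥ 0` for `s > s₀` near `s₀` and `m s₀ = 0`; its derivative at `s₀` is `2 Ψ' s₀ - c₁ - c₂ ≥ 0` with `c₁, c₂ > 0` (`dright` at `(x₋,s₀)`, `dleft` at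
`(s₀,x₊)`).  So `Ψ' s₀ > 0`.
-/

noncomputable section
open Real Complex
namespace Bil

private lemma gm_per {G : ℝ → ℝ} {L : ℝ} (per : ∀ s, G (s + L) = G s + L) (n : ℕ) (y : ℝ) :
    G (y - n * L) = G y - n * L := by
  induction n generalizing y with
  | zero => simp
  | succ k ih =>
    have h1 := per (y - (k + 1 : ℕ) * L)
    have h2 : y - ((k + 1 : ℕ) : ℝ) * L + L = y - k * L := by push_cast; ring
    rw [h2, ih] at h1
    push_cast at h1 ⊢
    linarith

theorem mather {T : Table} {A : Ang T} {p q : ℕ} {G : ℝ → ℝ} (h : SCircle T A p q G) (s : ℝ) : 0 < deriv A.Ψ s := by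
  obtain ⟨n, rfl⟩ : ∃ n, q = n + 1 := ⟨q - 1, by have := h.qpos; omega⟩
  set K : ℝ → ℝ := fun y => G^[n] y - p * T.L with hK
  have hGK : ∀ y, G (K y) = y := by
    intro y
    rw [hK]
    simp only
    rw [gm_per h.per p, ← Function.iterate_succ_apply' G n y, h.iter]
    ring
  have hKm : StrictMono K := by
    intro a b hab
    have := h.mono.iterate n hab
    simp only [hK]
    linarith
  have hK1 : ∀ y, K y < y := fun y => by
    have := h.lt (K y)
    rwa [hGK] at this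
  have hK2 : ∀ y, y < K y + T.L := fun y => by
    have := h.lt2 (K y)
    rwa [hGK] at this
  have heq : ∀ y, A.φ (K y) y + A.φ y (G y) = 2 * A.Ψ y := by
    intro y
    have := h.eq (K y)
    rwa [hGK] at this
  obtain ⟨c1, hc1, hd1⟩ := A.dright (K s) s (hK1 s) (hK2 s)
  obtain ⟨c2, hc2, hd2⟩ := A.dleft s (G s) (h.lt s) (h.lt2 s)
  have hΨ : HasDerivAt A.Ψ (deriv A.Ψ s) s :=
    (A.smooth.differentiable (by simp)).differentiableAt.hasDerivAt
  have hm : HasDerivAt (fun y => 2 * A.Ψ y - A.φ (K s) y - A.φ y (G s))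
      (2 * deriv A.Ψ s - c1 - c2) s := ((hΨ.const_mul 2).sub hd1).sub hd2
  have hev : ∀ᶠ y in nhdsWithin s (Set.Ioi s),
      0 ≤ slope (fun y => 2 * A.Ψ y - A.φ (K s) y - A.φ y (G s)) s y := by
    have e1 : ∀ᶠ y in nhdsWithin s (Set.Ioi s), y < K s + T.L :=
      nhdsWithin_le_nhds (Iio_mem_nhds (hK2 s))
    have e2 : ∀ᶠ y in nhdsWithin s (Set.Ioi s), y < G s :=
      nhdsWithin_le_nhds (Iio_mem_nhds (h.lt s))
    filter_upwards [e1, e2, self_mem_nhdsWithin] with y h1 h2 h3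
    have h3' : s < y := h3
    have a1 : A.φ (K s) y < A.φ (K y) y := A.mono_left _ _ _ (hKm h3') (hK1 y) h1
    have a2 : A.φ y (G s) < A.φ y (G y) := A.mono_right _ _ _ h2 (h.mono h3') (h.lt2 y)
    have a3 := heq y
    have a4 := heq s
    rw [slope_def_field]
    apply div_nonneg _ (by linarith)
    linarith
  have hlim := (hasDerivAt_iff_tendsto_slope.1 hm).mono_left
    (nhdsWithin_mono s (fun y (hy : s < y) => (ne_of_gt hy : y ≠ s)) :
      nhdsWithin s (Set.Ioi s) ≤ nhdsWithin s {s}ᶜ)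
  have hge := ge_of_tendsto hlim hev
  linarith

end Bil
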