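import Pool.Agent.Work.MP_aa14e2_an.GeoDefs

/-!
# Module GeoNext  (60-120 lines)

The billiard map as a continuous map.

PROOF. `N x θ` := the unique `y ∈ (x,x+L)` with `φ x y = Ψ x + θ` (`surj`, `mono_right`), for `θ ∈ (0,π)` (anything otherwise).
Continuity at `(x₀,θ₀)`: let `y₀ = N x₀ θ₀` and `ε>0` small; `φ x₀ (y₀-ε) < Ψ x₀ + θ₀ < φ x₀ (y₀+ε)`; by continuity of `φ` and `Ψ` the same inequalities hold for `(x,θ)` near
`(x₀,θ₀)` (with the points `y₀ ± ε` in `(x,x+L)`), so `|N x θ - y₀| < ε` by monotonicity.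
`bounce_iff`: `Bounce z z'` gives `γ z'.1 - γ z.1 = l e^{iθ} τ(z.1) = l i e^{i(Ψ z.1 + θ)}` and `= l i e^{i(Ψ z'.1 - θ')}`, and `chord`: `= l' i e^{iφ}`.  So
`φ ≡ Ψ z.1 + θ ≡ Ψ z'.1 - θ' mod 2π`, and by `lt1` `φ - Ψ z.1 ∈ (0,π)`, `Ψ z'.1 - φ ∈ (0,π)`, so equality in both cases.  Conversely the same computation backwards.
-/

noncomputable section
open Real Complex
namespace Bil

open Set Filter Topology

private theorem gn_inj {T : Table} (A : Ang T) {x y y' : ℝ} (h1 : x < y) (h2 : y < x + T.L)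
    (h3 : x < y') (h4 : y' < x + T.L) (h5 : A.φ x y = A.φ x y') : y = y' := by
  rcases lt_trichotomy y y' with h | h | h
  · have := A.mono_right x y y' h1 h h4
    linarith
  · exact h
  · have := A.mono_right x y' y h3 h h2
    linarith

theorem exists_next {T : Table} (A : Ang T) : ∃ N : ℝ → ℝ → ℝ,
    ContinuousOn (fun z : ℝ × ℝ => N z.1 z.2) {z | 0 < z.2 ∧ z.2 < π} ∧
    ∀ x θ, 0 < θ → θ < π → x < N x θ ∧ N x θ < x + T.L ∧ A.φ x (N x θ) = A.Ψ x + θ := by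
  have hex : ∀ x θ : ℝ, ∃ y, 0 < θ → θ < π → x < y ∧ y < x + T.L ∧ A.φ x y = A.Ψ x + θ := by
    intro x θ
    by_cases h : 0 < θ ∧ θ < π
    · obtain ⟨y, hy⟩ := A.surj x θ h.1 h.2
      exact ⟨y, fun _ _ => hy⟩
    · exact ⟨0, fun h1 h2 => absurd ⟨h1, h2⟩ h⟩
  choose N hN using hex
  refine ⟨N, ?_, hN⟩
  rintro ⟨x₀, θ₀⟩ ⟨h0, h0'⟩
  simp only at h0 h0'
  obtain ⟨h1, h2, h3⟩ := hN x₀ θ₀ h0 h0'
  apply ContinuousAt.continuousWithinAt
  rw [Metric.continuousAt_iff]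
  intro ε hε
  -- a small radius
  obtain ⟨e, he0, he1, he2, he3⟩ : ∃ e, 0 < e ∧ e < ε ∧ x₀ < N x₀ θ₀ - e ∧ N x₀ θ₀ + e < x₀ + T.L := by
    refine ⟨min (ε / 2) (min ((N x₀ θ₀ - x₀) / 2) ((x₀ + T.L - N x₀ θ₀) / 2)), ?_, ?_, ?_, ?_⟩
    · refine lt_min (by linarith) (lt_min (by linarith) (by linarith))
    · exact (min_le_left _ _).trans_lt (by linarith)
    · have := (min_le_right (ε / 2) (min ((N x₀ θ₀ - x₀) / 2) ((x₀ + T.L - N x₀ θ₀) / 2))).trans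
        (min_le_left _ _)
      linarith
    · have := (min_le_right (ε / 2) (min ((N x₀ θ₀ - x₀) / 2) ((x₀ + T.L - N x₀ θ₀) / 2))).trans
        (min_le_right _ _)
      linarith
  have hlo : A.φ x₀ (N x₀ θ₀ - e) < A.Ψ x₀ + θ₀ := by
    rw [← h3]
    exact A.mono_right _ _ _ he2 (by linarith) h2
  have hhi : A.Ψ x₀ + θ₀ < A.φ x₀ (N x₀ θ₀ + e) := by
    rw [← h3]
    exact A.mono_right _ _ _ h1 (by linarith) he3
  have hopen : IsOpen {z : ℝ × ℝ | z.1 < z.2 ∧ z.2 < z.1 + T.L} :=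
    (isOpen_lt continuous_fst continuous_snd).inter
      (isOpen_lt continuous_snd (continuous_fst.add continuous_const))
  have cφ : ∀ y, x₀ < y → y < x₀ + T.L →
      ContinuousAt (fun z : ℝ × ℝ => A.φ z.1 y) (x₀, θ₀) := by
    intro y hy1 hy2
    have a1 : ContinuousAt (fun z : ℝ × ℝ => A.φ z.1 z.2) (x₀, y) :=
      A.cont.continuousAt (hopen.mem_nhds ⟨hy1, hy2⟩)
    have a2 : ContinuousAt (fun z : ℝ × ℝ => (z.1, y)) (x₀, θ₀) := by fun_prop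
    exact ContinuousAt.comp (f := fun z : ℝ × ℝ => (z.1, y)) (x := (x₀, θ₀))
      (g := fun z : ℝ × ℝ => A.φ z.1 z.2) a1 a2
  have cΨ : ContinuousAt (fun z : ℝ × ℝ => A.Ψ z.1 + z.2) (x₀, θ₀) :=
    ((A.smooth.continuous.comp continuous_fst).add continuous_snd).continuousAt
  have ev1 : ∀ᶠ z in 𝓝 (x₀, θ₀), A.φ z.1 (N x₀ θ₀ - e) < A.Ψ z.1 + z.2 :=
    (cφ _ he2 (by linarith)).eventually_lt cΨ hlo
  have ev2 : ∀ᶠ z in 𝓝 (x₀, θ₀), A.Ψ z.1 + z.2 < A.φ z.1 (N x₀ θ₀ + e) :=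
    cΨ.eventually_lt (cφ _ (by linarith) he3) hhi
  have c1 : ContinuousAt (fun z : ℝ × ℝ => z.1) (x₀, θ₀) := continuousAt_fst
  have c2 : ContinuousAt (fun z : ℝ × ℝ => z.2) (x₀, θ₀) := continuousAt_snd
  have ev3 : ∀ᶠ z in 𝓝 (x₀, θ₀), z.1 < N x₀ θ₀ - e :=
    c1.eventually_lt continuousAt_const he2
  have ev4 : ∀ᶠ z in 𝓝 (x₀, θ₀), N x₀ θ₀ + e < z.1 + T.L :=
    continuousAt_const.eventually_lt (c1.add continuousAt_const) he3
  have ev5 : ∀ᶠ z in 𝓝 (x₀, θ₀), 0 < z.2 := continuousAt_const.eventually_lt c2 h0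
  have ev6 : ∀ᶠ z in 𝓝 (x₀, θ₀), z.2 < π := c2.eventually_lt continuousAt_const h0'
  have := ev1.and (ev2.and (ev3.and (ev4.and (ev5.and ev6))))
  rw [Metric.eventually_nhds_iff] at this
  obtain ⟨δ, hδ, hz⟩ := this
  refine ⟨δ, hδ, fun z hzd => ?_⟩
  obtain ⟨k1, k2, k3, k4, k5, k6⟩ := hz hzd
  obtain ⟨m1, m2, m3⟩ := hN z.1 z.2 k5 k6
  rw [← m3] at k1 k2
  have lo : N x₀ θ₀ - e < N z.1 z.2 := by
    by_contra hcon
    push Not at hcon
    rcases hcon.lt_or_eq with h | h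
    · have := A.mono_right z.1 _ _ m1 h (by linarith)
      linarith
    · rw [h] at k1
      exact lt_irrefl _ k1
  have hi : N z.1 z.2 < N x₀ θ₀ + e := by
    by_contra hcon
    push Not at hcon
    rcases hcon.lt_or_eq with h | h
    · have := A.mono_right z.1 _ _ (by linarith) h m2
      linarith
    · rw [← h] at k2
      exact lt_irrefl _ k2
  rw [Real.dist_eq, abs_lt]
  constructor <;> linarith

private theorem gn_dir {l l' a b : ℝ} (hl : 0 < l) (hl' : 0 < l')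
    (h : (l : ℂ) * (I * exp (a * I)) = l' * (I * exp (b * I))) : ∃ n : ℤ, a = b + n * (2 * π) := by
  have hn := congrArg norm h
  simp only [norm_mul, Complex.norm_I, Complex.norm_exp_ofReal_mul_I, mul_one, Complex.norm_real,
    Real.norm_eq_abs, abs_of_pos hl, abs_of_pos hl'] at hn
  subst hn
  have h1 : (l : ℂ) ≠ 0 := by exact_mod_cast hl.ne'
  have h2 := mul_left_cancel₀ I_ne_zero (mul_left_cancel₀ h1 h)
  obtain ⟨n, hn⟩ := Complex.exp_eq_exp_iff_exists_int.1 h2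
  refine ⟨n, ?_⟩
  have h3 : (a : ℂ) * I = (b + n * (2 * π)) * I := by
    rw [hn]
    ring
  have h4 := mul_right_cancel₀ I_ne_zero h3
  exact_mod_cast h4

private theorem gn_zero {a b : ℝ} {n : ℤ} (h : a = b + n * (2 * π)) (h1 : a - b < 2 * π)
    (h2 : -(2 * π) < a - b) : a = b := by
  have hp := Real.two_pi_pos
  have hn : n = 0 := by
    have e : a - b = n * (2 * π) := by linarith
    rw [e] at h1 h2
    have h3 : (n : ℝ) < 1 := by
      by_contra hc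
      push Not at hc
      nlinarith
    have h4 : (-1 : ℝ) < n := by
      by_contra hc
      push Not at hc
      nlinarith
    have h5 : n < 1 := by exact_mod_cast h3
    have h6 : -1 < n := by exact_mod_cast h4
    omega
  rw [hn] at h
  simpa using h

theorem bounce_iff {T : Table} (A : Ang T) (z z' : ℝ × ℝ) : T.Bounce z z' ↔
    0 < z.2 ∧ z.2 < π ∧ 0 < z'.2 ∧ z'.2 < π ∧ z.1 < z'.1 ∧ z'.1 < z.1 + T.L ∧
      A.φ z.1 z'.1 = A.Ψ z.1 + z.2 ∧ A.φ z.1 z'.1 = A.Ψ z'.1 - z'.2 := by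
  have e1 : ∀ (l : ℝ), (l : ℂ) * (exp (z.2 * I) * deriv T.γ z.1) =
      l * (I * exp ((A.Ψ z.1 + z.2 : ℝ) * I)) := by
    intro l
    rw [A.tan]
    push_cast
    rw [add_mul, Complex.exp_add]
    ring
  have e2 : ∀ (l : ℝ), (l : ℂ) * (exp (-(z'.2 * I)) * deriv T.γ z'.1) =
      l * (I * exp ((A.Ψ z'.1 - z'.2 : ℝ) * I)) := by
    intro l
    rw [A.tan]
    push_cast
    rw [sub_mul, Complex.exp_sub, Complex.exp_neg]
    ring
  constructor
  · rintro ⟨h1, h2, h3, h4, h5, h6, l, hl, h7, h8⟩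
    refine ⟨h1, h2, h3, h4, h5, h6, ?_⟩
    obtain ⟨l', hl', hc⟩ := A.chord _ _ h5 h6
    obtain ⟨a1, a2, a3, a4⟩ := A.lt1 _ _ h5 h6
    rw [e1, hc] at h7
    rw [e2, hc] at h8
    obtain ⟨n, hn⟩ := gn_dir hl' hl h7
    obtain ⟨m, hm⟩ := gn_dir hl' hl h8
    exact ⟨gn_zero hn (by linarith) (by linarith), gn_zero hm (by linarith) (by linarith)⟩
  · rintro ⟨h1, h2, h3, h4, h5, h6, h7, h8⟩
    refine ⟨h1, h2, h3, h4, h5, h6, ?_⟩
    obtain ⟨l', hl', hc⟩ := A.chord _ _ h5 h6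
    refine ⟨l', hl', ?_, ?_⟩
    · rw [e1, hc, h7]
    · rw [e2, hc, h8]

end Bil
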