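import Pool.Agent.Work.MP_aa14e2_an.GeoDefs
import Pool.Agent.Work.MP_aa14e2_an.Defs

/-!
# Module GeoSupp  (support function of a table with positive curvature, 80-150 lines)

PROOF. `Ψ` is a smooth increasing bijection of `ℝ` with positive derivative; let `σ` be its inverse, `σ' ψ = 1/Ψ'(σ ψ)` (`HasDerivAt.of_local_left_inverse`/`StrictMono.orderIso`), continuous.
Put `Γ ψ = γ (σ ψ)`; `Γ' = γ'(σ) σ' = ρ i e^{iψ}` with `ρ ψ = 1/Ψ'(σ ψ) > 0` continuous.
`h ψ = Re (Γ ψ e^{-iψ})`, `h1 ψ = Im (Γ ψ e^{-iψ})`, `h2 ψ = ρ ψ - h ψ`.  Derivative of `Γ e^{-iψ}` is `ρ i - i Γ e^{-iψ}`, so `h' = Im(Γ e^{-iψ}) = h1`,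
`h1' = ρ - h = h2`.  `h + h2 = ρ > 0`.  Periodicity: `σ (ψ+2π) = σ ψ + L`, `Γ (ψ+2π) = Γ ψ`.
`γ s = (h (Ψ s) + i h1 (Ψ s)) e^{iΨ s}` by definition.
-/

noncomputable section
open Real Complex
namespace Bil

private lemma gs_surj {T : Table} (A : Ang T) : Function.Surjective A.Ψ := by
  have hc : Continuous A.Ψ := A.smooth.continuous
  have hn : ∀ (n : ℕ) (s : ℝ), A.Ψ (s + n * T.L) = A.Ψ s + n * (2 * π) := by
    intro n
    induction n with
    | zero => intro s; simp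
    | succ n ih =>
      intro s
      have e : s + ((n + 1 : ℕ) : ℝ) * T.L = (s + n * T.L) + T.L := by push_cast; ring
      rw [e, A.per, ih]
      push_cast
      ring
  intro y
  obtain ⟨n, hn1⟩ := exists_nat_ge (|y - A.Ψ 0| / (2 * π))
  have hpi : 0 < 2 * π := by positivity
  rw [div_le_iff₀ hpi] at hn1
  have h1 := abs_le.1 hn1
  apply mem_range_of_exists_le_of_exists_ge hc
  · refine ⟨-(n * T.L), ?_⟩
    have h2 := hn n (-(n * T.L))
    rw [neg_add_cancel] at h2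
    linarith [h1.1]
  · refine ⟨0 + n * T.L, ?_⟩
    rw [hn]
    linarith [h1.2]

theorem exists_supp {T : Table} (A : Ang T) (h : ∀ s, 0 < deriv A.Ψ s) :
    ∃ P : Supp, ∀ s, T.γ s = ((P.h (A.Ψ s) : ℂ) + P.h1 (A.Ψ s) * I) * exp (A.Ψ s * I) := by
  set e : ℝ ≃o ℝ := A.mono.orderIsoOfSurjective A.Ψ (gs_surj A) with he
  have heΨ : ∀ s, e s = A.Ψ s := fun s => rfl
  set σ : ℝ → ℝ := fun x => e.symm x with hσ
  have h1 : ∀ ψ, A.Ψ (σ ψ) = ψ := fun ψ => e.apply_symm_apply ψ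
  have h2 : ∀ s, σ (A.Ψ s) = s := fun s => e.symm_apply_apply s
  have hσc : Continuous σ := e.symm.continuous
  have hΨd : ∀ s, HasDerivAt A.Ψ (deriv A.Ψ s) s := fun s =>
    (A.smooth.differentiable (by simp)).differentiableAt.hasDerivAt
  have hσd : ∀ ψ, HasDerivAt σ (deriv A.Ψ (σ ψ))⁻¹ ψ := fun ψ =>
    HasDerivAt.of_local_left_inverse hσc.continuousAt (hΨd (σ ψ)) (h _).ne'
      (Filter.Eventually.of_forall h1)
  set ρ : ℝ → ℝ := fun ψ => (deriv A.Ψ (σ ψ))⁻¹ with hρ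
  have hρc : Continuous ρ :=
    ((A.smooth.continuous_deriv (by simp)).comp hσc).inv₀ fun ψ => (h _).ne'
  have hρp : ∀ ψ, 0 < ρ ψ := fun ψ => inv_pos.2 (h _)
  have hγd : ∀ s, HasDerivAt T.γ (deriv T.γ s) s := fun s =>
    (T.smooth.differentiable (by simp)).differentiableAt.hasDerivAt
  have hΓd : ∀ ψ, HasDerivAt (fun ψ => T.γ (σ ψ)) ((ρ ψ : ℂ) * (I * exp (ψ * I))) ψ := by
    intro ψ
    have h3 := HasDerivAt.scomp ψ (hγd (σ ψ)) (hσd ψ)
    rw [A.tan, h1, Complex.real_smul] at h3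
    exact h3
  set E : ℝ → ℂ := fun ψ => T.γ (σ ψ) * exp (-(ψ * I)) with hE
  have hEd : ∀ ψ, HasDerivAt E ((ρ ψ : ℂ) * I - I * E ψ) ψ := by
    intro ψ
    have h3 : HasDerivAt (fun ψ : ℝ => exp (-((ψ : ℂ) * I))) (exp (-((ψ : ℂ) * I)) * (-(1 * I))) ψ :=
      (((Complex.ofRealCLM.hasDerivAt (x := ψ)).mul_const I).neg).cexp
    refine ((hΓd ψ).mul h3).congr_deriv ?_
    have h4 : exp ((ψ : ℂ) * I) * exp (-((ψ : ℂ) * I)) = 1 := by
      rw [← Complex.exp_add, add_neg_cancel, Complex.exp_zero]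
    simp only [hE]
    linear_combination (ρ ψ : ℂ) * I * h4
  have hre : ∀ ψ, HasDerivAt (fun ψ => (E ψ).re) ((E ψ).im) ψ := by
    intro ψ
    have h3 := Complex.reCLM.hasFDerivAt.comp_hasDerivAt ψ (hEd ψ)
    refine h3.congr_deriv ?_
    simp
  have him : ∀ ψ, HasDerivAt (fun ψ => (E ψ).im) (ρ ψ - (E ψ).re) ψ := by
    intro ψ
    have h3 := Complex.imCLM.hasFDerivAt.comp_hasDerivAt ψ (hEd ψ)
    refine h3.congr_deriv ?_
    simp
  have hσp : ∀ ψ, σ (ψ + 2 * π) = σ ψ + T.L := by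
    intro ψ
    apply A.mono.injective
    rw [h1, A.per, h1]
  refine ⟨{ h := fun ψ => (E ψ).re
            h1 := fun ψ => (E ψ).im
            h2 := fun ψ => ρ ψ - (E ψ).re
            d0 := hre
            d1 := him
            c2 := hρc.sub (continuous_iff_continuousAt.2 fun x => (hre x).continuousAt)
            per := fun ψ => ?_
            pos := fun ψ => ?_ }, fun s => ?_⟩
  · simp only [hE]
    rw [hσp, T.closed]
    have h3 : exp (-(((ψ + 2 * π : ℝ) : ℂ) * I)) = exp (-((ψ : ℂ) * I)) := by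
      have h4 : -(((ψ + 2 * π : ℝ) : ℂ) * I) = -((ψ : ℂ) * I) - 2 * π * I := by
        push_cast
        ring
      rw [h4, Complex.exp_sub, Complex.exp_two_pi_mul_I, div_one]
    rw [h3]
  · have := hρp ψ
    linarith
  · simp only
    rw [Complex.re_add_im]
    simp only [hE]
    rw [h2, mul_assoc, ← Complex.exp_add, neg_add_cancel, Complex.exp_zero, mul_one]

end Bil
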