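import Mathlib

/-!
# MP_aa14e2_an : geometric definitions (FIXED)

Billiard tables, the billiard map, rotational invariant circles (as in the problem).
The plane is `ℂ`.
-/

noncomputable section

open Real Complex

namespace Bil

/-- A billiard table: a strictly convex domain `Ω` of the plane bounded by a smooth simple closed curve `γ`,
parametrised by arclength and counterclockwise, of length `L`. -/
structure Table where
  Ω : Set ℂ
  γ : ℝ → ℂ
  L : ℝ
  L_pos : 0 < L
  /-- the domain is open and convex, and strictly convex -/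
  isOpen : IsOpen Ω
  convex : Convex ℝ Ω
  strict : StrictConvex ℝ (closure Ω)
  /-- `γ` is smooth, closed, simple, parametrised by arclength -/
  smooth : ContDiff ℝ (⊤ : ℕ∞) γ
  speed : ∀ s, ‖deriv γ s‖ = 1
  closed : ∀ s, γ (s + L) = γ s
  simple : ∀ s t, γ s = γ t → ∃ n : ℤ, t = s + n * L
  /-- it is the boundary of `Ω` -/
  bdry : frontier Ω = Set.range γ
  /-- counterclockwise: the inner normal is on the left -/
  left : ∀ s, ∃ r : ℝ, 0 < r ∧ γ s + r * (I * deriv γ s) ∈ Ω

namespace Table

variable (T : Table)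

/-- The (lifted) billiard map in coordinates `(s,θ)`: `s ∈ ℝ` arclength parameter of the reflection point (mod `L`), `θ ∈ (0,π)`
angle of the outgoing ray with the boundary.  `Bounce z z'`: the ray that leaves `γ s` at angle `θ` hits the boundary at `γ s'` and is
reflected there at the angle `θ'`; the lift is the one with `s < s' < s + L`. -/
def Bounce (z z' : ℝ × ℝ) : Prop :=
  0 < z.2 ∧ z.2 < π ∧ 0 < z'.2 ∧ z'.2 < π ∧ z.1 < z'.1 ∧ z'.1 < z.1 + T.L ∧
    ∃ l : ℝ, 0 < l ∧ T.γ z'.1 - T.γ z.1 = l * (exp (z.2 * I) * deriv T.γ z.1) ∧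
      T.γ z'.1 - T.γ z.1 = l * (exp (-(z'.2 * I)) * deriv T.γ z'.1)

/-- An invariant circle: a closed curve in the phase annulus `(ℝ/L) × (0,π)`, given by its lift `c`, that winds once around the
annulus and is invariant under the billiard map.  (The curve is not even assumed to be simple.) -/
structure IsInvariantCircle (c : ℝ → ℝ × ℝ) : Prop where
  cont : Continuous c
  wind : ∀ t, c (t + 1) = ((c t).1 + T.L, (c t).2)
  mem : ∀ t, 0 < (c t).2 ∧ (c t).2 < π
  maps : ∀ t, ∃ t', T.Bounce (c t) (c t')
  onto : ∀ t', ∃ t, T.Bounce (c t) (c t')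

/-- There is an invariant circle all of whose points are periodic points of type `(p,q)`: the orbit closes up after `q`
reflections, during which the reflection points travel `p` times around the boundary. -/
def HasRationalCircle (p q : ℕ) : Prop :=
  ∃ c : ℝ → ℝ × ℝ, T.IsInvariantCircle c ∧
    ∀ t, ∃ z : ℕ → ℝ × ℝ, z 0 = c t ∧ (∀ i < q, T.Bounce (z i) (z (i + 1))) ∧ z q = ((c t).1 + p * T.L, (c t).2)

end Table

/-- an ellipse (boundary curve): the points with sum of the distances to two foci `F₁,F₂` equal to `2a > dist F₁ F₂` -/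
def IsEllipse (E : Set ℂ) : Prop :=
  ∃ (F₁ F₂ : ℂ) (a : ℝ), dist F₁ F₂ < 2 * a ∧ E = {z | dist z F₁ + dist z F₂ = 2 * a}

end Bil
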