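import Pool.Agent.Work.MP_aa14e2_an.GeoDefs
import Pool.Agent.Work.MP_aa14e2_an.Defs

/-!
# Module GeoToRat  (80-150 lines)

PROOF. `u s = φ s (G s)`: continuous (`cont`), strictly increasing (`mono_left`, `mono_right`, `G` increasing; for `s < s'` first with `s' < G s`: `φ s (G s) < φ s' (G s) ≤ φ s' (G s')` (small steps),
then in general by chaining, or by local strict monotonicity + connectedness), `u (s+L) = u s + 2π` (`perφ`): a homeomorphism of `ℝ`.  Put `g = u ∘ G ∘ u⁻¹`.
 * `mono`, `cont`, `per` clear.  `g (u s) - u s = u (G s) - u s = 2 (Ψ (G s) - u s)` by `eq`, and `0 < Ψ (G s) - φ s (G s) < π` (`lt1`), so `x < g x < x + 2π`.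
 * `iter`: `g^[q] (u s) = u (G^[q] s) = u (s + pL) = u s + 2πp`.
 * `eq`: let `x = u s`, `y = g x = u (G s)`, `z = g y = u (G (G s))`, `s1 = G s`, `s2 = G (G s)`.  `(x+y)/2 = Ψ s1`, `δ = (y-x)/2 = Ψ s1 - x`.
   `P.s2 x y = h1(Ψ s1) sin δ + h (Ψ s1) cos δ = Re (γ(s1) e^{-iy})` because `γ(s1) = (h + i h1) e^{iΨ s1}` and `y = Ψ s1 + δ`.
   Similarly `(y+z)/2 = Ψ s2`, `- P.s1 y z = h cos δ' - h1 sin δ' = Re (γ(s2) e^{-iy})` (`y = Ψ s2 - δ'`).  And `γ(s2) - γ(s1) = l i e^{iφ s1 s2} = l i e^{iy}`, so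
   the real parts agree.
-/

noncomputable section
open Real Complex
namespace Bil

private lemma tr_mono {u : ℝ → ℝ} (hc : Continuous u)
    (h : ∀ s, ∃ ε, 0 < ε ∧ ∀ t, s < t → t < s + ε → u s < u t) : StrictMono u := by
  intro a b hab
  obtain ⟨c, hcm, hmax⟩ := (isCompact_Icc (a := a) (b := b)).exists_isMaxOn
    ⟨a, Set.left_mem_Icc.2 hab.le⟩ hc.continuousOn
  have key : ∀ c, a ≤ c → c < b → ∃ t ∈ Set.Icc a b, u c < u t := by
    intro c h1 h2
    obtain ⟨ε, hε, ht⟩ := h c
    refine ⟨c + min ε (b - c) / 2, ⟨?_, ?_⟩, ht _ ?_ ?_⟩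
    · have : 0 < min ε (b - c) := lt_min hε (by linarith)
      linarith
    · have := min_le_right ε (b - c)
      have : 0 < min ε (b - c) := lt_min hε (by linarith)
      linarith
    · have : 0 < min ε (b - c) := lt_min hε (by linarith)
      linarith
    · have := min_le_left ε (b - c)
      have : 0 < min ε (b - c) := lt_min hε (by linarith)
      linarith
  have hcb : c = b := by
    by_contra hne
    obtain ⟨t, ht, hlt⟩ := key c hcm.1 (lt_of_le_of_ne hcm.2 hne)
    have := hmax ht
    simp only [Set.mem_setOf_eq] at this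
    linarith
  rw [hcb] at hmax
  obtain ⟨t, ht, hlt⟩ := key a le_rfl hab
  have h1 := hmax ht
  simp only [Set.mem_setOf_eq] at h1
  linarith

private lemma tr_surj {u : ℝ → ℝ} {L : ℝ} (hc : Continuous u) (hm : StrictMono u)
    (hp : ∀ s, u (s + L) = u s + 2 * π) : Function.Surjective u := by
  have h1 : ∀ (n : ℕ) (s : ℝ), u (s + n * L) = u s + n * (2 * π) := by
    intro n
    induction n with
    | zero => intro s; simp
    | succ n ih =>
      intro s
      have e : s + ((n + 1 : ℕ) : ℝ) * L = (s + n * L) + L := by push_cast; ring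
      rw [e, hp, ih]
      push_cast; ring
  have hpi := Real.pi_pos
  have t1 : Filter.Tendsto u Filter.atTop Filter.atTop := by
    refine Filter.tendsto_atTop_atTop_of_monotone hm.monotone fun b => ?_
    obtain ⟨n, hn⟩ := exists_nat_gt ((b - u 0) / (2 * π))
    refine ⟨0 + n * L, ?_⟩
    rw [h1]
    rw [div_lt_iff₀ (by positivity)] at hn
    linarith
  have t2 : Filter.Tendsto u Filter.atBot Filter.atBot := by
    refine Filter.tendsto_atBot_atBot_of_monotone hm.monotone fun b => ?_
    obtain ⟨n, hn⟩ := exists_nat_gt ((u 0 - b) / (2 * π))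
    refine ⟨0 - n * L, ?_⟩
    have h2 := h1 n (0 - n * L)
    have e : (0 : ℝ) - n * L + n * L = 0 := by ring
    rw [e] at h2
    rw [div_lt_iff₀ (by positivity)] at hn
    linarith
  exact hc.surjective t1 t2

private lemma tr_re {h h1 a y : ℝ} :
    ((((h : ℂ) + h1 * I) * Complex.exp (a * I)) * Complex.exp (-(y * I))).re
      = h * Real.cos (a - y) - h1 * Real.sin (a - y) := by
  have e : Complex.exp (a * I) * Complex.exp (-(y * I)) = Complex.exp (((a - y : ℝ) : ℂ) * I) := by
    rw [← Complex.exp_add]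
    congr 1
    push_cast
    ring
  rw [mul_assoc, e, Complex.mul_re, Complex.exp_ofReal_mul_I_re, Complex.exp_ofReal_mul_I_im]
  simp

theorem to_rat {T : Table} {A : Ang T} {P : Supp}
    (hP : ∀ s, T.γ s = ((P.h (A.Ψ s) : ℂ) + P.h1 (A.Ψ s) * I) * exp (A.Ψ s * I))
    {p q : ℕ} {G : ℝ → ℝ} (h : SCircle T A p q G) : ∃ g : ℝ → ℝ, IsRat P p q g := by
  set u : ℝ → ℝ := fun s => A.φ s (G s) with hu
  have uc : Continuous u := by
    rw [continuous_iff_continuousAt]
    intro s
    have hmem : {z : ℝ × ℝ | z.1 < z.2 ∧ z.2 < z.1 + T.L} ∈ nhds (s, G s) := by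
      refine IsOpen.mem_nhds ?_ ⟨h.lt s, h.lt2 s⟩
      exact (isOpen_lt continuous_fst continuous_snd).inter
        (isOpen_lt continuous_snd (continuous_fst.add continuous_const))
    exact ContinuousAt.comp (f := fun s => (s, G s)) (g := fun z : ℝ × ℝ => A.φ z.1 z.2)
      (A.cont.continuousAt hmem) (continuous_id.prodMk h.cont).continuousAt
  have um : StrictMono u := by
    refine tr_mono uc fun s => ⟨G s - s, by linarith [h.lt s], fun t h1 h2 => ?_⟩
    have h3 : t < G s := by linarith
    have h4 := A.mono_left s t (G s) h1 h3 (h.lt2 s)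
    have h5 := A.mono_right t (G s) (G t) h3 (h.mono h1) (h.lt2 t)
    exact h4.trans h5
  have up : ∀ s, u (s + T.L) = u s + 2 * π := by
    intro s
    simp only [hu]
    rw [h.per, A.perφ s (G s) (h.lt s) (h.lt2 s)]
  let e : ℝ ≃o ℝ := um.orderIsoOfSurjective u (tr_surj uc um up)
  have e1 : ∀ x, e.symm (u x) = x := fun x => e.symm_apply_apply x
  have e2 : ∀ x, u (e.symm x) = x := fun x => e.apply_symm_apply x
  have ep : ∀ x, e.symm (x + 2 * π) = e.symm x + T.L := by
    intro x
    apply um.injective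
    rw [e2, up, e2]
  refine ⟨fun x => u (G (e.symm x)), ⟨⟨?_, ?_, ?_, ?_, ?_, ?_⟩, h.qpos, ?_⟩⟩
  · exact um.comp (h.mono.comp e.symm.strictMono)
  · exact uc.comp (h.cont.comp e.symm.continuous)
  · intro x
    rw [ep, h.per, up]
  · intro x
    have := um (h.lt (e.symm x))
    rwa [e2] at this
  · intro x
    have := um (h.lt2 (e.symm x))
    rwa [up, e2] at this
  · intro x
    rw [e1]
    set s := e.symm x with hs
    have hx : x = u s := by rw [hs, e2]
    have q1 : x + u (G s) = 2 * A.Ψ (G s) := by rw [hx]; exact h.eq s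
    have q2 : u (G s) + u (G (G s)) = 2 * A.Ψ (G (G s)) := h.eq (G s)
    obtain ⟨l, hl, hch⟩ := A.chord (G s) (G (G s)) (h.lt _) (h.lt2 _)
    have hy : A.φ (G s) (G (G s)) = u (G s) := rfl
    rw [hy] at hch
    set y := u (G s) with hyd
    have r1 := congrArg (fun z => (z * Complex.exp (-(y * I))).re) hch
    rw [sub_mul, Complex.sub_re, hP (G (G s)), hP (G s), tr_re, tr_re] at r1
    have r2 : ((l : ℂ) * (I * Complex.exp (y * I)) * Complex.exp (-(y * I))).re = 0 := by
      have : (l : ℂ) * (I * Complex.exp (y * I)) * Complex.exp (-(y * I)) = (l : ℂ) * I := by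
        rw [mul_assoc, mul_assoc, ← Complex.exp_add]
        simp
      rw [this]
      simp
    rw [r2] at r1
    have m1 : (x + y) / 2 = A.Ψ (G s) := by linarith
    have m2 : (y - x) / 2 = -(A.Ψ (G s) - y) := by linarith
    have m3 : (y + u (G (G s))) / 2 = A.Ψ (G (G s)) := by linarith
    have m4 : (u (G (G s)) - y) / 2 = A.Ψ (G (G s)) - y := by linarith
    unfold Supp.s2 Supp.s1
    rw [m1, m2, m3, m4, Real.sin_neg, Real.cos_neg]
    linarith
  · intro x
    have hsemi : Function.Semiconj u G (fun x => u (G (e.symm x))) := by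
      intro s
      simp only
      rw [e1]
    have h2 := (hsemi.iterate_right q).eq (e.symm x)
    rw [e2, h.iter] at h2
    rw [← h2]
    have h3 : ∀ (n : ℕ) (s : ℝ), u (s + n * T.L) = u s + 2 * π * n := by
      intro n
      induction n with
      | zero => intro s; simp
      | succ n ih =>
        intro s
        have e' : s + ((n + 1 : ℕ) : ℝ) * T.L = (s + n * T.L) + T.L := by push_cast; ring
        rw [e', up, ih]
        push_cast; ring
    rw [h3, e2]

end Bil
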