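import Pool.Agent.Work.MP_aa14e2_an.Dense
import Pool.Agent.Work.MP_aa14e2_an.SecVar

/-!
# Module Hopf  (100-160 lines)

E. Hopf / Bialy inequality on the region below the curve of rotation number 1/3, with the test field `p`.

PROOF. `secvar_reg`: let `z ∈ Reg P g₃`.  Put `x_n = (T^[n] z).1`.
 * If `z = (x, f g x)` for a circle `g`, then `T^[n] z = (g^[n] x, f g (g^[n] x))` (`T_graph`) and the claim is `secvar`.
 * If `f g₃ z.1 < z.2 < h z.1`: by `dense` there are circles `g_k` with `f g_k z.1 → z.2`; all terms are continuous functions of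
   `z` (`T_cont`), so pass to the limit (`ge_of_tendsto` / closedness of `{z | ... ≤ 0}`).
 * The points with `z.2 = f g₃ z.1` are on the curve of `g₃`; those with `z.2 = h z.1` are limits of interior points of
   the same fibre (or: `x_n` constant and all `s12 = 0`, `s11 = -h1`, `s22 = h1`, the sum telescopes to 0).
`hopf`: let `Q z = s11 x y p² + 2 s12 x y p p' + s22 x y p'²` with `z = (x,p)`, `(y,p') = T z` (continuous, periodic).  Apply
`secvar_reg` with `m = N+1`, `ξ 0 = 0`, `ξ n = (T^[n] z).2` for `1 ≤ n ≤ N`, `ξ (N+1) = 0`: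
`s22 x_0 x_1 p_1² + ∑_{n=1}^{N-1} Q (T^[n] z) + s11 x_N x_{N+1} p_N² ≤ 0`.  The two boundary terms are `≥ -K` with `K` independent
of `N` and `z` (`Supp.bound`, and `|p_n| ≤ C` since `p_n = s2 _ _` for `n ≥ 1`).  So `∑_{n=1}^{N-1} Q(T^[n] z) ≤ 2K` on `Reg`; integrate with `M`
(`M_T_iter`, `M_mono`, additivity): `(N-1) M Q ≤ 2K M 1` for all `N`, so `M Q ≤ 0`.  Finally `M_pair` (and `Y_s1`, so
`T (x, -s1 x y) = (y, s2 x y)` for `x ≤ y ≤ g₃ x`) gives the statement.
-/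

noncomputable section
open Real Set MeasureTheory
namespace Bil

private lemma hopf_iter_cont (P : Supp) (n : ℕ) : Continuous (P.T^[n]) := (T_cont P).iterate n

private lemma hopf_iter_graph {P : Supp} {g : ℝ → ℝ} (hg : IsCircle P g) (x : ℝ) (n : ℕ) :
    P.T^[n] (x, P.f g x) = (g^[n] x, P.f g (g^[n] x)) := by
  induction n with
  | zero => rfl
  | succ n ih => rw [Function.iterate_succ_apply', ih, T_graph hg, Function.iterate_succ_apply']

theorem secvar_reg {P : Supp} (hF : Fam P) {g₃ : ℝ → ℝ} (h3 : IsRat P 1 3 g₃) {z : ℝ × ℝ} (hz : z ∈ Reg P g₃)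
    (m : ℕ) (ξ : ℕ → ℝ) (h0 : ξ 0 = 0) (hm : ξ m = 0) :
    ∑ n ∈ Finset.range m, (P.s11 (P.T^[n] z).1 (P.T^[n+1] z).1 * ξ n ^ 2
      + 2 * P.s12 (P.T^[n] z).1 (P.T^[n+1] z).1 * ξ n * ξ (n+1)
      + P.s22 (P.T^[n] z).1 (P.T^[n+1] z).1 * ξ (n+1) ^ 2) ≤ 0 := by
  set Sf : ℝ × ℝ → ℝ := fun z => ∑ n ∈ Finset.range m, (P.s11 (P.T^[n] z).1 (P.T^[n+1] z).1 * ξ n ^ 2
      + 2 * P.s12 (P.T^[n] z).1 (P.T^[n+1] z).1 * ξ n * ξ (n+1)
      + P.s22 (P.T^[n] z).1 (P.T^[n+1] z).1 * ξ (n+1) ^ 2) with hS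
  have hcont : Continuous Sf := by
    refine continuous_finsetSum _ fun n _ => ?_
    have c1 : Continuous fun z => ((P.T^[n] z).1, (P.T^[n+1] z).1) :=
      (continuous_fst.comp (hopf_iter_cont P n)).prodMk (continuous_fst.comp (hopf_iter_cont P (n+1)))
    have a1 := P.cs11.comp c1
    have a2 := P.cs12.comp c1
    have a3 := P.cs22.comp c1
    simp only [Function.comp_def] at a1 a2 a3
    exact ((a1.mul continuous_const).add (((continuous_const.mul a2).mul continuous_const).mul continuous_const)).add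
      (a3.mul continuous_const)
  have hA : ∀ g, IsCircle P g → ∀ x, Sf (x, P.f g x) ≤ 0 := by
    intro g hg x
    have := secvar hg x m ξ h0 hm
    simp only [hS, hopf_iter_graph hg]
    exact this
  have hclosed : IsClosed {w | Sf w ≤ 0} := isClosed_le hcont continuous_const
  obtain ⟨x, p⟩ := z
  have hlt : P.f g₃ x < P.h x := (f_lt h3.toIsCircle x).2
  have hB : ∀ p ∈ Ioo (P.f g₃ x) (P.h x), Sf (x, p) ≤ 0 := by
    intro p hp
    have hmem : (x, p) ∈ closure {w | Sf w ≤ 0} := by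
      rw [Metric.mem_closure_iff]
      intro ε hε
      obtain ⟨p', q', g, hg, hgp⟩ := dense hF h3 hp.1 hp.2 hε
      refine ⟨(x, P.f g x), hA g hg.toIsCircle x, ?_⟩
      rw [Prod.dist_eq, dist_self, Real.dist_eq, abs_sub_comm]
      exact max_lt hε hgp
    rwa [hclosed.closure_eq] at hmem
  have hfib : IsClosed {p | Sf (x, p) ≤ 0} :=
    isClosed_le (hcont.comp (by fun_prop : Continuous fun p : ℝ => (x, p))) continuous_const
  have hsub : Icc (P.f g₃ x) (P.h x) ⊆ {p | Sf (x, p) ≤ 0} := by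
    rw [← closure_Ioo hlt.ne]
    exact hfib.closure_subset_iff.2 hB
  exact hsub hz

theorem hopf {P : Supp} (hF : Fam P) {g₃ : ℝ → ℝ} (h3 : IsRat P 1 3 g₃) :
    ∫ x in (0:ℝ)..(2 * π), ∫ y in x..g₃ x,
      (P.s11 x y * P.s1 x y ^ 2 - 2 * P.s12 x y * P.s1 x y * P.s2 x y + P.s22 x y * P.s2 x y ^ 2) * P.s12 x y ≤ 0 := by
  obtain ⟨C, hC, hb⟩ := P.bound
  have hg := h3.toIsCircle
  set Q : ℝ × ℝ → ℝ := fun z => P.s11 z.1 (P.T z).1 * z.2 ^ 2 + 2 * P.s12 z.1 (P.T z).1 * z.2 * (P.T z).2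
    + P.s22 z.1 (P.T z).1 * (P.T z).2 ^ 2 with hQ
  have hTc := T_cont P
  have hQc : Continuous Q := by
    have c1 : Continuous fun z : ℝ × ℝ => (z.1, (P.T z).1) := continuous_fst.prodMk (continuous_fst.comp hTc)
    have c2 : Continuous fun z : ℝ × ℝ => (P.T z).2 := continuous_snd.comp hTc
    have a1 := P.cs11.comp c1
    have a2 := P.cs12.comp c1
    have a3 := P.cs22.comp c1
    simp only [Function.comp_def] at a1 a2 a3
    exact ((a1.mul (continuous_snd.pow 2)).add (((continuous_const.mul a2).mul continuous_snd).mul c2)).add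
      (a3.mul (c2.pow 2))
  have hQp : ∀ x p, Q (x + 2 * π, p) = Q (x, p) := by
    intro x p
    simp only [hQ, T_per, P.s11_shift, P.s12_shift, P.s22_shift]
  have hQn : ∀ n, Continuous (Q ∘ P.T^[n]) := fun n => hQc.comp (hopf_iter_cont P n)
  -- pointwise bound
  have hpt : ∀ N : ℕ, ∀ z ∈ Reg P g₃, ∑ n ∈ Finset.range N, (Q ∘ P.T^[n+1]) z ≤ 2 * C ^ 3 := by
    intro N z hz
    have hp : ∀ n, |(P.T^[n+1] z).2| ≤ C := by
      intro n
      rw [Function.iterate_succ_apply']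
      exact (hb _ _).2.1
    have h := secvar_reg hF h3 hz (N + 2) (fun n => if n = 0 ∨ n = N + 2 then 0 else (P.T^[n] z).2)
      (by simp) (by simp)
    rw [Finset.sum_range_succ, Finset.sum_range_succ'] at h
    have e1 : ∀ n ∈ Finset.range N, (P.s11 (P.T^[n+1] z).1 (P.T^[n+1+1] z).1
          * (if n + 1 = 0 ∨ n + 1 = N + 2 then 0 else (P.T^[n+1] z).2) ^ 2
        + 2 * P.s12 (P.T^[n+1] z).1 (P.T^[n+1+1] z).1 * (if n + 1 = 0 ∨ n + 1 = N + 2 then 0 else (P.T^[n+1] z).2)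
          * (if n + 1 + 1 = 0 ∨ n + 1 + 1 = N + 2 then 0 else (P.T^[n+1+1] z).2)
        + P.s22 (P.T^[n+1] z).1 (P.T^[n+1+1] z).1
          * (if n + 1 + 1 = 0 ∨ n + 1 + 1 = N + 2 then 0 else (P.T^[n+1+1] z).2) ^ 2)
        = (Q ∘ P.T^[n+1]) z := by
      intro n hn
      rw [Finset.mem_range] at hn
      rw [if_neg (by omega), if_neg (by omega)]
      simp only [hQ, Function.comp]
      rw [Function.iterate_succ_apply' P.T (n+1) z]
    rw [Finset.sum_congr rfl e1] at h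
    have i1 : ¬ (0 + 1 = 0 ∨ 0 + 1 = N + 2) := by omega
    have i2 : ¬ (N + 1 = 0 ∨ N + 1 = N + 2) := by omega
    have i3 : (0 = 0 ∨ 0 = N + 2) := Or.inl rfl
    have i4 : (N + 1 + 1 = 0 ∨ N + 1 + 1 = N + 2) := Or.inr rfl
    simp only [if_neg i1, if_neg i2, true_or, or_true, if_true, mul_zero, zero_mul, add_zero, zero_add, ne_eq,
      OfNat.ofNat_ne_zero, not_false_eq_true, zero_pow] at h
    have k1 : ∀ a b : ℝ, |a| ≤ C → |b| ≤ C → -(C ^ 3) ≤ a * b ^ 2 := by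
      intro a b ha hb'
      have hb2 : b ^ 2 ≤ C ^ 2 := by
        rw [← sq_abs b]
        exact pow_le_pow_left₀ (abs_nonneg b) hb' 2
      have h1 : |a * b ^ 2| ≤ C * C ^ 2 := by
        rw [abs_mul, abs_of_nonneg (sq_nonneg b)]
        exact mul_le_mul ha hb2 (sq_nonneg b) hC.le
      have := (abs_le.1 h1).1
      nlinarith
    have k2 := k1 (P.s22 (P.T^[0] z).1 (P.T^[0+1] z).1) (P.T^[0+1] z).2 (hb _ _).2.2.2.2 (hp 0)
    have k3 := k1 (P.s11 (P.T^[N+1] z).1 (P.T^[N+1+1] z).1) (P.T^[N+1] z).2 (hb _ _).2.2.1 (hp N)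
    nlinarith
  have hsumc : ∀ N : ℕ, Continuous fun z => ∑ n ∈ Finset.range N, (Q ∘ P.T^[n+1]) z := fun N =>
    continuous_finsetSum _ fun n _ => hQn (n+1)
  have hMsum : ∀ N : ℕ, M P g₃ (fun z => ∑ n ∈ Finset.range N, (Q ∘ P.T^[n+1]) z) = N * M P g₃ Q := by
    intro N
    induction N with
    | zero => simp [M]
    | succ N ih =>
      have e : (fun z => ∑ n ∈ Finset.range (N+1), (Q ∘ P.T^[n+1]) z) =
          fun z => (fun z => ∑ n ∈ Finset.range N, (Q ∘ P.T^[n+1]) z) z + (Q ∘ P.T^[N+1]) z := by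
        funext z
        rw [Finset.sum_range_succ]
      rw [e, M_add hg (hsumc N) (hQn (N+1)), ih, M_T_iter hg hQc hQp]
      push_cast
      ring
  have hMle : ∀ N : ℕ, (N:ℝ) * M P g₃ Q ≤ 2 * C ^ 3 * M P g₃ (fun _ => 1) := by
    intro N
    rw [← hMsum N]
    have h1 := M_mono hg (hsumc N) (continuous_const (y := 2 * C ^ 3)) (hpt N)
    have h2 := M_smul (P := P) (g := g₃) (2 * C ^ 3) (fun _ => 1)
    simp only [mul_one] at h2
    rw [h2] at h1
    exact h1
  have hMQ : M P g₃ Q ≤ 0 := by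
    by_contra hcon
    push Not at hcon
    obtain ⟨N, hN⟩ := exists_nat_gt (2 * C ^ 3 * M P g₃ (fun _ => 1) / M P g₃ Q)
    rw [div_lt_iff₀ hcon] at hN
    exact absurd (hMle N) (not_le.2 hN)
  rw [M_pair hg hQc] at hMQ
  refine le_of_eq_of_le ?_ hMQ
  refine intervalIntegral.integral_congr fun x _ => ?_
  refine intervalIntegral.integral_congr fun y hy => ?_
  rw [uIcc_of_le (hg.lt x).le] at hy
  have hY : P.Y x (- P.s1 x y) = y := Y_s1 P x y hy.1 (by linarith [hy.2, hg.lt2 x])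
  simp only [hQ, Supp.T, hY]
  ring

end Bil
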