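import Pool.Agent.Work.MP_aa14e2_an.Basic

/-!
# Module IdentB  (80-140 lines): the pointwise identity (numerically verified)

Notation at `s`: `x = s`, `y = g s`, `ψ = (x+y)/2`, `δ = (y-x)/2`, `w = (1+g1 s)/2`, `h,h1,h2` at `ψ`, `ρ = h+h2`, `v = h h1`, `v' = h1² + h h2`.
`ident_pt` PROOF. With `Y4 δ = 3δ/8 - sin2δ/4 + sin4δ/32` and
`E(ψ,δ) = -(1/2)[ h⁴(1-cos⁴δ)/4 + h³h1(δ/2+sin2δ/4) + h²h1² sin²2δ/8 - h h1³(δ/2 - sin2δ/4) - h1⁴ sin⁴δ/4 ]`,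
`A = (s2 x y)²/2`, `B = (s1 x y)²/2`:
`∂E/∂δ = A ∂B/∂δ` and `ρ[(h2h²/2 + h h1²) X - 2hh1² Y4] = (1/2)(v'² X - 4 v²(δ - X)) + A ∂B/∂ψ - ∂E/∂ψ - h³h1/2`
(`∂/∂ψ`: `h → h1`, `h1 → h2`; `∂/∂δ`: explicit).  Hence along the curve (`ψ' = w`, `δ' = (g1 s-1)/2`):
`ρ[...] w = (1/2)(v'²X - 4v²(δ-X)) w + A B' - (d/ds)(E + h⁴/8)`, `B' = s1 (s11 + s12 g1)`.
So: compute the derivative with `HasDerivAt` combinators (or `HasDerivAt.comp` with the explicit partial derivatives) and compare by `ring` after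
replacing `sin (2δ)`, `sin (4δ)` by polynomials in `sin δ, cos δ` and using `cos² = 1 - sin²` (`linear_combination (...) * sin_sq_add_cos_sq δ`).
-/

noncomputable section
open Real Set MeasureTheory
namespace Bil

/-- the pointwise identity (`hE` is the derivative of the explicit function `E + h⁴/8` along the curve) -/
theorem ident_pt (P : Supp) {g g1 : ℝ → ℝ} (dg : ∀ s, HasDerivAt g (g1 s) s) (s : ℝ) :
    HasDerivAt (fun s => -(1/2) * (P.h ((s + g s) / 2) ^ 4 * (1 - cos ((g s - s) / 2) ^ 4) / 4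
        + P.h ((s + g s) / 2) ^ 3 * P.h1 ((s + g s) / 2) * ((g s - s) / 2 / 2 + sin (2 * ((g s - s) / 2)) / 4)
        + P.h ((s + g s) / 2) ^ 2 * P.h1 ((s + g s) / 2) ^ 2 * sin (2 * ((g s - s) / 2)) ^ 2 / 8
        - P.h ((s + g s) / 2) * P.h1 ((s + g s) / 2) ^ 3 * ((g s - s) / 2 / 2 - sin (2 * ((g s - s) / 2)) / 4)
        - P.h1 ((s + g s) / 2) ^ 4 * sin ((g s - s) / 2) ^ 4 / 4) + P.h ((s + g s) / 2) ^ 4 / 8)
      (1 / 2 * ((P.h1 ((s + g s) / 2) ^ 2 + P.h ((s + g s) / 2) * P.h2 ((s + g s) / 2)) ^ 2 * X ((g s - s) / 2)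
          - 4 * (P.h ((s + g s) / 2) * P.h1 ((s + g s) / 2)) ^ 2 * ((g s - s) / 2 - X ((g s - s) / 2)))
            * ((1 + g1 s) / 2)
        + P.s2 s (g s) ^ 2 / 2 * (P.s1 s (g s) * (P.s11 s (g s) + P.s12 s (g s) * g1 s))
        - (P.h ((s + g s) / 2) + P.h2 ((s + g s) / 2)) *
          ((P.h2 ((s + g s) / 2) * P.h ((s + g s) / 2) ^ 2 / 2 + P.h ((s + g s) / 2) * P.h1 ((s + g s) / 2) ^ 2)
            * X ((g s - s) / 2)
          - 2 * P.h ((s + g s) / 2) * P.h1 ((s + g s) / 2) ^ 2 *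
            (3 * ((g s - s) / 2) / 8 - sin (2 * ((g s - s) / 2)) / 4 + sin (4 * ((g s - s) / 2)) / 32))
          * ((1 + g1 s) / 2)) s := by
  have hm : HasDerivAt (fun s => (s + g s) / 2) ((1 + g1 s) / 2) s :=
    ((hasDerivAt_id s).add (dg s)).div_const 2
  have hn : HasDerivAt (fun s => (g s - s) / 2) ((g1 s - 1) / 2) s :=
    ((dg s).sub (hasDerivAt_id s)).div_const 2
  have hA0 := (P.d0 ((s + g s) / 2)).comp s hm
  have hB0 := (P.d1 ((s + g s) / 2)).comp s hm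
  have hA : HasDerivAt (fun s => P.h ((s + g s) / 2)) (P.h1 ((s + g s) / 2) * ((1 + g1 s) / 2)) s := hA0
  have hB : HasDerivAt (fun s => P.h1 ((s + g s) / 2)) (P.h2 ((s + g s) / 2) * ((1 + g1 s) / 2)) s := hB0
  have hc : HasDerivAt (fun s => cos ((g s - s) / 2)) (-sin ((g s - s) / 2) * ((g1 s - 1) / 2)) s := hn.cos
  have hs : HasDerivAt (fun s => sin ((g s - s) / 2)) (cos ((g s - s) / 2) * ((g1 s - 1) / 2)) s := hn.sin
  have hs2 : HasDerivAt (fun s => sin (2 * ((g s - s) / 2)))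
      (cos (2 * ((g s - s) / 2)) * (2 * ((g1 s - 1) / 2))) s := (hn.const_mul 2).sin
  have T1 := (((hA.pow 4).mul ((hc.pow 4).const_sub 1)).div_const 4)
  have T2 := ((hA.pow 3).mul hB).mul ((hn.div_const 2).add (hs2.div_const 4))
  have T3 := (((hA.pow 2).mul (hB.pow 2)).mul (hs2.pow 2)).div_const 8
  have T4 := (hA.mul (hB.pow 3)).mul ((hn.div_const 2).sub (hs2.div_const 4))
  have T5 := ((hB.pow 4).mul (hs.pow 4)).div_const 4
  have T6 := (hA.pow 4).div_const 8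
  have T := (((((T1.add T2).add T3).sub T4).sub T5).const_mul (-(1/2) : ℝ)).add T6
  refine HasDerivAt.congr_deriv (f := fun s => -(1/2) * (P.h ((s + g s) / 2) ^ 4 * (1 - cos ((g s - s) / 2) ^ 4) / 4
        + P.h ((s + g s) / 2) ^ 3 * P.h1 ((s + g s) / 2) * ((g s - s) / 2 / 2 + sin (2 * ((g s - s) / 2)) / 4)
        + P.h ((s + g s) / 2) ^ 2 * P.h1 ((s + g s) / 2) ^ 2 * sin (2 * ((g s - s) / 2)) ^ 2 / 8
        - P.h ((s + g s) / 2) * P.h1 ((s + g s) / 2) ^ 3 * ((g s - s) / 2 / 2 - sin (2 * ((g s - s) / 2)) / 4)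
        - P.h1 ((s + g s) / 2) ^ 4 * sin ((g s - s) / 2) ^ 4 / 4) + P.h ((s + g s) / 2) ^ 4 / 8) T ?_
  simp only [Pi.mul_apply, Pi.pow_apply, Pi.add_apply, Pi.sub_apply, X, Supp.s1, Supp.s2, Supp.s11, Supp.s12]
  have e4 : sin (4 * ((g s - s) / 2)) = 2 * (2 * sin ((g s - s) / 2) * cos ((g s - s) / 2)) *
      (2 * cos ((g s - s) / 2) ^ 2 - 1) := by
    rw [← sin_two_mul, ← cos_two_mul, ← sin_two_mul]; ring_nf
  rw [e4, sin_two_mul ((g s - s) / 2), cos_two_mul ((g s - s) / 2)]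
  have hsc := sin_sq_add_cos_sq ((g s - s) / 2)
  have e5 : g s - s = 2 * ((g s - s) / 2) := by ring
  generalize (g s - s) / 2 = d at *
  generalize P.h ((s + g s) / 2) = h at *
  generalize P.h1 ((s + g s) / 2) = h1 at *
  generalize P.h2 ((s + g s) / 2) = h2 at *
  generalize sin d = σ at *
  generalize cos d = c at *
  generalize g1 s = G at *
  push_cast
  linear_combination ((-1/4)*c*G*h*h1^2*h2*σ + (-1/4)*c*G*h^2*h1^2*σ + 1/4*c*G*h1^4*σ + (-1/4)*c*h*h1^2*h2*σ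
    + 1/4*c*h^2*h1^2*σ + 1/4*c*h1^4*σ + 1/4*c^2*G*h^3*h1 + (-1/4)*c^2*h^3*h1 + (-1/4)*G*h*h1^3
    + (-1/4)*G*h*h1^3*σ^2 + 1/4*h*h1^3 + 1/4*h*h1^3*σ^2) * hsc

end Bil
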