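import Pool.Agent.Work.MP_aa14e2_an.IdentA
import Pool.Agent.Work.MP_aa14e2_an.IdentB

/-!
# Module Ident  (60-100 lines): from `hopf_psi` and `ident_pt`

Notation at `s`: `x = s`, `y = g s`, `ψ = (x+y)/2`, `δ = (y-x)/2`, `w = (1+g1 s)/2`, `h,h1,h2` at `ψ`, `ρ = h+h2`, `v = h h1`, `v' = h1² + h h2`.
`hopf_K` PROOF.  `ident_pt` says `ρ[...] w = (1/2)(v'²X - 4v²(δ-X)) w + A B' - (d/ds)(E + h⁴/8)`, `A = s2²/2`, `B' = s1 (s11 + s12 g1)`.
Integrate over a period: `∫_0^{2π} (E + h⁴/8)' = 0` (`E(ψ(s),δ(s))` is `2π`-periodic: `ψ` advances by `2π`, `δ` is periodic).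
So `∫_0^{2π} (v'²X - 4v²(δ-X)) w + 2 A B' ds ≤ 0`.
-/

noncomputable section
open Real Set MeasureTheory
namespace Bil

private lemma ident_comb {F G K : ℝ → ℝ} {b : ℝ} (h0 : ∫ s in (0:ℝ)..b, F s = 0) (h1 : ∫ s in (0:ℝ)..b, G s ≤ 0)
    (h : ∀ s, K s = 2 * (F s + G s)) (hF : Continuous F) (hG : Continuous G) : ∫ s in (0:ℝ)..b, K s ≤ 0 := by
  have e : ∫ s in (0:ℝ)..b, K s = 2 * ((∫ s in (0:ℝ)..b, F s) + ∫ s in (0:ℝ)..b, G s) := by
    rw [← intervalIntegral.integral_add (hF.intervalIntegrable _ _) (hG.intervalIntegrable _ _),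
      ← intervalIntegral.integral_const_mul]
    exact intervalIntegral.integral_congr fun s _ => h s
  rw [e, h0]
  linarith

theorem hopf_K {P : Supp} (hF : Fam P) (t : Tri P) :
    ∫ s in (0:ℝ)..(2 * π),
      (((P.h1 ((s + t.g s) / 2) ^ 2 + P.h ((s + t.g s) / 2) * P.h2 ((s + t.g s) / 2)) ^ 2 * X ((t.g s - s) / 2)
          - 4 * (P.h ((s + t.g s) / 2) * P.h1 ((s + t.g s) / 2)) ^ 2 * ((t.g s - s) / 2 - X ((t.g s - s) / 2)))
            * ((1 + t.g1 s) / 2)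
        + P.s2 s (t.g s) ^ 2 * (P.s1 s (t.g s) * (P.s11 s (t.g s) + P.s12 s (t.g s) * t.g1 s))) ≤ 0 := by
  have H := hopf_psi hF t
  have D := ident_pt P t.dg
  have c0 := P.c0
  have c1 := P.c1
  have c2 := P.c2
  have cg : Continuous t.g := t.rat.cont
  have cg1 := t.cg
  have cX := X_cont
  have a1 : Continuous fun s => P.s1 s (t.g s) := P.cs1.comp (continuous_id.prodMk cg)
  have a2 : Continuous fun s => P.s2 s (t.g s) := P.cs2.comp (continuous_id.prodMk cg)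
  have a3 : Continuous fun s => P.s11 s (t.g s) := P.cs11.comp (continuous_id.prodMk cg)
  have a4 : Continuous fun s => P.s12 s (t.g s) := P.cs12.comp (continuous_id.prodMk cg)
  have hD := intervalIntegral.integral_eq_sub_of_hasDerivAt (a := 0) (b := 2 * π) (fun s _ => D s)
    (Continuous.intervalIntegrable (by fun_prop) _ _)
  -- the primitive is periodic
  have e1 : (0 + 2 * π + t.g (0 + 2 * π)) / 2 = (0 + t.g 0) / 2 + 2 * π := by rw [t.rat.per]; ring
  have e2 : (t.g (0 + 2 * π) - (0 + 2 * π)) / 2 = (t.g 0 - 0) / 2 := by rw [t.rat.per]; ring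
  rw [zero_add] at e1 e2
  rw [e1, e2, P.per, P.per1, sub_self] at hD
  refine ident_comb hD H (fun s => by ring) (by fun_prop) (by fun_prop)

end Bil
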