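import Pool.Agent.Work.MP_aa14e2_an.Shear

/-!
# Module Rot  (measure theory, 80-160 lines; needs only `shear`)

PROOF. As in `Swap`, with `G x t = if 0 < t ∧ x + t < g x then C x (x+t) else 0` and `shear` with `c = 1/2`:
`∫ x in 0..2π, ∫ y in x..g x, C x y = ∫ ψ in 0..2π, ∫ t, G (ψ - t/2) t`.
The map `m s = (s + g s)/2` is a strictly increasing homeomorphism of `ℝ` with `m (s+2π) = m s + 2π`; let `s(ψ)` be its
inverse and `D ψ = (g s - s)/2` at `s = s(ψ)`, so `s(ψ) = ψ - D ψ`.  For `t>0`: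
`ψ + t/2 < g (ψ - t/2)  ⟺  ψ < m (ψ - t/2)  ⟺  s(ψ) < ψ - t/2  ⟺  t/2 < D ψ`.
Hence `∫ t, G (ψ - t/2) t = ∫ t in 0..2 D ψ, C (ψ - t/2) (ψ + t/2) = ∫ δ in 0..D ψ, 2 C (ψ-δ) (ψ+δ) =: c ψ`
(continuous and `2π`-periodic in `ψ`).  Finally substitute `ψ = m s` (`m' = (1+g1 s)/2`, continuous):
`∫ ψ in 0..2π, c ψ = ∫ ψ in m 0..m (2π), c ψ` (periodicity) `= ∫ s in 0..2π, c (m s) (1+g1 s)/2`
(`intervalIntegral.integral_comp_mul_deriv`).
-/

noncomputable section
open Real Set MeasureTheory
namespace Bil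

/-- the integrand cut off to the region `0 < t`, `x + t < g x` -/
private def Gr (g : ℝ → ℝ) (C : ℝ → ℝ → ℝ) (x t : ℝ) : ℝ :=
  if 0 < t ∧ x + t < g x then C x (x + t) else 0

private lemma Gr_meas {g : ℝ → ℝ} (gc : Continuous g) {C : ℝ → ℝ → ℝ} (hC : Continuous (Function.uncurry C)) :
    Measurable (Function.uncurry (Gr g C)) := by
  have hC' : Continuous fun z : ℝ × ℝ => C z.1 (z.1 + z.2) :=
    hC.comp (by fun_prop : Continuous fun z : ℝ × ℝ => (z.1, z.1 + z.2))
  have hS : MeasurableSet {z : ℝ × ℝ | 0 < z.2 ∧ z.1 + z.2 < g z.1} := by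
    have o1 : IsOpen {z : ℝ × ℝ | 0 < z.2} := isOpen_lt continuous_const continuous_snd
    have o2 : IsOpen {z : ℝ × ℝ | z.1 + z.2 < g z.1} :=
      isOpen_lt (by fun_prop) (gc.comp continuous_fst)
    exact (o1.inter o2).measurableSet
  have e : Function.uncurry (Gr g C) = {z : ℝ × ℝ | 0 < z.2 ∧ z.1 + z.2 < g z.1}.indicator
      (fun z : ℝ × ℝ => C z.1 (z.1 + z.2)) := by
    funext z
    simp only [Function.uncurry, Gr, indicator, mem_ofPred_eq]
  rw [e]
  exact hC'.measurable.indicator hS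

private lemma Gr_bdd {g : ℝ → ℝ} (gu : ∀ x, g x < x + 2 * π) {C : ℝ → ℝ → ℝ}
    (hC : Continuous (Function.uncurry C)) (hp : ∀ x y, C (x + 2 * π) (y + 2 * π) = C x y) :
    ∃ B, ∀ x t, |Gr g C x t| ≤ B := by
  have hC' : Continuous fun z : ℝ × ℝ => C z.1 (z.1 + z.2) :=
    hC.comp (by fun_prop : Continuous fun z : ℝ × ℝ => (z.1, z.1 + z.2))
  obtain ⟨B, hB⟩ := ((isCompact_Icc (a := (0:ℝ)) (b := 2 * π)).prod
    (isCompact_Icc (a := (0:ℝ)) (b := 2 * π))).exists_bound_of_continuousOn hC'.continuousOn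
  refine ⟨max B 0, fun x t => ?_⟩
  unfold Gr
  split_ifs with h
  · have ht : t ≤ 2 * π := by linarith [gu x, h.2]
    have hP : Function.Periodic (fun x => C x (x + t)) (2 * π) := by
      intro x
      show C (x + 2 * π) (x + 2 * π + t) = C x (x + t)
      rw [show x + 2 * π + t = x + t + 2 * π by ring, hp]
    obtain ⟨y, hy, e⟩ := hP.exists_mem_Ico₀ (by positivity : (0:ℝ) < 2 * π) x
    have e' : C x (x + t) = C y (y + t) := e
    rw [e']
    exact (hB (y, t) ⟨⟨hy.1, hy.2.le⟩, ⟨h.1.le, ht⟩⟩).trans (le_max_left _ _)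
  · simp

private lemma Gr_per {g : ℝ → ℝ} (gp : ∀ x, g (x + 2 * π) = g x + 2 * π) {C : ℝ → ℝ → ℝ}
    (hp : ∀ x y, C (x + 2 * π) (y + 2 * π) = C x y) (x t : ℝ) : Gr g C (x + 2 * π) t = Gr g C x t := by
  unfold Gr
  have e : (0 < t ∧ x + 2 * π + t < g (x + 2 * π)) ↔ (0 < t ∧ x + t < g x) := by
    rw [gp]
    constructor
    · rintro ⟨a, b⟩; exact ⟨a, by linarith⟩
    · rintro ⟨a, b⟩; exact ⟨a, by linarith⟩
  simp only [e]
  rw [show x + 2 * π + t = x + t + 2 * π by ring, hp]

private lemma Gr_int {g : ℝ → ℝ} (gl : ∀ x, x < g x) (C : ℝ → ℝ → ℝ) (x : ℝ) :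
    ∫ t, Gr g C x t = ∫ y in x..g x, C x y := by
  have e1 : (fun t => Gr g C x t) = (Ioo 0 (g x - x)).indicator (fun t => C x (x + t)) := by
    funext t
    unfold Gr
    by_cases h : 0 < t ∧ x + t < g x
    · rw [if_pos h, indicator_of_mem]
      exact ⟨h.1, by linarith [h.2]⟩
    · rw [if_neg h, indicator_of_notMem]
      rintro ⟨a, b⟩
      exact h ⟨a, by linarith⟩
  rw [e1, integral_indicator measurableSet_Ioo, ← integral_Ioc_eq_integral_Ioo,
    ← intervalIntegral.integral_of_le (by linarith [gl x])]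
  have := intervalIntegral.integral_comp_add_left (fun y => C x y) x (a := 0) (b := g x - x)
  rw [this]
  congr 1 <;> ring

private lemma Gr_rot {g : ℝ → ℝ} (gm : StrictMono g) (gl : ∀ x, x < g x) (C : ℝ → ℝ → ℝ) (s : ℝ) :
    ∫ t, Gr g C ((s + g s) / 2 - 1 / 2 * t) t
      = ∫ d in (0:ℝ)..((g s - s) / 2), 2 * C ((s + g s) / 2 - d) ((s + g s) / 2 + d) := by
  set m := (s + g s) / 2 with hm
  have e1 : (fun t => Gr g C (m - 1 / 2 * t) t)
      = (Ioo 0 (g s - s)).indicator (fun t => C (m - t / 2) (m + t / 2)) := by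
    funext t
    have hiff : (0 < t ∧ m - 1 / 2 * t + t < g (m - 1 / 2 * t)) ↔ (0 < t ∧ t < g s - s) := by
      constructor
      · rintro ⟨a, b⟩
        refine ⟨a, ?_⟩
        by_contra hcon
        have hx : m - 1 / 2 * t ≤ s := by linarith
        have := gm.monotone hx
        linarith
      · rintro ⟨a, b⟩
        refine ⟨a, ?_⟩
        have hx : s < m - 1 / 2 * t := by linarith
        have := gm hx
        linarith
    unfold Gr
    by_cases h : 0 < t ∧ t < g s - s
    · rw [if_pos (hiff.2 h), indicator_of_mem (show t ∈ Ioo 0 (g s - s) from h)]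
      congr 1 <;> ring
    · rw [if_neg (fun h' => h (hiff.1 h')), indicator_of_notMem (show t ∉ Ioo 0 (g s - s) from h)]
  rw [e1, integral_indicator measurableSet_Ioo, ← integral_Ioc_eq_integral_Ioo,
    ← intervalIntegral.integral_of_le (by linarith [gl s])]
  have h2 := intervalIntegral.integral_comp_mul_left (fun t => C (m - t / 2) (m + t / 2)) (two_ne_zero (α := ℝ))
    (a := 0) (b := (g s - s) / 2)
  have e3 : (2:ℝ) * 0 = 0 := by ring
  have e4 : (2:ℝ) * ((g s - s) / 2) = g s - s := by ring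
  rw [e3, e4] at h2
  have e5 : ∀ d : ℝ, C (m - 2 * d / 2) (m + 2 * d / 2) = C (m - d) (m + d) := by
    intro d
    congr 1 <;> ring
  simp only [e5] at h2
  rw [intervalIntegral.integral_const_mul, h2, smul_eq_mul]
  ring

theorem rot {g g1 : ℝ → ℝ} (gm : StrictMono g) (gp : ∀ x, g (x + 2 * π) = g x + 2 * π)
    (gl : ∀ x, x < g x) (gu : ∀ x, g x < x + 2 * π) (gd : ∀ x, HasDerivAt g (g1 x) x) (g1c : Continuous g1)
    (C : ℝ → ℝ → ℝ) (hC : Continuous (Function.uncurry C)) (hp : ∀ x y, C (x + 2 * π) (y + 2 * π) = C x y) :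
    ∫ x in (0:ℝ)..(2 * π), ∫ y in x..g x, C x y =
      ∫ s in (0:ℝ)..(2 * π), (∫ d in (0:ℝ)..((g s - s) / 2), 2 * C ((s + g s) / 2 - d) ((s + g s) / 2 + d))
        * ((1 + g1 s) / 2) := by
  have gc : Continuous g := continuous_iff_continuousAt.2 fun x => (gd x).continuousAt
  have hsh := shear (Gr g C) (Gr_meas gc hC) (Gr_bdd gu hC hp) (Gr_per gp hp) (by
    intro x t h
    unfold Gr at h
    split_ifs at h with h'
    · exact ⟨h'.1.le, by linarith [gu x, h'.2]⟩
    · exact absurd rfl h) (1 / 2)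
  simp only [Gr_int gl C] at hsh
  rw [hsh]
  set m : ℝ → ℝ := fun s => (s + g s) / 2 with hm
  set c : ℝ → ℝ := fun ψ => ∫ t, Gr g C (ψ - 1 / 2 * t) t with hc
  have hmd : ∀ s, HasDerivAt m ((1 + g1 s) / 2) s := fun s => ((hasDerivAt_id s).add (gd s)).div_const 2
  have hmc : Continuous m := by fun_prop
  have hmm : StrictMono m := by
    intro a b h
    have := gm h
    simp only [hm]
    linarith
  have hms : Function.Surjective m := by
    refine hmc.surjective ?_ ?_
    · refine Filter.tendsto_atTop_mono (f := fun x => x) (fun x => ?_) Filter.tendsto_id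
      simp only [hm]
      linarith [gl x]
    · refine Filter.tendsto_atBot_mono (g := m) (f := fun x => x + 2 * π) (fun x => ?_)
        (Filter.tendsto_atBot_add_const_right _ _ Filter.tendsto_id)
      simp only [hm]
      have := Real.pi_pos
      linarith [gu x]
  have hcm : ∀ s, c (m s) = ∫ d in (0:ℝ)..((g s - s) / 2), 2 * C ((s + g s) / 2 - d) ((s + g s) / 2 + d) :=
    fun s => Gr_rot gm gl C s
  have hcmc : Continuous fun s => c (m s) := by
    simp only [hcm]
    refine intervalIntegral.continuous_parametric_intervalIntegral_of_continuous ?_ (by fun_prop)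
    have : Continuous fun z : ℝ × ℝ => (((z.1 + g z.1) / 2 - z.2), ((z.1 + g z.1) / 2 + z.2)) := by fun_prop
    exact continuous_const.mul (hC.comp this)
  have hcc : Continuous c := by
    let e := StrictMono.orderIsoOfSurjective m hmm hms
    have he : c = (fun s => c (m s)) ∘ e.symm := by
      funext ψ
      simp only [Function.comp]
      congr 1
      exact (e.apply_symm_apply ψ).symm
    rw [he]
    exact hcmc.comp e.symm.continuous
  have hcp : Function.Periodic c (2 * π) := by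
    intro ψ
    simp only [hc]
    refine integral_congr_ae (Filter.Eventually.of_forall fun t => ?_)
    simp only
    rw [show ψ + 2 * π - 1 / 2 * t = ψ - 1 / 2 * t + 2 * π by ring, Gr_per gp hp]
  have hsub := intervalIntegral.integral_comp_mul_deriv (a := 0) (b := 2 * π) (f := m)
    (f' := fun s => (1 + g1 s) / 2) (g := c) (fun s _ => hmd s) (by fun_prop) hcc
  have hm2 : m (2 * π) = m 0 + 2 * π := by
    simp only [hm]
    have := gp 0
    rw [zero_add] at this
    rw [this]
    ring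
  rw [hm2, hcp.intervalIntegral_add_eq (m 0) 0, zero_add] at hsub
  rw [← hsub]
  refine intervalIntegral.integral_congr fun s _ => ?_
  simp only [Function.comp]
  rw [hcm s]

end Bil
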