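import Pool.Agent.Work.MP_aa14e2_an.Curve
import Pool.Agent.Work.MP_aa14e2_an.Hopf
import Pool.Agent.Work.MP_aa14e2_an.Rot
import Pool.Agent.Work.MP_aa14e2_an.XFun

/-!
# Module IdentA  (80-140 lines): Hopf's inequality in the coordinates of the bounce

Notation at `s`: `x = s`, `y = g s`, `ψ = (x+y)/2`, `δ = (y-x)/2`, `w = (1+g1 s)/2`, `h,h1,h2` at `ψ`, `ρ = h+h2`, `v = h h1`, `v' = h1² + h h2`.
`hopf_psi` PROOF. By `hopf` and `rot` (`C x y = (...)·s12 x y`): `2 C(ψ-δ,ψ+δ) = ρ [ (2 h2 h² + 4 h h1²) sin²δ cos²δ - 2 h h1² sin⁴ δ ]` (trigonometric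
identity: `s11 s1² - 2 s12 s1 s2 + s22 s2²` with `s1 = h1 sin - h cos`, `s2 = h1 sin + h cos`), and
`∫_0^δ sin²cos² = X(δ)/4`, `∫_0^δ sin⁴ = 3δ/8 - sin 2δ/4 + sin 4δ/32` (FTC: differentiate the right sides).
-/

noncomputable section
open Real Set MeasureTheory
namespace Bil

private lemma identA_four (d : ℝ) : HasDerivAt (fun d : ℝ => 3 * d / 8 - sin (2 * d) / 4 + sin (4 * d) / 32)
    (sin d ^ 4) d := by
  have h1 : HasDerivAt (fun d : ℝ => 3 * d / 8) (3 * 1 / 8) d := ((hasDerivAt_id d).const_mul 3).div_const 8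
  have h2 : HasDerivAt (fun d : ℝ => sin (2 * d)) (cos (2 * d) * (2 * 1)) d := ((hasDerivAt_id d).const_mul 2).sin
  have h4 : HasDerivAt (fun d : ℝ => sin (4 * d)) (cos (4 * d) * (4 * 1)) d := ((hasDerivAt_id d).const_mul 4).sin
  refine ((h1.sub (h2.div_const 4)).add (h4.div_const 32)).congr_deriv ?_
  have e4 : cos (4 * d) = 2 * cos (2 * d) ^ 2 - 1 := by
    rw [show 4 * d = 2 * (2 * d) by ring, cos_two_mul]
  have e2 : cos (2 * d) = 1 - 2 * sin d ^ 2 := by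
    rw [cos_two_mul]; linarith [sin_sq_add_cos_sq d]
  rw [e4, e2]; ring

private lemma identA_X (d : ℝ) : HasDerivAt (fun d : ℝ => X d / 4) (sin d ^ 2 * cos d ^ 2) d := by
  refine ((X_deriv d).div_const 4).congr_deriv ?_
  rw [sin_two_mul]; ring

private lemma identA_int (a b c d : ℝ) :
    ∫ t in (0:ℝ)..d, c * (a * (sin t ^ 2 * cos t ^ 2) - b * sin t ^ 4)
      = c * (a * (X d / 4) - b * (3 * d / 8 - sin (2 * d) / 4 + sin (4 * d) / 32)) := by
  have hd : ∀ x ∈ uIcc (0:ℝ) d, HasDerivAt (fun d : ℝ => c * (a * (X d / 4)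
      - b * (3 * d / 8 - sin (2 * d) / 4 + sin (4 * d) / 32)))
      (c * (a * (sin x ^ 2 * cos x ^ 2) - b * sin x ^ 4)) x := by
    intro x _
    exact (((identA_X x).const_mul a).sub ((identA_four x).const_mul b)).const_mul c
  have hc : Continuous fun t : ℝ => c * (a * (sin t ^ 2 * cos t ^ 2) - b * sin t ^ 4) := by fun_prop
  rw [intervalIntegral.integral_eq_sub_of_hasDerivAt hd (hc.intervalIntegrable _ _)]
  simp [X_zero]

/-- the integrand of `hopf` -/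
private def identA_C (P : Supp) (x y : ℝ) : ℝ :=
  (P.s11 x y * P.s1 x y ^ 2 - 2 * P.s12 x y * P.s1 x y * P.s2 x y + P.s22 x y * P.s2 x y ^ 2) * P.s12 x y

private lemma identA_C_eq (P : Supp) (ψ d : ℝ) :
    2 * identA_C P (ψ - d) (ψ + d) = (P.h ψ + P.h2 ψ) *
      ((2 * P.h2 ψ * P.h ψ ^ 2 + 4 * P.h ψ * P.h1 ψ ^ 2) * (sin d ^ 2 * cos d ^ 2)
        - 2 * P.h ψ * P.h1 ψ ^ 2 * sin d ^ 4) := by
  have e1 : (ψ - d + (ψ + d)) / 2 = ψ := by ring
  have e2 : (ψ + d - (ψ - d)) / 2 = d := by ring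
  simp only [identA_C, Supp.s1, Supp.s2, Supp.s11, Supp.s12, Supp.s22, e1, e2]
  ring

theorem hopf_psi {P : Supp} (hF : Fam P) (t : Tri P) :
    ∫ s in (0:ℝ)..(2 * π), (P.h ((s + t.g s) / 2) + P.h2 ((s + t.g s) / 2)) *
      ((P.h2 ((s + t.g s) / 2) * P.h ((s + t.g s) / 2) ^ 2 / 2 + P.h ((s + t.g s) / 2) * P.h1 ((s + t.g s) / 2) ^ 2)
          * X ((t.g s - s) / 2)
        - 2 * P.h ((s + t.g s) / 2) * P.h1 ((s + t.g s) / 2) ^ 2 *
          (3 * ((t.g s - s) / 2) / 8 - sin (2 * ((t.g s - s) / 2)) / 4 + sin (4 * ((t.g s - s) / 2)) / 32))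
      * ((1 + t.g1 s) / 2) ≤ 0 := by
  have hC : Continuous (Function.uncurry (identA_C P)) := by
    have a1 := P.cs1
    have a2 := P.cs2
    have a3 := P.cs11
    have a4 := P.cs12
    have a5 := P.cs22
    unfold Function.uncurry identA_C
    fun_prop
  have hp : ∀ x y, identA_C P (x + 2 * π) (y + 2 * π) = identA_C P x y := by
    intro x y
    simp only [identA_C, P.s1_shift, P.s2_shift, P.s11_shift, P.s12_shift, P.s22_shift]
  have H := hopf hF t.rat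
  have R := rot t.rat.mono t.rat.per t.rat.lt t.rat.lt2 t.dg t.cg (identA_C P) hC hp
  have H' : ∫ x in (0:ℝ)..(2 * π), ∫ y in x..t.g x, identA_C P x y ≤ 0 := H
  rw [R] at H'
  refine le_of_eq_of_le ?_ H'
  refine intervalIntegral.integral_congr fun s _ => ?_
  have e : ∀ d : ℝ, 2 * identA_C P ((s + t.g s) / 2 - d) ((s + t.g s) / 2 + d)
      = (P.h ((s + t.g s) / 2) + P.h2 ((s + t.g s) / 2)) *
      ((2 * P.h2 ((s + t.g s) / 2) * P.h ((s + t.g s) / 2) ^ 2 + 4 * P.h ((s + t.g s) / 2) * P.h1 ((s + t.g s) / 2) ^ 2)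
        * (sin d ^ 2 * cos d ^ 2)
        - 2 * P.h ((s + t.g s) / 2) * P.h1 ((s + t.g s) / 2) ^ 2 * sin d ^ 4) := fun d => identA_C_eq P _ d
  show _ = (∫ d in (0:ℝ)..((t.g s - s) / 2), 2 * identA_C P ((s + t.g s) / 2 - d) ((s + t.g s) / 2 + d))
        * ((1 + t.g1 s) / 2)
  rw [funext e, identA_int]
  ring

end Bil
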