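import Pool.Agent.Work.MP_aa14e2_an.LinF

/-!
# Billiards: linear part, the index theorem

`Lin.index_le_two`: for a path of triples of normals `a < b < c < a + 2π` (acute triangles) the
form `∫ ⟨W', P W'⟩ + π W' × W` is positive for some curve in every three dimensional space of
closed curves modulo constants.
-/

namespace AA14

open Real MeasureTheory Set Filter Topology

/-- The three test functions. -/
noncomputable def ph : Fin 3 → ℝ → ℝ :=
  ![fun _ => 1, fun s => Real.cos (s / 2), fun s => Real.sin (s / 2)]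

theorem cont_ph (k : Fin 3) : Continuous (ph k) := by
  fin_cases k <;> simp [ph] <;> fun_prop

/-- The matrix of test integrals. -/
noncomputable def BB (s w : ℝ → ℝ → ℝ) (X Y : Fin 3 → ℝ → ℝ) (t0 t1 al : ℝ) :
    Matrix (Fin 3) (Fin 3) ℝ :=
  fun k i => ∫ t in t0..t1, (Real.cos (s al t) * X i t + Real.sin (s al t) * Y i t)
    * ph k (s al t) * w al t

theorem det_BB_shift (s w : ℝ → ℝ → ℝ) (X Y : Fin 3 → ℝ → ℝ) (t0 t1 al be : ℝ)
    (hs : ∀ t, s be t = s al t - π) (hw : ∀ t, w be t = w al t) :
    (BB s w X Y t0 t1 be).det = - (BB s w X Y t0 t1 al).det := by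
  have r0 : ∀ i, BB s w X Y t0 t1 be 0 i = - BB s w X Y t0 t1 al 0 i := by
    intro i
    unfold BB
    rw [← intervalIntegral.integral_neg]
    apply intervalIntegral.integral_congr
    intro t _
    simp only [ph, hs, hw, Real.cos_sub_pi, Real.sin_sub_pi, Matrix.cons_val_zero]
    ring
  have r1 : ∀ i, BB s w X Y t0 t1 be 1 i = - BB s w X Y t0 t1 al 2 i := by
    intro i
    unfold BB
    rw [← intervalIntegral.integral_neg]
    apply intervalIntegral.integral_congr
    intro t _
    have e : (s al t - π) / 2 = s al t / 2 - π / 2 := by ring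
    simp only [ph, hs, hw, Real.cos_sub_pi, Real.sin_sub_pi, Matrix.cons_val_one,
      Matrix.cons_val, e, Real.cos_sub_pi_div_two]
    ring
  have r2 : ∀ i, BB s w X Y t0 t1 be 2 i = BB s w X Y t0 t1 al 1 i := by
    intro i
    unfold BB
    apply intervalIntegral.integral_congr
    intro t _
    have e : (s al t - π) / 2 = s al t / 2 - π / 2 := by ring
    simp only [ph, hs, hw, Real.cos_sub_pi, Real.sin_sub_pi, Matrix.cons_val_one,
      Matrix.cons_val, e, Real.sin_sub_pi_div_two]
    ring
  rw [Matrix.det_fin_three, Matrix.det_fin_three]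
  simp only [r0, r1, r2]
  ring

theorem cont_BB {s w : ℝ → ℝ → ℝ} {X Y : Fin 3 → ℝ → ℝ} (t0 t1 : ℝ)
    (cs : Continuous fun p : ℝ × ℝ => s p.1 p.2) (cw : Continuous fun p : ℝ × ℝ => w p.1 p.2)
    (cX : ∀ i, Continuous (X i)) (cY : ∀ i, Continuous (Y i)) :
    Continuous fun al => (BB s w X Y t0 t1 al).det := by
  apply Continuous.matrix_det
  apply continuous_matrix
  intro k i
  unfold BB
  apply intervalIntegral.continuous_parametric_intervalIntegral_of_continuous'
  have c1 := cX i
  have c2 := cY i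
  have c3 := cont_ph k
  have : Continuous fun p : ℝ × ℝ => (Real.cos (s p.1 p.2) * X i p.2
      + Real.sin (s p.1 p.2) * Y i p.2) * ph k (s p.1 p.2) * w p.1 p.2 := by
    fun_prop
  exact this

/-- **Index theorem.** -/
theorem index_le_two {a b c a' b' c' : ℝ → ℝ} {t0 t1 : ℝ} (ht : t0 < t1)
    (hadm : ∀ t, Adm (a t) (b t) (c t))
    (ha : ∀ t, HasDerivAt a (a' t) t) (hb : ∀ t, HasDerivAt b (b' t) t)
    (hc : ∀ t, HasDerivAt c (c' t) t)
    (ha' : Continuous a') (hb' : Continuous b') (hc' : Continuous c')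
    (pa : ∀ t, 0 < a' t) (pb : ∀ t, 0 < b' t) (pc : ∀ t, 0 < c' t)
    (e1 : a t1 = b t0) (e2 : b t1 = c t0) (e3 : c t1 = a t0 + 2 * π)
    {X Y X' Y' : Fin 3 → ℝ → ℝ} (hX : ∀ i t, HasDerivAt (X i) (X' i t) t)
    (hY : ∀ i t, HasDerivAt (Y i) (Y' i t) t)
    (hX' : ∀ i, Continuous (X' i)) (hY' : ∀ i, Continuous (Y' i))
    (eX : ∀ i, X i t1 = X i t0) (eY : ∀ i, Y i t1 = Y i t0)
    (hQ : ∀ v : Fin 3 → ℝ, ∫ t in t0..t1,
      (PF (a t) (b t) (c t) (a' t) (b' t) (c' t) (∑ i, v i * X' i t) (∑ i, v i * Y' i t)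
        + π * ((∑ i, v i * X' i t) * (∑ i, v i * Y i t)
          - (∑ i, v i * Y' i t) * (∑ i, v i * X i t))) ≤ 0) :
    ∃ v : Fin 3 → ℝ, v ≠ 0 ∧ ∀ t ∈ Icc t0 t1, (∑ i, v i * X' i t) = 0 ∧ (∑ i, v i * Y' i t) = 0 := by
  have ca : Continuous a := continuous_iff_continuousAt.mpr fun t => (ha t).continuousAt
  have cb : Continuous b := continuous_iff_continuousAt.mpr fun t => (hb t).continuousAt
  have cc : Continuous c := continuous_iff_continuousAt.mpr fun t => (hc t).continuousAt
  have cX : ∀ i, Continuous (X i) :=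
    fun i => continuous_iff_continuousAt.mpr fun t => (hX i t).continuousAt
  have cY : ∀ i, Continuous (Y i) :=
    fun i => continuous_iff_continuousAt.mpr fun t => (hY i t).continuousAt
  obtain ⟨s, hs⟩ : ∃ s : ℝ → ℝ → ℝ, ∀ al t, s al t = sA (a t) (b t) (c t) al :=
    ⟨_, fun _ _ => rfl⟩
  obtain ⟨w, hw⟩ : ∃ w : ℝ → ℝ → ℝ, ∀ al t, w al t
      = CC (a t) (b t) (c t) (a' t) (b' t) (c' t) al / NN (a t) (b t) (c t) al :=
    ⟨_, fun _ _ => rfl⟩
  have cs : Continuous fun p : ℝ × ℝ => s p.1 p.2 := by
    simp only [hs]; exact cont_sA ca cb cc hadm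
  have cw : Continuous fun p : ℝ × ℝ => w p.1 p.2 := by
    simp only [hw]; exact cont_speed ca cb cc ha' hb' hc' hadm
  have hshift := det_BB_shift s w X Y t0 t1 0 π (by
      intro t
      rw [hs, hs]
      have := sA_add_pi (a t) (b t) (c t) 0
      rw [zero_add] at this
      exact this) (by
      intro t
      rw [hw, hw]
      unfold CC NN
      rw [show 2 * (a t + b t + c t) - π = (2 * (a t + b t + c t) - 0) - π by ring,
        Real.cos_sub_pi, Real.sin_sub_pi, NX_neg, NY_neg]
      have hn1 : ∀ x y, NXd (a t) (b t) (c t) (a' t) (b' t) (c' t) (-x) (-y)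
          = - NXd (a t) (b t) (c t) (a' t) (b' t) (c' t) x y := by
        intro x y; unfold NXd; ring
      have hn2 : ∀ x y, NYd (a t) (b t) (c t) (a' t) (b' t) (c' t) (-x) (-y)
          = - NYd (a t) (b t) (c t) (a' t) (b' t) (c' t) x y := by
        intro x y; unfold NYd; ring
      rw [hn1, hn2]
      simp only [neg_mul_neg, neg_sq])
  have hD := cont_BB t0 t1 cs cw cX cY
  have hzero : ∃ al, (BB s w X Y t0 t1 al).det = 0 := by
    have : (0 : ℝ) ∈ range fun al => (BB s w X Y t0 t1 al).det := by
      apply mem_range_of_exists_le_of_exists_ge hD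
      · rcases le_total (BB s w X Y t0 t1 0).det 0 with h | h
        · exact ⟨0, h⟩
        · exact ⟨π, by rw [hshift]; linarith⟩
      · rcases le_total (BB s w X Y t0 t1 0).det 0 with h | h
        · exact ⟨π, by rw [hshift]; linarith⟩
        · exact ⟨0, h⟩
    exact this
  obtain ⟨al, hal⟩ := hzero
  obtain ⟨v, hv0, hv⟩ := Matrix.exists_mulVec_eq_zero_iff.mpr hal
  refine ⟨v, hv0, ?_⟩
  have csal : Continuous fun t => s al t :=
    cs.comp (Continuous.prodMk continuous_const continuous_id)
  have cwal : Continuous fun t => w al t :=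
    cw.comp (Continuous.prodMk continuous_const continuous_id)
  -- orthogonality
  have orth : ∀ k, ∫ t in t0..t1, (Real.cos (s al t) * (∑ i, v i * X i t)
      + Real.sin (s al t) * (∑ i, v i * Y i t)) * ph k (s al t) * w al t = 0 := by
    intro k
    have h1 := congrFun hv k
    simp only [Matrix.mulVec, dotProduct, Pi.zero_apply] at h1
    rw [← h1]
    unfold BB
    simp_rw [← intervalIntegral.integral_mul_const]
    rw [← intervalIntegral.integral_finsetSum]
    · apply intervalIntegral.integral_congr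
      intro t _
      simp only [Fin.sum_univ_three]
      ring
    · intro i _
      apply Continuous.intervalIntegrable
      have c1 := cX i
      have c2 := cY i
      have c3 := cont_ph k
      fun_prop
  have o0 := orth 0
  have o1 := orth 1
  have o2 := orth 2
  simp only [ph, Matrix.cons_val_zero, Matrix.cons_val_one, Matrix.cons_val, mul_one] at o0 o1 o2
  have hX'' : Continuous fun t => ∑ i, v i * X' i t := by
    have := hX'
    fun_prop
  have hY'' : Continuous fun t => ∑ i, v i * Y' i t := by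
    have := hY'
    fun_prop
  have main := one_curve_abs ht (s := s al) (w := w al)
    (P := fun t => PF (a t) (b t) (c t) (a' t) (b' t) (c' t) (∑ i, v i * X' i t)
      (∑ i, v i * Y' i t))
    (X := fun t => ∑ i, v i * X i t) (Y := fun t => ∑ i, v i * Y i t)
    (X' := fun t => ∑ i, v i * X' i t) (Y' := fun t => ∑ i, v i * Y' i t)
    (by
      intro t
      have h := hasDerivAt_sA (hadm t) (ha t) (hb t) (hc t) al
      have hfun : s al = fun t => sA (a t) (b t) (c t) al := funext (hs al)
      rw [hfun, hw]; exact h)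
    cwal
    (by
      intro t; rw [hw]
      exact div_pos (CC_pos (hadm t) (pa t) (pb t) (pc t) al) (NN_pos (hadm t) al))
    (by rw [hs, hs, e1, e2, e3, sA_shift])
    (cont_PF ca cb cc ha' hb' hc' pa pb pc hX'' hY'')
    (by
      intro t
      apply HasDerivAt.fun_sum
      intro i _
      exact (hX i t).const_mul (v i))
    (by
      intro t
      apply HasDerivAt.fun_sum
      intro i _
      exact (hY i t).const_mul (v i))
    hX'' hY''
    (by simp only [eX]) (by simp only [eY]) o0 o1 o2
    (by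
      intro t
      rw [hs, hw]
      exact (pointwise_le (hadm t) (pa t) (pb t) (pc t) al _ _).1)
    (by
      intro t h0
      rw [hs, hw]
      exact (pointwise_le (hadm t) (pa t) (pb t) (pc t) al _ _).2 h0)
    (hQ v)
  intro t htt
  exact PF_eq_zero (hadm t) (pa t) (pb t) (pc t) (main t htt)

end AA14
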