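import Pool.Agent.Work.MP_aa14e2_an.TriRel
import Pool.Agent.Work.MP_aa14e2_an.XFun
import Pool.Agent.Work.MP_aa14e2_an.LinG

/-!
# Module Lin  (the linear part, from the index theorem `AA14.index_le_two`)

Three closed curves with `form ≤ 0` on their span are linearly dependent modulo constants.
-/

noncomputable section
open Real Set MeasureTheory
namespace Bil

/-- linear combination of three curves, plus a constant -/
def Crv.comb {g : ℝ → ℝ} (wa wb wc : Crv g) (α β γ k1 k2 : ℝ) : Crv g where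
  P s := α * wa.P s + β * wb.P s + γ * wc.P s + k1
  Q s := α * wa.Q s + β * wb.Q s + γ * wc.Q s + k2
  P' s := α * wa.P' s + β * wb.P' s + γ * wc.P' s
  Q' s := α * wa.Q' s + β * wb.Q' s + γ * wc.Q' s
  dP s := by
    have := ((((wa.dP s).const_mul α).add ((wb.dP s).const_mul β)).add ((wc.dP s).const_mul γ)).add_const k1
    exact this
  dQ s := by
    have := ((((wa.dQ s).const_mul α).add ((wb.dQ s).const_mul β)).add ((wc.dQ s).const_mul γ)).add_const k2
    exact this
  cP := ((wa.cP.const_smul α).add (wb.cP.const_smul β)).add (wc.cP.const_smul γ)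
  cQ := ((wa.cQ.const_smul α).add (wb.cQ.const_smul β)).add (wc.cQ.const_smul γ)
  invP s := by simp only [wa.invP, wb.invP, wc.invP]
  invQ s := by simp only [wa.invQ, wb.invQ, wc.invQ]

namespace LinAux

theorem X_eq_Af (d : ℝ) : X d = AA14.Af d := rfl

variable {P : Supp}

theorem ggg (t : Tri P) (s : ℝ) : t.g (t.g (t.g s)) = s + 2 * π := by
  have := t.rat.iter s
  simpa using this

theorem dggg (t : Tri P) (s : ℝ) : t.g1 (t.g (t.g s)) * (t.g1 (t.g s) * t.g1 s) = 1 := by
  have h1 : HasDerivAt (fun s => t.g (t.g (t.g s)))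
      (t.g1 (t.g (t.g s)) * (t.g1 (t.g s) * t.g1 s)) s :=
    (t.dg (t.g (t.g s))).comp s ((t.dg (t.g s)).comp s (t.dg s))
  have h2 : (fun s => t.g (t.g (t.g s))) = fun s => s + 2 * π := by
    funext x; exact ggg t x
  rw [h2] at h1
  exact h1.unique ((hasDerivAt_id s).add_const (2 * π))

theorem dP_g (t : Tri P) (w : Crv t.g) (s : ℝ) : w.P' (t.g s) * t.g1 s = w.P' s := by
  have h1 : HasDerivAt (fun s => w.P (t.g s)) (w.P' (t.g s) * t.g1 s) s :=
    (w.dP (t.g s)).comp s (t.dg s)
  have h2 : (fun s => w.P (t.g s)) = w.P := by funext x; exact w.invP x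
  rw [h2] at h1
  exact h1.unique (w.dP s)

theorem dQ_g (t : Tri P) (w : Crv t.g) (s : ℝ) : w.Q' (t.g s) * t.g1 s = w.Q' s := by
  have h1 : HasDerivAt (fun s => w.Q (t.g s)) (w.Q' (t.g s) * t.g1 s) s :=
    (w.dQ (t.g s)).comp s (t.dg s)
  have h2 : (fun s => w.Q (t.g s)) = w.Q := by funext x; exact w.invQ x
  rw [h2] at h1
  exact h1.unique (w.dQ s)

theorem scale_term (x N r p q p' q' c d : ℝ) (hr : 0 < r) (hp : p * r = p') (hq : q * r = q') :
    x / N * (p * c + q * d) ^ 2 * r = x / (N * r) * (p' * c + q' * d) ^ 2 := by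
  subst hp hq
  by_cases hN : N = 0
  · simp [hN]
  have := hr.ne'
  field_simp

theorem dens_g (t : Tri P) (w : Crv t.g) (s : ℝ) :
    dens t.g t.g1 w (t.g s) * t.g1 s = dens t.g t.g1 w s := by
  have h3 := ggg t s
  have hd := dggg t s
  have hr := t.pos s
  have hP := dP_g t w s
  have hQ := dQ_g t w s
  unfold dens qd Nb Nc
  rw [h3, w.invP, w.invQ, sub_mul, add_mul, add_mul]
  rw [scale_term _ _ _ _ _ _ _ _ _ hr hP hQ, scale_term _ _ _ _ _ _ _ _ _ hr hP hQ,
    scale_term _ _ _ _ _ _ _ _ _ hr hP hQ]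
  rw [show t.g (t.g s) + (s + 2 * π) = (t.g (t.g s) + s) + 2 * π by ring,
    show s + 2 * π + t.g s = (s + t.g s) + 2 * π by ring, Real.cos_add_two_pi,
    Real.sin_add_two_pi, Real.cos_add_two_pi, Real.sin_add_two_pi]
  rw [show (t.g s + 2 * π - (s + 2 * π)) / 2 = (t.g s - s) / 2 by ring]
  have k1 : (t.g1 (t.g s) + t.g1 (t.g (t.g s)) * t.g1 (t.g s)) / 2 * t.g1 s
      = (t.g1 (t.g s) * t.g1 s + 1) / 2 := by
    linear_combination (1 / 2) * hd
  have k2 : (t.g1 (t.g (t.g s)) * t.g1 (t.g s) + 1) / 2 * t.g1 s = (1 + t.g1 s) / 2 := by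
    linear_combination (1 / 2) * hd
  have k3 : (1 + t.g1 (t.g s)) / 2 * t.g1 s = (t.g1 s + t.g1 (t.g s) * t.g1 s) / 2 := by ring
  rw [k1, k2, k3]
  linear_combination (-π * w.P s) * hQ + (π * w.Q s) * hP

theorem dens_cont' (t : Tri P) (w : Crv t.g) : Continuous (dens t.g t.g1 w) := by
  have hg : Continuous t.g := t.rat.cont
  have hg1 := t.cg
  have hX : Continuous X := X_cont
  have h1 := w.cP
  have h2 := w.cQ
  have h3 : Continuous w.P := continuous_iff_continuousAt.2 fun x => (w.dP x).continuousAt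
  have h4 : Continuous w.Q := continuous_iff_continuousAt.2 fun x => (w.dQ x).continuousAt
  have p1 := t.pos
  have n1 : ∀ s, (t.g1 s + t.g1 (t.g s) * t.g1 s) / 2 ≠ 0 := fun s => by
    have := p1 s; have := p1 (t.g s); positivity
  have n2 : ∀ s, (t.g1 (t.g s) * t.g1 s + 1) / 2 ≠ 0 := fun s => by
    have := p1 s; have := p1 (t.g s); positivity
  have n3 : ∀ s, (1 + t.g1 s) / 2 ≠ 0 := fun s => by
    have := p1 s; positivity
  unfold dens qd Nb Nc
  refine Continuous.sub (Continuous.add (Continuous.add ?_ ?_) ?_) (by fun_prop)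
  · exact (Continuous.div (by fun_prop) (by fun_prop) n1).mul (by fun_prop)
  · exact (Continuous.div (by fun_prop) (by fun_prop) n2).mul (by fun_prop)
  · exact (Continuous.div (by fun_prop) (by fun_prop) n3).mul (by fun_prop)

theorem int_shift (t : Tri P) (w : Crv t.g) (u v : ℝ) :
    ∫ s in t.g u..t.g v, dens t.g t.g1 w s = ∫ s in u..v, dens t.g t.g1 w s := by
  have h := intervalIntegral.integral_comp_mul_deriv' (f := t.g) (f' := t.g1)
    (g := dens t.g t.g1 w) (a := u) (b := v) (fun x _ => t.dg x) t.cg.continuousOn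
    (dens_cont' t w).continuousOn
  rw [← h]
  apply intervalIntegral.integral_congr
  intro s _
  exact dens_g t w s

theorem form_eq (t : Tri P) (w : Crv t.g) :
    form t.g t.g1 w = 3 * ∫ s in (0:ℝ)..t.g 0, dens t.g t.g1 w s := by
  have hi : ∀ u v, IntervalIntegrable (dens t.g t.g1 w) volume u v := fun u v =>
    (dens_cont' t w).intervalIntegrable u v
  have e2 := int_shift t w 0 (t.g 0)
  have e3 := int_shift t w (t.g 0) (t.g (t.g 0))
  have h3 := ggg t 0
  rw [zero_add] at h3
  rw [h3] at e3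
  unfold form
  rw [← intervalIntegral.integral_add_adjacent_intervals (hi 0 (t.g 0)) (hi (t.g 0) (2 * π)),
    ← intervalIntegral.integral_add_adjacent_intervals (hi (t.g 0) (t.g (t.g 0)))
      (hi (t.g (t.g 0)) (2 * π)), e3, e2]
  ring

theorem P_per' (t : Tri P) (w : Crv t.g) (s : ℝ) : w.P' (s + 2 * π) = w.P' s := by
  have h := dP_g t w (t.g (t.g s))
  have h' := dP_g t w (t.g s)
  have h'' := dP_g t w s
  rw [ggg] at h
  have hd := dggg t s
  rw [← h'', ← h', ← h]
  linear_combination (-w.P' (s + 2 * π)) * hd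

theorem Q_per' (t : Tri P) (w : Crv t.g) (s : ℝ) : w.Q' (s + 2 * π) = w.Q' s := by
  have h := dQ_g t w (t.g (t.g s))
  have h' := dQ_g t w (t.g s)
  have h'' := dQ_g t w s
  rw [ggg] at h
  have hd := dggg t s
  rw [← h'', ← h', ← h]
  linear_combination (-w.Q' (s + 2 * π)) * hd

/-- A closed curve with zero derivative on a fundamental interval is constant. -/
theorem zero_all (t : Tri P) (w : Crv t.g) (h : ∀ s ∈ Icc 0 (t.g 0), w.P' s = 0 ∧ w.Q' s = 0) :
    ∀ s, w.P' s = 0 ∧ w.Q' s = 0 := by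
  have hstep : ∀ u v, u ≤ v → (∀ s ∈ Icc u v, w.P' s = 0 ∧ w.Q' s = 0) →
      ∀ s ∈ Icc (t.g u) (t.g v), w.P' s = 0 ∧ w.Q' s = 0 := by
    intro u v huv hz s hs
    obtain ⟨x, hx, rfl⟩ := intermediate_value_Icc huv t.rat.cont.continuousOn hs
    have hr := (t.pos x).ne'
    have e1 := dP_g t w x
    have e2 := dQ_g t w x
    rw [(hz x hx).1] at e1
    rw [(hz x hx).2] at e2
    constructor
    · rcases mul_eq_zero.mp e1 with h | h
      · exact h
      · exact absurd h hr
    · rcases mul_eq_zero.mp e2 with h | h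
      · exact h
      · exact absurd h hr
  have l1 := (t.rat.lt 0).le
  have l2 := (t.rat.lt (t.g 0)).le
  have h2 := hstep 0 (t.g 0) l1 h
  have h3 := hstep (t.g 0) (t.g (t.g 0)) l2 h2
  rw [ggg, zero_add] at h3
  have hall : ∀ s ∈ Icc 0 (2 * π), w.P' s = 0 ∧ w.Q' s = 0 := by
    intro s hs
    rcases le_total s (t.g 0) with h0 | h0
    · exact h s ⟨hs.1, h0⟩
    · rcases le_total s (t.g (t.g 0)) with h1 | h1
      · exact h2 s ⟨h0, h1⟩
      · exact h3 s ⟨h1, hs.2⟩
  intro s
  have hpi : (0:ℝ) < 2 * π := by positivity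
  obtain ⟨y, hy, hys⟩ := (show Function.Periodic w.P' (2 * π) from P_per' t w).exists_mem_Ico₀ hpi s
  have hpp : Function.Periodic (fun s => (w.P' s, w.Q' s)) (2 * π) := by
    intro x
    simp only [P_per', Q_per']
  obtain ⟨y, hy, hys⟩ := hpp.exists_mem_Ico₀ hpi s
  have hz := hall y ⟨hy.1, hy.2.le⟩
  have e := Prod.ext_iff.mp hys
  simp only at e
  exact ⟨e.1.trans hz.1, e.2.trans hz.2⟩

end LinAux

open LinAux in
theorem lin_dep {P : Supp} (t : Tri P) (wa wb wc : Crv t.g)
    (h : ∀ α β γ : ℝ, form t.g t.g1 (wa.comb wb wc α β γ 0 0) ≤ 0) :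
    ∃ α β γ : ℝ, (α ≠ 0 ∨ β ≠ 0 ∨ γ ≠ 0) ∧
      ∀ s, α * wa.P' s + β * wb.P' s + γ * wc.P' s = 0 ∧ α * wa.Q' s + β * wb.Q' s + γ * wc.Q' s = 0 := by
  have hpi := Real.pi_pos
  have hlt := t.rat.lt
  have h3 := ggg t
  have hbound : ∀ s, t.g s < t.g (t.g s) ∧ t.g (t.g s) < s + 2 * π := by
    intro s
    refine ⟨hlt _, ?_⟩
    rw [← h3 s]; exact hlt _
  have hadm : ∀ s, AA14.Adm ((s + t.g s) / 2) ((t.g s + t.g (t.g s)) / 2)
      ((t.g (t.g s) + s + 2 * π) / 2) := by
    intro s
    obtain ⟨t1, t2, t3, -⟩ := tri_rel t s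
    have l0 := hlt s
    have l1 := (hbound s).1
    have l2 := (hbound s).2
    have u1 : t.g (t.g s) - t.g s < π := by
      by_contra hc
      have : Real.sin (t.g (t.g s) - t.g s) ≤ 0 := by
        have e : Real.sin (t.g (t.g s) - t.g s) = - Real.sin (t.g (t.g s) - t.g s - π) := by
          rw [Real.sin_sub_pi, neg_neg]
        rw [e, neg_nonpos]
        exact Real.sin_nonneg_of_nonneg_of_le_pi (by linarith) (by linarith)
      linarith
    have u2 : t.g s - s < π := by
      by_contra hc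
      have : Real.sin (t.g s - s) ≤ 0 := by
        have e : Real.sin (t.g s - s) = - Real.sin (t.g s - s - π) := by
          rw [Real.sin_sub_pi, neg_neg]
        rw [e, neg_nonpos]
        exact Real.sin_nonneg_of_nonneg_of_le_pi (by linarith) (by linarith)
      linarith
    have u3 : s + 2 * π - t.g (t.g s) < π := by
      by_contra hc
      have : Real.sin (s - t.g (t.g s)) ≤ 0 := by
        have e : Real.sin (s - t.g (t.g s)) = - Real.sin (s + 2 * π - t.g (t.g s) - π) := by
          rw [Real.sin_sub_pi, neg_neg, show s + 2 * π - t.g (t.g s) = s - t.g (t.g s) + 2 * π by ring,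
            Real.sin_add_two_pi]
        rw [e, neg_nonpos]
        exact Real.sin_nonneg_of_nonneg_of_le_pi (by linarith) (by linarith)
      linarith
    refine ⟨⟨?_, ?_⟩, ⟨?_, ?_⟩, ⟨?_, ?_⟩⟩ <;> linarith
  have hg : Continuous t.g := t.rat.cont
  have hg1 := t.cg
  have p1 := t.pos
  have key := AA14.index_le_two (a := fun s => (s + t.g s) / 2)
    (b := fun s => (t.g s + t.g (t.g s)) / 2) (c := fun s => (t.g (t.g s) + s + 2 * π) / 2)
    (a' := fun s => (1 + t.g1 s) / 2) (b' := fun s => (t.g1 s + t.g1 (t.g s) * t.g1 s) / 2)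
    (c' := fun s => (t.g1 (t.g s) * t.g1 s + 1) / 2) (t0 := 0) (t1 := t.g 0) (hlt 0) hadm
    (fun s => ((hasDerivAt_id s).add (t.dg s)).div_const 2)
    (fun s => ((t.dg s).add ((t.dg (t.g s)).comp s (t.dg s))).div_const 2)
    (fun s => ((((t.dg (t.g s)).comp s (t.dg s)).add (hasDerivAt_id s)).add_const
      (2 * π)).div_const 2)
    (by fun_prop) (by fun_prop) (by fun_prop)
    (fun s => by have := p1 s; positivity)
    (fun s => by have := p1 s; have := p1 (t.g s); positivity)
    (fun s => by have := p1 s; have := p1 (t.g s); positivity)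
    rfl (by simp only [h3]; ring) (by simp only [h3]; ring)
    (X := ![wa.P, wb.P, wc.P]) (Y := ![wa.Q, wb.Q, wc.Q])
    (X' := ![wa.P', wb.P', wc.P']) (Y' := ![wa.Q', wb.Q', wc.Q'])
    (by intro i s; fin_cases i; exacts [wa.dP s, wb.dP s, wc.dP s])
    (by intro i s; fin_cases i; exacts [wa.dQ s, wb.dQ s, wc.dQ s])
    (by intro i; fin_cases i; exacts [wa.cP, wb.cP, wc.cP])
    (by intro i; fin_cases i; exacts [wa.cQ, wb.cQ, wc.cQ])
    (by intro i; fin_cases i; exacts [wa.invP 0, wb.invP 0, wc.invP 0])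
    (by intro i; fin_cases i; exacts [wa.invQ 0, wb.invQ 0, wc.invQ 0])
    (by
      intro v
      have hf := h (v 0) (v 1) (v 2)
      rw [form_eq] at hf
      have hf' : ∫ s in (0:ℝ)..t.g 0, dens t.g t.g1 (wa.comb wb wc (v 0) (v 1) (v 2) 0 0) s ≤ 0 := by
        linarith
      refine le_trans (le_of_eq ?_) hf'
      apply intervalIntegral.integral_congr
      intro s _
      simp only [Fin.sum_univ_three, Matrix.cons_val_zero, Matrix.cons_val_one, Matrix.cons_val]
      unfold AA14.PF dens qd Nb Nc Crv.comb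
      simp only [← X_eq_Af]
      rw [show π - ((t.g (t.g s) + s + 2 * π) / 2 - (t.g s + t.g (t.g s)) / 2)
          = (t.g s - s) / 2 by ring,
        show (t.g (t.g s) + s + 2 * π) / 2 - (s + t.g s) / 2 - π = (t.g (t.g s) - t.g s) / 2 by ring,
        show π - ((t.g s + t.g (t.g s)) / 2 - (s + t.g s) / 2) = (s + 2 * π - t.g (t.g s)) / 2 by ring,
        show 2 * ((s + t.g s) / 2) = s + t.g s by ring,
        show 2 * ((t.g s + t.g (t.g s)) / 2) = t.g s + t.g (t.g s) by ring,
        show 2 * ((t.g (t.g s) + s + 2 * π) / 2) = t.g (t.g s) + s + 2 * π by ring,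
        Real.cos_add_two_pi, Real.sin_add_two_pi]
      ring)
  obtain ⟨v, hv0, hv⟩ := key
  refine ⟨v 0, v 1, v 2, ?_, ?_⟩
  · by_contra hcon
    push Not at hcon
    apply hv0
    funext i
    fin_cases i
    exacts [hcon.1, hcon.2.1, hcon.2.2]
  · have hz := zero_all t (wa.comb wb wc (v 0) (v 1) (v 2) 0 0) (by
      intro s hs
      have := hv s hs
      simp only [Fin.sum_univ_three, Matrix.cons_val_zero, Matrix.cons_val_one,
        Matrix.cons_val] at this
      exact this)
    exact hz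

end Bil
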