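import Mathlib

/-!
# Billiards: linear part, algebra

The area type function `Af` and the key algebraic inequality for a triangle.
-/

namespace AA14

open Real

/-- The function `A(d) = d/2 - sin(4d)/8 = ∫_0^d sin² 2x dx`. -/
noncomputable def Af (d : ℝ) : ℝ := d / 2 - Real.sin (4 * d) / 8

theorem hasDerivAt_Af (d : ℝ) : HasDerivAt Af (Real.sin (2 * d) ^ 2) d := by
  have h1 : HasDerivAt (fun x : ℝ => x / 2 - Real.sin (4 * x) / 8)
      (1 / 2 - (Real.cos (4 * d) * (4 * 1)) / 8) d :=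
    ((hasDerivAt_id d).div_const 2).sub (((hasDerivAt_id d).const_mul 4).sin.div_const 8)
  have h2 : (1 / 2 - (Real.cos (4 * d) * (4 * 1)) / 8 : ℝ) = Real.sin (2 * d) ^ 2 := by
    have h3 : Real.cos (4 * d) = 2 * Real.cos (2 * d) ^ 2 - 1 := by
      rw [← Real.cos_two_mul]; ring_nf
    have h4 := Real.sin_sq_add_cos_sq (2 * d)
    rw [h3]; linarith
  rw [← h2]; exact h1

theorem four_Af (d : ℝ) : 4 * Af d = 2 * d - Real.sin (2 * d) * Real.cos (2 * d) := by
  unfold Af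
  have h3 : Real.sin (4 * d) = 2 * Real.sin (2 * d) * Real.cos (2 * d) := by
    rw [← Real.sin_two_mul]; ring_nf
  rw [h3]; ring

theorem Af_pos {d : ℝ} (h0 : 0 < d) : 0 < Af d := by
  unfold Af
  have := Real.sin_lt (show (0:ℝ) < 4 * d by linarith)
  linarith

theorem Af_key {d : ℝ} (h0 : 0 < d) (h1 : d < π / 2) :
    Real.sin (2 * d) ^ 2 * Real.sin d < 4 * Af d * Real.cos d := by
  have hc : 0 < Real.cos d := Real.cos_pos_of_mem_Ioo ⟨by linarith, h1⟩
  have hs := Real.sin_lt (show (0:ℝ) < 2 * d by linarith)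
  have h2 : Real.sin (2 * d) ^ 2 * Real.sin d
      = (Real.sin (2 * d) - Real.sin (2 * d) * Real.cos (2 * d)) * Real.cos d := by
    have h3 : Real.sin (2 * d) = 2 * Real.sin d * Real.cos d := Real.sin_two_mul d
    have h4 : Real.cos (2 * d) = 1 - 2 * Real.sin d ^ 2 := by
      rw [Real.cos_two_mul]; have := Real.sin_sq_add_cos_sq d; linarith
    rw [h4, sq (Real.sin (2 * d))]
    nth_rewrite 2 [h3]
    ring
  rw [h2, four_Af]
  apply mul_lt_mul_of_pos_right _ hc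
  linarith

theorem trig_key {a b c : ℝ} (ha0 : 0 < a) (ha1 : a < π / 2) (hb0 : 0 < b) (hb1 : b < π / 2)
    (hc0 : 0 < c) (hc1 : c < π / 2) (hs : a + b + c = π) :
    (Af b * Real.sin (2 * c) ^ 2 + Af c * Real.sin (2 * b) ^ 2) * Real.cos a ^ 2
      < 2 * Af b * Af c * Real.sin (2 * a) := by
  have hca : 0 < Real.cos a := Real.cos_pos_of_mem_Ioo ⟨by linarith, ha1⟩
  have hcb : 0 < Real.cos b := Real.cos_pos_of_mem_Ioo ⟨by linarith, hb1⟩
  have hcc : 0 < Real.cos c := Real.cos_pos_of_mem_Ioo ⟨by linarith, hc1⟩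
  have hsa : 0 < Real.sin a := Real.sin_pos_of_pos_of_lt_pi ha0 (by linarith)
  have hsb : 0 < Real.sin b := Real.sin_pos_of_pos_of_lt_pi hb0 (by linarith)
  have hsc : 0 < Real.sin c := Real.sin_pos_of_pos_of_lt_pi hc0 (by linarith)
  have hAb := Af_pos hb0
  have hAc := Af_pos hc0
  have kb := Af_key hb0 hb1
  have kc := Af_key hc0 hc1
  have e1 : a = π - (b + c) := by linarith
  have e2 : Real.cos a = Real.sin b * Real.sin c - Real.cos b * Real.cos c := by
    rw [e1, Real.cos_pi_sub, Real.cos_add]; ring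
  have e3 : Real.sin a = Real.sin b * Real.cos c + Real.cos b * Real.sin c := by
    rw [e1, Real.sin_pi_sub, Real.sin_add]
  have hle : Real.cos a ≤ Real.sin b * Real.sin c := by
    rw [e2]; have := mul_pos hcb hcc; linarith
  -- reduce
  have key : (Af b * Real.sin (2 * c) ^ 2 + Af c * Real.sin (2 * b) ^ 2) * Real.cos a
      < 4 * Af b * Af c * Real.sin a := by
    have h1 : (Af b * Real.sin (2 * c) ^ 2 + Af c * Real.sin (2 * b) ^ 2) * Real.cos a
        * (Real.sin b * Real.sin c)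
        < 4 * Af b * Af c * Real.sin a * (Real.sin b * Real.sin c) := by
      calc (Af b * Real.sin (2 * c) ^ 2 + Af c * Real.sin (2 * b) ^ 2) * Real.cos a
            * (Real.sin b * Real.sin c)
          = (Af b * Real.sin b * Real.cos a) * (Real.sin (2 * c) ^ 2 * Real.sin c)
            + (Af c * Real.sin c * Real.cos a) * (Real.sin (2 * b) ^ 2 * Real.sin b) := by ring
        _ < (Af b * Real.sin b * Real.cos a) * (4 * Af c * Real.cos c)
            + (Af c * Real.sin c * Real.cos a) * (4 * Af b * Real.cos b) := by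
            apply add_lt_add
            · exact mul_lt_mul_of_pos_left kc (by positivity)
            · exact mul_lt_mul_of_pos_left kb (by positivity)
        _ = 4 * Af b * Af c * Real.sin a * Real.cos a := by rw [e3]; ring
        _ ≤ 4 * Af b * Af c * Real.sin a * (Real.sin b * Real.sin c) :=
            mul_le_mul_of_nonneg_left hle (by positivity)
    exact lt_of_mul_lt_mul_right h1 (by positivity)
  calc (Af b * Real.sin (2 * c) ^ 2 + Af c * Real.sin (2 * b) ^ 2) * Real.cos a ^ 2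
      = ((Af b * Real.sin (2 * c) ^ 2 + Af c * Real.sin (2 * b) ^ 2) * Real.cos a)
          * Real.cos a := by ring
    _ < (4 * Af b * Af c * Real.sin a) * Real.cos a := mul_lt_mul_of_pos_right key hca
    _ = 2 * Af b * Af c * Real.sin (2 * a) := by rw [Real.sin_two_mul]; ring

/-- Product of the components of a unit vector in two unit directions. -/
theorem prod_le (c1 d1 c2 d2 x y : ℝ) (h1 : c1 ^ 2 + d1 ^ 2 = 1) (h2 : c2 ^ 2 + d2 ^ 2 = 1)
    (hv : x ^ 2 + y ^ 2 = 1) :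
    (c1 * x + d1 * y) * (c2 * x + d2 * y) ≤ (1 + (c1 * c2 + d1 * d2)) / 2 := by
  have hcs : ((c1 + c2) * x + (d1 + d2) * y) ^ 2 ≤ ((c1 + c2) ^ 2 + (d1 + d2) ^ 2) := by
    have : ((c1 + c2) * x + (d1 + d2) * y) ^ 2 + ((c1 + c2) * y - (d1 + d2) * x) ^ 2
        = ((c1 + c2) ^ 2 + (d1 + d2) ^ 2) * (x ^ 2 + y ^ 2) := by ring
    rw [hv, mul_one] at this
    nlinarith [sq_nonneg ((c1 + c2) * y - (d1 + d2) * x)]
  nlinarith [sq_nonneg ((c1 - c2) * x + (d1 - d2) * y)]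

/-- The three vector identity. -/
theorem ident_pair (c0 d0 c1 d1 x y : ℝ) (h0 : c0 ^ 2 + d0 ^ 2 = 1) (h1 : c1 ^ 2 + d1 ^ 2 = 1) :
    2 * (c0 * d1 - d0 * c1) ^ 2 * (x ^ 2 + y ^ 2)
      + 2 * ((c1 * x + d1 * y) * (c0 * x + d0 * y) * (c0 * c1 + d0 * d1))
      - 2 * ((c1 * x + d1 * y) * (-d0 * x + c0 * y) * (c0 * d1 - d0 * c1))
      - 2 * (c0 * x + d0 * y) ^ 2 = 0 := by
  grind

/-- The exact identity behind the monotonicity of the moving frame. -/
theorem ident_main (c0 d0 c1 d1 c2 d2 x y A0 A1 A2 s0 s1 s2 : ℝ)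
    (h0 : c0 ^ 2 + d0 ^ 2 = 1) (h1 : c1 ^ 2 + d1 ^ 2 = 1) (h2 : c2 ^ 2 + d2 ^ 2 = 1)
    (hs0 : s0 = -(c1 * d2 - d1 * c2)) (hs1 : s1 = -(c2 * d0 - d2 * c0))
    (hs2 : s2 = -(c0 * d1 - d0 * c1)) :
    2 * (A0 * A1 * s2 ^ 2 + A1 * A2 * s0 ^ 2 + A0 * A2 * s1 ^ 2) * (x ^ 2 + y ^ 2)
      + ((A0 * (c0 * x + d0 * y) * c0 + A1 * (c1 * x + d1 * y) * c1 + A2 * (c2 * x + d2 * y) * c2)
          * (2 * A0 * ((c0 * x + d0 * y) * c0 + (-d0 * x + c0 * y) * d0)
            + s2 ^ 2 * (c2 * x + d2 * y) * d2 - s1 ^ 2 * (c1 * x + d1 * y) * d1)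
        - (A0 * (c0 * x + d0 * y) * d0 + A1 * (c1 * x + d1 * y) * d1
            + A2 * (c2 * x + d2 * y) * d2)
          * (2 * A0 * ((c0 * x + d0 * y) * (-d0) + (-d0 * x + c0 * y) * c0)
            + s2 ^ 2 * (c2 * x + d2 * y) * c2 - s1 ^ 2 * (c1 * x + d1 * y) * c1))
      - (2 * (A0 + A1 + A2) - s0 * s1 * s2) * A0 * (c0 * x + d0 * y) ^ 2
    = 2 * A1 * A2 * s0 ^ 2 * (x ^ 2 + y ^ 2)
      - s0 * (A1 * s2 ^ 2 + A2 * s1 ^ 2) * (c1 * x + d1 * y) * (c2 * x + d2 * y) := by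
  have i1 := ident_pair c0 d0 c1 d1 x y h0 h1
  have i2 := ident_pair c0 d0 c2 d2 x y h0 h2
  subst hs0 hs1 hs2
  linear_combination A0 * A1 * i1 + A0 * A2 * i2 + 2 * A0 ^ 2 * (c0 * x + d0 * y) ^ 2 * h0

end AA14
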