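import Pool.Agent.Work.MP_aa14e2_an.LinA

/-!
# Billiards: linear part, the moving frame

For a triple of normals `a b c` (functions of `t`) with velocities `a' b' c'`, the vector
`N = M v`, `M = ∑ A_j e_j e_jᵀ`, `v = e(2(a+b+c) - α)`, and its angle.
-/

namespace AA14

open Real

/-- `M` applied to `v`, first component. -/
noncomputable def NX (a b c x y : ℝ) : ℝ :=
  Af (π - (c - b)) * (Real.cos (2 * a) * x + Real.sin (2 * a) * y) * Real.cos (2 * a)
  + Af (c - a - π) * (Real.cos (2 * b) * x + Real.sin (2 * b) * y) * Real.cos (2 * b)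
  + Af (π - (b - a)) * (Real.cos (2 * c) * x + Real.sin (2 * c) * y) * Real.cos (2 * c)

/-- `M` applied to `v`, second component. -/
noncomputable def NY (a b c x y : ℝ) : ℝ :=
  Af (π - (c - b)) * (Real.cos (2 * a) * x + Real.sin (2 * a) * y) * Real.sin (2 * a)
  + Af (c - a - π) * (Real.cos (2 * b) * x + Real.sin (2 * b) * y) * Real.sin (2 * b)
  + Af (π - (b - a)) * (Real.cos (2 * c) * x + Real.sin (2 * c) * y) * Real.sin (2 * c)

/-- Velocity coefficient of `N × N'` in the direction of the normal with data `0`. -/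
noncomputable def KK (A0 A1 A2 c0 d0 c1 d1 c2 d2 s0 s1 s2 x y : ℝ) : ℝ :=
  2 * (A0 * A1 * s2 ^ 2 + A1 * A2 * s0 ^ 2 + A0 * A2 * s1 ^ 2) * (x ^ 2 + y ^ 2)
      + ((A0 * (c0 * x + d0 * y) * c0 + A1 * (c1 * x + d1 * y) * c1 + A2 * (c2 * x + d2 * y) * c2)
          * (2 * A0 * ((c0 * x + d0 * y) * c0 + (-d0 * x + c0 * y) * d0)
            + s2 ^ 2 * (c2 * x + d2 * y) * d2 - s1 ^ 2 * (c1 * x + d1 * y) * d1)
        - (A0 * (c0 * x + d0 * y) * d0 + A1 * (c1 * x + d1 * y) * d1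
            + A2 * (c2 * x + d2 * y) * d2)
          * (2 * A0 * ((c0 * x + d0 * y) * (-d0) + (-d0 * x + c0 * y) * c0)
            + s2 ^ 2 * (c2 * x + d2 * y) * c2 - s1 ^ 2 * (c1 * x + d1 * y) * c1))

theorem two_sum_Af {u v w : ℝ} (h : u + v + w = π) :
    2 * (Af u + Af v + Af w) = π + Real.sin (2 * u) * Real.sin (2 * v) * Real.sin (2 * w) := by
  have e : 2 * w = 2 * π - (2 * u + 2 * v) := by linarith
  have hs : Real.sin (2 * w) = - Real.sin (2 * u + 2 * v) := by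
    rw [e, Real.sin_two_pi_sub]
  have hc : Real.cos (2 * w) = Real.cos (2 * u + 2 * v) := by
    rw [e, Real.cos_two_pi_sub]
  have h4 : 4 * (Af u + Af v + Af w) = 2 * (u + v + w) - (Real.sin (2 * u) * Real.cos (2 * u)
      + Real.sin (2 * v) * Real.cos (2 * v) + Real.sin (2 * w) * Real.cos (2 * w)) := by
    have := four_Af u; have := four_Af v; have := four_Af w; linarith
  have hu := Real.sin_sq_add_cos_sq (2 * u)
  have hv := Real.sin_sq_add_cos_sq (2 * v)
  have key : -(Real.sin (2 * u) * Real.cos (2 * u)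
      + Real.sin (2 * v) * Real.cos (2 * v) + Real.sin (2 * w) * Real.cos (2 * w))
      = 2 * (Real.sin (2 * u) * Real.sin (2 * v) * Real.sin (2 * w)) := by
    rw [hs, hc, Real.sin_add, Real.cos_add]
    generalize Real.sin (2 * u) = S at *
    generalize Real.cos (2 * u) = C at *
    generalize Real.sin (2 * v) = S' at *
    generalize Real.cos (2 * v) = C' at *
    grind
  rw [h] at h4
  linarith

/-- positivity of the velocity coefficient. -/
theorem KK_gt {a b c x y : ℝ} (hv : x ^ 2 + y ^ 2 = 1)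
    (h00 : 0 < π - (c - b)) (h01 : π - (c - b) < π / 2)
    (h10 : 0 < c - a - π) (h11 : c - a - π < π / 2)
    (h20 : 0 < π - (b - a)) (h21 : π - (b - a) < π / 2)
    {c0 d0 c1 d1 c2 d2 s0 s1 s2 : ℝ}
    (hc0 : c0 = Real.cos (2 * a)) (hd0 : d0 = Real.sin (2 * a))
    (hc1 : c1 = Real.cos (2 * b)) (hd1 : d1 = Real.sin (2 * b))
    (hc2 : c2 = Real.cos (2 * c)) (hd2 : d2 = Real.sin (2 * c))
    (hs0 : s0 = Real.sin (2 * (π - (c - b)))) (hs1 : s1 = Real.sin (2 * (c - a - π)))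
    (hs2 : s2 = Real.sin (2 * (π - (b - a)))) :
    π * Af (π - (c - b)) * (c0 * x + d0 * y) ^ 2
      < KK (Af (π - (c - b))) (Af (c - a - π)) (Af (π - (b - a))) c0 d0 c1 d1 c2 d2 s0 s1 s2 x y := by
  have hsum : (π - (c - b)) + (c - a - π) + (π - (b - a)) = π := by ring
  have hA := two_sum_Af hsum
  have tk := trig_key h00 h01 h10 h11 h20 h21 hsum
  have e0 : s0 = -(c1 * d2 - d1 * c2) := by
    rw [hs0, hc1, hc2, hd1, hd2, show 2 * (π - (c - b)) = 2 * π - (2 * c - 2 * b) by ring,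
      Real.sin_two_pi_sub, Real.sin_sub]; ring
  have e1 : s1 = -(c2 * d0 - d2 * c0) := by
    rw [hs1, hc2, hc0, hd2, hd0, show 2 * (c - a - π) = (2 * c - 2 * a) - 2 * π by ring,
      Real.sin_sub_two_pi, Real.sin_sub]; ring
  have e2 : s2 = -(c0 * d1 - d0 * c1) := by
    rw [hs2, hc0, hc1, hd0, hd1, show 2 * (π - (b - a)) = 2 * π - (2 * b - 2 * a) by ring,
      Real.sin_two_pi_sub, Real.sin_sub]; ring
  have u0 : c0 ^ 2 + d0 ^ 2 = 1 := by rw [hc0, hd0]; exact Real.cos_sq_add_sin_sq _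
  have u1 : c1 ^ 2 + d1 ^ 2 = 1 := by rw [hc1, hd1]; exact Real.cos_sq_add_sin_sq _
  have u2 : c2 ^ 2 + d2 ^ 2 = 1 := by rw [hc2, hd2]; exact Real.cos_sq_add_sin_sq _
  have hp := prod_le c1 d1 c2 d2 x y u1 u2 hv
  have hcos : (1 + (c1 * c2 + d1 * d2)) / 2 = Real.cos (π - (c - b)) ^ 2 := by
    have : c1 * c2 + d1 * d2 = Real.cos (2 * (π - (c - b))) := by
      rw [hc1, hc2, hd1, hd2, show 2 * (π - (c - b)) = 2 * π - (2 * c - 2 * b) by ring,
        Real.cos_two_pi_sub, Real.cos_sub]; ring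
    rw [this, Real.cos_two_mul]; ring
  rw [hcos] at hp
  have im := ident_main c0 d0 c1 d1 c2 d2 x y (Af (π - (c - b))) (Af (c - a - π))
    (Af (π - (b - a))) s0 s1 s2 u0 u1 u2 e0 e1 e2
  have hA1 := Af_pos h10
  have hA2 := Af_pos h20
  have hs0pos : 0 < s0 := by
    rw [hs0]; exact Real.sin_pos_of_pos_of_lt_pi (by linarith) (by linarith)
  rw [← hs0, ← hs1, ← hs2] at hA
  rw [← hs0, ← hs1, ← hs2] at tk
  have hX : 0 ≤ Af (c - a - π) * s2 ^ 2 + Af (π - (b - a)) * s1 ^ 2 := by positivity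
  have h5 : (Af (c - a - π) * s2 ^ 2 + Af (π - (b - a)) * s1 ^ 2)
      * ((c1 * x + d1 * y) * (c2 * x + d2 * y)) < 2 * Af (c - a - π) * Af (π - (b - a)) * s0 :=
    lt_of_le_of_lt (mul_le_mul_of_nonneg_left hp hX) tk
  have h6 := mul_lt_mul_of_pos_left h5 hs0pos
  have h7 : 2 * (Af (π - (c - b)) + Af (c - a - π) + Af (π - (b - a))) - s0 * s1 * s2 = π := by
    linarith
  unfold KK
  rw [h7, hv] at im
  rw [hv]
  linarith [h6, im]

end AA14
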