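import Pool.Agent.Work.MP_aa14e2_an.LinB

/-!
# Billiards: linear part, derivative of the moving frame
-/

namespace AA14

open Real

theorem term_deriv_cos {D w f : ℝ → ℝ} {D' w' f' t : ℝ} (hD : HasDerivAt D D' t)
    (hw : HasDerivAt w w' t) (hf : HasDerivAt f f' t) :
    HasDerivAt (fun t => Af (D t) * (Real.cos (2 * w t) * Real.cos (f t)
        + Real.sin (2 * w t) * Real.sin (f t)) * Real.cos (2 * w t))
      (Real.sin (2 * D t) ^ 2 * D' * (Real.cos (2 * w t) * Real.cos (f t)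
          + Real.sin (2 * w t) * Real.sin (f t)) * Real.cos (2 * w t)
        + Af (D t) * ((2 * w' - f') * (-Real.sin (2 * w t) * Real.cos (f t)
          + Real.cos (2 * w t) * Real.sin (f t))) * Real.cos (2 * w t)
        + Af (D t) * (Real.cos (2 * w t) * Real.cos (f t)
          + Real.sin (2 * w t) * Real.sin (f t)) * (-(2 * w') * Real.sin (2 * w t))) t := by
  have h1 : HasDerivAt (fun t => Af (D t)) (Real.sin (2 * D t) ^ 2 * D') t :=
    (hasDerivAt_Af (D t)).comp t hD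
  have h2 := (hw.const_mul 2).cos
  have h3 := (hw.const_mul 2).sin
  have h := (h1.mul ((h2.mul hf.cos).add (h3.mul hf.sin))).mul h2
  refine h.congr_deriv ?_
  simp only [Pi.add_apply, Pi.mul_apply]
  ring

theorem term_deriv_sin {D w f : ℝ → ℝ} {D' w' f' t : ℝ} (hD : HasDerivAt D D' t)
    (hw : HasDerivAt w w' t) (hf : HasDerivAt f f' t) :
    HasDerivAt (fun t => Af (D t) * (Real.cos (2 * w t) * Real.cos (f t)
        + Real.sin (2 * w t) * Real.sin (f t)) * Real.sin (2 * w t))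
      (Real.sin (2 * D t) ^ 2 * D' * (Real.cos (2 * w t) * Real.cos (f t)
          + Real.sin (2 * w t) * Real.sin (f t)) * Real.sin (2 * w t)
        + Af (D t) * ((2 * w' - f') * (-Real.sin (2 * w t) * Real.cos (f t)
          + Real.cos (2 * w t) * Real.sin (f t))) * Real.sin (2 * w t)
        + Af (D t) * (Real.cos (2 * w t) * Real.cos (f t)
          + Real.sin (2 * w t) * Real.sin (f t)) * ((2 * w') * Real.cos (2 * w t))) t := by
  have h1 : HasDerivAt (fun t => Af (D t)) (Real.sin (2 * D t) ^ 2 * D') t :=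
    (hasDerivAt_Af (D t)).comp t hD
  have h2 := (hw.const_mul 2).cos
  have h3 := (hw.const_mul 2).sin
  have h := (h1.mul ((h2.mul hf.cos).add (h3.mul hf.sin))).mul h3
  refine h.congr_deriv ?_
  simp only [Pi.add_apply, Pi.mul_apply]
  ring

/-- explicit derivative of `NX` along the path -/
noncomputable def NXd (a b c a' b' c' x y : ℝ) : ℝ :=
  (Real.sin (2 * (π - (c - b))) ^ 2 * (b' - c') * (Real.cos (2 * a) * x + Real.sin (2 * a) * y)
      * Real.cos (2 * a)
    + Af (π - (c - b)) * ((2 * a' - 2 * (a' + b' + c')) * (-Real.sin (2 * a) * x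
      + Real.cos (2 * a) * y)) * Real.cos (2 * a)
    + Af (π - (c - b)) * (Real.cos (2 * a) * x + Real.sin (2 * a) * y)
      * (-(2 * a') * Real.sin (2 * a)))
  + (Real.sin (2 * (c - a - π)) ^ 2 * (c' - a') * (Real.cos (2 * b) * x + Real.sin (2 * b) * y)
      * Real.cos (2 * b)
    + Af (c - a - π) * ((2 * b' - 2 * (a' + b' + c')) * (-Real.sin (2 * b) * x
      + Real.cos (2 * b) * y)) * Real.cos (2 * b)
    + Af (c - a - π) * (Real.cos (2 * b) * x + Real.sin (2 * b) * y)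
      * (-(2 * b') * Real.sin (2 * b)))
  + (Real.sin (2 * (π - (b - a))) ^ 2 * (a' - b') * (Real.cos (2 * c) * x + Real.sin (2 * c) * y)
      * Real.cos (2 * c)
    + Af (π - (b - a)) * ((2 * c' - 2 * (a' + b' + c')) * (-Real.sin (2 * c) * x
      + Real.cos (2 * c) * y)) * Real.cos (2 * c)
    + Af (π - (b - a)) * (Real.cos (2 * c) * x + Real.sin (2 * c) * y)
      * (-(2 * c') * Real.sin (2 * c)))

/-- explicit derivative of `NY` along the path -/
noncomputable def NYd (a b c a' b' c' x y : ℝ) : ℝ :=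
  (Real.sin (2 * (π - (c - b))) ^ 2 * (b' - c') * (Real.cos (2 * a) * x + Real.sin (2 * a) * y)
      * Real.sin (2 * a)
    + Af (π - (c - b)) * ((2 * a' - 2 * (a' + b' + c')) * (-Real.sin (2 * a) * x
      + Real.cos (2 * a) * y)) * Real.sin (2 * a)
    + Af (π - (c - b)) * (Real.cos (2 * a) * x + Real.sin (2 * a) * y)
      * ((2 * a') * Real.cos (2 * a)))
  + (Real.sin (2 * (c - a - π)) ^ 2 * (c' - a') * (Real.cos (2 * b) * x + Real.sin (2 * b) * y)
      * Real.sin (2 * b)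
    + Af (c - a - π) * ((2 * b' - 2 * (a' + b' + c')) * (-Real.sin (2 * b) * x
      + Real.cos (2 * b) * y)) * Real.sin (2 * b)
    + Af (c - a - π) * (Real.cos (2 * b) * x + Real.sin (2 * b) * y)
      * ((2 * b') * Real.cos (2 * b)))
  + (Real.sin (2 * (π - (b - a))) ^ 2 * (a' - b') * (Real.cos (2 * c) * x + Real.sin (2 * c) * y)
      * Real.sin (2 * c)
    + Af (π - (b - a)) * ((2 * c' - 2 * (a' + b' + c')) * (-Real.sin (2 * c) * x
      + Real.cos (2 * c) * y)) * Real.sin (2 * c)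
    + Af (π - (b - a)) * (Real.cos (2 * c) * x + Real.sin (2 * c) * y)
      * ((2 * c') * Real.cos (2 * c)))

variable {a b c a' b' c' : ℝ → ℝ} {t : ℝ}

theorem hasDerivAt_NX (ha : HasDerivAt a (a' t) t) (hb : HasDerivAt b (b' t) t)
    (hc : HasDerivAt c (c' t) t) (al : ℝ) :
    HasDerivAt (fun t => NX (a t) (b t) (c t) (Real.cos (2 * (a t + b t + c t) - al))
        (Real.sin (2 * (a t + b t + c t) - al)))
      (NXd (a t) (b t) (c t) (a' t) (b' t) (c' t) (Real.cos (2 * (a t + b t + c t) - al))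
        (Real.sin (2 * (a t + b t + c t) - al))) t := by
  have hf : HasDerivAt (fun t => 2 * (a t + b t + c t) - al) (2 * (a' t + b' t + c' t)) t :=
    (((ha.add hb).add hc).const_mul 2).sub_const al
  have hD0 : HasDerivAt (fun t => π - (c t - b t)) (b' t - c' t) t :=
    ((hc.sub hb).const_sub π).congr_deriv (by ring)
  have hD1 : HasDerivAt (fun t => c t - a t - π) (c' t - a' t) t := (hc.sub ha).sub_const π
  have hD2 : HasDerivAt (fun t => π - (b t - a t)) (a' t - b' t) t :=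
    ((hb.sub ha).const_sub π).congr_deriv (by ring)
  exact ((term_deriv_cos hD0 ha hf).add (term_deriv_cos hD1 hb hf)).add
    (term_deriv_cos hD2 hc hf)

theorem hasDerivAt_NY (ha : HasDerivAt a (a' t) t) (hb : HasDerivAt b (b' t) t)
    (hc : HasDerivAt c (c' t) t) (al : ℝ) :
    HasDerivAt (fun t => NY (a t) (b t) (c t) (Real.cos (2 * (a t + b t + c t) - al))
        (Real.sin (2 * (a t + b t + c t) - al)))
      (NYd (a t) (b t) (c t) (a' t) (b' t) (c' t) (Real.cos (2 * (a t + b t + c t) - al))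
        (Real.sin (2 * (a t + b t + c t) - al))) t := by
  have hf : HasDerivAt (fun t => 2 * (a t + b t + c t) - al) (2 * (a' t + b' t + c' t)) t :=
    (((ha.add hb).add hc).const_mul 2).sub_const al
  have hD0 : HasDerivAt (fun t => π - (c t - b t)) (b' t - c' t) t :=
    ((hc.sub hb).const_sub π).congr_deriv (by ring)
  have hD1 : HasDerivAt (fun t => c t - a t - π) (c' t - a' t) t := (hc.sub ha).sub_const π
  have hD2 : HasDerivAt (fun t => π - (b t - a t)) (a' t - b' t) t :=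
    ((hb.sub ha).const_sub π).congr_deriv (by ring)
  exact ((term_deriv_sin hD0 ha hf).add (term_deriv_sin hD1 hb hf)).add
    (term_deriv_sin hD2 hc hf)

/-- `N × N'` as a combination of the velocity coefficients. -/
theorem cross_formula (A0 A1 A2 c0 d0 c1 d1 c2 d2 s0 s1 s2 x y p0 p1 p2 nx ny nx' ny' : ℝ)
    (hs0 : s0 = -(c1 * d2 - d1 * c2)) (hs1 : s1 = -(c2 * d0 - d2 * c0))
    (hs2 : s2 = -(c0 * d1 - d0 * c1))
    (hnx : nx = A0 * (c0 * x + d0 * y) * c0 + A1 * (c1 * x + d1 * y) * c1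
      + A2 * (c2 * x + d2 * y) * c2)
    (hny : ny = A0 * (c0 * x + d0 * y) * d0 + A1 * (c1 * x + d1 * y) * d1
      + A2 * (c2 * x + d2 * y) * d2)
    (hnx' : nx' = (s0 ^ 2 * (p1 - p2) * (c0 * x + d0 * y) * c0
        + A0 * ((2 * p0 - 2 * (p0 + p1 + p2)) * (-d0 * x + c0 * y)) * c0
        + A0 * (c0 * x + d0 * y) * (-(2 * p0) * d0))
      + (s1 ^ 2 * (p2 - p0) * (c1 * x + d1 * y) * c1
        + A1 * ((2 * p1 - 2 * (p0 + p1 + p2)) * (-d1 * x + c1 * y)) * c1
        + A1 * (c1 * x + d1 * y) * (-(2 * p1) * d1))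
      + (s2 ^ 2 * (p0 - p1) * (c2 * x + d2 * y) * c2
        + A2 * ((2 * p2 - 2 * (p0 + p1 + p2)) * (-d2 * x + c2 * y)) * c2
        + A2 * (c2 * x + d2 * y) * (-(2 * p2) * d2)))
    (hny' : ny' = (s0 ^ 2 * (p1 - p2) * (c0 * x + d0 * y) * d0
        + A0 * ((2 * p0 - 2 * (p0 + p1 + p2)) * (-d0 * x + c0 * y)) * d0
        + A0 * (c0 * x + d0 * y) * ((2 * p0) * c0))
      + (s1 ^ 2 * (p2 - p0) * (c1 * x + d1 * y) * d1
        + A1 * ((2 * p1 - 2 * (p0 + p1 + p2)) * (-d1 * x + c1 * y)) * d1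
        + A1 * (c1 * x + d1 * y) * ((2 * p1) * c1))
      + (s2 ^ 2 * (p0 - p1) * (c2 * x + d2 * y) * d2
        + A2 * ((2 * p2 - 2 * (p0 + p1 + p2)) * (-d2 * x + c2 * y)) * d2
        + A2 * (c2 * x + d2 * y) * ((2 * p2) * c2))) :
    nx * ny' - ny * nx' = p0 * KK A0 A1 A2 c0 d0 c1 d1 c2 d2 s0 s1 s2 x y
      + p1 * KK A1 A2 A0 c1 d1 c2 d2 c0 d0 s1 s2 s0 x y
      + p2 * KK A2 A0 A1 c2 d2 c0 d0 c1 d1 s2 s0 s1 x y := by
  unfold KK
  subst hs0 hs1 hs2 hnx hny hnx' hny'
  ring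

end AA14
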