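import Pool.Agent.Work.MP_aa14e2_an.LinC

/-!
# Billiards: linear part, the angle of the moving frame
-/

namespace AA14

open Real

/-- Admissible triples of normals: the three angles of the triangle are acute. -/
def Adm (a b c : ℝ) : Prop :=
  (0 < π - (c - b) ∧ π - (c - b) < π / 2) ∧ (0 < c - a - π ∧ c - a - π < π / 2) ∧
    (0 < π - (b - a) ∧ π - (b - a) < π / 2)

theorem Adm.shift {a b c : ℝ} (h : Adm a b c) : Adm b c (a + 2 * π) := by
  obtain ⟨h0, h1, h2⟩ := h
  refine ⟨?_, ?_, ?_⟩ <;> constructor <;> linarith [h0.1, h0.2, h1.1, h1.2, h2.1, h2.2]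

theorem NX_shift (a b c x y : ℝ) : NX b c (a + 2 * π) x y = NX a b c x y := by
  unfold NX
  have e1 : Real.cos (2 * (a + 2 * π)) = Real.cos (2 * a) := by
    rw [show 2 * (a + 2 * π) = 2 * a + (2:ℕ) * (2 * π) by push_cast; ring,
      Real.cos_add_nat_mul_two_pi]
  have e2 : Real.sin (2 * (a + 2 * π)) = Real.sin (2 * a) := by
    rw [show 2 * (a + 2 * π) = 2 * a + (2:ℕ) * (2 * π) by push_cast; ring,
      Real.sin_add_nat_mul_two_pi]
  rw [e1, e2, show π - (a + 2 * π - c) = c - a - π by ring,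
    show (a + 2 * π) - b - π = π - (b - a) by ring]
  ring

theorem NY_shift (a b c x y : ℝ) : NY b c (a + 2 * π) x y = NY a b c x y := by
  unfold NY
  have e1 : Real.cos (2 * (a + 2 * π)) = Real.cos (2 * a) := by
    rw [show 2 * (a + 2 * π) = 2 * a + (2:ℕ) * (2 * π) by push_cast; ring,
      Real.cos_add_nat_mul_two_pi]
  have e2 : Real.sin (2 * (a + 2 * π)) = Real.sin (2 * a) := by
    rw [show 2 * (a + 2 * π) = 2 * a + (2:ℕ) * (2 * π) by push_cast; ring,
      Real.sin_add_nat_mul_two_pi]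
  rw [e1, e2, show π - (a + 2 * π - c) = c - a - π by ring,
    show (a + 2 * π) - b - π = π - (b - a) by ring]
  ring

/-- the scalar product `⟨v, M v⟩` is positive -/
theorem inner_pos {a b c x y : ℝ} (h : Adm a b c) (hv : x ^ 2 + y ^ 2 = 1) :
    0 < x * NX a b c x y + y * NY a b c x y := by
  obtain ⟨h0, h1, h2⟩ := h
  have hA0 := Af_pos h0.1
  have hA1 := Af_pos h1.1
  have hA2 := Af_pos h2.1
  have hs : 0 < Real.sin (2 * (π - (b - a))) :=
    Real.sin_pos_of_pos_of_lt_pi (by linarith [h2.1]) (by linarith [h2.2])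
  have es : Real.sin (2 * (π - (b - a)))
      = -(Real.cos (2 * a) * Real.sin (2 * b) - Real.sin (2 * a) * Real.cos (2 * b)) := by
    rw [show 2 * (π - (b - a)) = 2 * π - (2 * b - 2 * a) by ring,
      Real.sin_two_pi_sub, Real.sin_sub]; ring
  have e : x * NX a b c x y + y * NY a b c x y
      = Af (π - (c - b)) * (Real.cos (2 * a) * x + Real.sin (2 * a) * y) ^ 2
        + Af (c - a - π) * (Real.cos (2 * b) * x + Real.sin (2 * b) * y) ^ 2
        + Af (π - (b - a)) * (Real.cos (2 * c) * x + Real.sin (2 * c) * y) ^ 2 := by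
    unfold NX NY; ring
  rw [e]
  set L0 := Real.cos (2 * a) * x + Real.sin (2 * a) * y with hL0
  set L1 := Real.cos (2 * b) * x + Real.sin (2 * b) * y with hL1
  by_contra hcon
  have k0 : 0 ≤ Af (π - (c - b)) * L0 ^ 2 := by positivity
  have k1 : 0 ≤ Af (c - a - π) * L1 ^ 2 := by positivity
  have k2 : 0 ≤ Af (π - (b - a)) * (Real.cos (2 * c) * x + Real.sin (2 * c) * y) ^ 2 := by
    positivity
  have z0 : Af (π - (c - b)) * L0 ^ 2 = 0 := by linarith [not_lt.mp hcon]
  have z1 : Af (c - a - π) * L1 ^ 2 = 0 := by linarith [not_lt.mp hcon]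
  have w0 : L0 = 0 := by
    rcases mul_eq_zero.mp z0 with h | h
    · exact absurd h hA0.ne'
    · exact pow_eq_zero_iff (two_ne_zero) |>.mp h
  have w1 : L1 = 0 := by
    rcases mul_eq_zero.mp z1 with h | h
    · exact absurd h hA1.ne'
    · exact pow_eq_zero_iff (two_ne_zero) |>.mp h
  have ex : Real.sin (2 * (π - (b - a))) * x = 0 := by
    rw [es]
    have : -(Real.cos (2 * a) * Real.sin (2 * b) - Real.sin (2 * a) * Real.cos (2 * b)) * x
        = Real.sin (2 * a) * L1 - Real.sin (2 * b) * L0 := by rw [hL0, hL1]; ring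
    rw [this, w0, w1]; ring
  have ey : Real.sin (2 * (π - (b - a))) * y = 0 := by
    rw [es]
    have : -(Real.cos (2 * a) * Real.sin (2 * b) - Real.sin (2 * a) * Real.cos (2 * b)) * y
        = Real.cos (2 * b) * L0 - Real.cos (2 * a) * L1 := by rw [hL0, hL1]; ring
    rw [this, w0, w1]; ring
  have x0 : x = 0 := by
    rcases mul_eq_zero.mp ex with h | h
    · exact absurd h hs.ne'
    · exact h
  have y0 : y = 0 := by
    rcases mul_eq_zero.mp ey with h | h
    · exact absurd h hs.ne'
    · exact h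
  rw [x0, y0] at hv; norm_num at hv

/-- The angle of the moving frame. -/
noncomputable def sA (a b c al : ℝ) : ℝ :=
  2 * (a + b + c) - al + Real.arctan
    ((Real.cos (2 * (a + b + c) - al) * NY a b c (Real.cos (2 * (a + b + c) - al))
        (Real.sin (2 * (a + b + c) - al))
      - Real.sin (2 * (a + b + c) - al) * NX a b c (Real.cos (2 * (a + b + c) - al))
        (Real.sin (2 * (a + b + c) - al)))
    / (Real.cos (2 * (a + b + c) - al) * NX a b c (Real.cos (2 * (a + b + c) - al))
        (Real.sin (2 * (a + b + c) - al))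
      + Real.sin (2 * (a + b + c) - al) * NY a b c (Real.cos (2 * (a + b + c) - al))
        (Real.sin (2 * (a + b + c) - al))))

theorem sA_shift (a b c al : ℝ) : sA b c (a + 2 * π) al = sA a b c al + 4 * π := by
  unfold sA
  have e0 : 2 * (b + c + (a + 2 * π)) - al = 2 * (a + b + c) - al + (2:ℕ) * (2 * π) := by
    push_cast; ring
  rw [e0, Real.cos_add_nat_mul_two_pi, Real.sin_add_nat_mul_two_pi, NX_shift, NY_shift]
  push_cast
  ring

theorem NX_neg (a b c x y : ℝ) : NX a b c (-x) (-y) = - NX a b c x y := by unfold NX; ring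

theorem NY_neg (a b c x y : ℝ) : NY a b c (-x) (-y) = - NY a b c x y := by unfold NY; ring

theorem sA_add_pi (a b c al : ℝ) : sA a b c (al + π) = sA a b c al - π := by
  unfold sA
  rw [show 2 * (a + b + c) - (al + π) = 2 * (a + b + c) - al - π by ring, Real.cos_sub_pi,
    Real.sin_sub_pi, NX_neg, NY_neg]
  have e1 : ∀ p q r s : ℝ, -p * -q - -r * -s = p * q - r * s := by intros; ring
  have e2 : ∀ p q r s : ℝ, -p * -q + -r * -s = p * q + r * s := by intros; ring
  rw [e1, e2]
  ring

/-- A vector `(n, m)` with positive component along `v = (cos f, sin f)` has the angle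
`f + arctan(v × N / ⟨v, N⟩)`. -/
theorem angle_of (f n m : ℝ) (hg : 0 < Real.cos f * n + Real.sin f * m) :
    Real.cos (f + Real.arctan ((Real.cos f * m - Real.sin f * n)
        / (Real.cos f * n + Real.sin f * m))) = n / √(n ^ 2 + m ^ 2) ∧
    Real.sin (f + Real.arctan ((Real.cos f * m - Real.sin f * n)
        / (Real.cos f * n + Real.sin f * m))) = m / √(n ^ 2 + m ^ 2) := by
  set g := Real.cos f * n + Real.sin f * m with hgd
  set k := Real.cos f * m - Real.sin f * n with hkd
  have hcs := Real.cos_sq_add_sin_sq f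
  have hn : n = Real.cos f * g - Real.sin f * k := by
    rw [hgd, hkd]
    linear_combination (-n) * hcs
  have hm : m = Real.sin f * g + Real.cos f * k := by
    rw [hgd, hkd]
    linear_combination (-m) * hcs
  have hnm : n ^ 2 + m ^ 2 = g ^ 2 * (1 + (k / g) ^ 2) := by
    have h1 : g ^ 2 * (1 + (k / g) ^ 2) = g ^ 2 + k ^ 2 := by field_simp
    rw [h1]
    rw [hn, hm]
    linear_combination (g ^ 2 + k ^ 2) * hcs
  have hsq : √(n ^ 2 + m ^ 2) = g * √(1 + (k / g) ^ 2) := by
    rw [hnm, Real.sqrt_mul (sq_nonneg g), Real.sqrt_sq hg.le]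
  have hS : 0 < √(1 + (k / g) ^ 2) := Real.sqrt_pos.mpr (by positivity)
  have hS0 : √(1 + (k / g) ^ 2) ≠ 0 := hS.ne'
  have hg0 : g ≠ 0 := hg.ne'
  rw [hsq, Real.cos_add, Real.sin_add, Real.cos_arctan, Real.sin_arctan]
  constructor
  · rw [eq_div_iff (mul_ne_zero hg0 hS0)]
    field_simp
    linarith
  · rw [eq_div_iff (mul_ne_zero hg0 hS0)]
    field_simp
    linarith

end AA14
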