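import Pool.Agent.Work.MP_aa14e2_an.LinD

/-!
# Billiards: linear part, speed of the moving frame and the pointwise inequality
-/

namespace AA14

open Real

/-- The cross product `N × N'`. -/
noncomputable def CC (a b c a' b' c' al : ℝ) : ℝ :=
  NX a b c (Real.cos (2 * (a + b + c) - al)) (Real.sin (2 * (a + b + c) - al))
    * NYd a b c a' b' c' (Real.cos (2 * (a + b + c) - al)) (Real.sin (2 * (a + b + c) - al))
  - NY a b c (Real.cos (2 * (a + b + c) - al)) (Real.sin (2 * (a + b + c) - al))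
    * NXd a b c a' b' c' (Real.cos (2 * (a + b + c) - al)) (Real.sin (2 * (a + b + c) - al))

/-- The squared norm of `N`. -/
noncomputable def NN (a b c al : ℝ) : ℝ :=
  NX a b c (Real.cos (2 * (a + b + c) - al)) (Real.sin (2 * (a + b + c) - al)) ^ 2
  + NY a b c (Real.cos (2 * (a + b + c) - al)) (Real.sin (2 * (a + b + c) - al)) ^ 2

/-- The quadratic form `⟨F, P F⟩`. -/
noncomputable def PF (a b c a' b' c' f g : ℝ) : ℝ :=
  Af (π - (c - b)) / a' * (Real.cos (2 * a) * f + Real.sin (2 * a) * g) ^ 2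
  + Af (c - a - π) / b' * (Real.cos (2 * b) * f + Real.sin (2 * b) * g) ^ 2
  + Af (π - (b - a)) / c' * (Real.cos (2 * c) * f + Real.sin (2 * c) * g) ^ 2

theorem NN_pos {a b c : ℝ} (h : Adm a b c) (al : ℝ) : 0 < NN a b c al := by
  have hp := inner_pos h (Real.cos_sq_add_sin_sq (2 * (a + b + c) - al))
  unfold NN
  set x := Real.cos (2 * (a + b + c) - al)
  set y := Real.sin (2 * (a + b + c) - al)
  by_contra hcon
  have h1 : NX a b c x y ^ 2 = 0 := by
    nlinarith [sq_nonneg (NX a b c x y), sq_nonneg (NY a b c x y), not_lt.mp hcon]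
  have h2 : NY a b c x y ^ 2 = 0 := by
    nlinarith [sq_nonneg (NX a b c x y), sq_nonneg (NY a b c x y), not_lt.mp hcon]
  rw [pow_eq_zero_iff two_ne_zero] at h1 h2
  rw [h1, h2] at hp
  simp at hp

theorem cos_sA {a b c : ℝ} (h : Adm a b c) (al : ℝ) :
    Real.cos (sA a b c al) = NX a b c (Real.cos (2 * (a + b + c) - al))
      (Real.sin (2 * (a + b + c) - al)) / √(NN a b c al) :=
  (angle_of _ _ _ (inner_pos h (Real.cos_sq_add_sin_sq (2 * (a + b + c) - al)))).1

theorem sin_sA {a b c : ℝ} (h : Adm a b c) (al : ℝ) :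
    Real.sin (sA a b c al) = NY a b c (Real.cos (2 * (a + b + c) - al))
      (Real.sin (2 * (a + b + c) - al)) / √(NN a b c al) :=
  (angle_of _ _ _ (inner_pos h (Real.cos_sq_add_sin_sq (2 * (a + b + c) - al)))).2

theorem hasDerivAt_sA {a b c a' b' c' : ℝ → ℝ} {t : ℝ} (h : Adm (a t) (b t) (c t))
    (ha : HasDerivAt a (a' t) t) (hb : HasDerivAt b (b' t) t)
    (hc : HasDerivAt c (c' t) t) (al : ℝ) :
    HasDerivAt (fun t => sA (a t) (b t) (c t) al)
      (CC (a t) (b t) (c t) (a' t) (b' t) (c' t) al / NN (a t) (b t) (c t) al) t := by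
  have hf : HasDerivAt (fun t => 2 * (a t + b t + c t) - al) (2 * (a' t + b' t + c' t)) t :=
    (((ha.add hb).add hc).const_mul 2).sub_const al
  have hX := hasDerivAt_NX ha hb hc al
  have hY := hasDerivAt_NY ha hb hc al
  have hg := inner_pos h (Real.cos_sq_add_sin_sq (2 * (a t + b t + c t) - al))
  have hB := (hf.cos.mul hY).sub (hf.sin.mul hX)
  have hG := (hf.cos.mul hX).add (hf.sin.mul hY)
  have hT := (hB.div hG hg.ne').arctan
  have hS := hf.add hT
  refine hS.congr_deriv ?_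
  have hNN : NN (a t) (b t) (c t) al ≠ 0 := (NN_pos h al).ne'
  unfold CC
  unfold NN at hNN ⊢
  have hcs := Real.cos_sq_add_sin_sq (2 * (a t + b t + c t) - al)
  simp only [Pi.add_apply, Pi.mul_apply, Pi.sub_apply, Pi.div_apply]
  generalize Real.cos (2 * (a t + b t + c t) - al) = x at *
  generalize Real.sin (2 * (a t + b t + c t) - al) = y at *
  generalize NX (a t) (b t) (c t) x y = n at *
  generalize NY (a t) (b t) (c t) x y = m at *
  generalize NXd (a t) (b t) (c t) (a' t) (b' t) (c' t) x y = n' at *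
  generalize NYd (a t) (b t) (c t) (a' t) (b' t) (c' t) x y = m' at *
  generalize 2 * (a' t + b' t + c' t) = σ at *
  have hg0 : x * n + y * m ≠ 0 := hg.ne'
  have hk : 1 + ((x * m - y * n) / (x * n + y * m)) ^ 2 = (n ^ 2 + m ^ 2) / (x * n + y * m) ^ 2 := by
    rw [div_pow, eq_div_iff (pow_ne_zero 2 hg0), add_mul, div_mul_cancel₀ _ (pow_ne_zero 2 hg0)]
    linear_combination (n ^ 2 + m ^ 2) * hcs
  rw [hk]
  have hz : ∀ Z : ℝ, 1 / ((n ^ 2 + m ^ 2) / (x * n + y * m) ^ 2) * (Z / (x * n + y * m) ^ 2)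
      = Z / (n ^ 2 + m ^ 2) := by
    intro Z
    rw [one_div_div, div_mul_div_comm, mul_comm (n ^ 2 + m ^ 2), mul_div_mul_left _ _
      (pow_ne_zero 2 hg0)]
  rw [hz, eq_div_iff hNN, add_mul, div_mul_cancel₀ _ hNN]
  linear_combination (-(σ * (n ^ 2 + m ^ 2)) + (n * m' - n' * m)) * hcs

theorem CC_eq (a b c a' b' c' al : ℝ) :
    CC a b c a' b' c' al
      = a' * KK (Af (π - (c - b))) (Af (c - a - π)) (Af (π - (b - a)))
          (Real.cos (2 * a)) (Real.sin (2 * a)) (Real.cos (2 * b)) (Real.sin (2 * b))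
          (Real.cos (2 * c)) (Real.sin (2 * c))
          (Real.sin (2 * (π - (c - b)))) (Real.sin (2 * (c - a - π)))
          (Real.sin (2 * (π - (b - a))))
          (Real.cos (2 * (a + b + c) - al)) (Real.sin (2 * (a + b + c) - al))
      + b' * KK (Af (c - a - π)) (Af (π - (b - a))) (Af (π - (c - b)))
          (Real.cos (2 * b)) (Real.sin (2 * b))
          (Real.cos (2 * c)) (Real.sin (2 * c)) (Real.cos (2 * a)) (Real.sin (2 * a))
          (Real.sin (2 * (c - a - π))) (Real.sin (2 * (π - (b - a))))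
          (Real.sin (2 * (π - (c - b))))
          (Real.cos (2 * (a + b + c) - al)) (Real.sin (2 * (a + b + c) - al))
      + c' * KK (Af (π - (b - a))) (Af (π - (c - b))) (Af (c - a - π))
          (Real.cos (2 * c)) (Real.sin (2 * c)) (Real.cos (2 * a)) (Real.sin (2 * a))
          (Real.cos (2 * b)) (Real.sin (2 * b))
          (Real.sin (2 * (π - (b - a)))) (Real.sin (2 * (π - (c - b))))
          (Real.sin (2 * (c - a - π)))
          (Real.cos (2 * (a + b + c) - al)) (Real.sin (2 * (a + b + c) - al)) := by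
  unfold CC
  apply cross_formula
  · rw [show 2 * (π - (c - b)) = 2 * π - (2 * c - 2 * b) by ring,
      Real.sin_two_pi_sub, Real.sin_sub]; ring
  · rw [show 2 * (c - a - π) = (2 * c - 2 * a) - 2 * π by ring,
      Real.sin_sub_two_pi, Real.sin_sub]; ring
  · rw [show 2 * (π - (b - a)) = 2 * π - (2 * b - 2 * a) by ring,
      Real.sin_two_pi_sub, Real.sin_sub]; ring
  · rfl
  · rfl
  · rfl
  · rfl

/-- The key lower bound for `N × N'`. -/
theorem CC_gt {a b c a' b' c' : ℝ} (h : Adm a b c) (ha : 0 < a') (hb : 0 < b') (hc : 0 < c')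
    (al : ℝ) :
    a' * (π * Af (π - (c - b)) * (Real.cos (2 * a) * Real.cos (2 * (a + b + c) - al)
        + Real.sin (2 * a) * Real.sin (2 * (a + b + c) - al)) ^ 2)
    + b' * (π * Af (c - a - π) * (Real.cos (2 * b) * Real.cos (2 * (a + b + c) - al)
        + Real.sin (2 * b) * Real.sin (2 * (a + b + c) - al)) ^ 2)
    + c' * (π * Af (π - (b - a)) * (Real.cos (2 * c) * Real.cos (2 * (a + b + c) - al)
        + Real.sin (2 * c) * Real.sin (2 * (a + b + c) - al)) ^ 2)
    < CC a b c a' b' c' al := by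
  rw [CC_eq]
  have hv := Real.cos_sq_add_sin_sq (2 * (a + b + c) - al)
  obtain ⟨h0, h1, h2⟩ := h
  have k0 := KK_gt (a := a) (b := b) (c := c) hv h0.1 h0.2 h1.1 h1.2 h2.1 h2.2
    rfl rfl rfl rfl rfl rfl rfl rfl rfl
  have e1 : Real.cos (2 * (a + 2 * π)) = Real.cos (2 * a) := by
    rw [show 2 * (a + 2 * π) = 2 * a + (2:ℕ) * (2 * π) by push_cast; ring,
      Real.cos_add_nat_mul_two_pi]
  have e2 : Real.sin (2 * (a + 2 * π)) = Real.sin (2 * a) := by
    rw [show 2 * (a + 2 * π) = 2 * a + (2:ℕ) * (2 * π) by push_cast; ring,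
      Real.sin_add_nat_mul_two_pi]
  have e3 : Real.cos (2 * (b + 2 * π)) = Real.cos (2 * b) := by
    rw [show 2 * (b + 2 * π) = 2 * b + (2:ℕ) * (2 * π) by push_cast; ring,
      Real.cos_add_nat_mul_two_pi]
  have e4 : Real.sin (2 * (b + 2 * π)) = Real.sin (2 * b) := by
    rw [show 2 * (b + 2 * π) = 2 * b + (2:ℕ) * (2 * π) by push_cast; ring,
      Real.sin_add_nat_mul_two_pi]
  have k1 := KK_gt (a := b) (b := c) (c := a + 2 * π) hv (by linarith [h1.1]) (by linarith [h1.2])
    (by linarith [h2.1]) (by linarith [h2.2]) (by linarith [h0.1]) (by linarith [h0.2])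
    rfl rfl rfl rfl rfl rfl rfl rfl rfl
  have k2 := KK_gt (a := c) (b := a + 2 * π) (c := b + 2 * π) hv (by linarith [h2.1])
    (by linarith [h2.2])
    (by linarith [h0.1]) (by linarith [h0.2]) (by linarith [h1.1]) (by linarith [h1.2])
    rfl rfl rfl rfl rfl rfl rfl rfl rfl
  rw [e1, e2, show π - (a + 2 * π - c) = c - a - π by ring,
    show (a + 2 * π) - b - π = π - (b - a) by ring] at k1
  rw [e1, e2, e3, e4, show π - (b + 2 * π - (a + 2 * π)) = π - (b - a) by ring,
    show (b + 2 * π) - c - π = π - (c - b) by ring,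
    show π - (a + 2 * π - c) = c - a - π by ring] at k2
  have m0 := mul_lt_mul_of_pos_left k0 ha
  have m1 := mul_lt_mul_of_pos_left k1 hb
  have m2 := mul_lt_mul_of_pos_left k2 hc
  linarith

theorem CC_pos {a b c a' b' c' : ℝ} (h : Adm a b c) (ha : 0 < a') (hb : 0 < b') (hc : 0 < c')
    (al : ℝ) : 0 < CC a b c a' b' c' al := by
  refine lt_of_le_of_lt ?_ (CC_gt h ha hb hc al)
  have hA0 := Af_pos h.1.1
  have hA1 := Af_pos h.2.1.1
  have hA2 := Af_pos h.2.2.1
  have := Real.pi_pos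
  positivity

theorem PF_nonneg {a b c a' b' c' : ℝ} (h : Adm a b c) (ha : 0 < a') (hb : 0 < b')
    (hc : 0 < c') (f g : ℝ) : 0 ≤ PF a b c a' b' c' f g := by
  have hA0 := Af_pos h.1.1
  have hA1 := Af_pos h.2.1.1
  have hA2 := Af_pos h.2.2.1
  unfold PF
  positivity

theorem PF_eq_zero {a b c a' b' c' : ℝ} (h : Adm a b c) (ha : 0 < a') (hb : 0 < b')
    (hc : 0 < c') {f g : ℝ} (h0 : PF a b c a' b' c' f g = 0) : f = 0 ∧ g = 0 := by
  have hA0 := Af_pos h.1.1
  have hA1 := Af_pos h.2.1.1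
  have hA2 := Af_pos h.2.2.1
  have h2 := h.2.2
  have hs : 0 < Real.sin (2 * (π - (b - a))) :=
    Real.sin_pos_of_pos_of_lt_pi (by linarith [h2.1]) (by linarith [h2.2])
  have es : Real.sin (2 * (π - (b - a)))
      = -(Real.cos (2 * a) * Real.sin (2 * b) - Real.sin (2 * a) * Real.cos (2 * b)) := by
    rw [show 2 * (π - (b - a)) = 2 * π - (2 * b - 2 * a) by ring,
      Real.sin_two_pi_sub, Real.sin_sub]; ring
  unfold PF at h0
  set L0 := Real.cos (2 * a) * f + Real.sin (2 * a) * g with hL0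
  set L1 := Real.cos (2 * b) * f + Real.sin (2 * b) * g with hL1
  have k0 : 0 ≤ Af (π - (c - b)) / a' * L0 ^ 2 := by positivity
  have k1 : 0 ≤ Af (c - a - π) / b' * L1 ^ 2 := by positivity
  have k2 : 0 ≤ Af (π - (b - a)) / c' * (Real.cos (2 * c) * f + Real.sin (2 * c) * g) ^ 2 := by
    positivity
  have z0 : Af (π - (c - b)) / a' * L0 ^ 2 = 0 := by linarith
  have z1 : Af (c - a - π) / b' * L1 ^ 2 = 0 := by linarith
  have w0 : L0 = 0 := by
    rcases mul_eq_zero.mp z0 with h | h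
    · exact absurd h (div_pos hA0 ha).ne'
    · exact pow_eq_zero_iff (two_ne_zero) |>.mp h
  have w1 : L1 = 0 := by
    rcases mul_eq_zero.mp z1 with h | h
    · exact absurd h (div_pos hA1 hb).ne'
    · exact pow_eq_zero_iff (two_ne_zero) |>.mp h
  have ex : Real.sin (2 * (π - (b - a))) * f = 0 := by
    rw [es]
    have : -(Real.cos (2 * a) * Real.sin (2 * b) - Real.sin (2 * a) * Real.cos (2 * b)) * f
        = Real.sin (2 * a) * L1 - Real.sin (2 * b) * L0 := by rw [hL0, hL1]; ring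
    rw [this, w0, w1]; ring
  have ey : Real.sin (2 * (π - (b - a))) * g = 0 := by
    rw [es]
    have : -(Real.cos (2 * a) * Real.sin (2 * b) - Real.sin (2 * a) * Real.cos (2 * b)) * g
        = Real.cos (2 * b) * L0 - Real.cos (2 * a) * L1 := by rw [hL0, hL1]; ring
    rw [this, w0, w1]; ring
  constructor
  · rcases mul_eq_zero.mp ex with h | h
    · exact absurd h hs.ne'
    · exact h
  · rcases mul_eq_zero.mp ey with h | h
    · exact absurd h hs.ne'
    · exact h

/-- Cauchy-Schwarz for three terms. -/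
theorem cs3 (A0 A1 A2 p0 p1 p2 L0 L1 L2 g0 g1 g2 : ℝ) (hA0 : 0 < A0) (hA1 : 0 < A1)
    (hA2 : 0 < A2) (hp0 : 0 < p0) (hp1 : 0 < p1) (hp2 : 0 < p2) :
    (A0 * L0 * g0 + A1 * L1 * g1 + A2 * L2 * g2) ^ 2
      ≤ (p0 * (A0 * L0 ^ 2) + p1 * (A1 * L1 ^ 2) + p2 * (A2 * L2 ^ 2))
        * (A0 / p0 * g0 ^ 2 + A1 / p1 * g1 ^ 2 + A2 / p2 * g2 ^ 2) := by
  have e : (p0 * (A0 * L0 ^ 2) + p1 * (A1 * L1 ^ 2) + p2 * (A2 * L2 ^ 2))
        * (A0 / p0 * g0 ^ 2 + A1 / p1 * g1 ^ 2 + A2 / p2 * g2 ^ 2)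
      - (A0 * L0 * g0 + A1 * L1 * g1 + A2 * L2 * g2) ^ 2
      = A0 * A1 / (p0 * p1) * (p0 * L0 * g1 - p1 * L1 * g0) ^ 2
        + A0 * A2 / (p0 * p2) * (p0 * L0 * g2 - p2 * L2 * g0) ^ 2
        + A1 * A2 / (p1 * p2) * (p1 * L1 * g2 - p2 * L2 * g1) ^ 2 := by
    field_simp
    ring
  have : 0 ≤ A0 * A1 / (p0 * p1) * (p0 * L0 * g1 - p1 * L1 * g0) ^ 2
        + A0 * A2 / (p0 * p2) * (p0 * L0 * g2 - p2 * L2 * g0) ^ 2
        + A1 * A2 / (p1 * p2) * (p1 * L1 * g2 - p2 * L2 * g1) ^ 2 := by positivity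
  linarith

/-- The pointwise inequality `π ⟨u, F⟩² ≤ s' ⟨F, P F⟩`. -/
theorem pointwise_le {a b c a' b' c' : ℝ} (h : Adm a b c) (ha : 0 < a') (hb : 0 < b')
    (hc : 0 < c') (al f g : ℝ) :
    π * (Real.cos (sA a b c al) * f + Real.sin (sA a b c al) * g) ^ 2
      ≤ CC a b c a' b' c' al / NN a b c al * PF a b c a' b' c' f g ∧
    (PF a b c a' b' c' f g ≠ 0 →
      π * (Real.cos (sA a b c al) * f + Real.sin (sA a b c al) * g) ^ 2
      < CC a b c a' b' c' al / NN a b c al * PF a b c a' b' c' f g) := by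
  have hN := NN_pos h al
  have hCC := CC_gt h ha hb hc al
  have hP := PF_nonneg h ha hb hc f g
  have hA0 := Af_pos h.1.1
  have hA1 := Af_pos h.2.1.1
  have hA2 := Af_pos h.2.2.1
  have hcs := cs3 (Af (π - (c - b))) (Af (c - a - π)) (Af (π - (b - a))) a' b' c'
    (Real.cos (2 * a) * Real.cos (2 * (a + b + c) - al)
        + Real.sin (2 * a) * Real.sin (2 * (a + b + c) - al))
    (Real.cos (2 * b) * Real.cos (2 * (a + b + c) - al)
        + Real.sin (2 * b) * Real.sin (2 * (a + b + c) - al))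
    (Real.cos (2 * c) * Real.cos (2 * (a + b + c) - al)
        + Real.sin (2 * c) * Real.sin (2 * (a + b + c) - al))
    (Real.cos (2 * a) * f + Real.sin (2 * a) * g)
    (Real.cos (2 * b) * f + Real.sin (2 * b) * g)
    (Real.cos (2 * c) * f + Real.sin (2 * c) * g) hA0 hA1 hA2 ha hb hc
  have e1 : (Real.cos (sA a b c al) * f + Real.sin (sA a b c al) * g) ^ 2
      = (Af (π - (c - b)) * (Real.cos (2 * a) * Real.cos (2 * (a + b + c) - al)
            + Real.sin (2 * a) * Real.sin (2 * (a + b + c) - al))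
            * (Real.cos (2 * a) * f + Real.sin (2 * a) * g)
          + Af (c - a - π) * (Real.cos (2 * b) * Real.cos (2 * (a + b + c) - al)
            + Real.sin (2 * b) * Real.sin (2 * (a + b + c) - al))
            * (Real.cos (2 * b) * f + Real.sin (2 * b) * g)
          + Af (π - (b - a)) * (Real.cos (2 * c) * Real.cos (2 * (a + b + c) - al)
            + Real.sin (2 * c) * Real.sin (2 * (a + b + c) - al))
            * (Real.cos (2 * c) * f + Real.sin (2 * c) * g)) ^ 2 / NN a b c al := by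
    rw [cos_sA h, sin_sA h]
    have hsq : √(NN a b c al) ^ 2 = NN a b c al := Real.sq_sqrt hN.le
    have hs0 : √(NN a b c al) ≠ 0 := (Real.sqrt_pos.mpr hN).ne'
    rw [div_mul_eq_mul_div, div_mul_eq_mul_div, ← add_div, div_pow, hsq]
    congr 1
    congr 1
    unfold NX NY
    ring
  have hpi := Real.pi_pos
  have hchain : π * ((Af (π - (c - b)) * (Real.cos (2 * a) * Real.cos (2 * (a + b + c) - al)
            + Real.sin (2 * a) * Real.sin (2 * (a + b + c) - al))
            * (Real.cos (2 * a) * f + Real.sin (2 * a) * g)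
          + Af (c - a - π) * (Real.cos (2 * b) * Real.cos (2 * (a + b + c) - al)
            + Real.sin (2 * b) * Real.sin (2 * (a + b + c) - al))
            * (Real.cos (2 * b) * f + Real.sin (2 * b) * g)
          + Af (π - (b - a)) * (Real.cos (2 * c) * Real.cos (2 * (a + b + c) - al)
            + Real.sin (2 * c) * Real.sin (2 * (a + b + c) - al))
            * (Real.cos (2 * c) * f + Real.sin (2 * c) * g)) ^ 2)
      ≤ (a' * (π * Af (π - (c - b)) * (Real.cos (2 * a) * Real.cos (2 * (a + b + c) - al)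
        + Real.sin (2 * a) * Real.sin (2 * (a + b + c) - al)) ^ 2)
    + b' * (π * Af (c - a - π) * (Real.cos (2 * b) * Real.cos (2 * (a + b + c) - al)
        + Real.sin (2 * b) * Real.sin (2 * (a + b + c) - al)) ^ 2)
    + c' * (π * Af (π - (b - a)) * (Real.cos (2 * c) * Real.cos (2 * (a + b + c) - al)
        + Real.sin (2 * c) * Real.sin (2 * (a + b + c) - al)) ^ 2))
      * PF a b c a' b' c' f g := by
    have := mul_le_mul_of_nonneg_left hcs hpi.le
    refine this.trans (le_of_eq ?_)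
    unfold PF
    ring
  rw [e1]
  constructor
  · rw [mul_div_assoc', div_mul_eq_mul_div]
    apply div_le_div_of_nonneg_right _ hN.le
    exact hchain.trans (mul_le_mul_of_nonneg_right hCC.le hP)
  · intro hne
    have hPpos : 0 < PF a b c a' b' c' f g := lt_of_le_of_ne hP (Ne.symm hne)
    rw [mul_div_assoc', div_mul_eq_mul_div]
    apply div_lt_div_of_pos_right _ hN
    exact lt_of_le_of_lt hchain (mul_lt_mul_of_pos_right hCC hPpos)

end AA14
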