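import Pool.Agent.Work.MP_aa14e2_an.LinW1

/-!
# Wirtinger inequality after a change of the parameter
-/

namespace AA14

open Real MeasureTheory Set Filter Topology

theorem inv_facts (s s' : ℝ → ℝ) (hs : ∀ t, HasDerivAt s (s' t) t) (hpos : ∀ t, 0 < s' t) :
    ∃ τ : ℝ → ℝ, (∀ t, τ (s t) = t) ∧ (∀ t, HasDerivAt τ (s' t)⁻¹ (s t)) := by
  have hmono : StrictMono s := by
    apply strictMono_of_deriv_pos
    intro t
    rw [(hs t).deriv]; exact hpos t
  have hcont : Continuous s := continuous_iff_continuousAt.mpr fun t => (hs t).continuousAt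
  refine ⟨Function.invFun s, fun t => Function.leftInverse_invFun hmono.injective t, ?_⟩
  have hl : ∀ t, Function.invFun s (s t) = t :=
    fun t => Function.leftInverse_invFun hmono.injective t
  intro t
  -- neighbourhoods
  have hnb : ∀ e > 0, ∀ᶠ y in 𝓝 (s t), ∃ u ∈ Ioo (t - e) (t + e), s u = y := by
    intro e he
    have h1 : Ioo (s (t - e)) (s (t + e)) ∈ 𝓝 (s t) :=
      Ioo_mem_nhds (hmono (by linarith)) (hmono (by linarith))
    filter_upwards [h1] with y hy
    have hiv := intermediate_value_Icc (show t - e ≤ t + e by linarith)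
      (hcont.continuousOn (s := Icc (t - e) (t + e)))
    obtain ⟨u, hu, huy⟩ := hiv ⟨hy.1.le, hy.2.le⟩
    refine ⟨u, ⟨?_, ?_⟩, huy⟩
    · rcases eq_or_lt_of_le hu.1 with h | h
      · exfalso; rw [← h] at huy; rw [huy] at hy; exact lt_irrefl _ hy.1
      · exact h
    · rcases eq_or_lt_of_le hu.2 with h | h
      · exfalso; rw [h] at huy; rw [huy] at hy; exact lt_irrefl _ hy.2
      · exact h
  have hc : ContinuousAt (Function.invFun s) (s t) := by
    rw [Metric.continuousAt_iff']
    intro e he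
    filter_upwards [hnb e he] with y hy
    obtain ⟨u, hu, rfl⟩ := hy
    rw [hl, hl, Real.dist_eq, abs_lt]
    constructor <;> linarith [hu.1, hu.2]
  have hf : HasDerivAt s (s' t) (Function.invFun s (s t)) := by rw [hl]; exact hs t
  refine HasDerivAt.of_local_left_inverse hc hf (hpos t).ne' ?_
  filter_upwards [hnb 1 one_pos] with y hy
  obtain ⟨u, _, rfl⟩ := hy
  rw [hl]

theorem wirt_t {t0 t1 : ℝ} (ht : t0 < t1) (s s' a a' : ℝ → ℝ)
    (hs : ∀ t, HasDerivAt s (s' t) t) (hs'c : Continuous s') (hpos : ∀ t, 0 < s' t)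
    (ha : ∀ t, HasDerivAt a (a' t) t) (ha'c : Continuous a')
    (hs1 : s t1 = s t0 + 4 * π) (ha1 : a t1 = a t0)
    (h0 : ∫ t in t0..t1, a t * s' t = 0)
    (h1 : ∫ t in t0..t1, a t * Real.cos (s t / 2) * s' t = 0)
    (h2 : ∫ t in t0..t1, a t * Real.sin (s t / 2) * s' t = 0) :
    ∫ t in t0..t1, a t ^ 2 * s' t ≤ ∫ t in t0..t1, a' t ^ 2 / s' t := by
  obtain ⟨τ, hl, hτ⟩ := inv_facts s s' hs hpos
  have hcs : Continuous s := continuous_iff_continuousAt.mpr fun t => (hs t).continuousAt
  have hca : Continuous a := continuous_iff_continuousAt.mpr fun t => (ha t).continuousAt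
  have hsurj : ∀ x ∈ Icc (s t0) (s t1), ∃ t ∈ Icc t0 t1, s t = x := fun x hx =>
    intermediate_value_Icc ht.le hcs.continuousOn hx
  have hcτ : ∀ x ∈ Icc (s t0) (s t1), ContinuousAt τ x := by
    intro x hx
    obtain ⟨t, _, rfl⟩ := hsurj x hx
    exact (hτ t).continuousAt
  have himg : s '' (uIcc t0 t1) ⊆ Icc (s t0) (s t1) := by
    rintro x ⟨t, htt, rfl⟩
    rw [uIcc_of_le ht.le] at htt
    have hmono : StrictMono s := by
      apply strictMono_of_deriv_pos
      intro t
      rw [(hs t).deriv]; exact hpos t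
    exact ⟨hmono.monotone htt.1, hmono.monotone htt.2⟩
  have hch : ∀ g : ℝ → ℝ, ContinuousOn g (Icc (s t0) (s t1)) →
      ∫ t in t0..t1, g (s t) * s' t = ∫ x in s t0..s t1, g x := by
    intro g hg
    exact intervalIntegral.integral_comp_mul_deriv' (fun x _ => hs x) hs'c.continuousOn
      (hg.mono himg)
  have hcf : ContinuousOn (fun x => a (τ x)) (Icc (s t0) (s t1)) := fun x hx =>
    (hca.continuousAt.comp (hcτ x hx)).continuousWithinAt
  have hcf' : ContinuousOn (fun x => a' (τ x) * (s' (τ x))⁻¹) (Icc (s t0) (s t1)) := by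
    intro x hx
    have k1 : ContinuousAt (fun x => a' (τ x)) x := ha'c.continuousAt.comp (hcτ x hx)
    have k2 : ContinuousAt (fun x => s' (τ x)) x := hs'c.continuousAt.comp (hcτ x hx)
    exact (k1.mul (k2.inv₀ (hpos _).ne')).continuousWithinAt
  have hder : ∀ x ∈ Ioo (s t0) (s t1), HasDerivAt (fun x => a (τ x))
      (a' (τ x) * (s' (τ x))⁻¹) x := by
    intro x hx
    obtain ⟨t, _, rfl⟩ := hsurj x ⟨hx.1.le, hx.2.le⟩
    have h3 := hτ t
    have h4 : HasDerivAt a (a' t) (τ (s t)) := by rw [hl]; exact ha t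
    have h5 := h4.comp (s t) h3
    rw [hl]
    exact h5
  have key := wirt (s t0) (s t1) hs1 (fun x => a (τ x)) (fun x => a' (τ x) * (s' (τ x))⁻¹)
    hcf hder hcf' (by simp only [hl]; exact ha1)
    (by
      rw [← hch _ hcf]
      simp only [hl]; exact h0)
    (by
      rw [← hch (fun x => a (τ x) * Real.cos (x / 2)) (hcf.mul (by fun_prop))]
      simp only [hl]; exact h1)
    (by
      rw [← hch (fun x => a (τ x) * Real.sin (x / 2)) (hcf.mul (by fun_prop))]
      simp only [hl]; exact h2)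
  rw [← hch (fun x => a (τ x) ^ 2) (hcf.pow 2),
    ← hch (fun x => (a' (τ x) * (s' (τ x))⁻¹) ^ 2) (hcf'.pow 2)] at key
  simp only [hl] at key
  refine key.trans (le_of_eq ?_)
  apply intervalIntegral.integral_congr
  intro t _
  have := (hpos t).ne'
  simp only
  field_simp

end AA14
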