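import Pool.Agent.Work.MP_aa14e2_an.LinE
import Pool.Agent.Work.MP_aa14e2_an.LinW2

/-!
# Billiards: linear part, one closed curve
-/

namespace AA14

open Real MeasureTheory Set Filter Topology

theorem continuous_Af : Continuous Af := by
  unfold Af; fun_prop

section cont

variable {a b c a' b' c' : ℝ → ℝ}

theorem cont_NX (ha : Continuous a) (hb : Continuous b) (hc : Continuous c) :
    Continuous fun p : ℝ × ℝ => NX (a p.2) (b p.2) (c p.2)
      (Real.cos (2 * (a p.2 + b p.2 + c p.2) - p.1))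
      (Real.sin (2 * (a p.2 + b p.2 + c p.2) - p.1)) := by
  unfold NX Af; fun_prop

theorem cont_NY (ha : Continuous a) (hb : Continuous b) (hc : Continuous c) :
    Continuous fun p : ℝ × ℝ => NY (a p.2) (b p.2) (c p.2)
      (Real.cos (2 * (a p.2 + b p.2 + c p.2) - p.1))
      (Real.sin (2 * (a p.2 + b p.2 + c p.2) - p.1)) := by
  unfold NY Af; fun_prop

theorem cont_sA (ha : Continuous a) (hb : Continuous b) (hc : Continuous c)
    (hadm : ∀ t, Adm (a t) (b t) (c t)) :
    Continuous fun p : ℝ × ℝ => sA (a p.2) (b p.2) (c p.2) p.1 := by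
  have h1 := cont_NX ha hb hc
  have h2 := cont_NY ha hb hc
  have h3 : ∀ p : ℝ × ℝ, Real.cos (2 * (a p.2 + b p.2 + c p.2) - p.1)
      * NX (a p.2) (b p.2) (c p.2) (Real.cos (2 * (a p.2 + b p.2 + c p.2) - p.1))
      (Real.sin (2 * (a p.2 + b p.2 + c p.2) - p.1))
      + Real.sin (2 * (a p.2 + b p.2 + c p.2) - p.1)
      * NY (a p.2) (b p.2) (c p.2) (Real.cos (2 * (a p.2 + b p.2 + c p.2) - p.1))
      (Real.sin (2 * (a p.2 + b p.2 + c p.2) - p.1)) ≠ 0 := fun p =>
    (inner_pos (hadm p.2) (Real.cos_sq_add_sin_sq _)).ne'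
  unfold sA
  refine Continuous.add (by fun_prop) (Real.continuous_arctan.comp ?_)
  exact Continuous.div (by fun_prop) (by fun_prop) h3

theorem cont_speed (ha : Continuous a) (hb : Continuous b) (hc : Continuous c)
    (ha' : Continuous a') (hb' : Continuous b') (hc' : Continuous c')
    (hadm : ∀ t, Adm (a t) (b t) (c t)) :
    Continuous fun p : ℝ × ℝ => CC (a p.2) (b p.2) (c p.2) (a' p.2) (b' p.2) (c' p.2) p.1
      / NN (a p.2) (b p.2) (c p.2) p.1 := by
  have h1 := cont_NX ha hb hc
  have h2 := cont_NY ha hb hc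
  have h3 : Continuous fun p : ℝ × ℝ => NXd (a p.2) (b p.2) (c p.2) (a' p.2) (b' p.2) (c' p.2)
      (Real.cos (2 * (a p.2 + b p.2 + c p.2) - p.1))
      (Real.sin (2 * (a p.2 + b p.2 + c p.2) - p.1)) := by
    unfold NXd Af; fun_prop
  have h4 : Continuous fun p : ℝ × ℝ => NYd (a p.2) (b p.2) (c p.2) (a' p.2) (b' p.2) (c' p.2)
      (Real.cos (2 * (a p.2 + b p.2 + c p.2) - p.1))
      (Real.sin (2 * (a p.2 + b p.2 + c p.2) - p.1)) := by
    unfold NYd Af; fun_prop
  refine Continuous.div ?_ ?_ (fun p => (NN_pos (hadm p.2) p.1).ne')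
  · unfold CC
    exact (h1.mul h4).sub (h2.mul h3)
  · unfold NN
    exact (h1.pow 2).add (h2.pow 2)

theorem cont_PF {f g : ℝ → ℝ} (ha : Continuous a) (hb : Continuous b) (hc : Continuous c)
    (ha' : Continuous a') (hb' : Continuous b') (hc' : Continuous c')
    (pa : ∀ t, 0 < a' t) (pb : ∀ t, 0 < b' t) (pc : ∀ t, 0 < c' t)
    (hf : Continuous f) (hg : Continuous g) :
    Continuous fun t => PF (a t) (b t) (c t) (a' t) (b' t) (c' t) (f t) (g t) := by
  unfold PF
  have h0 := continuous_Af
  refine Continuous.add (Continuous.add ?_ ?_) ?_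
  · exact (Continuous.div (by fun_prop) ha' fun t => (pa t).ne').mul (by fun_prop)
  · exact (Continuous.div (by fun_prop) hb' fun t => (pb t).ne').mul (by fun_prop)
  · exact (Continuous.div (by fun_prop) hc' fun t => (pc t).ne').mul (by fun_prop)

end cont

/-- One closed curve, abstract form. -/
theorem one_curve_abs {t0 t1 : ℝ} (ht : t0 < t1) {s w P X Y X' Y' : ℝ → ℝ}
    (ds : ∀ t, HasDerivAt s (w t) t) (cw : Continuous w) (pw : ∀ t, 0 < w t)
    (es : s t1 = s t0 + 4 * π) (cP : Continuous P)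
    (hX : ∀ t, HasDerivAt X (X' t) t) (hY : ∀ t, HasDerivAt Y (Y' t) t)
    (hX' : Continuous X') (hY' : Continuous Y') (eX : X t1 = X t0) (eY : Y t1 = Y t0)
    (o0 : ∫ t in t0..t1, (Real.cos (s t) * X t + Real.sin (s t) * Y t) * w t = 0)
    (o1 : ∫ t in t0..t1, (Real.cos (s t) * X t + Real.sin (s t) * Y t) * Real.cos (s t / 2)
        * w t = 0)
    (o2 : ∫ t in t0..t1, (Real.cos (s t) * X t + Real.sin (s t) * Y t) * Real.sin (s t / 2)
        * w t = 0)
    (hle : ∀ t, π * (Real.cos (s t) * X' t + Real.sin (s t) * Y' t) ^ 2 ≤ w t * P t)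
    (hlt : ∀ t, P t ≠ 0 → π * (Real.cos (s t) * X' t + Real.sin (s t) * Y' t) ^ 2 < w t * P t)
    (hQ : ∫ t in t0..t1, (P t + π * (X' t * Y t - Y' t * X t)) ≤ 0) :
    ∀ t ∈ Icc t0 t1, P t = 0 := by
  have cX : Continuous X := continuous_iff_continuousAt.mpr fun t => (hX t).continuousAt
  have cY : Continuous Y := continuous_iff_continuousAt.mpr fun t => (hY t).continuousAt
  have cs : Continuous s := continuous_iff_continuousAt.mpr fun t => (ds t).continuousAt
  -- the components
  obtain ⟨A, hA⟩ : ∃ A : ℝ → ℝ, ∀ t, A t = Real.cos (s t) * X t + Real.sin (s t) * Y t :=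
    ⟨_, fun _ => rfl⟩
  obtain ⟨B, hB⟩ : ∃ B : ℝ → ℝ, ∀ t, B t = -Real.sin (s t) * X t + Real.cos (s t) * Y t :=
    ⟨_, fun _ => rfl⟩
  obtain ⟨U, hU⟩ : ∃ U : ℝ → ℝ, ∀ t, U t = Real.cos (s t) * X' t + Real.sin (s t) * Y' t :=
    ⟨_, fun _ => rfl⟩
  obtain ⟨V, hV⟩ : ∃ V : ℝ → ℝ, ∀ t, V t = -Real.sin (s t) * X' t + Real.cos (s t) * Y' t :=
    ⟨_, fun _ => rfl⟩
  have dA : ∀ t, HasDerivAt A (U t + w t * B t) t := by
    intro t
    have h := ((ds t).cos.mul (hX t)).add ((ds t).sin.mul (hY t))
    have hfun : A = fun t => Real.cos (s t) * X t + Real.sin (s t) * Y t := funext hA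
    rw [hfun]
    refine h.congr_deriv ?_
    rw [hU, hB]; ring
  have dB : ∀ t, HasDerivAt B (V t - w t * A t) t := by
    intro t
    have h := ((ds t).sin.neg.mul (hX t)).add ((ds t).cos.mul (hY t))
    have hfun : B = fun t => -Real.sin (s t) * X t + Real.cos (s t) * Y t := funext hB
    rw [hfun]
    refine h.congr_deriv ?_
    rw [hV, hA, Pi.neg_apply]; ring
  have cU : Continuous U := by
    have hfun : U = fun t => Real.cos (s t) * X' t + Real.sin (s t) * Y' t := funext hU
    rw [hfun]; fun_prop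
  have cV : Continuous V := by
    have hfun : V = fun t => -Real.sin (s t) * X' t + Real.cos (s t) * Y' t := funext hV
    rw [hfun]; fun_prop
  have cA : Continuous A := continuous_iff_continuousAt.mpr fun t => (dA t).continuousAt
  have cB : Continuous B := continuous_iff_continuousAt.mpr fun t => (dB t).continuousAt
  have hcos4 : Real.cos (s t0 + 4 * π) = Real.cos (s t0) := by
    rw [show s t0 + 4 * π = s t0 + (2:ℕ) * (2 * π) by push_cast; ring,
      Real.cos_add_nat_mul_two_pi]
  have hsin4 : Real.sin (s t0 + 4 * π) = Real.sin (s t0) := by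
    rw [show s t0 + 4 * π = s t0 + (2:ℕ) * (2 * π) by push_cast; ring,
      Real.sin_add_nat_mul_two_pi]
  have eA : A t1 = A t0 := by rw [hA, hA, es, hcos4, hsin4, eX, eY]
  have eB : B t1 = B t0 := by rw [hB, hB, es, hcos4, hsin4, eX, eY]
  simp_rw [← hA] at o0 o1 o2
  simp_rw [← hU] at hle hlt
  -- Wirtinger
  have hW := wirt_t ht s w A (fun t => U t + w t * B t) ds cw pw dA (by fun_prop) es eA o0 o1 o2
  have hw0 : ∀ t, w t ≠ 0 := fun t => (pw t).ne'
  -- the exact identity
  have hid : ∀ t, P t + π * (X' t * Y t - Y' t * X t)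
      = (P t - π * U t ^ 2 / w t)
        + π * ((U t + w t * B t) ^ 2 / w t) - π * (A t ^ 2 * w t)
        - π * ((U t + w t * B t) * B t + A t * (V t - w t * A t)) := by
    intro t
    have hcs := Real.cos_sq_add_sin_sq (s t)
    have hw0 := (pw t).ne'
    have hUV : X' t * Y t - Y' t * X t = U t * B t - V t * A t := by
      rw [hU, hB, hV, hA]
      linear_combination (-(X' t * Y t - Y' t * X t)) * hcs
    rw [hUV]
    field_simp
    ring
  obtain ⟨G, hG⟩ : ∃ G : ℝ → ℝ, ∀ t, G t = P t - π * U t ^ 2 / w t := ⟨_, fun _ => rfl⟩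
  have cG : Continuous G := by
    have hfun : G = fun t => P t - π * U t ^ 2 / w t := funext hG
    rw [hfun]
    exact cP.sub (Continuous.div (by fun_prop) cw hw0)
  have cQ1 : Continuous fun t => π * ((U t + w t * B t) ^ 2 / w t) :=
    continuous_const.mul (Continuous.div (by fun_prop) cw hw0)
  have cQ2 : Continuous fun t => π * (A t ^ 2 * w t) := by fun_prop
  have cQ3 : Continuous fun t => π * ((U t + w t * B t) * B t + A t * (V t - w t * A t)) := by
    fun_prop
  have hint : ∫ t in t0..t1, (P t + π * (X' t * Y t - Y' t * X t))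
      = (∫ t in t0..t1, G t) + π * (∫ t in t0..t1, (U t + w t * B t) ^ 2 / w t)
        - π * (∫ t in t0..t1, A t ^ 2 * w t) - π * (A t1 * B t1 - A t0 * B t0) := by
    have e : ∫ t in t0..t1, ((U t + w t * B t) * B t + A t * (V t - w t * A t))
        = A t1 * B t1 - A t0 * B t0 := by
      apply intervalIntegral.integral_eq_sub_of_hasDerivAt
        (f := fun t => A t * B t)
      · intro t _
        exact (dA t).mul (dB t)
      · apply Continuous.intervalIntegrable
        fun_prop
    rw [← e, ← intervalIntegral.integral_const_mul, ← intervalIntegral.integral_const_mul,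
      ← intervalIntegral.integral_const_mul, ← intervalIntegral.integral_add,
      ← intervalIntegral.integral_sub, ← intervalIntegral.integral_sub]
    · apply intervalIntegral.integral_congr
      intro t _
      simp only
      rw [hG]
      exact hid t
    · exact ((cG.add cQ1).sub cQ2).intervalIntegrable _ _
    · exact cQ3.intervalIntegrable _ _
    · exact (cG.add cQ1).intervalIntegrable _ _
    · exact cQ2.intervalIntegrable _ _
    · exact cG.intervalIntegrable _ _
    · exact cQ1.intervalIntegrable _ _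
  rw [eA, eB, sub_self, mul_zero, sub_zero] at hint
  have hpi := Real.pi_pos
  have hGint : ∫ t in t0..t1, G t ≤ 0 := by
    have := mul_le_mul_of_nonneg_left hW hpi.le
    linarith
  have hG0 : ∀ t, 0 ≤ G t := by
    intro t
    rw [hG, sub_nonneg, div_le_iff₀ (pw t), mul_comm (P t)]
    exact hle t
  intro t htt
  by_contra hcon
  have hGpos : 0 < G t := by
    rw [hG, sub_pos, div_lt_iff₀ (pw t), mul_comm (P t)]
    exact hlt t hcon
  have := intervalIntegral.integral_pos ht cG.continuousOn (fun x _ => hG0 x) ⟨t, htt, hGpos⟩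
  linarith

end AA14
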