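import Mathlib

/-!
# Wirtinger inequality on a circle of length `4π` for functions without the modes `0, ±1`
-/

namespace AA14

open Real MeasureTheory Set

theorem memLp_of_cont {c d : ℝ} (f : ℝ → ℝ) (hf : ContinuousOn f (Icc c d)) :
    MemLp (fun x => (f x : ℂ)) 2 (volume.restrict (Ioc c d)) := by
  obtain ⟨C, hC⟩ := isCompact_Icc.exists_bound_of_continuousOn hf
  have hm : AEStronglyMeasurable (fun x => (f x : ℂ)) (volume.restrict (Ioc c d)) := by
    have h1 : ContinuousOn (fun x => (f x : ℂ)) (Ioc c d) :=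
      Complex.continuous_ofReal.comp_continuousOn (hf.mono Ioc_subset_Icc_self)
    exact h1.aestronglyMeasurable measurableSet_Ioc
  refine MemLp.of_bound hm C ?_
  rw [ae_restrict_iff' measurableSet_Ioc]
  refine Filter.Eventually.of_forall fun x hx => ?_
  rw [Complex.norm_real]
  exact hC x (Ioc_subset_Icc_self hx)

theorem wirt (c d : ℝ) (hcd : d = c + 4 * π) (f f' : ℝ → ℝ) (hf : ContinuousOn f (Icc c d))
    (hff' : ∀ x ∈ Ioo c d, HasDerivAt f (f' x) x) (hf' : ContinuousOn f' (Icc c d))
    (hper : f d = f c) (h0 : ∫ x in c..d, f x = 0)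
    (h1 : ∫ x in c..d, f x * Real.cos (x / 2) = 0)
    (h2 : ∫ x in c..d, f x * Real.sin (x / 2) = 0) :
    ∫ x in c..d, f x ^ 2 ≤ ∫ x in c..d, f' x ^ 2 := by
  have hpi := Real.pi_pos
  have hlt : c < d := by rw [hcd]; linarith
  have hdc : d - c = 4 * π := by rw [hcd]; ring
  have hF := memLp_of_cont f hf
  have hF' := memLp_of_cont f' hf'
  have s1 := hasSum_sq_fourierCoeffOn hlt hF
  have s2 := hasSum_sq_fourierCoeffOn hlt hF'
  have hint : ∀ g : ℝ → ℝ, Continuous g →
      IntervalIntegrable (fun x => ((f x * g x : ℝ) : ℂ)) volume c d := by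
    intro g hg
    apply ContinuousOn.intervalIntegrable
    rw [uIcc_of_le hlt.le]
    exact Complex.continuous_ofReal.comp_continuousOn (hf.mul hg.continuousOn)
  -- the coefficient formula
  have hco : ∀ n : ℤ, fourierCoeffOn hlt (fun x => (f x : ℂ)) n
      = (1 / (d - c)) • ∫ x in c..d, ((f x * Real.cos (n * x / 2) : ℝ) : ℂ)
          - Complex.I * ((f x * Real.sin (n * x / 2) : ℝ) : ℂ) := by
    intro n
    rw [fourierCoeffOn_eq_integral]
    congr 1
    apply intervalIntegral.integral_congr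
    intro x _
    simp only
    rw [fourier_coe_apply, hdc]
    have e : (2 * (π : ℂ) * Complex.I * ((-n : ℤ) : ℂ) * (x : ℂ) / ((4 * π : ℝ) : ℂ))
        = ((-(n * x / 2) : ℝ) : ℂ) * Complex.I := by
      push_cast
      have : (π : ℂ) ≠ 0 := by exact_mod_cast hpi.ne'
      field_simp
      ring
    rw [e, Complex.exp_mul_I, ← Complex.ofReal_cos, ← Complex.ofReal_sin, Real.cos_neg,
      Real.sin_neg, smul_eq_mul]
    push_cast
    ring
  have hcz : ∀ n : ℤ, (∫ x in c..d, f x * Real.cos (n * x / 2) = 0) →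
      (∫ x in c..d, f x * Real.sin (n * x / 2) = 0) →
      fourierCoeffOn hlt (fun x => (f x : ℂ)) n = 0 := by
    intro n hc hs
    rw [hco]
    rw [intervalIntegral.integral_sub, intervalIntegral.integral_const_mul,
      intervalIntegral.integral_ofReal, intervalIntegral.integral_ofReal, hc, hs]
    · simp
    · exact hint (fun x => Real.cos (n * x / 2)) (by fun_prop)
    · exact (hint (fun x => Real.sin (n * x / 2)) (by fun_prop)).const_mul _
  have z0 : fourierCoeffOn hlt (fun x => (f x : ℂ)) 0 = 0 := by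
    apply hcz
    · simpa using h0
    · simp
  have z1 : fourierCoeffOn hlt (fun x => (f x : ℂ)) 1 = 0 := by
    apply hcz
    · simpa using h1
    · simpa using h2
  have zm1 : fourierCoeffOn hlt (fun x => (f x : ℂ)) (-1) = 0 := by
    apply hcz
    · have : ∀ x : ℝ, Real.cos (((-1 : ℤ) : ℝ) * x / 2) = Real.cos (x / 2) := by
        intro x
        rw [show (((-1 : ℤ) : ℝ) * x / 2) = -(x / 2) by push_cast; ring, Real.cos_neg]
      simp_rw [this]; exact h1
    · have : ∀ x : ℝ, f x * Real.sin (((-1 : ℤ) : ℝ) * x / 2) = -(f x * Real.sin (x / 2)) := by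
        intro x
        rw [show (((-1 : ℤ) : ℝ) * x / 2) = -(x / 2) by push_cast; ring, Real.sin_neg]
        ring
      simp_rw [this]; rw [intervalIntegral.integral_neg, h2, neg_zero]
  have hle : ∀ n : ℤ, ‖fourierCoeffOn hlt (fun x => (f x : ℂ)) n‖ ^ 2
      ≤ ‖fourierCoeffOn hlt (fun x => (f' x : ℂ)) n‖ ^ 2 := by
    intro n
    by_cases hn0 : n = 0
    · rw [hn0, z0]; simp
    by_cases hn1 : n = 1
    · rw [hn1, z1]; simp
    by_cases hnm1 : n = -1
    · rw [hnm1, zm1]; simp
    have hn2 : (2 : ℝ) ≤ |(n : ℝ)| := by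
      have : (2 : ℤ) ≤ |n| := by
        rcases abs_cases n with ⟨h, _⟩ | ⟨h, _⟩ <;> omega
      exact_mod_cast this
    have hd := fourierCoeffOn_of_hasDerivAt_Ioo (f := fun x => (f x : ℂ))
      (f' := fun x => (f' x : ℂ)) hlt hn0
      (by
        rw [uIcc_of_le hlt.le]
        exact Complex.continuous_ofReal.comp_continuousOn hf)
      (by
        intro x hx
        rw [min_eq_left hlt.le, max_eq_right hlt.le] at hx
        exact (hff' x hx).ofReal_comp)
      (by
        apply ContinuousOn.intervalIntegrable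
        rw [uIcc_of_le hlt.le]
        exact Complex.continuous_ofReal.comp_continuousOn hf')
    rw [hd, hper, sub_self, mul_zero, zero_sub, norm_mul, norm_neg, norm_mul]
    have e1 : ‖(1 / (-2 * (π : ℂ) * Complex.I * (n : ℂ)))‖ = 1 / (2 * π * |(n : ℝ)|) := by
      rw [norm_div, norm_one, norm_mul, norm_mul, norm_mul, norm_neg, Complex.norm_I,
        Complex.norm_real, Complex.norm_intCast, Real.norm_eq_abs, abs_of_pos hpi]
      norm_num
    have e2 : ‖((d : ℂ) - (c : ℂ))‖ = 4 * π := by
      rw [← Complex.ofReal_sub, hdc, Complex.norm_real, Real.norm_eq_abs, abs_of_pos (by positivity)]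
    rw [e1, e2]
    have hnn := norm_nonneg (fourierCoeffOn hlt (fun x => (f' x : ℂ)) n)
    have hfac : 1 / (2 * π * |(n : ℝ)|) * (4 * π) ≤ 1 := by
      rw [div_mul_eq_mul_div, one_mul, div_le_one (by positivity)]
      nlinarith
    have hfac0 : 0 ≤ 1 / (2 * π * |(n : ℝ)|) * (4 * π) := by positivity
    rw [← mul_assoc]
    apply pow_le_pow_left₀ (mul_nonneg hfac0 hnn)
    calc _ ≤ 1 * ‖fourierCoeffOn hlt (fun x => (f' x : ℂ)) n‖ :=
          mul_le_mul_of_nonneg_right hfac hnn
      _ = _ := one_mul _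
  have hfin := hasSum_le hle s1 s2
  rw [smul_eq_mul, smul_eq_mul] at hfin
  have hpos : 0 < (d - c)⁻¹ := inv_pos.mpr (by linarith)
  have h3 := le_of_mul_le_mul_left hfin hpos
  have e1 : (∫ x in c..d, ‖((f x : ℝ) : ℂ)‖ ^ 2) = ∫ x in c..d, f x ^ 2 := by
    apply intervalIntegral.integral_congr
    intro x _
    simp only [Complex.norm_real, Real.norm_eq_abs, sq_abs]
  have e2 : (∫ x in c..d, ‖((f' x : ℝ) : ℂ)‖ ^ 2) = ∫ x in c..d, f' x ^ 2 := by
    apply intervalIntegral.integral_congr
    intro x _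
    simp only [Complex.norm_real, Real.norm_eq_abs, sq_abs]
  rw [e1, e2] at h3
  exact h3

end AA14
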