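import Pool.Agent.Work.MP_aa14e2_an.Shear

/-!
# Module Swap  (measure theory, 60-120 lines; needs only `shear`)

PROOF. Put `G x t = if 0 < t ∧ x + t < g x then C x (x + t) else 0` (measurable: the condition is an open set, `C`
continuous; bounded: on the support `x+t ∈ [x, x+2π]`, `C` is continuous and invariant under the diagonal shift
by `2π`, so bounded on the strip `{x ≤ y ≤ x + 2π}`; replace `C` outside the strip by 0, only the values on the
support matter; periodic in `x` by `gp` and `hp`; support in `0 ≤ t ≤ 2π` by `g2`).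
For fixed `x`: `∫ t, G x t = ∫ y in x..g x, C x y` (substitution `y = x+t`, indicator of `(x, g x)`).
By `shear` with `c = 1`:  `= ∫ y in 0..2π, ∫ t, G (y - t) t`, and `G (y-t) t = C (y-t) y` if `0<t` and `y < g (y-t)`, i.e.
`k y < y - t`, and `0` otherwise; substitution `x = y - t` gives `∫ x in k y..y, C x y`.
-/

noncomputable section
open Real Set MeasureTheory
namespace Bil

private lemma swap_bound (C : ℝ → ℝ → ℝ) (hC : Continuous (Function.uncurry C))
    (hp : ∀ x y, C (x + 2 * π) (y + 2 * π) = C x y) :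
    ∃ B, ∀ x y, x ≤ y → y ≤ x + 2 * π → |C x y| ≤ B := by
  obtain ⟨B, hB⟩ := ((isCompact_Icc (a := (0:ℝ)) (b := 2 * π)).prod
    (isCompact_Icc (a := (0:ℝ)) (b := 4 * π))).exists_bound_of_continuousOn (f := Function.uncurry C)
    hC.continuousOn
  refine ⟨B, fun x y h1 h2 => ?_⟩
  have hper : Function.Periodic (fun s => C (x + s) (y + s)) (2 * π) := by
    intro s
    simp only
    rw [← add_assoc, ← add_assoc]
    exact hp _ _
  obtain ⟨s, hs, e⟩ := hper.exists_mem_Ico (by positivity : (0:ℝ) < 2 * π) 0 (-x)
  simp only [add_zero] at e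
  rw [e]
  exact hB (x + s, y + s) ⟨⟨by linarith [hs.1], by linarith [hs.2]⟩, ⟨by linarith [hs.1], by linarith [hs.2]⟩⟩

private lemma swap_ind (a : ℝ) (ha : 0 ≤ a) (f : ℝ → ℝ) (G : ℝ → ℝ) (h1 : ∀ t, 0 < t → t < a → G t = f t)
    (h2 : ∀ t, ¬ (0 < t ∧ t < a) → G t = 0) : ∫ t, G t = ∫ t in (0:ℝ)..a, f t := by
  have : G = indicator (Ioo 0 a) f := by
    funext t
    by_cases h : 0 < t ∧ t < a
    · rw [indicator_of_mem (show t ∈ Ioo 0 a from h), h1 t h.1 h.2]
    · rw [indicator_of_notMem (show t ∉ Ioo 0 a from h), h2 t h]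
  rw [this, integral_indicator measurableSet_Ioo, ← integral_Ioc_eq_integral_Ioo,
    ← intervalIntegral.integral_of_le ha]

theorem swap {g k : ℝ → ℝ} (gm : StrictMono g) (gc : Continuous g) (gp : ∀ x, g (x + 2 * π) = g x + 2 * π)
    (g1 : ∀ x, x ≤ g x) (g2 : ∀ x, g x ≤ x + 2 * π) (kg : ∀ x, k (g x) = x) (gk : ∀ x, g (k x) = x)
    (C : ℝ → ℝ → ℝ) (hC : Continuous (Function.uncurry C)) (hp : ∀ x y, C (x + 2 * π) (y + 2 * π) = C x y) :
    ∫ x in (0:ℝ)..(2 * π), ∫ y in x..g x, C x y = ∫ y in (0:ℝ)..(2 * π), ∫ x in k y..y, C x y := by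
  classical
  set G : ℝ → ℝ → ℝ := fun x t => if 0 < t ∧ x + t < g x then C x (x + t) else 0 with hG
  have hmeas : Measurable (Function.uncurry G) := by
    have hset : MeasurableSet {z : ℝ × ℝ | 0 < z.2 ∧ z.1 + z.2 < g z.1} :=
      ((isOpen_lt continuous_const continuous_snd).inter
        (isOpen_lt (continuous_fst.add continuous_snd) (gc.comp continuous_fst))).measurableSet
    have hcont : Measurable fun z : ℝ × ℝ => C z.1 (z.1 + z.2) := by
      have : Continuous fun z : ℝ × ℝ => Function.uncurry C (z.1, z.1 + z.2) := hC.comp (by fun_prop)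
      exact this.measurable
    exact Measurable.ite hset hcont measurable_const
  have hbd : ∃ B, ∀ x t, |G x t| ≤ B := by
    obtain ⟨B, hB⟩ := swap_bound C hC hp
    refine ⟨B, fun x t => ?_⟩
    have hB0 : 0 ≤ B := (abs_nonneg _).trans (hB 0 0 le_rfl (by positivity))
    simp only [hG]
    split_ifs with h
    · exact hB _ _ (by linarith [h.1]) (by linarith [h.2, g2 x])
    · simpa using hB0
  have hper : ∀ x t, G (x + 2 * π) t = G x t := by
    intro x t
    simp only [hG]
    have e1 : x + 2 * π + t = (x + t) + 2 * π := by ring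
    rw [e1, gp, hp]
    simp only [add_lt_add_iff_right]
  have hsup : ∀ x t, G x t ≠ 0 → 0 ≤ t ∧ t ≤ 2 * π := by
    intro x t h
    simp only [hG] at h
    split_ifs at h with h'
    · exact ⟨h'.1.le, by linarith [h'.2, g2 x]⟩
    · exact absurd rfl h
  have hsh := shear G hmeas hbd hper hsup 1
  have hL : ∀ x, ∫ t, G x t = ∫ y in x..g x, C x y := by
    intro x
    rw [swap_ind (g x - x) (by linarith [g1 x]) (fun t => C x (x + t)) (G x) ?_ ?_]
    · rw [intervalIntegral.integral_comp_add_left (fun y => C x y) x]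
      simp
    · intro t h1 h2
      simp only [hG]
      rw [if_pos ⟨h1, by linarith⟩]
    · intro t h
      simp only [hG]
      rw [if_neg]
      intro h'
      exact h ⟨h'.1, by linarith [h'.2]⟩
  have hR : ∀ y, ∫ t, G (y - 1 * t) t = ∫ x in k y..y, C x y := by
    intro y
    have hky : k y ≤ y := by have := g1 (k y); rwa [gk] at this
    rw [swap_ind (y - k y) (by linarith) (fun t => C (y - t) y) (fun t => G (y - 1 * t) t) ?_ ?_]
    · rw [intervalIntegral.integral_comp_sub_left (fun x => C x y) y]
      simp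
    · intro t h1 h2
      simp only [hG]
      have e : y - 1 * t + t = y := by ring
      rw [e, one_mul, if_pos]
      refine ⟨h1, ?_⟩
      have h3 : k y < y - t := by linarith
      have := gm h3
      rwa [gk] at this
    · intro t h
      simp only [hG]
      have e : y - 1 * t + t = y := by ring
      rw [e, one_mul, if_neg]
      intro h'
      have h3 : k y < y - t := by
        have h4 := h'.2
        rw [← gk y] at h4
        rw [gk] at h4
        by_contra hcon
        push Not at hcon
        have := gm.monotone hcon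
        rw [gk] at this
        linarith
      exact h ⟨h'.1, by linarith⟩
  simp only [hL, hR] at hsh
  exact hsh

end Bil
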