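import Pool.Agent.Work.MP_aa14e2_an.TMap
import Pool.Agent.Work.MP_aa14e2_an.Swap

/-!
# Module MInv  (60-120 lines).  The definition `M` is FIXED.

The billiard map preserves the measure `dx dp` on the region `Reg P g`.

PROOF. `M_pair`: fix `x`; the function `y ↦ -s1 x y` has derivative `-s12 x y` (`s1_dy`) and maps `x ↦ h x`,
`g x ↦ f g x`.  Substitution (`intervalIntegral.integral_comp_mul_deriv`, continuity of everything):
`∫ y in x..g x, F (x, -s1 x y) * (-s12 x y) = ∫ p in h x..f g x, F (x,p)`, so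
`∫ y in x..g x, F (x,-s1 x y) * s12 x y = ∫ p in f g x..h x, F (x,p)`.
`M_pair'`: similarly for fixed `y`, with `x ↦ s2 x y` (derivative `s12 x y`) on `[k y, y]`, `k y ↦ s2 (k y) y = f g y`
(`f_g`), `y ↦ s2 y y = h y`.
`M_T`: apply `M_pair` to `F ∘ T` (continuous): for `x ≤ y ≤ g x`, `T (x, -s1 x y) = (y, s2 x y)` (`Y_s1`), so
`M (F∘T) = ∫ x in 0..2π, ∫ y in x..g x, F (y, s2 x y) * s12 x y` (congruence of interval integrals), by `swap`
(with `C x y = F (y, s2 x y) * s12 x y`, invariant under the diagonal shift by `hper`, `s2_shift`, `s12_shift`)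
`= ∫ y in 0..2π, ∫ x in k y..y, F (y, s2 x y) * s12 x y = M F` by `M_pair'`.
-/

noncomputable section
open Real Set MeasureTheory
namespace Bil

/-- integral over (a fundamental domain of) the region between the invariant curve of `g` and the boundary -/
def M (P : Supp) (g : ℝ → ℝ) (F : ℝ × ℝ → ℝ) : ℝ :=
  ∫ x in (0:ℝ)..(2 * π), ∫ p in (P.f g x)..(P.h x), F (x, p)

/-- inner substitution `p = -s1 x y` -/
private theorem inner_pair {P : Supp} {g : ℝ → ℝ} {F : ℝ × ℝ → ℝ} (hF : Continuous F)
    (x : ℝ) : ∫ p in (P.f g x)..(P.h x), F (x, p) = ∫ y in x..g x, F (x, - P.s1 x y) * P.s12 x y := by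
  have h := intervalIntegral.integral_comp_mul_deriv (a := x) (b := g x) (f := fun y => - P.s1 x y)
    (f' := fun y => - P.s12 x y) (g := fun p => F (x, p))
    (fun y _ => (P.s1_dy x y).neg)
    ((P.cs12.comp (by fun_prop : Continuous fun y : ℝ => (x, y))).neg.continuousOn)
    (by fun_prop)
  have e1 : - P.s1 x x = P.h x := by rw [P.s1_diag]; ring
  have e2 : - P.s1 x (g x) = P.f g x := rfl
  rw [e1, e2] at h
  rw [intervalIntegral.integral_symm, ← h, ← intervalIntegral.integral_neg]
  refine intervalIntegral.integral_congr fun y _ => ?_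
  show -(F (x, - P.s1 x y) * - P.s12 x y) = F (x, - P.s1 x y) * P.s12 x y
  ring

theorem M_pair {P : Supp} {g : ℝ → ℝ} (hg : IsCircle P g) {F : ℝ × ℝ → ℝ} (hF : Continuous F) :
    M P g F = ∫ x in (0:ℝ)..(2 * π), ∫ y in x..g x, F (x, - P.s1 x y) * P.s12 x y := by
  unfold M
  exact intervalIntegral.integral_congr fun x _ => inner_pair hF x

theorem M_pair' {P : Supp} {g k : ℝ → ℝ} (hg : IsCircle P g) (gk : ∀ x, g (k x) = x)
    {F : ℝ × ℝ → ℝ} (hF : Continuous F) :
    M P g F = ∫ y in (0:ℝ)..(2 * π), ∫ x in k y..y, F (y, P.s2 x y) * P.s12 x y := by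
  unfold M
  refine intervalIntegral.integral_congr fun y _ => ?_
  have h := intervalIntegral.integral_comp_mul_deriv (a := k y) (b := y) (f := fun x => P.s2 x y)
    (f' := fun x => P.s12 x y) (g := fun p => F (y, p))
    (fun x _ => P.s2_dx x y)
    ((P.cs12.comp (by fun_prop : Continuous fun x : ℝ => (x, y))).continuousOn)
    (by fun_prop)
  have e2 : P.s2 (k y) y = P.f g y := by
    have := f_g hg (k y)
    rw [gk] at this
    exact this.symm
  rw [e2, P.s2_diag] at h
  exact h.symm

theorem M_T {P : Supp} {g : ℝ → ℝ} (hg : IsCircle P g) {F : ℝ × ℝ → ℝ} (hF : Continuous F)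
    (hper : ∀ x p, F (x + 2 * π, p) = F (x, p)) : M P g (F ∘ P.T) = M P g F := by
  obtain ⟨k, -, -, kg, gk, -, -, -⟩ := exists_inv hg
  rw [M_pair hg (hF.comp (T_cont P)), M_pair' hg gk hF]
  rw [← swap hg.mono hg.cont hg.per (fun x => (hg.lt x).le) (fun x => (hg.lt2 x).le) kg gk
    (fun x y => F (y, P.s2 x y) * P.s12 x y)]
  · refine intervalIntegral.integral_congr fun x _ => ?_
    refine intervalIntegral.integral_congr fun y hy => ?_
    rw [uIcc_of_le (hg.lt x).le] at hy
    have hY := Y_s1 P x y hy.1 (hy.2.trans (hg.lt2 x).le)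
    simp only [Function.comp, Supp.T, hY]
  · have h1 : Continuous fun z : ℝ × ℝ => F (z.2, P.s2 z.1 z.2) := hF.comp (continuous_snd.prodMk P.cs2)
    exact h1.mul P.cs12
  · intro x y
    rw [hper, P.s2_shift, P.s12_shift]

theorem M_T_iter {P : Supp} {g : ℝ → ℝ} (hg : IsCircle P g) {F : ℝ × ℝ → ℝ} (hF : Continuous F)
    (hper : ∀ x p, F (x + 2 * π, p) = F (x, p)) (n : ℕ) : M P g (F ∘ P.T^[n]) = M P g F := by
  induction n with
  | zero => rfl
  | succ n ih =>
    have hcT : ∀ m : ℕ, Continuous (P.T^[m]) := fun m => (T_cont P).iterate m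
    have hpT : ∀ m : ℕ, ∀ x p, P.T^[m] (x + 2 * π, p) = ((P.T^[m] (x, p)).1 + 2 * π, (P.T^[m] (x, p)).2) := by
      intro m
      induction m with
      | zero => intro x p; rfl
      | succ m ihm =>
        intro x p
        rw [Function.iterate_succ_apply', Function.iterate_succ_apply', ihm]
        exact T_per P _ _
    rw [← ih]
    have : F ∘ P.T^[n+1] = (F ∘ P.T^[n]) ∘ P.T := by
      funext z
      simp only [Function.comp, Function.iterate_succ_apply]
    rw [this]
    refine M_T hg (hF.comp (hcT n)) fun x p => ?_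
    simp only [Function.comp]
    rw [hpT n, hper]

private theorem inner_cont {P : Supp} {g : ℝ → ℝ} (hg : IsCircle P g) {F : ℝ × ℝ → ℝ} (hF : Continuous F) :
    Continuous fun x => ∫ p in (P.f g x)..(P.h x), F (x, p) := by
  have hf := f_cont hg
  have hc := P.c0
  have h1 : Continuous fun x : ℝ => ∫ p in (0:ℝ)..(P.h x), F (x, p) :=
    intervalIntegral.continuous_parametric_intervalIntegral_of_continuous (by fun_prop) hc
  have h2 : Continuous fun x : ℝ => ∫ p in (0:ℝ)..(P.f g x), F (x, p) :=
    intervalIntegral.continuous_parametric_intervalIntegral_of_continuous (by fun_prop) hf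
  refine (h1.sub h2).congr fun x => ?_
  have hFx : Continuous fun p => F (x, p) := by fun_prop
  exact intervalIntegral.integral_interval_sub_left (hFx.intervalIntegrable _ _) (hFx.intervalIntegrable _ _)

/-- monotonicity and linearity of `M` -/
theorem M_mono {P : Supp} {g : ℝ → ℝ} (hg : IsCircle P g) {F G : ℝ × ℝ → ℝ} (hF : Continuous F)
    (hG : Continuous G) (h : ∀ z ∈ Reg P g, F z ≤ G z) : M P g F ≤ M P g G := by
  unfold M
  refine intervalIntegral.integral_mono_on (by positivity) ((inner_cont hg hF).intervalIntegrable _ _)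
    ((inner_cont hg hG).intervalIntegrable _ _) fun x _ => ?_
  have hFx : Continuous fun p => F (x, p) := by fun_prop
  have hGx : Continuous fun p => G (x, p) := by fun_prop
  refine intervalIntegral.integral_mono_on (f_lt hg x).2.le (hFx.intervalIntegrable _ _)
    (hGx.intervalIntegrable _ _) fun p hp => h (x, p) ⟨hp.1, hp.2⟩

theorem M_add {P : Supp} {g : ℝ → ℝ} (hg : IsCircle P g) {F G : ℝ × ℝ → ℝ} (hF : Continuous F)
    (hG : Continuous G) : M P g (fun z => F z + G z) = M P g F + M P g G := by
  unfold M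
  rw [← intervalIntegral.integral_add ((inner_cont hg hF).intervalIntegrable _ _)
    ((inner_cont hg hG).intervalIntegrable _ _)]
  refine intervalIntegral.integral_congr fun x _ => ?_
  have hFx : Continuous fun p => F (x, p) := by fun_prop
  have hGx : Continuous fun p => G (x, p) := by fun_prop
  exact intervalIntegral.integral_add (hFx.intervalIntegrable _ _) (hGx.intervalIntegrable _ _)

theorem M_smul {P : Supp} {g : ℝ → ℝ} (c : ℝ) (F : ℝ × ℝ → ℝ) : M P g (fun z => c * F z) = c * M P g F := by
  unfold M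
  simp only [intervalIntegral.integral_const_mul]

end Bil
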