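import Pool.Agent.Work.MP_aa14e2_an.Analytic
import Pool.Agent.Work.MP_aa14e2_an.GeoAng
import Pool.Agent.Work.MP_aa14e2_an.GeoCross
import Pool.Agent.Work.MP_aa14e2_an.GeoMather
import Pool.Agent.Work.MP_aa14e2_an.GeoSupp
import Pool.Agent.Work.MP_aa14e2_an.GeoToRat
import Pool.Agent.Work.MP_aa14e2_an.GeoEllipse

/-! # assembly -/

noncomputable section
open Real Complex
namespace Bil

/-- Rotational invariant circles for all rationals in `(0,1/3]` force an ellipse. -/
theorem main (T : Table)
    (h : ∀ p q : ℕ, 0 < p → Nat.Coprime p q → 3 * p ≤ q → T.HasRationalCircle p q) :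
    IsEllipse (Set.range T.γ) := by
  obtain ⟨A⟩ := exists_ang T
  obtain ⟨G, hG⟩ := exists_scircle A (by norm_num) (h 1 3 (by norm_num) (by norm_num) (by norm_num))
  obtain ⟨P, hP⟩ := exists_supp A (mather hG)
  have hF : Fam P := by
    intro p q hp hq hc
    obtain ⟨G', hG'⟩ := exists_scircle A (by omega) (h p q hp hc hq)
    exact to_rat hP hG'
  obtain ⟨b1, b2, a, b, c, hh⟩ := analytic P hF
  exact ellipse_of hP hh

/-- **Q1**: rotational invariant circles of all rational rotation numbers in `(0,1/2)` force an ellipse. -/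
theorem q1 (T : Table) (h : ∀ p q : ℕ, 0 < p → Nat.Coprime p q → 2 * p < q → T.HasRationalCircle p q) :
    IsEllipse (Set.range T.γ) :=
  main T fun p q hp hc hq => h p q hp hc (by omega)

end Bil
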