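import Mathlib

/-!
# Module Shear  (measure theory, Mathlib only, 60-120 lines)

PROOF. All integrals over `t` are over the bounded set `[0,2π]` (`hs`), the function is bounded and measurable, so it
is integrable on `(0,2π] × ℝ`.  Swap (Fubini, `MeasureTheory.integral_integral_swap` on
`volume.restrict (Ioc 0 (2π))` and `volume`, or `.restrict (Icc 0 (2π))`):
LHS `= ∫ t, ∫ x in 0..2π, G x t`,  RHS `= ∫ t, ∫ x in 0..2π, G (x - c t) t`.
For fixed `t`: `∫ x in 0..2π, G (x - c t) t = ∫ x in (-c t)..(2π - c t), G x t` (`intervalIntegral.integral_comp_sub_right`)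
`= ∫ x in 0..2π, G x t` by periodicity (`Function.Periodic.intervalIntegral_add_eq`).
-/

noncomputable section
open Real Set MeasureTheory
namespace Bil

private lemma shear_integrable (G : ℝ → ℝ → ℝ) (hm : Measurable (Function.uncurry G)) (hb : ∃ C, ∀ x t, |G x t| ≤ C)
    (hs : ∀ x t, G x t ≠ 0 → 0 ≤ t ∧ t ≤ 2 * π) :
    Integrable (Function.uncurry G) ((volume.restrict (Ioc (0:ℝ) (2 * π))).prod volume) := by
  obtain ⟨C, hC⟩ := hb
  have hC0 : 0 ≤ C := (abs_nonneg _).trans (hC 0 0)
  have hind : Function.uncurry G = indicator (univ ×ˢ Icc (0:ℝ) (2 * π)) (Function.uncurry G) := by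
    funext z
    obtain ⟨x, t⟩ := z
    by_cases h : G x t = 0
    · simp [indicator, Function.uncurry, h]
    · have := hs x t h
      rw [indicator_of_mem]
      exact ⟨mem_univ _, this⟩
  rw [hind]
  rw [integrable_indicator_iff (MeasurableSet.univ.prod measurableSet_Icc)]
  refine Measure.integrableOn_of_bounded (M := C) ?_ hm.aestronglyMeasurable ?_
  · rw [Measure.prod_prod]
    simp only [Measure.restrict_apply_univ, Real.volume_Ioc, Real.volume_Icc]
    exact (ENNReal.mul_lt_top ENNReal.ofReal_lt_top ENNReal.ofReal_lt_top).ne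
  · exact Filter.Eventually.of_forall fun z => hC z.1 z.2

theorem shear (G : ℝ → ℝ → ℝ) (hm : Measurable (Function.uncurry G)) (hb : ∃ C, ∀ x t, |G x t| ≤ C)
    (hp : ∀ x t, G (x + 2 * π) t = G x t) (hs : ∀ x t, G x t ≠ 0 → 0 ≤ t ∧ t ≤ 2 * π) (c : ℝ) :
    ∫ x in (0:ℝ)..(2 * π), ∫ t, G x t = ∫ x in (0:ℝ)..(2 * π), ∫ t, G (x - c * t) t := by
  have hpi : (0:ℝ) ≤ 2 * π := by positivity
  have h1 := shear_integrable G hm hb hs
  have h2 : Integrable (Function.uncurry fun x t => G (x - c * t) t)
      ((volume.restrict (Ioc (0:ℝ) (2 * π))).prod volume) := by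
    refine shear_integrable _ ?_ ?_ ?_
    · have : Measurable fun z : ℝ × ℝ => (z.1 - c * z.2, z.2) := by fun_prop
      exact hm.comp this
    · obtain ⟨C, hC⟩ := hb
      exact ⟨C, fun x t => hC _ _⟩
    · intro x t h
      exact hs _ _ h
  rw [intervalIntegral.integral_of_le hpi, intervalIntegral.integral_of_le hpi]
  rw [integral_integral_swap h1, integral_integral_swap h2]
  refine integral_congr_ae (Filter.Eventually.of_forall fun t => ?_)
  simp only
  rw [← intervalIntegral.integral_of_le hpi, ← intervalIntegral.integral_of_le hpi]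
  have h3 := intervalIntegral.integral_comp_sub_right (a := 0) (b := 2 * π) (fun x => G x t) (c * t)
  rw [h3]
  have hper : Function.Periodic (fun x => G x t) (2 * π) := fun x => hp x t
  have h4 := hper.intervalIntegral_add_eq 0 (0 - c * t)
  rw [zero_add] at h4
  rw [h4]
  congr 1
  ring

end Bil
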