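import Pool.Agent.Work.MP_aa14e2_an.YMap
import Pool.Agent.Work.MP_aa14e2_an.FProps

/-!
# Module TMap  (elementary, 80-150 lines).  The definitions `Supp.Y`, `Supp.T`, `Reg` are FIXED.

The billiard map `T` on lines `z = (x, p)` (`x` = normal angle, `p` = signed distance to the origin).
`Reg P g` = the closed region between the invariant curve `p = f g x` and the boundary `p = h x`
(it consists of the lines with incidence angles between `0` and that of the curve).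

PROOFS.  `Y_*`: from the choice.  `T_graph`: `Y x (f g x) = Y x (-s1 x (g x)) = g x`, second component `f_g`.
`T_top`: `Y x (h x) = Y x (-s1 x x) = x` and `s2 x x = h x`.
`Y_le` (Y is antitone in `p` on the range): if `-h(x+π) ≤ p ≤ p' ≤ h x` then `Y x p' ≤ Y x p` because `s1 x ·` is
strictly increasing and `s1 x (Y x p) = -p`.
`T_reg`: let `z=(x,p) ∈ Reg`, `y = Y x p`; by antitonicity `x = Y x (h x) ≤ y ≤ Y x (f g x) = g x`.  With `k` the
inverse of `g`: `k y ≤ x ≤ y`, and `s2 · y` is increasing on `[y-2π,y]`, so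
`f g y = s2 (k y) y ≤ s2 x y ≤ s2 y y = h y`.
`T_ord` (twist, quantitative): if `z = (x,p)`, `p + η ≤ P.f g x`, `-h (x+π) ≤ p`, then `g x + η/C ≤ Y x p` where `C` is a bound of
`|s12|`: `η ≤ f g x - p = s1 x (Y x p) - s1 x (g x) = ∫ s12 ≤ C (Y x p - g x)` (mean value).
`T_ord'`: if `P.f g x + η ≤ p ≤ h x` then `Y x p + η/C ≤ g x`.
`T_above`: if `f g x ≤ p ≤ h x` then the image satisfies `f g y ≤ p'` (this is `T_reg`).
`T_below`: if `-h(x+π) ≤ p ≤ f g x` then with `y = Y x p`, `p' = s2 x y` one has `p' ≤ f g y`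
 (as `g x ≤ y`, `x ≤ k y`, `s2 x y ≤ s2 (k y) y = f g y`), and `-h (y+π) ≤ p'` because
 `s2 x y ≥ s2 (y-2π) y = -h (y-π) = - h (y+π)`.
-/

noncomputable section
open Real Set
namespace Bil

/-- normal angle of the reflected line -/
def Supp.Y (P : Supp) : ℝ → ℝ → ℝ := (exists_Y P).choose

/-- billiard map in coordinates (normal angle, signed distance) -/
def Supp.T (P : Supp) (z : ℝ × ℝ) : ℝ × ℝ := (P.Y z.1 z.2, P.s2 z.1 (P.Y z.1 z.2))

/-- closed region between the boundary of phase space and the invariant curve of `g` -/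
def Reg (P : Supp) (g : ℝ → ℝ) : Set (ℝ × ℝ) := {z | P.f g z.1 ≤ z.2 ∧ z.2 ≤ P.h z.1}

theorem Y_cont (P : Supp) : Continuous (fun z : ℝ × ℝ => P.Y z.1 z.2) := (exists_Y P).choose_spec.1
theorem Y_bd (P : Supp) (x p : ℝ) : x ≤ P.Y x p ∧ P.Y x p ≤ x + 2 * π := (exists_Y P).choose_spec.2.1 x p
theorem Y_s1 (P : Supp) (x y : ℝ) (h : x ≤ y) (h' : y ≤ x + 2 * π) : P.Y x (- P.s1 x y) = y :=
  (exists_Y P).choose_spec.2.2.1 x y h h'
theorem Y_per (P : Supp) (x p : ℝ) : P.Y (x + 2 * π) p = P.Y x p + 2 * π := (exists_Y P).choose_spec.2.2.2.1 x p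
theorem s1_Y (P : Supp) (x p : ℝ) (h : - P.h (x + π) ≤ p) (h' : p ≤ P.h x) : P.s1 x (P.Y x p) = - p :=
  (exists_Y P).choose_spec.2.2.2.2 x p h h'

theorem T_cont (P : Supp) : Continuous P.T := by
  have h := Y_cont P
  have h2 : Continuous fun z : ℝ × ℝ => P.s2 z.1 (P.Y z.1 z.2) :=
    P.cs2.comp (continuous_fst.prodMk h)
  exact h.prodMk h2

theorem T_per (P : Supp) (x p : ℝ) : P.T (x + 2 * π, p) = ((P.T (x, p)).1 + 2 * π, (P.T (x, p)).2) := by
  simp only [Supp.T, Y_per, Supp.s2_shift]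

theorem T_graph {P : Supp} {g : ℝ → ℝ} (hg : IsCircle P g) (x : ℝ) : P.T (x, P.f g x) = (g x, P.f g (g x)) := by
  have e : P.Y x (P.f g x) = g x := Y_s1 P x (g x) (hg.lt x).le (hg.lt2 x).le
  simp only [Supp.T, e, f_g hg]

theorem T_top (P : Supp) (x : ℝ) : P.T (x, P.h x) = (x, P.h x) := by
  have e : P.Y x (P.h x) = x := by
    have h := Y_s1 P x x le_rfl (by linarith [Real.two_pi_pos])
    rwa [P.s1_diag, neg_neg] at h
  simp only [Supp.T, e, P.s2_diag]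

private theorem tm_Yh (P : Supp) (x : ℝ) : P.Y x (P.h x) = x := by
  have h := T_top P x
  exact congrArg Prod.fst h

private theorem tm_Yf {P : Supp} {g : ℝ → ℝ} (hg : IsCircle P g) (x : ℝ) : P.Y x (P.f g x) = g x := by
  have h := T_graph hg x
  exact congrArg Prod.fst h

theorem Y_le (P : Supp) {x p p' : ℝ} (h1 : - P.h (x + π) ≤ p) (h2 : p ≤ p') (h3 : p' ≤ P.h x) :
    P.Y x p' ≤ P.Y x p := by
  have e1 := s1_Y P x p h1 (h2.trans h3)
  have e2 := s1_Y P x p' (h1.trans h2) h3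
  obtain ⟨b1, b2⟩ := Y_bd P x p
  obtain ⟨b3, b4⟩ := Y_bd P x p'
  refine ((P.s1_mono x).le_iff_le ⟨b3, b4⟩ ⟨b1, b2⟩).1 ?_
  rw [e1, e2]
  linarith

theorem T_reg {P : Supp} {g : ℝ → ℝ} (hg : IsCircle P g) {z : ℝ × ℝ} (hz : z ∈ Reg P g) : P.T z ∈ Reg P g := by
  obtain ⟨x, p⟩ := z
  obtain ⟨h1, h2⟩ := hz
  simp only at h1 h2
  obtain ⟨k, hk1, -, hk2, hk3, -, hk4, hk5⟩ := exists_inv hg
  have hlow := (f_lt hg x).1
  have y1 : x ≤ P.Y x p := (Y_bd P x p).1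
  have y2 : P.Y x p ≤ g x := by
    have := Y_le P (x := x) hlow.le h1 h2
    rwa [tm_Yf hg] at this
  have k1 : k (P.Y x p) ≤ x := by
    have := hk1.monotone y2
    rwa [hk2] at this
  have e : P.f g (P.Y x p) = P.s2 (k (P.Y x p)) (P.Y x p) := by
    have := f_g hg (k (P.Y x p))
    rwa [hk3] at this
  have hb := hk5 (P.Y x p)
  show P.f g (P.Y x p) ≤ P.s2 x (P.Y x p) ∧ P.s2 x (P.Y x p) ≤ P.h (P.Y x p)
  constructor
  · rw [e]
    exact (P.s2_mono (P.Y x p)).monotoneOn ⟨hb.le, (k1.trans y1)⟩ ⟨by linarith, y1⟩ k1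
  · rw [← P.s2_diag (P.Y x p)]
    exact (P.s2_mono (P.Y x p)).monotoneOn ⟨by linarith, y1⟩ ⟨by linarith [Real.two_pi_pos], le_rfl⟩ y1

/-- `Y` lies between `x` and `g x` on the region -/
theorem Y_reg {P : Supp} {g : ℝ → ℝ} (hg : IsCircle P g) {z : ℝ × ℝ} (hz : z ∈ Reg P g) :
    z.1 ≤ (P.T z).1 ∧ (P.T z).1 ≤ g z.1 := by
  obtain ⟨x, p⟩ := z
  obtain ⟨h1, h2⟩ := hz
  simp only at h1 h2
  refine ⟨(Y_bd P x p).1, ?_⟩
  have := Y_le P (x := x) (f_lt hg x).1.le h1 h2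
  rwa [tm_Yf hg] at this

theorem T_below {P : Supp} {g : ℝ → ℝ} (hg : IsCircle P g) {z : ℝ × ℝ} (h1 : - P.h (z.1 + π) ≤ z.2)
    (h2 : z.2 ≤ P.f g z.1) : - P.h ((P.T z).1 + π) ≤ (P.T z).2 ∧ (P.T z).2 ≤ P.f g (P.T z).1 ∧
      g z.1 ≤ (P.T z).1 := by
  obtain ⟨x, p⟩ := z
  simp only at h1 h2
  obtain ⟨k, hk1, -, hk2, hk3, -, hk4, hk5⟩ := exists_inv hg
  have htop := (f_lt hg x).2
  obtain ⟨y1, y1'⟩ := Y_bd P x p
  have y2 : g x ≤ P.Y x p := by
    have := Y_le P (x := x) h1 h2 htop.le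
    rwa [tm_Yf hg] at this
  have k1 : x ≤ k (P.Y x p) := by
    have := hk1.monotone y2
    rwa [hk2] at this
  have k2 := hk4 (P.Y x p)
  have e : P.f g (P.Y x p) = P.s2 (k (P.Y x p)) (P.Y x p) := by
    have := f_g hg (k (P.Y x p))
    rwa [hk3] at this
  have hb := hk5 (P.Y x p)
  show - P.h (P.Y x p + π) ≤ P.s2 x (P.Y x p) ∧ P.s2 x (P.Y x p) ≤ P.f g (P.Y x p) ∧ g x ≤ P.Y x p
  refine ⟨?_, ?_, y2⟩
  · have e1 : P.h (P.Y x p + π) = P.h (P.Y x p - π) := by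
      have := P.per (P.Y x p - π)
      rw [show P.Y x p - π + 2 * π = P.Y x p + π by ring] at this
      exact this
    rw [e1, ← P.s2_end (P.Y x p)]
    exact (P.s2_mono (P.Y x p)).monotoneOn ⟨le_rfl, by linarith [Real.two_pi_pos]⟩ ⟨by linarith, y1⟩ (by linarith)
  · rw [e]
    exact (P.s2_mono (P.Y x p)).monotoneOn ⟨by linarith, y1⟩ ⟨hb.le, k2.le⟩ k1

private theorem tm_lip {P : Supp} {C : ℝ} (hC : ∀ x y, |P.s12 x y| ≤ C) (x y y' : ℝ) (h : y ≤ y') :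
    P.s1 x y' - P.s1 x y ≤ C * (y' - y) := by
  have h1 := Convex.norm_image_sub_le_of_norm_hasDerivWithin_le (f := fun y => P.s1 x y)
    (f' := fun y => P.s12 x y) (s := Set.univ) (C := C)
    (fun y _ => (P.s1_dy x y).hasDerivWithinAt) (fun y _ => by
      rw [Real.norm_eq_abs]
      exact hC x y) convex_univ (mem_univ y) (mem_univ y')
  rw [Real.norm_eq_abs, Real.norm_eq_abs, abs_of_nonneg (sub_nonneg.2 h)] at h1
  exact (le_abs_self _).trans h1

theorem T_ord (P : Supp) : ∃ C, 0 < C ∧ ∀ g, IsCircle P g → ∀ (z : ℝ × ℝ) (η : ℝ), 0 ≤ η →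
    (- P.h (z.1 + π) ≤ z.2 → z.2 + η ≤ P.f g z.1 → g z.1 + η / C ≤ (P.T z).1) ∧
    (P.f g z.1 + η ≤ z.2 → z.2 ≤ P.h z.1 → (P.T z).1 + η / C ≤ g z.1) := by
  obtain ⟨C, hC0, hC⟩ := P.bound
  have hC12 : ∀ x y, |P.s12 x y| ≤ C := fun x y => (hC x y).2.2.2.1
  refine ⟨C, hC0, ?_⟩
  rintro g hg ⟨x, p⟩ η hη
  have ef : P.f g x = - P.s1 x (g x) := rfl
  constructor
  · intro h1 h2
    simp only at h1 h2
    have htop := (f_lt hg x).2
    have y2 : g x ≤ P.Y x p := by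
      have := Y_le P (x := x) h1 (by linarith : p ≤ P.f g x) htop.le
      rwa [tm_Yf hg] at this
    have e1 := s1_Y P x p h1 (by linarith)
    have := tm_lip hC12 x _ _ y2
    show g x + η / C ≤ P.Y x p
    have h3 : η ≤ C * (P.Y x p - g x) := by
      rw [e1] at this
      linarith
    have h4 : η / C ≤ P.Y x p - g x := by
      rw [div_le_iff₀ hC0]
      linarith
    linarith
  · intro h1 h2
    simp only at h1 h2
    have hlow := (f_lt hg x).1
    have y2 : P.Y x p ≤ g x := by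
      have := Y_le P (x := x) hlow.le (by linarith : P.f g x ≤ p) h2
      rwa [tm_Yf hg] at this
    have e1 := s1_Y P x p (by linarith) h2
    have := tm_lip hC12 x _ _ y2
    show P.Y x p + η / C ≤ g x
    have h3 : η ≤ C * (g x - P.Y x p) := by
      rw [e1] at this
      linarith
    have h4 : η / C ≤ g x - P.Y x p := by
      rw [div_le_iff₀ hC0]
      linarith
    linarith

/-- strict advance away from the boundary: `x + η/C ≤ Y x p` if `p + η ≤ h x` -/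
theorem T_adv (P : Supp) : ∃ C, 0 < C ∧ ∀ (z : ℝ × ℝ) (η : ℝ), 0 ≤ η → - P.h (z.1 + π) ≤ z.2 →
    z.2 + η ≤ P.h z.1 → z.1 + η / C ≤ (P.T z).1 := by
  obtain ⟨C, hC0, hC⟩ := P.bound
  have hC12 : ∀ x y, |P.s12 x y| ≤ C := fun x y => (hC x y).2.2.2.1
  refine ⟨C, hC0, ?_⟩
  rintro ⟨x, p⟩ η hη h1 h2
  simp only at h1 h2
  have e1 := s1_Y P x p h1 (by linarith)
  have y1 := (Y_bd P x p).1
  have := tm_lip hC12 x _ _ y1
  rw [e1, P.s1_diag] at this
  show x + η / C ≤ P.Y x p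
  have h3 : η ≤ C * (P.Y x p - x) := by linarith
  have h4 : η / C ≤ P.Y x p - x := by
    rw [div_le_iff₀ hC0]
    linarith
  linarith

end Bil
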