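import Pool.Agent.Work.MP_aa14e2_an.Basic

/-!
# Module YMap

`Y x p` = normal angle of the reflected line of the line `(x,p)`.

Proof: `F x y = - s1 x (cl x y) + (cl x y - y)` (`cl` = projection of `y` to `[x,x+2π]`) is continuous and strictly
decreasing in `y`, from `+∞` to `-∞`; `Z x p` is the solution of `F x y = p`, it depends continuously on `(x,p)`, and
`Y x p = cl x (Z x p)`.
-/

noncomputable section
open Real Set
namespace Bil

private def ymCl (x y : ℝ) : ℝ := max x (min y (x + 2 * π))

private def ymF (P : Supp) (x y : ℝ) : ℝ := - P.s1 x (ymCl x y) + (ymCl x y - y)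

private lemma ymCl_mem (x y : ℝ) : x ≤ ymCl x y ∧ ymCl x y ≤ x + 2 * π :=
  ⟨le_max_left _ _, max_le (by linarith [pi_pos]) (min_le_right _ _)⟩

private lemma ymCl_of {x y : ℝ} (h1 : x ≤ y) (h2 : y ≤ x + 2 * π) : ymCl x y = y := by
  unfold ymCl
  rw [min_eq_left h2, max_eq_right h1]

private lemma ymCl_lo {x y : ℝ} (h : y ≤ x) : ymCl x y = x := by
  unfold ymCl
  rw [min_eq_left (by linarith [pi_pos]), max_eq_left h]

private lemma ymCl_hi {x y : ℝ} (h : x + 2 * π ≤ y) : ymCl x y = x + 2 * π := by
  unfold ymCl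
  rw [min_eq_right h, max_eq_right (by linarith [pi_pos])]

private lemma ymCl_shift (x y : ℝ) : ymCl (x + 2 * π) (y + 2 * π) = ymCl x y + 2 * π := by
  unfold ymCl
  rw [min_add_add_right, max_add_add_right]

private lemma ymCl_cont : Continuous fun z : ℝ × ℝ => ymCl z.1 z.2 := by
  unfold ymCl
  fun_prop

private lemma ymF_cont (P : Supp) : Continuous fun z : ℝ × ℝ => ymF P z.1 z.2 := by
  unfold ymF
  have h1 : Continuous fun z : ℝ × ℝ => P.s1 z.1 (ymCl z.1 z.2) :=
    P.cs1.comp (continuous_fst.prodMk ymCl_cont)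
  exact h1.neg.add (ymCl_cont.sub continuous_snd)

private lemma ymF_anti (P : Supp) (x : ℝ) : StrictAnti (ymF P x) := by
  intro y y' h
  have hc : ymCl x y ≤ ymCl x y' := max_le_max le_rfl (min_le_min_right _ h.le)
  have hl : ymCl x y' - y' ≤ ymCl x y - y := by
    unfold ymCl
    rcases le_total y x with h1 | h1
    · rw [min_eq_left (by linarith [pi_pos] : y ≤ x + 2 * π), max_eq_left h1]
      rcases le_total y' x with h2 | h2
      · rw [min_eq_left (by linarith [pi_pos] : y' ≤ x + 2 * π), max_eq_left h2]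
        linarith
      · rcases le_total y' (x + 2 * π) with h3 | h3
        · rw [min_eq_left h3, max_eq_right h2]; linarith
        · rw [min_eq_right h3, max_eq_right (by linarith [pi_pos])]; linarith
    · rcases le_total y (x + 2 * π) with h2 | h2
      · rw [min_eq_left h2, max_eq_right h1]
        rcases le_total y' (x + 2 * π) with h3 | h3
        · rw [min_eq_left h3, max_eq_right (by linarith)]; linarith
        · rw [min_eq_right h3, max_eq_right (by linarith [pi_pos])]; linarith
      · have e1 : max x (min y (x + 2 * π)) = x + 2 * π := by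
          rw [min_eq_right h2, max_eq_right (by linarith [pi_pos])]
        have e2 : max x (min y' (x + 2 * π)) = x + 2 * π := by
          rw [min_eq_right (by linarith), max_eq_right (by linarith [pi_pos])]
        rw [e1, e2]
        linarith
  unfold ymF
  rcases hc.lt_or_eq with h1 | h1
  · have := P.s1_mono x (ymCl_mem x y) (ymCl_mem x y') h1
    simp only at this
    linarith
  · rw [h1]
    linarith

private lemma ymF_surj (P : Supp) (x p : ℝ) : ∃ y, ymF P x y = p := by
  have hc : Continuous (ymF P x) := (ymF_cont P).comp (continuous_const.prodMk continuous_id)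
  have e1 : ymF P x (x - (|p| + |P.h x|)) = P.h x + (|p| + |P.h x|) := by
    unfold ymF
    rw [ymCl_lo (by linarith [abs_nonneg p, abs_nonneg (P.h x)]), P.s1_diag]
    ring
  have e2 : ymF P x (x + 2 * π + (|p| + |P.h (x + π)|)) = - P.h (x + π) - (|p| + |P.h (x + π)|) := by
    unfold ymF
    rw [ymCl_hi (by linarith [abs_nonneg p, abs_nonneg (P.h (x + π))]), P.s1_end]
    ring
  have h1 : p ≤ ymF P x (x - (|p| + |P.h x|)) := by
    rw [e1]
    have := neg_abs_le (P.h x)
    have := le_abs_self p
    linarith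
  have h2 : ymF P x (x + 2 * π + (|p| + |P.h (x + π)|)) ≤ p := by
    rw [e2]
    have := neg_abs_le (P.h (x + π))
    have := neg_abs_le p
    linarith
  have := mem_range_of_exists_le_of_exists_ge hc ⟨_, h2⟩ ⟨_, h1⟩
  exact this

theorem exists_Y (P : Supp) : ∃ Y : ℝ → ℝ → ℝ,
    Continuous (fun z : ℝ × ℝ => Y z.1 z.2) ∧
    (∀ x p, x ≤ Y x p ∧ Y x p ≤ x + 2 * π) ∧
    (∀ x y, x ≤ y → y ≤ x + 2 * π → Y x (- P.s1 x y) = y) ∧
    (∀ x p, Y (x + 2 * π) p = Y x p + 2 * π) ∧
    (∀ x p, - P.h (x + π) ≤ p → p ≤ P.h x → P.s1 x (Y x p) = - p) := by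
  choose Z hZ using ymF_surj P
  have hinj : ∀ x y y', ymF P x y = ymF P x y' → y = y' := fun x y y' h =>
    (ymF_anti P x).injective h
  have hZc : Continuous fun z : ℝ × ℝ => Z z.1 z.2 := by
    rw [continuous_iff_continuousAt]
    intro z
    rw [Metric.continuousAt_iff']
    intro ε hε
    have a1 : z.2 < ymF P z.1 (Z z.1 z.2 - ε) := by
      have := ymF_anti P z.1 (show Z z.1 z.2 - ε < Z z.1 z.2 by linarith)
      rwa [hZ] at this
    have a2 : ymF P z.1 (Z z.1 z.2 + ε) < z.2 := by
      have := ymF_anti P z.1 (show Z z.1 z.2 < Z z.1 z.2 + ε by linarith)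
      rwa [hZ] at this
    have c1 : Continuous fun w : ℝ × ℝ => ymF P w.1 (Z z.1 z.2 - ε) :=
      (ymF_cont P).comp (continuous_fst.prodMk continuous_const)
    have c2 : Continuous fun w : ℝ × ℝ => ymF P w.1 (Z z.1 z.2 + ε) :=
      (ymF_cont P).comp (continuous_fst.prodMk continuous_const)
    have o1 : ∀ᶠ w : ℝ × ℝ in nhds z, w.2 < ymF P w.1 (Z z.1 z.2 - ε) :=
      (isOpen_lt continuous_snd c1).mem_nhds a1
    have o2 : ∀ᶠ w : ℝ × ℝ in nhds z, ymF P w.1 (Z z.1 z.2 + ε) < w.2 :=
      (isOpen_lt c2 continuous_snd).mem_nhds a2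
    filter_upwards [o1, o2] with w h1 h2
    rw [Real.dist_eq, abs_lt]
    have e := hZ w.1 w.2
    constructor
    · by_contra hcon
      push Not at hcon
      have h3 : Z w.1 w.2 ≤ Z z.1 z.2 - ε := by linarith
      have := (ymF_anti P w.1).antitone h3
      rw [e] at this
      linarith
    · by_contra hcon
      push Not at hcon
      have h3 : Z z.1 z.2 + ε ≤ Z w.1 w.2 := by linarith
      have := (ymF_anti P w.1).antitone h3
      rw [e] at this
      linarith
  refine ⟨fun x p => ymCl x (Z x p), ?_, fun x p => ymCl_mem x _, ?_, ?_, ?_⟩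
  · exact ymCl_cont.comp (continuous_fst.prodMk hZc)
  · intro x y h1 h2
    have e : Z x (- P.s1 x y) = y := by
      apply hinj x
      rw [hZ]
      unfold ymF
      rw [ymCl_of h1 h2]
      ring
    simp only
    rw [e, ymCl_of h1 h2]
  · intro x p
    have e : Z (x + 2 * π) p = Z x p + 2 * π := by
      apply hinj (x + 2 * π)
      rw [hZ]
      have h1 := hZ x p
      unfold ymF at h1 ⊢
      rw [ymCl_shift, P.s1_shift]
      linarith
    simp only
    rw [e, ymCl_shift]
  · intro x p h1 h2
    have e := hZ x p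
    have g1 : x ≤ Z x p := by
      by_contra hcon
      push Not at hcon
      unfold ymF at e
      rw [ymCl_lo hcon.le, P.s1_diag] at e
      linarith
    have g2 : Z x p ≤ x + 2 * π := by
      by_contra hcon
      push Not at hcon
      unfold ymF at e
      rw [ymCl_hi hcon.le, P.s1_end] at e
      linarith
    unfold ymF at e
    rw [ymCl_of g1 g2] at e
    simp only
    rw [ymCl_of g1 g2]
    linarith

end Bil
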